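import Pool.Agent.MP_1a6d08_co.und.Rec

/-!
Row BLK: images of blocks, existence of blocks, placed blocks.
-/

open Set

namespace Pool.Agent.MP_1a6d08_co.Und

namespace BlkP

lemma dg_map {V V' : Type} {f : V → V'} {F : Set (Sym2 V)} {A : Set V} (hf : InjOn f A)
    (h : supp F ⊆ A) {x : V} (hx : x ∈ A) : dg (Sym2.map f '' F) (f x) = dg F x := by
  rw [dg, dg, ← ncard_map_on (F := {e | e ∈ F ∧ x ∈ e}) hf
    ((supp_mono fun _ he => he.1).trans h)]
  congr 1
  ext e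
  constructor
  · rintro ⟨⟨e, he, rfl⟩, hx'⟩
    obtain ⟨y, hy, hyx⟩ := Sym2.mem_map.1 hx'
    exact ⟨e, ⟨he, hf (h ⟨e, he, hy⟩) hx hyx ▸ hy⟩, rfl⟩
  · rintro ⟨e, ⟨he, hxe⟩, rfl⟩
    exact ⟨⟨e, he, rfl⟩, Sym2.mem_map.2 ⟨x, hxe, rfl⟩⟩

/-- The index ranges of the four families of edges. -/
def R (s t : ℕ) : Finset ℕ :=
  if t = 0 then Finset.range (mm s + 2) else if t = 1 then (Finset.range (mm s)).erase 0
  else Finset.range (mm s)

/-- The edge with family `t` and index `x`. -/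
def ed (s t x : ℕ) : Sym2 (ℕ × ℕ) :=
  if t = 0 then s((2, x % mm s), (if x < 9 * dd s then 0 else 1, x % 9))
  else s((2, x), (2, (x + t) % mm s))

/-- The edges of the template. -/
def TE (s : ℕ) : Finset (Sym2 (ℕ × ℕ)) :=
  (({0, 1, 3, 9} : Finset ℕ).sigma (R s)).image fun k => ed s k.1 k.2

lemma md (s x : ℕ) (h : x < 2 * mm s) :
    (x < mm s ∧ x % mm s = x) ∨ (mm s ≤ x ∧ x % mm s + mm s = x) := by
  rcases lt_or_ge x (mm s) with h1 | h1
  · exact Or.inl ⟨h1, Nat.mod_eq_of_lt h1⟩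
  · refine Or.inr ⟨h1, ?_⟩
    rw [Nat.mod_eq_sub_mod h1, Nat.mod_eq_of_lt (by omega)]
    omega

lemma R_lt {s t x : ℕ} (hx : x ∈ R s t) : x < mm s + 2 ∧ (t ≠ 0 → x < mm s) := by
  unfold R at hx
  split_ifs at hx with h1 h2
  · exact ⟨by simpa using hx, fun h => absurd h1 h⟩
  · simp only [Finset.mem_erase, Finset.mem_range] at hx
    omega
  · simp only [Finset.mem_range] at hx
    omega

lemma ed_inj (s : ℕ) : InjOn (fun k : (_ : ℕ) × ℕ => ed s k.1 k.2)
    (({0, 1, 3, 9} : Finset ℕ).sigma (R s) : Finset _) := by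
  rintro ⟨t, x⟩ h ⟨t', x'⟩ h' e
  simp only [Finset.coe_sigma, Set.mem_sigma_iff, Finset.mem_coe, Finset.mem_insert,
    Finset.mem_singleton] at h h'
  have a1 := R_lt h.2
  have a2 := R_lt h'.2
  have hm : mm s = 18 * s + 178 := rfl
  have hd : dd s = s + 9 := rfl
  have b1 := md s x (by omega)
  have b2 := md s x' (by omega)
  have b3 := md s (x + t) (by omega)
  have b4 := md s (x' + t') (by omega)
  have : t = t' ∧ x = x' := by
    simp only [ed] at e
    split_ifs at e <;> simp only [Sym2.eq_iff, Prod.mk.injEq] at e <;> omega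
  obtain ⟨rfl, rfl⟩ := this
  rfl

lemma cnt (s : ℕ) (p : Sym2 (ℕ × ℕ) → Prop) [DecidablePred p] :
    {e | e ∈ (TE s : Set (Sym2 (ℕ × ℕ))) ∧ p e}.ncard =
      ((Finset.range (mm s + 2)).filter fun x =>
        p s((2, x % mm s), (if x < 9 * dd s then 0 else 1, x % 9))).card +
      (((Finset.range (mm s)).erase 0).filter fun x => p s((2, x), (2, (x + 1) % mm s))).card +
      ((Finset.range (mm s)).filter fun x => p s((2, x), (2, (x + 3) % mm s))).card +
      ((Finset.range (mm s)).filter fun x => p s((2, x), (2, (x + 9) % mm s))).card := by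
  have : {e | e ∈ (TE s : Set (Sym2 (ℕ × ℕ))) ∧ p e} = ((TE s).filter p : Finset _) := by
    ext e; simp
  rw [this, ncard_coe_finset, TE, Finset.filter_image, Finset.card_image_of_injOn
    ((ed_inj s).mono (Finset.coe_subset.2 (Finset.filter_subset _ _))), Finset.filter_sigma,
    Finset.card_sigma, Finset.sum_insert (by simp), Finset.sum_insert (by simp),
    Finset.sum_insert (by simp), Finset.sum_singleton, ← add_assoc, ← add_assoc]
  rfl

lemma mem_TE {s : ℕ} {e : Sym2 (ℕ × ℕ)} (h : e ∈ (TE s : Set (Sym2 (ℕ × ℕ)))) :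
    (∃ x r, x < mm s + 2 ∧ (r = 0 ∨ r = 1) ∧ e = s((2, x % mm s), (r, x % 9))) ∨
      ∃ x t, x < mm s ∧ 0 < t ∧ t ≤ 9 ∧ e = s((2, x), (2, (x + t) % mm s)) := by
  obtain ⟨⟨t, x⟩, h1, rfl⟩ := Finset.mem_image.1 h
  simp only [Finset.mem_sigma, Finset.mem_insert, Finset.mem_singleton] at h1
  have a1 := R_lt h1.2
  by_cases ht : t = 0
  · refine Or.inl ⟨x, if x < 9 * dd s then 0 else 1, a1.1, ?_, by simp only [ed, if_pos ht]⟩
    split_ifs <;> simp
  · exact Or.inr ⟨x, t, a1.2 ht, by omega, by omega, by simp only [ed, if_neg ht]⟩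

/-- A nonempty proper set of residues is not closed under a shift by a divisor of nine. -/
lemma shift (s t u : ℕ) (htu : u * t = 9) (S : Finset ℕ) (hS : S ⊆ Finset.range (mm s))
    (hne : S.Nonempty) (hp : S ≠ Finset.range (mm s)) (q : ℕ → Prop) [DecidablePred q]
    (hq : ∀ x < mm s, q x → x ∈ S ∧ (x + t) % mm s ∈ S) :
    ((Finset.range (mm s)).filter q).card + 1 ≤ S.card := by
  refine Finset.card_lt_card ⟨fun x hx => ?_, fun hc => hp (hS.antisymm fun y hy => ?_)⟩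
  · rw [Finset.mem_filter, Finset.mem_range] at hx
    exact (hq x hx.1 hx.2).1
  have cl : ∀ n, ∀ x ∈ S, (x + n * t) % mm s ∈ S := by
    intro n x hx
    induction n with
    | zero => rwa [zero_mul, add_zero, Nat.mod_eq_of_lt (Finset.mem_range.1 (hS hx))]
    | succ n ih =>
      have h1 := Finset.mem_filter.1 (hc ih)
      have h2 := (hq _ (Finset.mem_range.1 h1.1) h1.2).2
      rwa [Nat.mod_add_mod, add_assoc, ← add_one_mul] at h2
  obtain ⟨x, hx⟩ := hne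
  have hx' := Finset.mem_range.1 (hS hx)
  have hy' := Finset.mem_range.1 hy
  obtain ⟨N, hN⟩ : ∃ N, x + N = y + mm s := ⟨y + mm s - x, by omega⟩
  have h3 := cl ((99 + 10 * s) * N * u) x hx
  have h4 : x + (99 + 10 * s) * N * u * t = y + mm s * (1 + 5 * N) := by
    rw [mul_assoc _ u t, htu]
    have : (99 + 10 * s) * N * 9 = N + mm s * (5 * N) := by rw [mm]; ring
    rw [this, mul_add, mul_one]
    omega
  rwa [h4, Nat.add_mul_mod_self_left, Nat.mod_eq_of_lt hy'] at h3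

lemma two (s t y : ℕ) (h0 : 0 < t) (h9 : t ≤ 9) (hy : y < mm s) (q : ℕ → Prop) [DecidablePred q]
    (hq : ∀ x, q x ↔ y = x ∨ y = (x + t) % mm s) :
    ((Finset.range (mm s)).filter q).card = 2 := by
  have hm : mm s = 18 * s + 178 := rfl
  refine Finset.card_eq_two.2 ⟨y, if t ≤ y then y - t else y + mm s - t, ?_, ?_⟩
  · split_ifs <;> omega
  · ext x
    simp only [Finset.mem_filter, Finset.mem_range, hq, Finset.mem_insert, Finset.mem_singleton]
    constructor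
    · rintro ⟨h1, h2⟩
      have := md s (x + t) (by omega)
      split_ifs <;> omega
    · intro h
      have h1 : x < mm s := by split_ifs at h <;> omega
      have := md s (x + t) (by omega)
      refine ⟨h1, ?_⟩
      split_ifs at h <;> omega

lemma card_role (r n : ℕ) : {t : ℕ × ℕ | t.1 = r ∧ t.2 < n}.ncard = n := by
  have : {t : ℕ × ℕ | t.1 = r ∧ t.2 < n} = (fun i => (r, i)) '' (Finset.range n : Set ℕ) := by
    ext ⟨a, b⟩
    simp only [mem_ofPred_eq, mem_image, Finset.mem_coe, Finset.mem_range, Prod.mk.injEq]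
    exact ⟨fun h => ⟨b, h.2, h.1.symm, rfl⟩, fun ⟨_, h1, h2, h3⟩ => ⟨h2.symm, h3 ▸ h1⟩⟩
  rw [this, ncard_image_of_injective _ fun _ _ h => (Prod.mk.inj h).2, ncard_coe_finset,
    Finset.card_range]

lemma sparse (s : ℕ) (S : Set (ℕ × ℕ)) (hS : S ⊆ {t | t.1 = 2 ∧ t.2 < mm s}) (hne : S.Nonempty)
    (hp : S ≠ {t | t.1 = 2 ∧ t.2 < mm s}) :
    {e | e ∈ (TE s : Set (Sym2 (ℕ × ℕ))) ∧
      ∀ x ∈ e, x ∈ {t : ℕ × ℕ | t.1 = 2 ∧ t.2 < mm s} → x ∈ S}.ncard + 2 ≤ 4 * S.ncard := by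
  classical
  have hm : mm s = 18 * s + 178 := rfl
  have hpos : 0 < mm s := by omega
  obtain ⟨S', hS'⟩ : ∃ S' : Finset ℕ, S' = (Finset.range (mm s)).filter fun x => (2, x) ∈ S :=
    ⟨_, rfl⟩
  have mem : ∀ x, x ∈ S' ↔ x < mm s ∧ (2, x) ∈ S := fun x => by simp [hS']
  have e1 : S = (fun i => ((2 : ℕ), i)) '' (S' : Set ℕ) := by
    ext ⟨a, b⟩
    constructor
    · intro h
      obtain ⟨h1, h2⟩ := hS h
      obtain rfl : a = 2 := h1
      exact ⟨b, (mem b).2 ⟨h2, h⟩, rfl⟩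
    · rintro ⟨i, hi, e⟩
      exact e ▸ ((mem i).1 hi).2
  have e2 : S.ncard = S'.card := by
    rw [e1, ncard_image_of_injective _ fun _ _ h => (Prod.mk.inj h).2, ncard_coe_finset]
  have s1 : S' ⊆ Finset.range (mm s) := hS' ▸ Finset.filter_subset _ _
  have s2 : S'.Nonempty := by
    obtain ⟨x, hx⟩ := hne
    rw [e1] at hx
    obtain ⟨i, hi, -⟩ := hx
    exact ⟨i, hi⟩
  have s3 : S' ≠ Finset.range (mm s) := fun h => hp (hS.antisymm fun ⟨a, b⟩ ⟨h1, h2⟩ => by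
    obtain rfl : a = 2 := h1
    exact ((mem b).1 (h ▸ Finset.mem_range.2 h2)).2)
  have key : ∀ t u, u * t = 9 → ((Finset.range (mm s)).filter fun x => ∀ y ∈
      s(((2 : ℕ), x), (2, (x + t) % mm s)), y ∈ {t : ℕ × ℕ | t.1 = 2 ∧ t.2 < mm s} → y ∈ S).card
      + 1 ≤ S'.card := fun t u h => shift s t u h S' s1 s2 s3 _ fun x hx hq =>
    ⟨(mem _).2 ⟨hx, hq _ (by simp) ⟨rfl, hx⟩⟩,
      (mem _).2 ⟨Nat.mod_lt _ hpos, hq _ (by simp) ⟨rfl, Nat.mod_lt _ hpos⟩⟩⟩
  have k1 := key 1 9 rfl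
  have k3 := key 3 3 rfl
  have k9 := key 9 1 rfl
  have k0 : ((Finset.range (mm s + 2)).filter fun x => ∀ y ∈
      s(((2 : ℕ), x % mm s), (if x < 9 * dd s then 0 else 1, x % 9)),
        y ∈ {t : ℕ × ℕ | t.1 = 2 ∧ t.2 < mm s} → y ∈ S) ⊆
      S' ∪ ((S'.filter fun x => x < 2).image fun x => x + mm s) := by
    intro x hx
    rw [Finset.mem_filter, Finset.mem_range] at hx
    have h1 := (mem _).2 ⟨Nat.mod_lt _ hpos, 
      hx.2 _ (Sym2.mem_mk_left _ _) ⟨rfl, Nat.mod_lt _ hpos⟩⟩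
    rcases md s x (by omega) with h | h
    · exact Finset.mem_union_left _ (h.2 ▸ h1)
    · exact Finset.mem_union_right _
        (Finset.mem_image.2 ⟨_, Finset.mem_filter.2 ⟨h1, by omega⟩, h.2⟩)
  have k0' := (Finset.card_le_card k0).trans ((Finset.card_union_le _ _).trans
    (Nat.add_le_add_left Finset.card_image_le _))
  rw [cnt, e2, Finset.filter_erase]
  by_cases h01 : 0 ∈ S' ∧ 1 ∈ S'
  · have c1 : (S'.filter fun x => x < 2).card ≤ 2 :=
      (Finset.card_le_card fun x hx => Finset.mem_range.2 (Finset.mem_filter.1 hx).2).trans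
        (Finset.card_range 2).le
    rw [Finset.card_erase_of_mem]
    · have : 0 < ((Finset.range (mm s)).filter fun x => ∀ y ∈
        s(((2 : ℕ), x), (2, (x + 1) % mm s)),
          y ∈ {t : ℕ × ℕ | t.1 = 2 ∧ t.2 < mm s} → y ∈ S).card := by
        refine Finset.card_pos.2 ⟨0, Finset.mem_filter.2 ⟨Finset.mem_range.2 hpos, ?_⟩⟩
        intro y hy _
        rw [zero_add, Nat.mod_eq_of_lt (by omega)] at hy
        rcases Sym2.mem_iff.1 hy with rfl | rfl
        exacts [((mem _).1 h01.1).2, ((mem _).1 h01.2).2]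
      omega
    · refine Finset.mem_filter.2 ⟨Finset.mem_range.2 hpos, ?_⟩
      intro y hy _
      rw [zero_add, Nat.mod_eq_of_lt (by omega)] at hy
      rcases Sym2.mem_iff.1 hy with rfl | rfl
      exacts [((mem _).1 h01.1).2, ((mem _).1 h01.2).2]
  · have c1 : (S'.filter fun x => x < 2).card ≤ 1 := by
      refine Finset.card_le_one.2 fun a ha b hb => ?_
      rw [Finset.mem_filter] at ha hb
      by_contra hab
      have : (a = 0 ∧ b = 1) ∨ (a = 1 ∧ b = 0) := by omega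
      rcases this with ⟨rfl, rfl⟩ | ⟨rfl, rfl⟩
      exacts [h01 ⟨ha.1, hb.1⟩, h01 ⟨hb.1, ha.1⟩]
    have c2 := Finset.card_erase_le (a := 0) (s := (Finset.range (mm s)).filter fun x => ∀ y ∈
      s(((2 : ℕ), x), (2, (x + 1) % mm s)), y ∈ {t : ℕ × ℕ | t.1 = 2 ∧ t.2 < mm s} → y ∈ S)
    omega

lemma gW (s y : ℕ) (hy : y < mm s) : dg (TE s : Set (Sym2 (ℕ × ℕ))) (2, y) = 7 := by
  classical
  have hm : mm s = 18 * s + 178 := rfl
  have key : ∀ t, 0 < t → t ≤ 9 → ((Finset.range (mm s)).filter fun x =>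
      ((2 : ℕ), y) ∈ s(((2 : ℕ), x), (2, (x + t) % mm s))).card = 2 := fun t h0 h9 =>
    two s t y h0 h9 hy _ fun x => by simp
  have k1 := key 1 (by omega) (by omega)
  have k3 := key 3 (by omega) (by omega)
  have k9 := key 9 (by omega) (by omega)
  have k0 : ((Finset.range (mm s + 2)).filter fun x => ((2 : ℕ), y) ∈
      s(((2 : ℕ), x % mm s), (if x < 9 * dd s then 0 else 1, x % 9))) =
      if y < 2 then {y, y + mm s} else {y} := by
    ext x
    have h2 : ¬(2 = if x < 9 * dd s then 0 else 1) := by split_ifs <;> simp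
    simp only [Finset.mem_filter, Finset.mem_range, Sym2.mem_iff, Prod.mk.injEq, h2, true_and,
      false_and, or_false]
    by_cases hx : x < mm s + 2
    · have := md s x (by omega)
      split_ifs <;> simp only [Finset.mem_insert, Finset.mem_singleton] <;> omega
    · split_ifs <;> simp only [Finset.mem_insert, Finset.mem_singleton] <;> omega
  have h1 : (0 + 1) % mm s = 1 := Nat.mod_eq_of_lt (by omega)
  rw [dg, cnt, Finset.filter_erase, Finset.card_erase_eq_ite, k0, k1, k3, k9]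
  simp only [Finset.mem_filter, Finset.mem_range, h1, Sym2.mem_iff, Prod.mk.injEq, true_and]
  by_cases h2 : y < 2
  · rw [if_pos h2, if_pos (by omega), Finset.card_pair (by omega)]
  · rw [if_neg h2, if_neg (by omega), Finset.card_singleton]

lemma gAB (s r i : ℕ) (hr : r = 0 ∨ r = 1) (hi : i < 9) :
    dg (TE s : Set (Sym2 (ℕ × ℕ))) (r, i) = dd s + 2 * r := by
  classical
  have hm : mm s = 18 * s + 178 := rfl
  have hd : dd s = s + 9 := rfl
  have key : ∀ t (X : Finset ℕ), (X.filter fun x =>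
      (r, i) ∈ s(((2 : ℕ), x), (2, (x + t) % mm s))) = ∅ := fun t X =>
    Finset.filter_eq_empty_iff.2 fun x _ => by
      simp only [Sym2.mem_iff, Prod.mk.injEq]; omega
  have k0 : ((Finset.range (mm s + 2)).filter fun x => (r, i) ∈
      s(((2 : ℕ), x % mm s), (if x < 9 * dd s then 0 else 1, x % 9))) =
      (Finset.range (dd s + 2 * r)).image fun k => 9 * (r * dd s + k) + i := by
    ext x
    obtain ⟨ρ, h1, h2⟩ : ∃ ρ, (if x < 9 * dd s then 0 else 1) = ρ ∧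
        ((x < 9 * dd s ∧ ρ = 0) ∨ (9 * dd s ≤ x ∧ ρ = 1)) := ⟨_, rfl, by split_ifs <;> omega⟩
    obtain ⟨q, h3, h4⟩ : ∃ q, r * dd s = q ∧ ((r = 0 ∧ q = 0) ∨ (r = 1 ∧ q = dd s)) :=
      ⟨_, rfl, by rcases hr with rfl | rfl <;> omega⟩
    simp only [Finset.mem_filter, Finset.mem_range, Sym2.mem_iff, Prod.mk.injEq, Finset.mem_image,
      h1, h3]
    exact ⟨fun h => ⟨x / 9 - q, by omega⟩, fun ⟨k, h1, h2⟩ => by omega⟩
  rw [dg, cnt, k0, key, key, key, Finset.card_empty,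
    Finset.card_image_of_injective _ fun a b h => by omega, Finset.card_range]
  rfl

lemma tpl : Tpl fun s => (TE s : Set (Sym2 (ℕ × ℕ))) := by
  intro s
  have hm : mm s = 18 * s + 178 := rfl
  have hpos : 0 < mm s := by omega
  refine ⟨card_role _ _, card_role _ _, card_role _ _, ?_, ?_, ?_, ?_, ?_, ?_, ?_,
    fun S h1 h2 h3 => sparse s S h1 h2 h3, ?_, ?_, ?_⟩
  · exact disjoint_left.2 fun _ h h' => by have := h.1; have := h'.1; omega
  · exact disjoint_left.2 fun _ h h' => by have := h.1; have := h'.1; omega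
  · exact disjoint_left.2 fun _ h h' => by have := h.1; have := h'.1; omega
  · refine nd_iff.2 fun e he => ?_
    rcases mem_TE he with ⟨x, r, h1, h2, rfl⟩ | ⟨x, t, h1, h2, h3, rfl⟩
    · simp only [Sym2.mk_isDiag_iff, Prod.mk.injEq]; omega
    · have := md s (x + t) (by omega)
      simp only [Sym2.mk_isDiag_iff, Prod.mk.injEq]; omega
  · rintro y ⟨e, he, hy⟩
    rcases mem_TE he with ⟨x, r, h1, h2, rfl⟩ | ⟨x, t, h1, h2, h3, rfl⟩
    · rcases Sym2.mem_iff.1 hy with rfl | rfl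
      · exact Or.inl (Or.inl ⟨rfl, Nat.mod_lt _ hpos⟩)
      · rcases h2 with rfl | rfl
        · exact Or.inl (Or.inr ⟨rfl, Nat.mod_lt _ (by omega)⟩)
        · exact Or.inr ⟨rfl, Nat.mod_lt _ (by omega)⟩
    · rcases Sym2.mem_iff.1 hy with rfl | rfl
      · exact Or.inl (Or.inl ⟨rfl, h1⟩)
      · exact Or.inl (Or.inl ⟨rfl, Nat.mod_lt _ hpos⟩)
  · intro e he
    rcases mem_TE he with ⟨x, r, h1, h2, rfl⟩ | ⟨x, t, h1, h2, h3, rfl⟩
    · exact ⟨_, Sym2.mem_mk_left _ _, rfl, Nat.mod_lt _ hpos⟩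
    · exact ⟨_, Sym2.mem_mk_left _ _, rfl, h1⟩
  · have := cnt s fun _ => True
    simp only [and_true, ofPred_mem_eq, Finset.filter_true, Finset.card_range,
      Finset.card_erase_of_mem (Finset.mem_range.2 hpos)] at this
    change (TE s : Set (Sym2 (ℕ × ℕ))).ncard = 4 * mm s + 1
    omega
  · rintro ⟨a, y⟩ ⟨h1, h2⟩
    obtain rfl : a = 2 := h1
    exact gW s y h2
  · rintro ⟨a, y⟩ ⟨h1, h2⟩
    obtain rfl : a = 0 := h1
    exact gAB s 0 y (Or.inl rfl) h2
  · rintro ⟨a, y⟩ ⟨h1, h2⟩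
    obtain rfl : a = 1 := h1
    exact gAB s 1 y (Or.inr rfl) h2

/-- The edges of a joint on the indices. -/
def J0 : Finset (Sym2 ℕ) :=
  (((Finset.range 9 ×ˢ Finset.range 9).filter fun p => p.1 < p.2).erase (0, 1)).image
    fun p => s(p.1, p.2)

lemma J0_card : J0.card = 35 := by
  rw [J0, Finset.card_image_of_injOn]
  · decide
  · rintro ⟨a, b⟩ h ⟨c, d⟩ h' e
    simp only [Finset.coe_erase, mem_sdiff, Finset.mem_coe, Finset.mem_filter] at h h'
    have h1 := h.1.2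
    have h2 := h'.1.2
    simp only [Sym2.eq_iff] at e
    rw [Prod.mk.injEq]
    omega

lemma jE_eq (a : ℕ) : jE a = Sym2.map (fun i => (Sum.inl (a, i) : V0)) '' (J0 : Set (Sym2 ℕ)) := by
  ext e
  constructor
  · rintro ⟨i, hi, i', hi', h1, h2, rfl⟩
    refine ⟨s(i, i'), ?_, rfl⟩
    simp only [J0, Finset.coe_image, mem_image, Finset.mem_coe, Finset.mem_erase,
      Finset.mem_filter, Finset.mem_product, Finset.mem_range, Prod.exists, ne_eq, Prod.mk.injEq]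
    simp only [ne_eq, Sym2.eq_iff] at h2
    rcases lt_or_gt_of_ne h1 with h | h
    · exact ⟨i, i', ⟨by omega, ⟨hi, hi'⟩, h⟩, rfl⟩
    · exact ⟨i', i, ⟨by omega, ⟨hi', hi⟩, h⟩, Sym2.eq_swap⟩
  · rintro ⟨e, he, rfl⟩
    simp only [J0, Finset.coe_image, mem_image, Finset.mem_coe, Finset.mem_erase,
      Finset.mem_filter, Finset.mem_product, Finset.mem_range, Prod.exists, ne_eq,
      Prod.mk.injEq] at he
    obtain ⟨i, i', ⟨h1, ⟨h2, h3⟩, h4⟩, rfl⟩ := he
    refine ⟨i, h2, i', h3, h4.ne, ?_, rfl⟩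
    simp only [ne_eq, Sym2.eq_iff]
    omega

lemma inl_inj (a : ℕ) : Function.Injective fun i : ℕ => (Sum.inl (a, i) : V0) :=
  fun _ _ h => (Prod.mk.inj (Sum.inl.inj h)).2

end BlkP

open BlkP

theorem blkMap : BlkMapStmt := by
  intro V V' f b h hf
  have hW : b.W ⊆ b.W ∪ b.A ∪ b.B := subset_union_left.trans subset_union_left
  have hA : b.A ⊆ b.W ∪ b.A ∪ b.B := subset_union_right.trans subset_union_left
  have hB : b.B ⊆ b.W ∪ b.A ∪ b.B := subset_union_right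
  have dj : ∀ {X Y : Set V}, X ⊆ b.W ∪ b.A ∪ b.B → Y ⊆ b.W ∪ b.A ∪ b.B → Disjoint X Y →
      Disjoint (f '' X) (f '' Y) := fun hX hY hd =>
    disjoint_left.2 fun _ ⟨x, hx, e⟩ ⟨y, hy, e'⟩ =>
      disjoint_left.1 hd hx (hf (hY hy) (hX hx) (e'.trans e.symm) ▸ hy)
  refine ⟨((hf.mono hW).ncard_image).trans h.cW, ((hf.mono hA).ncard_image).trans h.cA,
    ((hf.mono hB).ncard_image).trans h.cB, dj hW hA h.dA, dj hW hB h.dB, dj hA hB h.dAB,
    h.nd.map (hf.mono h.sub), ?_, ?_, (ncard_map_on hf h.sub).trans h.cE, ?_, ?_, ?_, ?_⟩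
  · change supp (Sym2.map f '' b.E) ⊆ f '' b.W ∪ f '' b.A ∪ f '' b.B
    rw [supp_map, ← image_union, ← image_union]
    exact image_mono h.sub
  · rintro _ ⟨e, he, rfl⟩
    obtain ⟨x, hx, hx'⟩ := h.meet e he
    exact ⟨f x, Sym2.mem_map.2 ⟨x, hx, rfl⟩, x, hx', rfl⟩
  · intro S hS hne hp
    obtain ⟨S₀, h0, rfl⟩ := subset_image_iff.1 hS
    have h1 := h.sparse S₀ h0 (image_nonempty.1 hne) fun e => hp (congrArg _ e)
    rw [← (hf.mono (h0.trans hW)).ncard_image, ← ncard_map_on hf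
      ((supp_mono fun _ he => he.1).trans h.sub)] at h1
    refine le_trans (Nat.add_le_add_right (ncard_le_ncard ?_
      ((h.finE.subset fun _ he => he.1).image _)) 2) h1
    rintro _ ⟨⟨e, he, rfl⟩, h2⟩
    refine ⟨e, ⟨he, fun x hx hx' => ?_⟩, rfl⟩
    obtain ⟨y, hy, e'⟩ := h2 (f x) (Sym2.mem_map.2 ⟨x, hx, rfl⟩) ⟨x, hx', rfl⟩
    exact hf (hW (h0 hy)) (hW hx') e' ▸ hy
  · rintro _ ⟨x, hx, rfl⟩
    exact (dg_map hf h.sub (hW hx)).trans (h.gW x hx)
  · rintro _ ⟨x, hx, rfl⟩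
    exact (dg_map hf h.sub (hA hx)).trans (h.gA x hx)
  · rintro _ ⟨x, hx, rfl⟩
    exact (dg_map hf h.sub (hB hx)).trans (h.gB x hx)

theorem blkEx : BlkExStmt := ⟨_, tpl⟩

theorem place : PlaceStmt := by
  refine ⟨fun T hT s a j c haj => ?_, fun a => ?_, fun a => ?_, fun a => ?_, fun a => ?_⟩
  · have h := blkMap _ _ (pl a j c) _ (hT s) (by
      rintro ⟨r, i⟩ h ⟨r', i'⟩ h' e
      simp only [mem_union, mem_ofPred_eq] at h h'
      simp only [pl] at e
      rw [Prod.mk.injEq]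
      split_ifs at e <;> simp only [Sum.inl.injEq, Sum.inr.injEq, Prod.mk.injEq] at e <;>
        omega)
    have e : bk T s a j c = Bk.map (pl a j c) ⟨s, {t | t.1 = 2 ∧ t.2 < mm s},
        {t | t.1 = 0 ∧ t.2 < 9}, {t | t.1 = 1 ∧ t.2 < 9}, T s⟩ := by
      refine Bk.ext rfl ?_ ?_ ?_ rfl
      · ext x
        exact ⟨fun ⟨i, hi, e⟩ => ⟨(2, i), ⟨rfl, hi⟩, e.symm⟩, fun ⟨⟨r, i⟩, ⟨h1, h2⟩, e⟩ =>
          ⟨i, h2, by obtain rfl : r = 2 := h1; exact e.symm⟩⟩
      · ext x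
        exact ⟨fun ⟨i, hi, e⟩ => ⟨(0, i), ⟨rfl, hi⟩, e.symm⟩, fun ⟨⟨r, i⟩, ⟨h1, h2⟩, e⟩ =>
          ⟨i, h2, by obtain rfl : r = 0 := h1; exact e.symm⟩⟩
      · ext x
        exact ⟨fun ⟨i, hi, e⟩ => ⟨(1, i), ⟨rfl, hi⟩, e.symm⟩, fun ⟨⟨r, i⟩, ⟨h1, h2⟩, e⟩ =>
          ⟨i, h2, by obtain rfl : r = 1 := h1; exact e.symm⟩⟩
    exact e ▸ h
  · rintro _ ⟨i, _, i', _, h1, _, rfl⟩
    exact fun e => h1 (inl_inj a e)
  · ext x
    constructor
    · rintro ⟨_, ⟨i, hi, i', hi', _, _, rfl⟩, hx⟩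
      rcases Sym2.mem_iff.1 hx with rfl | rfl
      exacts [⟨i, hi, rfl⟩, ⟨i', hi', rfl⟩]
    · rintro ⟨i, hi, rfl⟩
      refine ⟨_, ⟨i, hi, if i = 2 then 3 else 2, ?_, ?_, ?_, rfl⟩, Sym2.mem_mk_left _ _⟩
      · split_ifs <;> omega
      · split_ifs <;> omega
      · obtain ⟨ρ, h1, h2⟩ : ∃ ρ, (if i = 2 then 3 else 2) = ρ ∧ 2 ≤ ρ :=
          ⟨_, rfl, by split_ifs <;> omega⟩
        simp only [ne_eq, Sym2.eq_iff, h1]
        omega
  · rw [jE_eq, ncard_image_of_injective _ (Sym2.map.injective (inl_inj a)), ncard_coe_finset,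
      J0_card]
  · have : jS a = (fun i => (Sum.inl (a, i) : V0)) '' (Finset.range 9 : Set ℕ) := by
      ext x
      exact ⟨fun ⟨i, hi, e⟩ => ⟨i, Finset.mem_range.2 hi, e.symm⟩,
        fun ⟨i, hi, e⟩ => ⟨i, Finset.mem_range.1 hi, e.symm⟩⟩
    rw [this, ncard_image_of_injective _ (inl_inj a), ncard_coe_finset, Finset.card_range]

end Pool.Agent.MP_1a6d08_co.Und
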