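import Pool.Agent.MP_1a6d08_co.Defs

/-!
Codes of finite matroids.
-/

namespace Pool.Agent.MP_1a6d08_co

/-- `c` codes the matroid `M`: the first list enumerates the ground set and the second list
enumerates the independent sets. -/
def Codes (c : List ℕ × List (List ℕ)) (M : Matroid ℕ) : Prop :=
  M.E = {x | x ∈ c.1} ∧ ∀ I : Set ℕ, M.Indep I ↔ ∃ l ∈ c.2, I = {x | x ∈ l}

end Pool.Agent.MP_1a6d08_co
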