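import Pool.Agent.MP_1a6d08_co.und.Defs

/-!
Symmetric matroids on complete graphs.
-/

namespace Pool.Agent.MP_1a6d08_co

/-- `N` is a matroid on the edge set of the complete graph on `n` vertices that is invariant under
all permutations of the vertices, and no circuit of `N` is a union of two nonempty vertex-disjoint
edge sets. -/
def SymConn {n : ℕ} (N : Matroid (Sym2 (Fin n))) : Prop :=
  N.E = (⊤ : SimpleGraph (Fin n)).edgeSet ∧
    (∀ (σ : Equiv.Perm (Fin n)) (I : Set (Sym2 (Fin n))), N.Indep I → N.Indep (Sym2.map σ '' I)) ∧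
    ∀ C₁ C₂ : Set (Sym2 (Fin n)), N.IsCircuit (C₁ ∪ C₂) →
      (∀ e₁ ∈ C₁, ∀ e₂ ∈ C₂, ∀ x ∈ e₁, x ∉ e₂) → C₁ = ∅ ∨ C₂ = ∅

/-- `M` is isomorphic to a restriction of such a matroid on the complete graph on `n` vertices. -/
def Fits {α : Type} (M : Matroid α) (n : ℕ) : Prop :=
  ∃ (N : Matroid (Sym2 (Fin n))) (f : α → Sym2 (Fin n)) (hf : Set.InjOn f M.E),
    SymConn N ∧ f '' M.E ⊆ N.E ∧ M.map f hf = N.restrict (f '' M.E)

end Pool.Agent.MP_1a6d08_co
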