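import Mathlib.Algebra.BigOperators.Fin
import Mathlib.GroupTheory.Perm.Sign
import Mathlib.Data.List.GetD
import Mathlib.Combinatorics.Enumerative.DoubleCounting
import Mathlib.Computability.RE
import Pool.Agent.MP_1a6d08_co.Nec
import Pool.Agent.MP_1a6d08_co.und.Defs
import Pool.Agent.MP_1a6d08_co.und.DefsB

-- ======== part 0: formerly Pool.Agent.MP_1a6d08_co.und.Spec
section MrgPart0

/-!
Shared objects and the statements of the steps of the undecidability proof.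
-/

open Set

namespace Pool.Agent.MP_1a6d08_co.Und

noncomputable section

section General

variable {V V' : Type}

/-- No loops. -/
def ND (F : Set (Sym2 V)) : Prop := F ⊆ (⊤ : SimpleGraph V).edgeSet

/-- The number of edges of `F` at `x`. -/
def dg (F : Set (Sym2 V)) (x : V) : ℕ := {e | e ∈ F ∧ x ∈ e}.ncard

/-- `F` contains no copy of a member of `P`. -/
def Ind (P : Set FinGraph) {V : Type} (F : Set (Sym2 V)) : Prop := ND F ∧ ∀ C ⊆ F, ¬Cp P C

/-- A matroidal family whose least degree is five. -/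
structure Four (P : Set FinGraph) : Prop where
  mat : Matroidal P
  ext : ∀ (V : Type) (X : Set (Sym2 V)), X.Finite → Ind P X → ∀ x y, x ≠ y → dg X x ≤ 3 →
    Ind P (insert s(x, y) X)
  bnd : ∀ (V : Type) (X : Set (Sym2 V)), X.Finite → Ind P X → X.ncard ≤ 4 * (supp X).ncard

/-- The degree of a tail vertex in a block of type `s`. -/
def dd (s : ℕ) : ℕ := s + 9

/-- The number of inner vertices of a block of type `s`. -/
def mm (s : ℕ) : ℕ := 18 * s + 178

/-- The data of a block: type, inner vertices, tail, head, edges. -/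
@[ext] structure Bk (V : Type) where
  s : ℕ
  W : Set V
  A : Set V
  B : Set V
  E : Set (Sym2 V)

/-- The properties of a block. -/
structure Blk (b : Bk V) : Prop where
  cW : b.W.ncard = mm b.s
  cA : b.A.ncard = 9
  cB : b.B.ncard = 9
  dA : Disjoint b.W b.A
  dB : Disjoint b.W b.B
  dAB : Disjoint b.A b.B
  nd : ND b.E
  sub : supp b.E ⊆ b.W ∪ b.A ∪ b.B
  meet : ∀ e ∈ b.E, ∃ x ∈ e, x ∈ b.W
  cE : b.E.ncard = 4 * mm b.s + 1
  sparse : ∀ S ⊆ b.W, S.Nonempty → S ≠ b.W →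
    {e | e ∈ b.E ∧ ∀ x ∈ e, x ∈ b.W → x ∈ S}.ncard + 2 ≤ 4 * S.ncard
  gW : ∀ x ∈ b.W, dg b.E x = 7
  gA : ∀ x ∈ b.A, dg b.E x = dd b.s
  gB : ∀ x ∈ b.B, dg b.E x = dd b.s + 2

/-- The image of a block. -/
def Bk.map (f : V → V') (b : Bk V) : Bk V' :=
  ⟨b.s, f '' b.W, f '' b.A, f '' b.B, Sym2.map f '' b.E⟩

/-- All nonempty proper subsets are sparse. -/
def Sp (X : Set (Sym2 V)) : Prop :=
  ∀ T ⊆ X, T.Nonempty → T ≠ X → T.ncard < 4 * (supp T).ncard

/-- Circuits of the count matroid with at most `4 v - 1` edges on `v` vertices. -/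
def Circ (C : Set (Sym2 V)) : Prop := C.ncard = 4 * (supp C).ncard ∧ Sp C

/-- Tight sets and circuits. -/
structure Near (X : Set (Sym2 V)) : Prop where
  fin : X.Finite
  nd : ND X
  ne : X.Nonempty
  sp : Sp X
  big : 4 * (supp X).ncard ≤ X.ncard + 1

/-- A system of joints and blocks. -/
structure Str (J : Set (Set V)) (D : Set (Bk V)) : Prop where
  cJ : ∀ A ∈ J, A.ncard = 9
  dJ : ∀ A ∈ J, ∀ A' ∈ J, A ≠ A' → Disjoint A A'
  blk : ∀ b ∈ D, Blk b ∧ b.A ∈ J ∧ b.B ∈ J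
  dW : ∀ b ∈ D, ∀ A ∈ J, Disjoint b.W A
  dD : ∀ b ∈ D, ∀ b' ∈ D, b ≠ b' → Disjoint b.W b'.W

/-- Every edge of `X` lies inside a joint or belongs to a block. -/
def Cov (J : Set (Set V)) (D : Set (Bk V)) (X : Set (Sym2 V)) : Prop :=
  ∀ e ∈ X, (∃ A ∈ J, ∀ x ∈ e, x ∈ A) ∨ ∃ b ∈ D, e ∈ b.E

variable {G : Type} [Group G]

/-- A potential for the gains `g`. -/
def Pot (g : ℕ → G) (J : Set (Set V)) (D : Set (Bk V)) (π : V → G) : Prop :=
  (∀ A ∈ J, ∀ x ∈ A, ∀ y ∈ A, π x = π y) ∧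
    ∀ b ∈ D, (∀ x ∈ b.W, ∀ a ∈ b.A, π x = π a) ∧ ∀ a ∈ b.A, ∀ y ∈ b.B, π y = π a * g b.s

/-- `C` is covered by a balanced system on its own vertices. -/
def Bal (g : ℕ → G) (C : Set (Sym2 V)) : Prop :=
  ∃ J D π, Str J D ∧ Cov J D C ∧ Pot g J D π ∧ (∀ A ∈ J, A ⊆ supp C) ∧ ∀ b ∈ D, b.W ⊆ supp C

/-- Dependence in the model. -/
def Dep (g : ℕ → G) (F : Set (Sym2 V)) : Prop :=
  ∃ C ⊆ F, C.Finite ∧ ND C ∧ C.Nonempty ∧ (4 * (supp C).ncard < C.ncard ∨ (Circ C ∧ Bal g C))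

end General

/-! Networks on slots -/

/-- Joint vertices (slot, index) and inner vertices (slot, index). -/
abbrev V0 : Type := (ℕ × ℕ) ⊕ (ℕ × ℕ)

/-- The joint in slot `a`. -/
def jS (a : ℕ) : Set V0 := {x | ∃ i < 9, x = Sum.inl (a, i)}

/-- The inner vertices of a block of type `s` in slot `c`. -/
def wS (s c : ℕ) : Set V0 := {x | ∃ i < mm s, x = Sum.inr (c, i)}

/-- The complete graph on a joint without one edge. -/
def jE (a : ℕ) : Set (Sym2 V0) :=
  {e | ∃ i < 9, ∃ i' < 9, i ≠ i' ∧ s(i, i') ≠ s(0, 1) ∧ e = s(Sum.inl (a, i), Sum.inl (a, i'))}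

/-- `T s` is a block of type `s` on template vertices (role, index): role 0 tail, 1 head,
2 inner. -/
def Tpl (T : ℕ → Set (Sym2 (ℕ × ℕ))) : Prop :=
  ∀ s, Blk ⟨s, {t | t.1 = 2 ∧ t.2 < mm s}, {t | t.1 = 0 ∧ t.2 < 9}, {t | t.1 = 1 ∧ t.2 < 9}, T s⟩

/-- Placement of a template with tail slot `a`, head slot `j`, inner slot `c`. -/
def pl (a j c : ℕ) (t : ℕ × ℕ) : V0 :=
  if t.1 = 0 then Sum.inl (a, t.2) else if t.1 = 1 then Sum.inl (j, t.2) else Sum.inr (c, t.2)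

/-- The edges of a placed block. -/
def bE (T : ℕ → Set (Sym2 (ℕ × ℕ))) (s a j c : ℕ) : Set (Sym2 V0) := Sym2.map (pl a j c) '' T s

/-- A placed block. -/
def bk (T : ℕ → Set (Sym2 (ℕ × ℕ))) (s a j c : ℕ) : Bk V0 := ⟨s, wS s c, jS a, jS j, bE T s a j c⟩

/-- A step of a path: type, head slot, inner slot. -/
abbrev Cell : Type := ℕ × ℕ × ℕ

/-- The edges of a path that starts in slot `a` (without the edges of the first joint). -/
def PE (T : ℕ → Set (Sym2 (ℕ × ℕ))) : ℕ → List Cell → Set (Sym2 V0)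
  | _, [] => ∅
  | a, x :: l => bE T x.1 a x.2.1 x.2.2 ∪ jE x.2.1 ∪ PE T x.2.1 l

/-- The last slot of a path. -/
def en : ℕ → List Cell → ℕ
  | a, [] => a
  | _, x :: l => en x.2.1 l

/-- The word of a path. -/
def wd (l : List Cell) : List ℕ := l.map fun x => x.1

/-- The head slots of a path. -/
def js (l : List Cell) : List ℕ := l.map fun x => x.2.1

/-- The inner slots of a path. -/
def cs (l : List Cell) : List ℕ := l.map fun x => x.2.2

/-- A directed cycle. -/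
def IsCyc (a : ℕ) (l : List Cell) : Prop :=
  (js l).Nodup ∧ (cs l).Nodup ∧ en a l = a ∧ 2 ≤ l.length

/-- Two paths from `a` to `b` that meet only at the ends. -/
def IsDig (a : ℕ) (l l' : List Cell) (b c c' : ℕ) : Prop :=
  (a :: b :: (js l ++ js l')).Nodup ∧ (c :: c' :: (cs l ++ cs l')).Nodup

/-- The edges of two such paths, both with last letter `t`. -/
def DG (T : ℕ → Set (Sym2 (ℕ × ℕ))) (a : ℕ) (l l' : List Cell) (t b c c' : ℕ) : Set (Sym2 V0) :=
  jE a ∪ PE T a (l ++ [(t, b, c)]) ∪ PE T a (l' ++ [(t, b, c')])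

/-- The finitely many facts that are read off the table. -/
structure Tab (I : Set (Sym2 V0) → Prop) (T : ℕ → Set (Sym2 (ℕ × ℕ))) (L z : ℕ)
    (R : List (List ℕ × List ℕ)) : Prop where
  joint : I (jE 0)
  pend : ∀ s < L, ∃ (Q : Set V0) (H : Set (Sym2 V0)), Q.Finite ∧ jS 0 ⊆ Q ∧
    Disjoint Q (jS 1 ∪ wS s 0) ∧ supp H ⊆ Q ∧ H.ncard = 4 * Q.ncard ∧
    I (H ∪ bE T s 0 1 0 ∪ jE 1)
  last : ∀ s < L, ∃ f ∈ bE T s 0 1 0, ∃ (Q : Set V0) (H : Set (Sym2 V0)), Q.Finite ∧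
    jS 0 ∪ jS 1 ⊆ Q ∧ Disjoint Q (wS s 0) ∧ supp H ⊆ Q ∧ H.ncard = 4 * Q.ncard ∧
    I (H ∪ (bE T s 0 1 0 \ {f}))
  dig : ∀ r ∈ R, ∀ t < L, ∃ a l l' b c c', wd l = r.1 ∧ wd l' = r.2 ∧ IsDig a l l' b c c' ∧
    ¬I (DG T a l l' t b c c')
  base : ∃ a l, wd l = [z, z] ∧ IsCyc a l ∧ ¬I (PE T a l)

/-- The relations `R` hold for the values `v` of the letters. -/
def Sat {Q : Type} [Monoid Q] (R : List (List ℕ × List ℕ)) (v : ℕ → Q) : Prop :=
  ∀ r ∈ R, (r.1.map v).prod = (r.2.map v).prod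

/-! Complete graphs and codes -/

/-- The edges of the complete graph on the first `N` numbers. -/
def EN (N : ℕ) : Set (Sym2 ℕ) := {e | ¬e.IsDiag ∧ ∀ x ∈ e, x < N}

/-- The number that names an edge. -/
def ec : Sym2 ℕ → ℕ :=
  Sym2.lift ⟨fun x y => Nat.pair (min x y) (max x y), fun x y => by
    simp only [min_comm x y, max_comm x y]⟩

/-- The number that names a vertex of a network. -/
def cd : V0 → ℕ := Sum.elim (fun p => 2 * Nat.pair p.1 p.2) fun p => 2 * Nat.pair p.1 p.2 + 1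

/-- Edges between an even and an odd vertex. -/
def EO (X : Set (Sym2 ℕ)) : Prop := ∀ e ∈ X, ∃ x y, e = s(x, y) ∧ Even x ∧ Odd y

/-- The rules that force the shape of the graph. -/
structure Rules (N : ℕ) (I : Set (Sym2 ℕ) → Prop) : Prop where
  up : ∀ X ⊆ EN N, I X → X.ncard ≤ 4 * N
  ext : ∀ X ⊆ EN N, I X → ∀ x y, s(x, y) ∈ EN N → dg X x ≤ 3 → I (insert s(x, y) X)
  bip : ∀ X ⊆ EN N, X.ncard ≤ 64 → EO X → I X

/-- The conditions on a matroid in the reduction. -/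
structure Sem (Ld Li : List (List ℕ)) (N : ℕ) (U : List ℕ) (M : Matroid ℕ) : Prop where
  big : 500 ≤ N
  gr : M.E = ec '' EN N
  rules : Rules N fun X => M.Indep (ec '' X)
  dep : ∀ l ∈ Ld, {k | k ∈ l} ⊆ M.E ∧ ¬M.Indep {k | k ∈ l}
  ind : ∀ l ∈ Li, M.Indep {k | k ∈ l}
  tgt : M.Indep {k | k ∈ U}

/-- The program with number `n` halts on input `0`. -/
def Halts (n : ℕ) : Prop := ((Denumerable.ofNat Nat.Partrec.Code n).eval 0).Dom

/-! The steps -/

/-- Row GEN. -/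
structure GenStmt : Prop where
  mat : ∀ P, Matroidal P → ∀ V : Type, ∃ N : Matroid (Sym2 V),
    N.E = (⊤ : SimpleGraph V).edgeSet ∧ ∀ I, N.Indep I ↔ Ind P I
  map : ∀ P, Matroidal P → ∀ (V V' : Type) (f : V → V') (F : Set (Sym2 V)), InjOn f (supp F) →
    (Ind P (Sym2.map f '' F) ↔ Ind P F)
  add : ∀ (V : Type) (E₀ E₁ : Set (Sym2 V)) (I : Set (Sym2 V) → Prop) (k : ℕ) (X : Set (Sym2 V))
    (R M : Set V),
    (∀ Y ⊆ E₀, Y.Finite → I Y → ∀ x y, s(x, y) ∈ E₀ → dg Y x ≤ 3 → I (insert s(x, y) Y)) →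
    E₁ ⊆ E₀ → k ≤ 4 → X ⊆ E₀ → X.Finite → I X → supp X ⊆ R → M.Finite → Disjoint R M →
    (∀ y ∈ M, ∃ Z ⊆ R, k ≤ Z.ncard ∧ ∀ z ∈ Z, s(y, z) ∈ E₁) →
    ∃ S ⊆ E₁, S.Finite ∧ Disjoint S X ∧ I (X ∪ S) ∧ supp S ⊆ R ∪ M ∧ S.ncard = k * M.ncard ∧
      ∀ e ∈ S, ∃ y ∈ M, ∃ z ∈ R, e = s(y, z) ∧ s(y, z) ∈ E₁

/-- Row BLK, first part. -/
def BlkMapStmt : Prop :=
  ∀ (V V' : Type) (f : V → V') (b : Bk V), Blk b → InjOn f (b.W ∪ b.A ∪ b.B) → Blk (b.map f)

/-- Row BLK, second part. -/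
def BlkExStmt : Prop := ∃ T, Tpl T

/-- Row BLK, third part. -/
structure PlaceStmt : Prop where
  blk : ∀ T, Tpl T → ∀ s a j c, a ≠ j → Blk (bk T s a j c)
  jnd : ∀ a, ND (jE a)
  jsupp : ∀ a, supp (jE a) = jS a
  jcard : ∀ a, (jE a).ncard = 35
  scard : ∀ a, (jS a).ncard = 9

/-- Row STR. -/
structure StrStmt : Prop where
  split : ∀ (V : Type) (X X₁ X₂ : Set (Sym2 V)), Near X → X = X₁ ∪ X₂ →
    Disjoint (supp X₁) (supp X₂) → X₁ = ∅ ∨ X₂ = ∅
  wh : ∀ (V : Type) (X : Set (Sym2 V)) J D, Near X → Str J D → Cov J D X → ∀ b ∈ D,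
    (b.W ∩ supp X).Nonempty → (b.E \ X).ncard + X.ncard ≤ 4 * (supp X).ncard
  jd : ∀ (V : Type) (X : Set (Sym2 V)) J D, Near X → Str J D → Cov J D X → ∀ A ∈ J,
    (A ∩ supp X).Nonempty →
    (∃ b ∈ D, (b.A = A ∨ b.B = A) ∧ (b.W ∩ supp X).Nonempty) ∨ supp X = A
  rec2 : ∀ (V : Type) (X : Set (Sym2 V)) J D J' D', Near X → Str J D → Cov J D X → Str J' D' →
    Cov J' D' X → ∀ b ∈ D, (b.W ∩ supp X).Nonempty → b ∈ D'

/-- Row DEP. -/
structure DepStmt : Prop where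
  cover : ∀ (G : Type) [Group G] (g : ℕ → G) (V : Type) (F : Set (Sym2 V)) J D π, F.Finite →
    ND F → F.Nonempty → 4 * (supp F).ncard ≤ F.ncard → Str J D → Cov J D F → Pot g J D π → Dep g F
  link : ∀ (G : Type) [Group G] (g : ℕ → G), ∃ P, Matroidal P ∧
    ∀ (V : Type) (F : Set (Sym2 V)), Ind P F ↔ ND F ∧ ¬Dep g F

/-- Row AV. -/
structure AvStmt : Prop where
  ext : ∀ (G : Type) [Group G] (g : ℕ → G) (V : Type) (X : Set (Sym2 V)), X.Finite → ¬Dep g X →
    ∀ x y, dg X x ≤ 3 → ¬Dep g (insert s(x, y) X)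
  joint : ∀ (G : Type) [Group G] (g : ℕ → G) (V : Type) (K : Set (Sym2 V)) (A : Set V),
    A.ncard = 9 → supp K ⊆ A → K.ncard ≤ 35 → ¬Dep g K
  pend : ∀ (G : Type) [Group G] (g : ℕ → G) (V : Type) (Y K : Set (Sym2 V)) (b : Bk V), Blk b →
    ¬Dep g Y → Disjoint (supp Y) (b.W ∪ b.B) → supp K ⊆ b.B → K.ncard ≤ 35 →
    ¬Dep g (Y ∪ b.E ∪ K)
  last : ∀ (G : Type) [Group G] (g : ℕ → G) (V : Type) (Y : Set (Sym2 V)) (b : Bk V), Blk b →
    ¬Dep g Y → Disjoint (supp Y) b.W → ∀ f ∈ b.E, ¬Dep g (Y ∪ (b.E \ {f}))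
  whole : ∀ (G : Type) [Group G] (g : ℕ → G) (V : Type) (C : Set (Sym2 V)) (b : Bk V), Blk b →
    Minimal (Dep g) C → (∀ e ∈ C, (∃ x ∈ e, x ∈ b.W) → e ∈ b.E) → (C ∩ b.E).Nonempty → b.E ⊆ C
  bip : ∀ (G : Type) [Group G] (g : ℕ → G) (V : Type) (X : Set (Sym2 V)) (κ : V → Prop),
    X.Finite → X.ncard ≤ 64 → (∀ e ∈ X, ∃ x y, e = s(x, y) ∧ κ x ∧ ¬κ y) → ¬Dep g X

/-- Row NET. -/
structure NetStmt : Prop where
  dig : ∀ (G : Type) [Group G] (g : ℕ → G) T, Tpl T → ∀ a l l' t b c c', IsDig a l l' b c c' →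
    ((wd l).map g).prod = ((wd l').map g).prod → Dep g (DG T a l l' t b c c')
  cyc : ∀ (G : Type) [Group G] (g : ℕ → G) T, Tpl T → ∀ a l, IsCyc a l →
    (Dep g (PE T a l) ↔ ((wd l).map g).prod = 1)

/-- Row TAB: the model. -/
def ModelStmt : Prop :=
  ∀ (G : Type) [Group G] (g : ℕ → G) T, Tpl T → ∃ P, Four P ∧
    (∀ X : Set (Sym2 ℕ), X.Finite → X.ncard ≤ 64 → EO X → Ind P X) ∧
    (∀ L z R, Sat R g → g z * g z = 1 → Tab (Ind P) T L z R) ∧
    ∀ a l, IsCyc a l → ((wd l).map g).prod ≠ 1 → Ind P (PE T a l)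

/-- Row TAB: the table is finite. -/
def TabFinStmt : Prop :=
  ∀ (I : Set (Sym2 V0) → Prop) T L z R, Tpl T → (∀ X, I X → ND X) → Tab I T L z R →
    ∃ 𝒳 : Set (Set (Sym2 V0)), 𝒳.Finite ∧ (∀ X ∈ 𝒳, X.Finite ∧ ND X) ∧
      ∀ I' : Set (Sym2 V0) → Prop, (∀ X ∈ 𝒳, I' X ↔ I X) → Tab I' T L z R

/-- Row REC. -/
def RecStmt : Prop :=
  ∀ (N : ℕ) (P : Set FinGraph) (V : Type) [Finite V] (Γ : SimpleGraph V) (F : Sym2 ℕ → Sym2 V),
    500 ≤ N → Matroidal P → BijOn F (EN N) Γ.edgeSet → Rules N (fun X => Ind P (F '' X)) →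
    Four P ∧ ∀ X ⊆ EN N, (Ind P (F '' X) ↔ Ind P X)

/-- Row PL: pendant blocks and closing blocks in every family with the table. -/
def PlStmt : Prop :=
  ∀ P T L z R, Four P → Tpl T → Tab (Ind P) T L z R → (∀ a, Ind P (jE a)) ∧
    ∀ s < L, ∀ a j c, a ≠ j →
      (∀ Y : Set (Sym2 V0), Y.Finite → Ind P Y → Disjoint (supp Y) (jS j ∪ wS s c) →
        Ind P (Y ∪ bE T s a j c ∪ jE j)) ∧
      ∃ f ∈ bE T s a j c, ∀ Y : Set (Sym2 V0), Y.Finite → Ind P Y → Disjoint (supp Y) (wS s c) →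
        Ind P (Y ∪ (bE T s a j c \ {f}))

/-- Row SOUND. -/
def SoundStmt : Prop :=
  ∀ P T L z R, Four P → Tpl T → Tab (Ind P) T L z R → z < L →
    (∀ r ∈ R, (∀ s ∈ r.1, s < L) ∧ ∀ s ∈ r.2, s < L) → ∀ w : List ℕ, (∀ s ∈ w, s < L) →
    (∀ (Q : Type) [Monoid Q] (v : ℕ → Q), Sat R v → (w.map v).prod = 1) →
    ∀ a l, wd l = w ++ [z, z] → IsCyc a l → ¬Ind P (PE T a l)

/-- Row MACH: a deterministic system of modular rules with undecidable halting. -/
def MachStmt : Prop :=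
  ∃ (ι ρ : Type) (_ : Fintype ι) (_ : DecidableEq ι) (_ : Fintype ρ) (a b m m' : ρ → ι → ℕ)
    (h c₀ : ι → ℕ) (i₀ : ι) (e : ℕ → ℕ) (H : Set (ι → ℤ)), Primrec e ∧
    (∀ r i, 0 < m r i ∧ 0 < m' r i) ∧ (fun i => (h i : ℤ)) ∈ H ∧
    (∀ r (γ : ι → ℤ), (fun i => (b r i : ℤ) + m' r i * γ i) ∈ H ↔
      (fun i => (a r i : ℤ) + m r i * γ i) ∈ H) ∧
    ∀ n, (Halts n → Relation.ReflTransGen
        (fun β β' : ι → ℕ => ∃ r γ, β = b r + m' r * γ ∧ β' = a r + m r * γ)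
        (Function.update c₀ i₀ (e n)) h) ∧
      (¬Halts n → (fun i => (Function.update c₀ i₀ (e n) i : ℤ)) ∉ H)

/-- Row PERM: a group of permutations attached to an invariant set. -/
def PermStmt : Prop :=
  ∀ (ι ρ : Type) (a b m m' : ρ → ι → ℕ) (H : Set (ι → ℤ)), (∀ r i, 0 < m r i ∧ 0 < m' r i) →
    (∀ r (γ : ι → ℤ), (fun i => (b r i : ℤ) + m' r i * γ i) ∈ H ↔
      (fun i => (a r i : ℤ) + m r i * γ i) ∈ H) →
    ∃ (G : Type) (_ : Group G) (X : (ι → ℤ) → G) (r : ρ → G) (t k : G),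
      (∀ β γ, X (β + γ) = X β * X γ) ∧
      (∀ q (γ : ι → ℤ), r q * X (fun i => m' q i * γ i) = X (fun i => m q i * γ i) * r q) ∧
      (∀ q, Commute t (X (fun i => a q i) * r q * (X fun i => b q i)⁻¹)) ∧
      (∀ q, Commute k (r q)) ∧ k * k = 1 ∧ ∀ β, Commute k ((X β)⁻¹ * t * X β) ↔ β ∈ H

/-- Row NB: a finite presentation with undecidable word problem. -/
def NBStmt : Prop :=
  ∃ (L z : ℕ) (R : List (List ℕ × List ℕ)) (w : ℕ → List ℕ) (G : Type) (_ : Group G) (g : ℕ → G),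
    Primrec w ∧ z < L ∧ (∀ r ∈ R, (∀ s ∈ r.1, s < L) ∧ ∀ s ∈ r.2, s < L) ∧
    (∀ n, ∀ s ∈ w n, s < L) ∧ Sat R g ∧ g z * g z = 1 ∧
    ∀ n, (Halts n → ∀ (Q : Type) [Monoid Q] (v : ℕ → Q), Sat R v → ((w n).map v).prod = 1) ∧
      (¬Halts n → ((w n).map g).prod ≠ 1)

/-- Row COMP: the conditions can be checked on codes. -/
def CompStmt : Prop :=
  ∀ Ld Li : List (List ℕ), ∃ Cond : ℕ × List ℕ × List ℕ × List (List ℕ) → Prop,
    PrimrecPred Cond ∧ (∀ N U c, Cond (N, U, c) → ∃ M, Codes c M ∧ Sem Ld Li N U M) ∧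
      ∀ N U M, Sem Ld Li N U M → ∃ c, Codes c M ∧ Cond (N, U, c)

/-- Row CYC, first part: the code of a cycle is a primitive recursive function of its word. -/
def CycStmt : Prop :=
  ∀ T L, Tpl T → ∃ U : List ℕ → List ℕ, Primrec U ∧ ∀ y : List ℕ, (∀ s ∈ y, s < L) →
    2 ≤ y.length → ∃ a l, wd l = y ∧ IsCyc a l ∧ (PE T a l).Finite ∧
      {k | k ∈ U y} = ec '' (Sym2.map cd '' PE T a l)

/-- Row CYC, second part: projections of recursively enumerable predicates. -/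
def ReStmt : Prop :=
  ∀ (α β γ : Type) [Primcodable α] [Primcodable β] [Primcodable γ] (p : γ → Prop)
    (f : β → γ) (C : α × β → Prop), REPred p → Primrec f → PrimrecPred C →
    REPred fun a => ∃ b, p (f b) ∧ C (a, b)

/-- The final statement. -/
def FinalStmt : Prop :=
  ∀ p : List ℕ × List (List ℕ) → Prop, (∀ c M, Codes c M → (p c ↔ InClass M)) → ¬REPred p

end

end Pool.Agent.MP_1a6d08_co.Und

end MrgPart0

-- ======== part 1: formerly Pool.Agent.MP_1a6d08_co.und.Base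
section MrgPart1

/-!
Small shared lemmas.
-/

open Set

namespace Pool.Agent.MP_1a6d08_co.Und

section General

variable {V V' : Type} {F F' : Set (Sym2 V)}

lemma mem_supp {e : Sym2 V} {x : V} (he : e ∈ F) (hx : x ∈ e) : x ∈ supp F := ⟨e, he, hx⟩

lemma supp_union (F F' : Set (Sym2 V)) : supp (F ∪ F') = supp F ∪ supp F' := by
  ext x
  exact ⟨fun ⟨e, he, hx⟩ => he.elim (fun h => Or.inl ⟨e, h, hx⟩) fun h => Or.inr ⟨e, h, hx⟩,
    fun h => h.elim (fun h => supp_mono subset_union_left h) fun h =>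
      supp_mono subset_union_right h⟩

lemma supp_empty : supp (∅ : Set (Sym2 V)) = ∅ := eq_empty_of_forall_notMem fun _ ⟨_, h, _⟩ => h

lemma supp_finite (h : F.Finite) : (supp F).Finite := by
  have : supp F ⊆ ⋃ e ∈ F, {e.out.1, e.out.2} := by
    rintro x ⟨e, he, hx⟩
    refine mem_biUnion he ?_
    rw [← e.out_eq] at hx
    exact Sym2.mem_iff.1 hx
  exact (h.biUnion fun _ _ => toFinite _).subset this

lemma finite_of_supp {A : Set V} (hA : A.Finite) (h : supp F ⊆ A) : F.Finite := by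
  refine ((hA.prod hA).image fun p => s(p.1, p.2)).subset fun e he => ?_
  induction e using Sym2.ind with
  | _ a b => exact ⟨(a, b), ⟨h ⟨_, he, by simp⟩, h ⟨_, he, by simp⟩⟩, rfl⟩

lemma nd_iff : ND F ↔ ∀ e ∈ F, ¬e.IsDiag := by
  refine forall_congr' fun e => imp_congr_right fun _ => ?_
  simp

lemma ND.ne (h : ND F) {x y : V} (he : s(x, y) ∈ F) : x ≠ y := h he

lemma ND.mono (h : ND F') (hF : F ⊆ F') : ND F := hF.trans h

lemma ND.union (h : ND F) (h' : ND F') : ND (F ∪ F') := union_subset h h'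

lemma Ind.mono {P : Set FinGraph} (h : Ind P F') (hF : F ⊆ F') : Ind P F :=
  ⟨h.1.mono hF, fun C hC => h.2 C (hC.trans hF)⟩

lemma map_injOn {f : V → V'} {A : Set V} (hf : InjOn f A) (h : supp F ⊆ A) :
    InjOn (Sym2.map f) F := by
  intro e he e' he' hee
  induction e using Sym2.ind with
  | _ a b =>
    induction e' using Sym2.ind with
    | _ c d =>
      have ha : a ∈ A := h ⟨_, he, by simp⟩
      have hb : b ∈ A := h ⟨_, he, by simp⟩
      have hc : c ∈ A := h ⟨_, he', by simp⟩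
      have hd : d ∈ A := h ⟨_, he', by simp⟩
      rcases Sym2.eq_iff.1 hee with ⟨h1, h2⟩ | ⟨h1, h2⟩
      · rw [hf ha hc h1, hf hb hd h2]
      · rw [hf ha hd h1, hf hb hc h2, Sym2.eq_swap]

lemma ncard_map_on {f : V → V'} {A : Set V} (hf : InjOn f A) (h : supp F ⊆ A) :
    (Sym2.map f '' F).ncard = F.ncard := (map_injOn hf h).ncard_image

lemma ND.map {f : V → V'} (h : ND F) (hf : InjOn f (supp F)) : ND (Sym2.map f '' F) := by
  rintro _ ⟨e, he, rfl⟩
  induction e using Sym2.ind with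
  | _ a b => exact fun hab => h.ne he (hf ⟨_, he, by simp⟩ ⟨_, he, by simp⟩ hab)

lemma ND.of_map {f : V → V'} (h : ND (Sym2.map f '' F)) : ND F := by
  intro e he
  induction e using Sym2.ind with
  | _ a b => exact fun hab => h.ne (x := f a) (y := f b) ⟨_, he, rfl⟩ (congrArg f hab)

/-- A finite edge set comes from a finite vertex type. -/
lemma exists_pull {A : Set V} (h : supp F ⊆ A) :
    ∃ F₀ : Set (Sym2 A), Sym2.map Subtype.val '' F₀ = F := by
  refine ⟨Sym2.map Subtype.val ⁻¹' F, image_preimage_eq_of_subset fun e he => ?_⟩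
  induction e using Sym2.ind with
  | _ a b => exact ⟨s(⟨a, h ⟨_, he, by simp⟩⟩, ⟨b, h ⟨_, he, by simp⟩⟩), rfl⟩

/-- The number of edges on a finite vertex set. -/
lemma two_mul_le' {A : Set V} (hA : A.Finite) (hF : ND F) (h : supp F ⊆ A) :
    2 * F.ncard + A.ncard ≤ A.ncard * A.ncard := by
  obtain ⟨F₀, rfl⟩ := exists_pull h
  have := hA.to_subtype
  have h1 := two_mul_le (F := F₀) (S := univ) hF.of_map (subset_univ _)
  rw [ncard_univ, Nat.card_coe_set_eq] at h1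
  rwa [ncard_image_of_injective _ (Sym2.map.injective Subtype.val_injective)]

lemma dg_mono (h : F ⊆ F') (hF : F'.Finite) (x : V) : dg F x ≤ dg F' x :=
  ncard_le_ncard (fun _ he => ⟨h he.1, he.2⟩) (hF.subset fun _ he => he.1)

lemma dg_eq_zero {x : V} (h : x ∉ supp F) : dg F x = 0 := by
  rw [dg, show {e | e ∈ F ∧ x ∈ e} = ∅ from eq_empty_of_forall_notMem fun e he =>
    h ⟨e, he.1, he.2⟩, ncard_empty]

lemma mem_supp_of_dg {x : V} (h : dg F x ≠ 0) : x ∈ supp F := by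
  by_contra hn
  exact h (dg_eq_zero hn)

lemma dg_eq_nbr (F : Set (Sym2 V)) (x : V) : dg F x = {y | s(x, y) ∈ F}.ncard := by
  rw [dg, ← ncard_image_of_injective {y | s(x, y) ∈ F} (f := fun y => s(x, y))
    fun _ _ h => Sym2.congr_right.1 h]
  congr 1
  ext e
  constructor
  · rintro ⟨he, hx⟩
    obtain ⟨y, rfl⟩ := Sym2.mem_iff_exists.1 hx
    exact ⟨y, he, rfl⟩
  · rintro ⟨y, hy, rfl⟩
    exact ⟨hy, by simp⟩

lemma Blk.finW {b : Bk V} (h : Blk b) : b.W.Finite :=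
  finite_of_ncard_ne_zero (by rw [h.cW, mm]; omega)

lemma Blk.finA {b : Bk V} (h : Blk b) : b.A.Finite :=
  finite_of_ncard_ne_zero (by rw [h.cA]; omega)

lemma Blk.finB {b : Bk V} (h : Blk b) : b.B.Finite :=
  finite_of_ncard_ne_zero (by rw [h.cB]; omega)

lemma Blk.finE {b : Bk V} (h : Blk b) : b.E.Finite :=
  finite_of_ncard_ne_zero (by rw [h.cE]; omega)

lemma Blk.supp_eq {b : Bk V} (h : Blk b) : supp b.E = b.W ∪ b.A ∪ b.B := by
  refine h.sub.antisymm ?_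
  rintro x ((hx | hx) | hx) <;> refine mem_supp_of_dg ?_
  · rw [h.gW x hx]; omega
  · rw [h.gA x hx, dd]; omega
  · rw [h.gB x hx]; omega

lemma Dep.mono {G : Type} [Group G] {g : ℕ → G} (h : Dep g F) (hF : F ⊆ F') : Dep g F' :=
  h.imp fun _ hC => ⟨hC.1.trans hF, hC.2⟩

/-- Every dependent set contains a minimal one. -/
lemma Dep.exists_min {G : Type} [Group G] {g : ℕ → G} (h : Dep g F) :
    ∃ C ⊆ F, Minimal (Dep g) C := by
  obtain ⟨C, h1, h2⟩ := h
  obtain ⟨C', h3, h4⟩ := MP_1a6d08_co.exists_min (D := Dep g) h2.1 ⟨C, subset_rfl, h2⟩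
  exact ⟨C', h3.trans h1, h4⟩

lemma min_dep {G : Type} [Group G] {g : ℕ → G} {C : Set (Sym2 V)} (h : Minimal (Dep g) C) :
    C.Finite ∧ ND C ∧ C.Nonempty ∧ (4 * (supp C).ncard < C.ncard ∨ (Circ C ∧ Bal g C)) := by
  obtain ⟨C', h1, h2⟩ := h.1
  have : C' = C := h1.antisymm (h.2 ⟨C', subset_rfl, h2⟩ h1)
  exact this ▸ h2

lemma Circ.near {C : Set (Sym2 V)} (h : Circ C) (hf : C.Finite) (hn : ND C) (hne : C.Nonempty) :
    Near C := ⟨hf, hn, hne, h.2, by rw [h.1]; omega⟩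

end General

lemma cd_inj : Function.Injective cd := by
  rintro (⟨a, b⟩ | ⟨a, b⟩) (⟨c, d⟩ | ⟨c, d⟩) h <;> simp only [cd, Sum.elim_inl, Sum.elim_inr] at h
  · obtain ⟨rfl, rfl⟩ := Nat.pair_eq_pair.1 (by omega : Nat.pair a b = Nat.pair c d); rfl
  · omega
  · omega
  · obtain ⟨rfl, rfl⟩ := Nat.pair_eq_pair.1 (by omega : Nat.pair a b = Nat.pair c d); rfl

lemma ec_mk (x y : ℕ) : ec s(x, y) = Nat.pair (min x y) (max x y) := rfl

lemma ec_inj : Function.Injective ec := by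
  intro e e' h
  induction e using Sym2.ind with
  | _ a b =>
    induction e' using Sym2.ind with
    | _ c d =>
      obtain ⟨h1, h2⟩ := Nat.pair_eq_pair.1 h
      rw [Sym2.eq_iff]; omega

lemma mk_mem_EN {N x y : ℕ} : s(x, y) ∈ EN N ↔ x ≠ y ∧ x < N ∧ y < N := by
  simp [EN]

lemma EN_nd (N : ℕ) : ND (EN N) := nd_iff.2 fun _ h => h.1

lemma supp_EN (N : ℕ) : supp (EN N) ⊆ Iio N := fun _ ⟨_, he, hx⟩ => he.2 _ hx

lemma EN_finite (N : ℕ) : (EN N).Finite := finite_of_supp (finite_Iio N) (supp_EN N)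

section Paths

variable (T : ℕ → Set (Sym2 (ℕ × ℕ)))

lemma PE_nil (a : ℕ) : PE T a [] = ∅ := rfl

lemma PE_cons (a : ℕ) (x : Cell) (l : List Cell) :
    PE T a (x :: l) = bE T x.1 a x.2.1 x.2.2 ∪ jE x.2.1 ∪ PE T x.2.1 l := rfl

lemma en_append (a : ℕ) (l l' : List Cell) : en a (l ++ l') = en (en a l) l' := by
  induction l generalizing a with
  | nil => rfl
  | cons x l ih => exact ih _

lemma PE_append (a : ℕ) (l l' : List Cell) :
    PE T a (l ++ l') = PE T a l ∪ PE T (en a l) l' := by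
  induction l generalizing a with
  | nil => exact (empty_union _).symm
  | cons x l ih => rw [List.cons_append, PE_cons, PE_cons, ih, ← union_assoc]; rfl

lemma en_mem (a : ℕ) (l : List Cell) : en a l ∈ a :: js l := by
  induction l generalizing a with
  | nil => exact List.mem_cons_self
  | cons x l ih => exact List.mem_cons_of_mem _ (ih _)

lemma en_mem' (a : ℕ) {l : List Cell} (h : l ≠ []) : en a l ∈ js l := by
  cases l with
  | nil => exact absurd rfl h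
  | cons x l => exact en_mem _ l

lemma jE_subset_PE (a : ℕ) {l : List Cell} {j : ℕ} (h : j ∈ js l) : jE j ⊆ PE T a l := by
  induction l generalizing a with
  | nil => cases h
  | cons x l ih =>
    rcases List.mem_cons.1 h with rfl | h
    · exact subset_union_right.trans subset_union_left
    · exact (ih _ h).trans subset_union_right

lemma wd_append (l l' : List Cell) : wd (l ++ l') = wd l ++ wd l' := List.map_append

lemma js_append (l l' : List Cell) : js (l ++ l') = js l ++ js l' := List.map_append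

lemma cs_append (l l' : List Cell) : cs (l ++ l') = cs l ++ cs l' := List.map_append

lemma disj_jS {a b : ℕ} (h : a ≠ b) : Disjoint (jS a) (jS b) :=
  disjoint_left.2 fun _ ⟨_, _, e⟩ ⟨_, _, e'⟩ => h (by simp_all)

lemma disj_wS {c c' : ℕ} (h : c ≠ c') (s s' : ℕ) : Disjoint (wS s c) (wS s' c') :=
  disjoint_left.2 fun _ ⟨_, _, e⟩ ⟨_, _, e'⟩ => h (by simp_all)

lemma disj_jS_wS (a s c : ℕ) : Disjoint (jS a) (wS s c) :=
  disjoint_left.2 fun _ ⟨_, _, e⟩ ⟨_, _, e'⟩ => by simp_all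

/-- Relabelling of the slots. -/
def sl (σ τ : ℕ → ℕ) : V0 → V0 := Sum.map (Prod.map σ id) (Prod.map τ id)

/-- Relabelling of a step. -/
def slc (σ τ : ℕ → ℕ) (x : Cell) : Cell := (x.1, σ x.2.1, τ x.2.2)

lemma sl_inj {σ τ : ℕ → ℕ} (hσ : Function.Injective σ) (hτ : Function.Injective τ) :
    Function.Injective (sl σ τ) :=
  Sum.map_injective.2 ⟨hσ.prodMap Function.injective_id, hτ.prodMap Function.injective_id⟩

lemma sl_jS (σ τ : ℕ → ℕ) (a : ℕ) : sl σ τ '' jS a = jS (σ a) := by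
  ext x
  exact ⟨fun ⟨_, ⟨i, hi, e⟩, h⟩ => ⟨i, hi, by rw [← h, e]; rfl⟩,
    fun ⟨i, hi, e⟩ => ⟨_, ⟨i, hi, rfl⟩, e.symm⟩⟩

lemma sl_wS (σ τ : ℕ → ℕ) (s c : ℕ) : sl σ τ '' wS s c = wS s (τ c) := by
  ext x
  exact ⟨fun ⟨_, ⟨i, hi, e⟩, h⟩ => ⟨i, hi, by rw [← h, e]; rfl⟩,
    fun ⟨i, hi, e⟩ => ⟨_, ⟨i, hi, rfl⟩, e.symm⟩⟩

lemma sl_jE (σ τ : ℕ → ℕ) (a : ℕ) : Sym2.map (sl σ τ) '' jE a = jE (σ a) := by
  ext x
  exact ⟨fun ⟨_, ⟨i, hi, i', hi', h1, h2, e⟩, h⟩ => ⟨i, hi, i', hi', h1, h2, by rw [← h, e]; rfl⟩,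
    fun ⟨i, hi, i', hi', h1, h2, e⟩ => ⟨_, ⟨i, hi, i', hi', h1, h2, rfl⟩, e.symm⟩⟩

lemma sl_bE (σ τ : ℕ → ℕ) (s a j c : ℕ) :
    Sym2.map (sl σ τ) '' bE T s a j c = bE T s (σ a) (σ j) (τ c) := by
  rw [bE, bE, image_image]
  refine image_congr fun e _ => ?_
  rw [Sym2.map_map]
  congr 1
  funext t
  simp only [Function.comp, pl]
  split_ifs <;> rfl

lemma sl_PE (σ τ : ℕ → ℕ) (a : ℕ) (l : List Cell) :
    Sym2.map (sl σ τ) '' PE T a l = PE T (σ a) (l.map (slc σ τ)) := by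
  induction l generalizing a with
  | nil => exact image_empty _
  | cons x l ih => rw [PE_cons, image_union, image_union, sl_bE, sl_jE, ih]; rfl

/-- Two lists without repetition of the same length differ by a permutation. -/
lemma exists_perm_list {u v : List ℕ} (hu : u.Nodup) (hv : v.Nodup) (h : u.length = v.length) :
    ∃ σ : Equiv.Perm ℕ, u.map σ = v := by
  obtain ⟨σ, hσ⟩ := Equiv.Perm.exists_extending_pair (f := u.get)
    (g := fun i => v.get (Fin.cast h i)) (List.nodup_iff_injective_get.1 hu)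
    ((List.nodup_iff_injective_get.1 hv).comp (Fin.cast_injective h))
  refine ⟨σ, List.ext_getElem (by simpa using h) fun i h1 h2 => ?_⟩
  rw [List.getElem_map]
  exact hσ ⟨i, by simpa using h1⟩

lemma eq_map_slc {σ τ : ℕ → ℕ} {l l' : List Cell} (h1 : wd l = wd l') (h2 : (js l).map σ = js l')
    (h3 : (cs l).map τ = cs l') : l.map (slc σ τ) = l' := by
  induction l generalizing l' with
  | nil => cases l' with
    | nil => rfl
    | cons x l' => cases h1
  | cons x l ih => cases l' with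
    | nil => cases h1
    | cons y l' =>
      simp only [wd, js, cs, List.map_cons, List.cons.injEq] at h1 h2 h3
      rw [List.map_cons, ih h1.2 h2.2 h3.2]
      congr 1
      exact Prod.ext h1.1 (Prod.ext h2.1 h3.1)

end Paths

end Pool.Agent.MP_1a6d08_co.Und

end MrgPart1

-- ======== part 2: formerly Pool.Agent.MP_1a6d08_co.und.SpecB
section MrgPart2

/-!
The upper bound: statements.
-/

namespace Pool.Agent.MP_1a6d08_co.Und

/-- Row CHAR: compactness. -/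
def CharStmt : Prop :=
  ∀ (α : Type) (M : Matroid α), M.E.Finite →
    (InClass M → ∀ n, 2 * M.E.ncard < n → Fits M n) ∧
      ∀ k, (∀ n, k < n → Fits M n) → InClass M

/-- Row FIT: the finite condition can be checked on codes. -/
def FitStmt : Prop :=
  ∃ Fc : (List ℕ × List (List ℕ)) × ℕ → Prop, PrimrecPred Fc ∧
    ∀ c M n, Codes c M → 0 < n → (Fc (c, n) ↔ Fits M n)

end Pool.Agent.MP_1a6d08_co.Und

end MrgPart2

-- ======== part 3: formerly Pool.Agent.MP_1a6d08_co.und.Cyc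
section MrgPart3

/-!
The code of a cycle is a primitive recursive function of its word; projections of recursively
enumerable predicates.
-/

open Set

namespace Pool.Agent.MP_1a6d08_co.Und

namespace CycP

/-- The template of a joint. -/
def J0 : Set (Sym2 (ℕ × ℕ)) :=
  {e | ∃ i < 9, ∃ i' < 9, i ≠ i' ∧ s(i, i') ≠ s(0, 1) ∧ e = s(((1, i) : ℕ × ℕ), (1, i'))}

lemma J0_finite : J0.Finite := by
  refine finite_of_supp (A := ({1} : Set ℕ) ×ˢ Iio 9) ((finite_singleton 1).prod (finite_Iio 9)) ?_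
  rintro x ⟨e, ⟨i, hi, i', hi', -, -, rfl⟩, hx⟩
  rcases Sym2.mem_iff.1 hx with rfl | rfl
  · exact ⟨rfl, hi⟩
  · exact ⟨rfl, hi'⟩

lemma map_J0 (a j c : ℕ) : Sym2.map (pl a j c) '' J0 = jE j := by
  ext x
  exact ⟨fun ⟨_, ⟨i, hi, i', hi', h1, h2, e⟩, h⟩ => ⟨i, hi, i', hi', h1, h2, by rw [← h, e]; rfl⟩,
    fun ⟨i, hi, i', hi', h1, h2, e⟩ => ⟨_, ⟨i, hi, i', hi', h1, h2, rfl⟩, e.symm⟩⟩

lemma exists_list {F : Set (Sym2 (ℕ × ℕ))} (h : F.Finite) :
    ∃ l : List ((ℕ × ℕ) × (ℕ × ℕ)), ∀ e, e ∈ F ↔ ∃ p ∈ l, e = s(p.1, p.2) := by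
  refine ⟨h.toFinset.toList.map fun e => e.out, fun e => ⟨fun he => ⟨e.out, ?_, e.out_eq.symm⟩, ?_⟩⟩
  · exact List.mem_map.2 ⟨e, by simpa using he, rfl⟩
  · rintro ⟨p, hp, rfl⟩
    obtain ⟨e, he, rfl⟩ := List.mem_map.1 hp
    have : s(e.out.1, e.out.2) = e := e.out_eq
    rw [this]
    simpa using he

/-- The number of a placed template vertex. -/
def cp (a j c : ℕ) (t : ℕ × ℕ) : ℕ :=
  if t.1 = 0 then 2 * Nat.pair a t.2 else if t.1 = 1 then 2 * Nat.pair j t.2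
  else 2 * Nat.pair c t.2 + 1

lemma cd_pl (a j c : ℕ) (t : ℕ × ℕ) : cd (pl a j c t) = cp a j c t := by
  unfold pl cp
  split_ifs <;> rfl

lemma prim_cp {α : Type} [Primcodable α] {a j c : α → ℕ} {t : α → ℕ × ℕ} (ha : Primrec a)
    (hj : Primrec j) (hc : Primrec c) (ht : Primrec t) :
    Primrec fun x => cp (a x) (j x) (c x) (t x) := by
  have h1 := Primrec.fst.comp ht
  have h2 := Primrec.snd.comp ht
  exact Primrec.ite (Primrec.eq.comp h1 (Primrec.const 0))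
    (Primrec.nat_mul.comp (Primrec.const 2) (Primrec₂.natPair.comp ha h2))
    (Primrec.ite (Primrec.eq.comp h1 (Primrec.const 1))
      (Primrec.nat_mul.comp (Primrec.const 2) (Primrec₂.natPair.comp hj h2))
      (Primrec.succ.comp (Primrec.nat_mul.comp (Primrec.const 2) (Primrec₂.natPair.comp hc h2))))

/-- The number of a placed template edge. -/
def ce (a j c : ℕ) (p : (ℕ × ℕ) × (ℕ × ℕ)) : ℕ :=
  Nat.pair (min (cp a j c p.1) (cp a j c p.2)) (max (cp a j c p.1) (cp a j c p.2))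

lemma ec_pl (a j c : ℕ) (p : (ℕ × ℕ) × (ℕ × ℕ)) :
    ec (Sym2.map cd (Sym2.map (pl a j c) s(p.1, p.2))) = ce a j c p := by
  rw [Sym2.map_mk, Sym2.map_mk, ec_mk, cd_pl, cd_pl]
  rfl

lemma prim_ce {α : Type} [Primcodable α] {a j c : α → ℕ} {p : α → (ℕ × ℕ) × (ℕ × ℕ)}
    (ha : Primrec a) (hj : Primrec j) (hc : Primrec c) (hp : Primrec p) :
    Primrec fun x => ce (a x) (j x) (c x) (p x) := by
  have h1 := prim_cp ha hj hc (Primrec.fst.comp hp)
  have h2 := prim_cp ha hj hc (Primrec.snd.comp hp)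
  exact Primrec₂.natPair.comp (Primrec.nat_min.comp h1 h2) (Primrec.nat_max.comp h1 h2)

/-- The list of numbers of the edges of the cycle with word `y`. -/
def U (TB : List (List ((ℕ × ℕ) × (ℕ × ℕ)))) (y : List ℕ) : List ℕ :=
  (List.range y.length).flatMap fun i =>
    (TB.getD (y.getD i 0) []).map (ce (i % y.length) ((i + 1) % y.length) i)

lemma prim_U (TB : List (List ((ℕ × ℕ) × (ℕ × ℕ)))) : Primrec (U TB) := by
  refine Primrec.list_flatMap (Primrec.list_range.comp Primrec.list_length) (Primrec₂.mk ?_)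
  refine Primrec.list_map ((Primrec.list_getD []).comp (Primrec.const TB)
    ((Primrec.list_getD 0).comp Primrec.fst Primrec.snd)) (Primrec₂.mk ?_)
  have hi : Primrec fun x : (List ℕ × ℕ) × ((ℕ × ℕ) × (ℕ × ℕ)) => x.1.2 :=
    Primrec.snd.comp Primrec.fst
  have hl : Primrec fun x : (List ℕ × ℕ) × ((ℕ × ℕ) × (ℕ × ℕ)) => x.1.1.length :=
    Primrec.list_length.comp (Primrec.fst.comp Primrec.fst)
  exact prim_ce (Primrec.nat_mod.comp hi hl) (Primrec.nat_mod.comp (Primrec.succ.comp hi) hl) hi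
    Primrec.snd

variable (T : ℕ → Set (Sym2 (ℕ × ℕ)))

lemma en_range (w h : ℕ → ℕ) (s n : ℕ) :
    en (h s) ((List.range' s n).map fun i => (w i, h (i + 1), i)) = h (s + n) := by
  induction n generalizing s with
  | zero => rfl
  | succ n ih =>
    rw [List.range'_succ, List.map_cons, show s + (n + 1) = s + 1 + n by omega]
    exact ih (s + 1)

lemma mem_PE_range (w h : ℕ → ℕ) (s n : ℕ) (e : Sym2 V0) :
    e ∈ PE T (h s) ((List.range' s n).map fun i => (w i, h (i + 1), i)) ↔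
      ∃ i, s ≤ i ∧ i < s + n ∧ e ∈ Sym2.map (pl (h i) (h (i + 1)) i) '' (T (w i) ∪ J0) := by
  induction n generalizing s with
  | zero => exact ⟨fun h => h.elim, fun ⟨i, h1, h2, _⟩ => by omega⟩
  | succ n ih =>
    rw [List.range'_succ, List.map_cons, PE_cons, mem_union, ih (s + 1), bE,
      ← map_J0 (h s) (h (s + 1)) s, ← image_union]
    constructor
    · rintro (h1 | ⟨i, h1, h2, h3⟩)
      · exact ⟨s, le_rfl, by omega, h1⟩
      · exact ⟨i, by omega, by omega, h3⟩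
    · rintro ⟨i, h1, h2, h3⟩
      rcases h1.eq_or_lt with rfl | h1
      · exact Or.inl h3
      · exact Or.inr ⟨i, h1, by omega, h3⟩

lemma re_exists {α β : Type} [Primcodable α] [Primcodable β] {R : α → β → Prop}
    (h : ComputablePred fun p : α × β => R p.1 p.2) : REPred fun a => ∃ b, R a b := by
  classical
  have h1 : Computable₂ fun (a : α) (m : ℕ) =>
      ((Encodable.decode (α := β) m).map fun b => decide (R a b)).getD false :=
    Computable.option_getD (Computable.option_map (Computable.decode.comp Computable.snd)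
      (h.decide.comp ((Computable.fst.comp Computable.fst).pair Computable.snd)).to₂)
      (Computable.const false)
  refine (Partrec.rfind h1.partrec₂).dom_re.of_eq fun a => ?_
  rw [Nat.rfind_dom]
  constructor
  · rintro ⟨m, hm, -⟩
    rcases hd : Encodable.decode (α := β) m with _ | b
    · simp [hd] at hm
    · exact ⟨b, by simpa [hd] using hm⟩
  · rintro ⟨b, hb⟩
    exact ⟨Encodable.encode b, by simp [hb], fun _ => trivial⟩

end CycP

open CycP

theorem cycCode (_hp : PlaceStmt) : CycStmt := by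
  intro T L hT
  have hf : ∀ s, (T s ∪ J0).Finite := fun s => (hT s).finE.union J0_finite
  choose TL hTL using fun s => exists_list (hf s)
  refine ⟨U ((List.range L).map TL), prim_U _, fun y hy h2 => ?_⟩
  have hk : 0 = 0 % y.length := (Nat.zero_mod _).symm
  have hm := mem_PE_range T (fun i => y.getD i 0) (fun i => i % y.length) 0 y.length
  refine ⟨0 % y.length, (List.range' 0 y.length).map fun i => (y.getD i 0, (i + 1) % y.length, i),
    ?_, ⟨?_, ?_, ?_, ?_⟩, ?_, ?_⟩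
  · refine List.ext_getElem (by simp [wd]) fun i h1 h3 => ?_
    simp [wd, h3]
  · rw [js, List.map_map]
    refine List.Nodup.map_on (fun i hi j hj hij => ?_) List.nodup_range'
    simp only [List.mem_range'_1] at hi hj
    simp only [Function.comp] at hij
    rcases Nat.lt_or_ge (i + 1) y.length with a | a <;>
      rcases Nat.lt_or_ge (j + 1) y.length with b | b
    · rw [Nat.mod_eq_of_lt a, Nat.mod_eq_of_lt b] at hij; omega
    · rw [Nat.mod_eq_of_lt a, show j + 1 = y.length by omega, Nat.mod_self] at hij; omega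
    · rw [Nat.mod_eq_of_lt b, show i + 1 = y.length by omega, Nat.mod_self] at hij; omega
    · omega
  · rw [cs, List.map_map]
    exact List.Nodup.map_on (fun i _ j _ hij => hij) List.nodup_range'
  · rw [en_range (fun i => y.getD i 0) (fun i => i % y.length) 0 y.length]
    simp
  · simpa using h2
  · refine ((finite_Iio y.length).biUnion fun i _ =>
      (hf (y.getD i 0)).image (Sym2.map (pl (i % y.length) ((i + 1) % y.length) i))).subset ?_
    intro e he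
    obtain ⟨i, -, h3, h4⟩ := (hm e).1 he
    exact mem_biUnion (show i ∈ Iio y.length by simpa using h3) h4
  · have hg : ∀ i < y.length, ((List.range L).map TL).getD (y.getD i 0) [] = TL (y.getD i 0) := by
      intro i hi
      have : y.getD i 0 < L := hy _ (by simp [hi])
      rw [List.getD_eq_getElem _ _ (by simpa using this)]
      simp
    ext k
    simp only [mem_ofPred_eq, U, List.mem_flatMap, List.mem_range, List.mem_map]
    constructor
    · rintro ⟨i, hi, p, hp, rfl⟩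
      rw [hg i hi] at hp
      exact ⟨_, ⟨_, (hm _).2 ⟨i, Nat.zero_le _, by omega, _, (hTL _ _).2 ⟨p, hp, rfl⟩, rfl⟩, rfl⟩,
        ec_pl _ _ _ p⟩
    · rintro ⟨_, ⟨e, he, rfl⟩, rfl⟩
      obtain ⟨i, -, h3, e', h4, rfl⟩ := (hm e).1 he
      obtain ⟨p, hp, rfl⟩ := (hTL _ _).1 h4
      exact ⟨i, by omega, p, by rw [hg i (by omega)]; exact hp, (ec_pl _ _ _ p).symm⟩

theorem reProj : ReStmt := by
  intro α β γ _ _ _ p f C hp hf hC
  classical
  obtain ⟨c, hc⟩ := Nat.Partrec.Code.exists_code.1 hp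
  have h1 : ∀ x, p x ↔ ∃ k, (Nat.Partrec.Code.evaln k c (Encodable.encode x)).isSome = true := by
    intro x
    have h2 : (c.eval (Encodable.encode x)).Dom ↔ p x := by
      rw [hc]
      simp [Part.assert]
    rw [← h2, Part.dom_iff_mem]
    simp only [Nat.Partrec.Code.evaln_complete, Option.isSome_iff_exists]
    exact ⟨fun ⟨y, k, h⟩ => ⟨k, y, h⟩, fun ⟨k, y, h⟩ => ⟨y, k, h⟩⟩
  have h3 : Primrec fun q : α × (β × ℕ) =>
      (Nat.Partrec.Code.evaln q.2.2 c (Encodable.encode (f q.2.1))).isSome :=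
    Primrec.option_isSome.comp (Nat.Partrec.Code.primrec_evaln.comp
      (((Primrec.snd.comp Primrec.snd).pair (Primrec.const c)).pair
        (Primrec.encode.comp (hf.comp (Primrec.fst.comp Primrec.snd)))))
  have h4 : Primrec fun q : α × (β × ℕ) => decide (C (q.1, q.2.1)) :=
    hC.decide.comp (Primrec.fst.pair (Primrec.fst.comp Primrec.snd))
  have h5 : ComputablePred fun q : α × (β × ℕ) =>
      (Nat.Partrec.Code.evaln q.2.2 c (Encodable.encode (f q.2.1))).isSome = true ∧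
        C (q.1, q.2.1) :=
    Computable.computablePred ((Primrec.and.comp h3 h4).to_comp.of_eq fun q => by simp)
  refine (re_exists (R := fun a (q : β × ℕ) =>
    (Nat.Partrec.Code.evaln q.2 c (Encodable.encode (f q.1))).isSome = true ∧ C (a, q.1))
    h5).of_eq fun a => ?_
  constructor
  · rintro ⟨⟨b, k⟩, h6, h7⟩
    exact ⟨b, (h1 _).2 ⟨k, h6⟩, h7⟩
  · rintro ⟨b, h6, h7⟩
    obtain ⟨k, hk⟩ := (h1 _).1 h6
    exact ⟨(b, k), hk, h7⟩

end Pool.Agent.MP_1a6d08_co.Und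

end MrgPart3

-- ======== part 4: formerly Pool.Agent.MP_1a6d08_co.und.Fit
section MrgPart4

/-!
The finite condition can be checked on codes.
-/

open Set

namespace Pool.Agent.MP_1a6d08_co.Und

namespace FitP

section prim

variable {α β γ : Type} [Primcodable α] [Primcodable β] [Primcodable γ]

/-- A copy of `Primrec`. -/
@[fun_prop] def PR (f : α → β) : Prop := Primrec f

@[fun_prop] lemma p_id : PR (fun x : α => x) := Primrec.id

@[fun_prop] lemma p_const (c : β) : PR (fun _ : α => c) := Primrec.const c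

@[fun_prop] lemma p_comp {f : β → γ} {g : α → β} (hf : PR f) (hg : PR g) :
    PR fun a => f (g a) := Primrec.comp hf hg

@[fun_prop] lemma p_pair {f : α → β} {g : α → γ} (hf : PR f) (hg : PR g) :
    PR fun a => (f a, g a) := Primrec.pair hf hg

@[fun_prop] lemma p_fst {f : α → β × γ} (hf : PR f) : PR fun a => (f a).1 :=
  Primrec.fst.comp hf

@[fun_prop] lemma p_snd {f : α → β × γ} (hf : PR f) : PR fun a => (f a).2 :=
  Primrec.snd.comp hf

@[fun_prop] lemma p_add {f g : α → ℕ} (hf : PR f) (hg : PR g) :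
    PR fun a => f a + g a := Primrec.nat_add.comp hf hg

@[fun_prop] lemma p_mul {f g : α → ℕ} (hf : PR f) (hg : PR g) :
    PR fun a => f a * g a := Primrec.nat_mul.comp hf hg

@[fun_prop] lemma p_pow {f g : α → ℕ} (hf : PR f) (hg : PR g) :
    PR fun a => f a ^ g a := (Primrec₂.unpaired'.1 Nat.Primrec.pow).comp hf hg

@[fun_prop] lemma p_sum {f : α → List ℕ} (hf : PR f) : PR fun a => (f a).sum :=
  (Primrec.list_foldr (h := fun _ p => p.1 + p.2) hf (Primrec.const 0)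
    (Primrec.nat_add.comp (Primrec.fst.comp Primrec.snd) (Primrec.snd.comp Primrec.snd)).to₂).of_eq
    fun _ => List.sum_eq_foldr.symm

lemma pp_eq {f g : α → ℕ} (hf : PR f) (hg : PR g) : PrimrecPred fun a => f a = g a :=
  Primrec.eq.comp hf hg

lemma pp_and {p q : α → Prop} (hp : PrimrecPred p) (hq : PrimrecPred q) :
    PrimrecPred fun a => p a ∧ q a := hp.and hq

lemma pp_or {p q : α → Prop} (hp : PrimrecPred p) (hq : PrimrecPred q) :
    PrimrecPred fun a => p a ∨ q a := hp.or hq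

lemma pp_not {p : α → Prop} (hp : PrimrecPred p) : PrimrecPred fun a => ¬p a := hp.not

lemma pp_imp {p q : α → Prop} (hp : PrimrecPred p) (hq : PrimrecPred q) :
    PrimrecPred fun a => p a → q a := (hp.not.or hq).of_eq fun _ => imp_iff_not_or.symm

lemma pp_iff {p q : α → Prop} (hp : PrimrecPred p) (hq : PrimrecPred q) :
    PrimrecPred fun a => p a ↔ q a :=
  ((pp_imp hp hq).and (pp_imp hq hp)).of_eq fun _ => iff_iff_implies_and_implies.symm

lemma pp_allm {f : α → List β} {p : α → β → Prop} (hf : PR f)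
    (hp : PrimrecPred fun x : α × β => p x.1 x.2) : PrimrecPred fun a => ∀ i ∈ f a, p a i := by
  have h : PrimrecRel fun (i : β) (a : α) => p a i :=
    hp.comp (f := fun x : β × α => (x.2, x.1)) (Primrec.snd.pair Primrec.fst)
  exact h.forall_mem_list.comp hf Primrec.id

lemma pp_exm {f : α → List β} {p : α → β → Prop} (hf : PR f)
    (hp : PrimrecPred fun x : α × β => p x.1 x.2) : PrimrecPred fun a => ∃ i ∈ f a, p a i := by
  have h : PrimrecRel fun (i : β) (a : α) => p a i :=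
    hp.comp (f := fun x : β × α => (x.2, x.1)) (Primrec.snd.pair Primrec.fst)
  exact h.exists_mem_list.comp hf Primrec.id

lemma pp_all {f : α → ℕ} {p : α → ℕ → Prop} (hf : PR f)
    (hp : PrimrecPred fun x : α × ℕ => p x.1 x.2) : PrimrecPred fun a => ∀ i < f a, p a i :=
  (pp_allm (Primrec.list_range.comp hf) hp).of_eq (by simp)

lemma pp_ex {f : α → ℕ} {p : α → ℕ → Prop} (hf : PR f)
    (hp : PrimrecPred fun x : α × ℕ => p x.1 x.2) : PrimrecPred fun a => ∃ i < f a, p a i :=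
  (pp_exm (Primrec.list_range.comp hf) hp).of_eq (by simp)

/-- Digits. -/
def di (m a i : ℕ) : ℕ := a / m ^ i % m

/-- The code of an unordered pair. -/
def pc (x y : ℕ) : ℕ := Nat.pair (min x y) (max x y)

/-- A transposition. -/
def sw (x y u : ℕ) : ℕ := if u = x then y else if u = y then x else u

@[fun_prop] lemma p_di {f g h : α → ℕ} (hf : PR f) (hg : PR g) (hh : PR h) :
    PR fun a => di (f a) (g a) (h a) :=
  Primrec.nat_mod.comp (Primrec.nat_div.comp hg (p_pow hf hh)) hf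

@[fun_prop] lemma p_pc {f g : α → ℕ} (hf : PR f) (hg : PR g) : PR fun a => pc (f a) (g a) :=
  Primrec₂.natPair.comp (Primrec.nat_min.comp hf hg) (Primrec.nat_max.comp hf hg)

@[fun_prop] lemma p_sw {f g h : α → ℕ} (hf : PR f) (hg : PR g) (hh : PR h) :
    PR fun a => sw (f a) (g a) (h a) :=
  Primrec.ite (pp_eq hh hf) hg (Primrec.ite (pp_eq hh hg) hf hh)

/-- Binary digits. -/
def bit (a i : ℕ) : Prop := di 2 a i = 1

lemma pp_bit {f g : α → ℕ} (hf : PR f) (hg : PR g) : PrimrecPred fun a => bit (f a) (g a) :=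
  pp_eq (by fun_prop) (by fun_prop)

/-- Inclusion of coded edge sets. -/
def sb (n a a' : ℕ) : Prop := ∀ u < n, ∀ v < n, bit a (pc u v) → bit a' (pc u v)

lemma pp_sb {f g h : α → ℕ} (hf : PR f) (hg : PR g) (hh : PR h) :
    PrimrecPred fun a => sb (f a) (g a) (h a) :=
  pp_all hf (pp_all (by fun_prop) (pp_imp (pp_bit (by fun_prop) (by fun_prop))
    (pp_bit (by fun_prop) (by fun_prop))))

/-- The coded edge set lies in the image of the list. -/
def im (n g g' a : ℕ) (l : List ℕ) : Prop :=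
  ∀ x < n, ∀ y < n, bit a (pc x y) → ∃ k ∈ l, pc (di n g k) (di n g' k) = pc x y

lemma pp_im {f g g' h : α → ℕ} {l : α → List ℕ} (hf : PR f) (hg : PR g) (hg' : PR g') (hh : PR h)
    (hl : PR l) : PrimrecPred fun a => im (f a) (g a) (g' a) (h a) (l a) :=
  pp_all hf (pp_all (by fun_prop) (pp_imp (pp_bit (by fun_prop) (by fun_prop))
    (pp_exm (by fun_prop) (pp_eq (by fun_prop) (by fun_prop)))))

end prim

/-- The axioms of the family of independent sets, on codes. -/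
def Cl (n b : ℕ) : Prop :=
  (∃ a < 2 ^ (n * n), bit b a) ∧
  (∀ a < 2 ^ (n * n), bit b a → ∀ x < n, ¬bit a (pc x x)) ∧
  (∀ a < 2 ^ (n * n), ∀ a' < 2 ^ (n * n), ∀ x < n, ∀ y < n, bit b a →
    (∀ u < n, ∀ v < n, bit a' (pc u v) → bit a (pc (sw x y u) (sw x y v))) → bit b a') ∧
  (∀ a < 2 ^ (n * n), ∀ a' < 2 ^ (n * n), bit b a →
    (∃ t < 2 ^ (n * n), bit b t ∧ sb n a t ∧ ¬sb n t a) → bit b a' →
    (∀ t < 2 ^ (n * n), bit b t → sb n a' t → sb n t a') →
    ∃ t < 2 ^ (n * n), bit b t ∧ sb n a t ∧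
      ∃ u < n, ∃ v < n, bit a' (pc u v) ∧ ¬bit a (pc u v) ∧ bit t (pc u v)) ∧
  ∀ a < 2 ^ (n * n), ∀ a' < 2 ^ (n * n), ∀ t < 2 ^ (n * n), bit b a → bit b a' →
    (∀ x < n, ∀ y < n, ∀ z < n, bit a (pc x y) → ¬bit a' (pc x z)) →
    (∀ u < n, ∀ v < n, bit t (pc u v) → bit a (pc u v) ∨ bit a' (pc u v)) → bit b t

/-- The conditions on the embedding, on codes. -/
def Fm (c : List ℕ × List (List ℕ)) (n b g g' : ℕ) : Prop :=
  (∀ k ∈ c.1, ∀ k' ∈ c.1, pc (di n g k) (di n g' k) = pc (di n g k') (di n g' k') → k = k') ∧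
  (∀ k ∈ c.1, ¬di n g k = di n g' k) ∧
  ∀ a < 2 ^ (n * n), ((∃ l ∈ c.2, (∀ k ∈ l, bit a (pc (di n g k) (di n g' k))) ∧ im n g g' a l) ↔
    (bit b a ∧ im n g g' a c.1))

/-- The condition on codes. -/
def Fc (x : (List ℕ × List (List ℕ)) × ℕ) : Prop :=
  ∃ b < 2 ^ 2 ^ (x.2 * x.2), Cl x.2 b ∧ ∃ g < x.2 ^ (x.1.1.sum + 1),
    ∃ g' < x.2 ^ (x.1.1.sum + 1), Fm x.1 x.2 b g g'

lemma pp_Cl : PrimrecPred fun x : ℕ × ℕ => Cl x.1 x.2 := by
  unfold Cl
  repeat' with_reducible first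
    | apply pp_and | apply pp_or | apply pp_not | apply pp_all | apply pp_ex | apply pp_imp
    | apply pp_bit | apply pp_sb | fun_prop

lemma pp_Fm : PrimrecPred fun x : ((List ℕ × List (List ℕ)) × ℕ) × ℕ × ℕ × ℕ =>
    Fm x.1.1 x.1.2 x.2.1 x.2.2.1 x.2.2.2 := by
  unfold Fm
  repeat' with_reducible first
    | apply pp_and | apply pp_not | apply pp_iff | apply pp_all | apply pp_allm | apply pp_exm
    | apply pp_imp | apply pp_bit | apply pp_im | apply pp_eq | fun_prop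

lemma pp_Fc : PrimrecPred Fc := by
  refine pp_ex (by fun_prop) (pp_and ?_ (pp_ex (by fun_prop) (pp_ex (by fun_prop) ?_)))
  · exact pp_Cl.comp (f := fun x : ((List ℕ × List (List ℕ)) × ℕ) × ℕ => (x.1.2, x.2))
      (by fun_prop : PR _)
  · exact pp_Fm.comp (f := fun x : ((((List ℕ × List (List ℕ)) × ℕ) × ℕ) × ℕ) × ℕ =>
      (x.1.1.1, x.1.1.2, x.1.2, x.2)) (by fun_prop : PR _)

lemma exists_di {m : ℕ} (N : ℕ) (f : ℕ → Fin m) : ∃ a < m ^ N, ∀ i < N, di m a i = f i := by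
  refine ⟨finFunctionFinEquiv fun i : Fin N => f i, Fin.is_lt _, fun i hi => ?_⟩
  exact congrArg Fin.val (congrFun (finFunctionFinEquiv.symm_apply_apply fun i : Fin N => f i)
    ⟨i, hi⟩)

lemma exists_bit (N : ℕ) (p : ℕ → Prop) : ∃ a < 2 ^ N, ∀ i < N, (bit a i ↔ p i) := by
  classical
  obtain ⟨a, h1, h2⟩ := exists_di N fun i => if p i then (1 : Fin 2) else 0
  refine ⟨a, h1, fun i hi => ?_⟩
  rw [bit, h2 i hi]
  by_cases h : p i <;> simp [h]

variable {n : ℕ}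

/-- The edge set with a given code. -/
def S (n a : ℕ) : Set (Sym2 (Fin n)) := {e | bit a (ec (e.map Fin.val))}

lemma code_inj : Function.Injective fun e : Sym2 (Fin n) => ec (e.map Fin.val) :=
  ec_inj.comp (Sym2.map.injective Fin.val_injective)

lemma S_surj (T : Set (Sym2 (Fin n))) : ∃ a < 2 ^ (n * n), S n a = T := by
  obtain ⟨a, h1, h2⟩ := exists_bit (n * n) fun i => ∃ e ∈ T, ec (e.map Fin.val) = i
  refine ⟨a, h1, Set.ext fun e => (h2 _ ?_).trans
    ⟨fun ⟨e', he, h⟩ => code_inj h ▸ he, fun h => ⟨e, h, rfl⟩⟩⟩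
  induction e using Sym2.ind with
  | _ x y =>
    refine (Nat.pair_lt_max_add_one_sq (min (x : ℕ) y) (max (x : ℕ) y)).trans_le ?_
    rw [← sq]
    have := x.2
    have := y.2
    exact Nat.pow_le_pow_left (by omega) 2

lemma allS {p : ℕ → Prop} {q : Set (Sym2 (Fin n)) → Prop}
    (h : ∀ a < 2 ^ (n * n), p a ↔ q (S n a)) : (∀ a < 2 ^ (n * n), p a) ↔ ∀ T, q T := by
  refine ⟨fun hp T => ?_, fun hq a ha => (h a ha).2 (hq _)⟩
  obtain ⟨a, ha, rfl⟩ := S_surj T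
  exact (h a ha).1 (hp a ha)

lemma exS {p : ℕ → Prop} {q : Set (Sym2 (Fin n)) → Prop}
    (h : ∀ a < 2 ^ (n * n), p a ↔ q (S n a)) : (∃ a < 2 ^ (n * n), p a) ↔ ∃ T, q T := by
  refine ⟨fun ⟨a, ha, hp⟩ => ⟨_, (h a ha).1 hp⟩, fun ⟨T, hT⟩ => ?_⟩
  obtain ⟨a, ha, rfl⟩ := S_surj T
  exact ⟨a, ha, (h a ha).2 hT⟩

lemma allF {p : ℕ → Prop} {q : Fin n → Prop} (h : ∀ x : Fin n, p x ↔ q x) :
    (∀ x < n, p x) ↔ ∀ x, q x :=
  ⟨fun hp x => (h x).1 (hp x x.2), fun hq x hx => (h ⟨x, hx⟩).2 (hq _)⟩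

lemma allE {p : ℕ → ℕ → Prop} {q : Sym2 (Fin n) → Prop}
    (h : ∀ x y : Fin n, p x y ↔ q s(x, y)) : (∀ x < n, ∀ y < n, p x y) ↔ ∀ e, q e :=
  (allF fun x => allF fun y => h x y).trans Sym2.forall.symm

lemma exE {p : ℕ → ℕ → Prop} {q : Sym2 (Fin n) → Prop}
    (h : ∀ x y : Fin n, p x y ↔ q s(x, y)) : (∃ x < n, ∃ y < n, p x y) ↔ ∃ e, q e := by
  refine ⟨fun ⟨x, hx, y, hy, hp⟩ => ⟨_, (h ⟨x, hx⟩ ⟨y, hy⟩).1 hp⟩, fun ⟨e, he⟩ => ?_⟩
  induction e using Sym2.ind with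
  | _ x y => exact ⟨x, x.2, y, y.2, (h x y).2 he⟩

lemma sb_iff {a a' : ℕ} : sb n a a' ↔ S n a ⊆ S n a' := allE fun _ _ => Iff.rfl

lemma sw_val (x y u : Fin n) : sw x y u = Equiv.swap x y u := by
  simp only [sw, Equiv.swap_apply_def, Fin.val_inj]
  split_ifs <;> rfl

/-- The axioms of the family of independent sets. -/
def El (J : Set (Sym2 (Fin n)) → Prop) : Prop :=
  (∃ T, J T) ∧ (∀ T, J T → ∀ x, s(x, x) ∉ T) ∧
  (∀ T T' (x y : Fin n), J T → (∀ e, e ∈ T' → Sym2.map (Equiv.swap x y) e ∈ T) → J T') ∧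
  (∀ T T', J T → (∃ U, J U ∧ T ⊆ U ∧ ¬U ⊆ T) → J T' → (∀ U, J U → T' ⊆ U → U ⊆ T') →
    ∃ U, J U ∧ T ⊆ U ∧ ∃ e, e ∈ T' ∧ e ∉ T ∧ e ∈ U) ∧
  ∀ T T' U, J T → J T' → (∀ x y z, s(x, y) ∈ T → s(x, z) ∉ T') →
    (∀ e, e ∈ U → e ∈ T ∨ e ∈ T') → J U

lemma cl_iff {b : ℕ} {J : Set (Sym2 (Fin n)) → Prop}
    (hb : ∀ a < 2 ^ (n * n), bit b a ↔ J (S n a)) : Cl n b ↔ El J := by
  refine and_congr (exS hb) (and_congr (allS fun a ha => imp_congr (hb a ha)
    (allF fun _ => Iff.rfl)) (and_congr ?_ (and_congr ?_ ?_)))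
  · refine allS fun a ha => allS fun a' ha' => allF fun x => allF fun y =>
      imp_congr (hb a ha) (imp_congr (allE fun u v => ?_) (hb a' ha'))
    rw [sw_val, sw_val]
    rfl
  · exact allS fun a ha => allS fun a' ha' => imp_congr (hb a ha) (imp_congr
      (exS fun t ht => and_congr (hb t ht) (and_congr sb_iff (not_congr sb_iff)))
      (imp_congr (hb a' ha') (imp_congr
        (allS fun t ht => imp_congr (hb t ht) (imp_congr sb_iff sb_iff))
        (exS fun t ht => and_congr (hb t ht) (and_congr sb_iff (exE fun _ _ => Iff.rfl))))))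
  · exact allS fun a ha => allS fun a' ha' => allS fun t ht => imp_congr (hb a ha)
      (imp_congr (hb a' ha') (imp_congr (allF fun _ => allF fun _ => allF fun _ => Iff.rfl)
        (imp_congr (allE fun _ _ => Iff.rfl) (hb t ht))))

/-- The conditions on the embedding. -/
def Em (c : List ℕ × List (List ℕ)) (J : Set (Sym2 (Fin n)) → Prop) (f : ℕ → Sym2 (Fin n)) :
    Prop :=
  (∀ k ∈ c.1, ∀ k' ∈ c.1, f k = f k' → k = k') ∧ (∀ k ∈ c.1, ¬(f k).IsDiag) ∧
  ∀ T, ((∃ l ∈ c.2, (∀ k ∈ l, f k ∈ T) ∧ ∀ e, e ∈ T → ∃ k ∈ l, f k = e) ↔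
    (J T ∧ ∀ e, e ∈ T → ∃ k ∈ c.1, f k = e))

/-- The map with given codes. -/
def fn (hn : 0 < n) (g g' k : ℕ) : Sym2 (Fin n) :=
  s(⟨di n g k, Nat.mod_lt _ hn⟩, ⟨di n g' k, Nat.mod_lt _ hn⟩)

lemma im_iff (hn : 0 < n) {g g' a : ℕ} {l : List ℕ} :
    im n g g' a l ↔ ∀ e, e ∈ S n a → ∃ k ∈ l, fn hn g g' k = e :=
  allE fun x y => imp_congr Iff.rfl (exists_congr fun k => and_congr Iff.rfl
    (code_inj.eq_iff (a := fn hn g g' k) (b := s(x, y))))

lemma fm_iff (hn : 0 < n) {c : List ℕ × List (List ℕ)} {b g g' : ℕ}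
    {J : Set (Sym2 (Fin n)) → Prop} (hb : ∀ a < 2 ^ (n * n), bit b a ↔ J (S n a)) :
    Fm c n b g g' ↔ Em c J (fn hn g g') := by
  refine and_congr (forall₂_congr fun k _ => forall₂_congr fun k' _ => imp_congr
    (code_inj.eq_iff (a := fn hn g g' k) (b := fn hn g g' k')) Iff.rfl) (and_congr
      (forall₂_congr fun k _ => not_congr ?_) (allS fun a ha => iff_congr
        (exists_congr fun l => and_congr Iff.rfl (and_congr Iff.rfl (im_iff hn)))
        (and_congr (hb a ha) (im_iff hn))))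
  rw [fn, Sym2.mk_isDiag_iff, Fin.mk.injEq]

lemma Em.congr {c : List ℕ × List (List ℕ)} {J : Set (Sym2 (Fin n)) → Prop}
    {f f' : ℕ → Sym2 (Fin n)} (h : Em c J f) (hc : ∀ l ∈ c.2, ∀ k ∈ l, k ∈ c.1)
    (hf : ∀ k ∈ c.1, f' k = f k) : Em c J f' := by
  refine ⟨fun k hk k' hk' e => h.1 k hk k' hk' (by rwa [hf k hk, hf k' hk'] at e),
    fun k hk => hf k hk ▸ h.2.1 k hk, fun T => Iff.trans ?_ ((h.2.2 T).trans ?_)⟩
  · refine exists_congr fun l => and_congr_right fun hl => and_congr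
      (forall₂_congr fun k hk => by rw [hf k (hc l hl k hk)])
      (forall₂_congr fun e _ => exists_congr fun k => and_congr_right fun hk => by
        rw [hf k (hc l hl k hk)])
  · exact and_congr Iff.rfl (forall₂_congr fun e _ => exists_congr fun k =>
      and_congr_right fun hk => by rw [hf k hk])

lemma fc_iff (hn : 0 < n) {c : List ℕ × List (List ℕ)} (hc : ∀ l ∈ c.2, ∀ k ∈ l, k ∈ c.1) :
    Fc (c, n) ↔ ∃ (J : Set (Sym2 (Fin n)) → Prop) (f : ℕ → Sym2 (Fin n)), El J ∧ Em c J f := by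
  constructor
  · rintro ⟨b, -, h1, g, -, g', -, h2⟩
    have hb : ∀ a < 2 ^ (n * n), bit b a ↔ ∃ t < 2 ^ (n * n), bit b t ∧ S n t = S n a := by
      refine fun a ha => ⟨fun h => ⟨a, ha, h, rfl⟩, fun ⟨t, ht, h, e⟩ => ?_⟩
      refine h1.2.2.1 t ht a ha 0 hn 0 hn h fun u hu v hv huv => ?_
      have e0 : ∀ w, sw 0 0 w = w := fun w => by
        simp only [sw]
        split_ifs with h <;> simp [*]
      rw [e0, e0]
      exact sb_iff.2 e.symm.subset u hu v hv huv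
    exact ⟨fun T => ∃ t < 2 ^ (n * n), bit b t ∧ S n t = T, _, (cl_iff hb).1 h1,
      (fm_iff hn hb).1 h2⟩
  · rintro ⟨J, f, h1, h2⟩
    obtain ⟨b, hb1, hb⟩ := exists_bit (2 ^ (n * n)) fun a => J (S n a)
    obtain ⟨g, hg1, hg⟩ := exists_di (c.1.sum + 1) fun k => (f k).out.1
    obtain ⟨g', hg1', hg'⟩ := exists_di (c.1.sum + 1) fun k => (f k).out.2
    refine ⟨b, hb1, (cl_iff hb).2 h1, g, hg1, g', hg1',
      (fm_iff hn hb).2 (h2.congr hc fun k hk => ?_)⟩
    have hk' : k < c.1.sum + 1 := Nat.lt_succ_of_le (List.le_sum_of_mem hk)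
    rw [← (f k).out_eq, fn]
    exact congrArg₂ (fun x y => s(x, y)) (Fin.ext (hg k hk')) (Fin.ext (hg' k hk'))

lemma el_of {N : Matroid (Sym2 (Fin n))} (h : SymConn N) : El N.Indep := by
  refine ⟨⟨∅, N.empty_indep⟩, fun T hT x hx => ?_, fun T T' x y hT hs => ?_,
    fun T T' hT ⟨U, h1, h2, h3⟩ hT' hm => ?_, fun T T' U hT hT' hd hU => ?_⟩
  · have := hT.subset_ground hx
    rw [h.1] at this
    simp at this
  · refine (h.2.1 (Equiv.swap x y) T hT).subset fun e he => ⟨_, hs e he, ?_⟩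
    rw [Sym2.map_map]
    simp
  · obtain ⟨e, he, hi⟩ := Matroid.Indep.exists_insert_of_not_maximal N hT
      (fun hM => h3 (hM.2 h1 h2)) ⟨hT', fun V hV hs => hm V hV hs⟩
    exact ⟨_, hi, subset_insert _ _, e, he.1, he.2, mem_insert _ _⟩
  · by_contra hU'
    obtain ⟨C, hC, hc⟩ := Matroid.Dep.exists_isCircuit_subset (M := N) (X := U)
      ⟨hU', fun e he => (hU e he).elim (fun h => hT.subset_ground h) fun h => hT'.subset_ground h⟩
    have e : C = C ∩ T ∪ C ∩ T' := by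
      rw [← inter_union_distrib_left]
      exact (inter_eq_left.2 fun e he => hU e (hC he)).symm
    rcases h.2.2 (C ∩ T) (C ∩ T') (e ▸ hc) (fun e₁ h₁ e₂ h₂ x x1 x2 => by
      obtain ⟨y, rfl⟩ := Sym2.mem_iff_exists.1 x1
      obtain ⟨z, rfl⟩ := Sym2.mem_iff_exists.1 x2
      exact hd x y z h₁.2 h₂.2) with h0 | h0
    · rw [h0, empty_union] at e
      exact hc.not_indep (hT'.subset (e.subset.trans inter_subset_right))
    · rw [h0, union_empty] at e
      exact hc.not_indep (hT.subset (e.subset.trans inter_subset_right))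

lemma of_el (hn : 0 < n) {J : Set (Sym2 (Fin n)) → Prop} (h : El J) :
    ∃ N : Matroid (Sym2 (Fin n)), SymConn N ∧ N.Indep = J := by
  obtain ⟨⟨T₀, h0⟩, h1, h2, h3, h4⟩ := h
  have hs : ∀ ⦃I I'⦄, J I' → I ⊆ I' → J I := fun I I' hI hI' =>
    h2 I' I ⟨0, hn⟩ ⟨0, hn⟩ hI fun e he => by simpa using hI' he
  let N := (IndepMatroid.ofBdd (⊤ : SimpleGraph (Fin n)).edgeSet J (hs h0 (empty_subset _)) hs
    (fun I B hI hI' hB => by
      obtain ⟨U, u1, u2, e, e1, e2, e3⟩ := h3 I B hI (by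
        by_contra hn
        exact hI' ⟨hI, fun U hU hs => by
          by_contra h'
          exact hn ⟨U, hU, hs, h'⟩⟩) hB.1 fun U hU hs => hB.2 hU hs
      exact ⟨e, ⟨e1, e2⟩, hs u1 (insert_subset e3 u2)⟩)
    (fun I hI e he => by
      induction e using Sym2.ind with
      | _ x y => exact fun hxy : x = y => h1 I hI x (by rwa [← hxy] at he))
    ⟨(univ : Set (Sym2 (Fin n))).ncard, fun I _ => by
      rw [(toFinite _).cast_ncard_eq]
      exact encard_le_encard (subset_univ _)⟩).matroid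
  refine ⟨N, ⟨rfl, fun σ => ?_, fun C₁ C₂ hc hd => ?_⟩, rfl⟩
  · induction σ using Equiv.Perm.swap_induction_on with
    | one => exact fun I hI => by simpa using hI
    | swap_mul σ x y _ ih =>
      refine fun I hI => h2 _ _ x y (ih I hI) ?_
      rintro _ ⟨e, he, rfl⟩
      refine ⟨e, he, ?_⟩
      rw [Sym2.map_map]
      simp [Function.comp_def]
  · by_contra hne
    rw [not_or] at hne
    obtain ⟨e₁, a₁⟩ := nonempty_iff_ne_empty.2 hne.1
    obtain ⟨e₂, a₂⟩ := nonempty_iff_ne_empty.2 hne.2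
    have i1 : J C₁ := hc.ssubset_indep ⟨subset_union_left, fun hh =>
      hd e₂ (hh (Or.inr a₂)) e₂ a₂ _ (Sym2.out_fst_mem _) (Sym2.out_fst_mem _)⟩
    have i2 : J C₂ := hc.ssubset_indep ⟨subset_union_right, fun hh =>
      hd e₁ a₁ e₁ (hh (Or.inl a₁)) _ (Sym2.out_fst_mem _) (Sym2.out_fst_mem _)⟩
    exact hc.not_indep (h4 C₁ C₂ _ i1 i2
      (fun x y z b1 b2 => hd _ b1 _ b2 x (by simp) (by simp)) fun _ he => he)

lemma em_main {c : List ℕ × List (List ℕ)} {M : Matroid ℕ} (h : Codes c M)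
    {N : Matroid (Sym2 (Fin n))} {f : ℕ → Sym2 (Fin n)} (hf : InjOn f M.E)
    (T : Set (Sym2 (Fin n))) :
    ((M.map f hf).Indep T ↔ (N.restrict (f '' M.E)).Indep T) ↔
      ((∃ l ∈ c.2, (∀ k ∈ l, f k ∈ T) ∧ ∀ e, e ∈ T → ∃ k ∈ l, f k = e) ↔
        (N.Indep T ∧ ∀ e, e ∈ T → ∃ k ∈ c.1, f k = e)) := by
  refine iff_congr (Matroid.map_indep_iff.trans ⟨?_, ?_⟩)
    (Matroid.restrict_indep_iff.trans (and_congr Iff.rfl (by rw [h.1]; rfl)))
  · rintro ⟨I, hI, rfl⟩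
    obtain ⟨l, hl, rfl⟩ := (h.2 I).1 hI
    exact ⟨l, hl, fun k hk => ⟨k, hk, rfl⟩, fun _ he => he⟩
  · rintro ⟨l, hl, h1, h2⟩
    exact ⟨_, (h.2 _).2 ⟨l, hl, rfl⟩, Set.ext fun e => ⟨h2 e, fun ⟨k, hk, e'⟩ => e' ▸ h1 k hk⟩⟩

end FitP

open FitP in
theorem fit : FitStmt := by
  refine ⟨Fc, pp_Fc, fun c M n h hn => (fc_iff hn fun l hl k hk => ?_).trans ⟨?_, ?_⟩⟩
  · have := ((h.2 _).2 ⟨l, hl, rfl⟩).subset_ground hk
    rwa [h.1] at this
  · rintro ⟨J, f, h1, h2⟩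
    obtain ⟨N, hN, rfl⟩ := of_el hn h1
    have hf : InjOn f M.E := by
      rw [h.1]
      exact fun k hk k' hk' => h2.1 k hk k' hk'
    refine ⟨N, f, hf, hN, ?_, Matroid.ext_indep rfl fun T _ => (em_main h hf T).2 (h2.2.2 T)⟩
    rintro _ ⟨k, hk, rfl⟩
    rw [h.1] at hk
    rw [hN.1]
    simpa using h2.2.1 k hk
  · rintro ⟨N, f, hf, hN, h1, h2⟩
    refine ⟨N.Indep, f, el_of hN, fun k hk k' hk' => hf (h.1 ▸ hk) (h.1 ▸ hk'), fun k hk => ?_,
      fun T => (em_main h hf T).1 (by rw [h2])⟩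
    have := h1 ⟨k, h.1 ▸ hk, rfl⟩
    rw [hN.1] at this
    simpa using this

end Pool.Agent.MP_1a6d08_co.Und

end MrgPart4

-- ======== part 5: formerly Pool.Agent.MP_1a6d08_co.und.Rec
section MrgPart5

/-!
Recognition of the complete graph from the rules.
-/

open Set

namespace Pool.Agent.MP_1a6d08_co.Und

namespace RecP

variable {V : Type}

/-- Double counting of the ends of edges. -/
lemma hand {E : Set (Sym2 V)} {A : Set V} (hE : E.Finite) (hA : A.Finite) (t : ℕ)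
    (h : ∀ x ∈ A, t ≤ dg E x) : A.ncard * t ≤ E.ncard * 2 := by
  classical
  rw [ncard_eq_toFinset_card A hA, ncard_eq_toFinset_card E hE]
  refine Finset.card_mul_le_card_mul (fun (x : V) (e : Sym2 V) => x ∈ e) (fun x hx => ?_)
    fun e _ => ?_
  · refine (h x (by simpa using hx)).trans (le_of_eq ?_)
    rw [dg, ← ncard_coe_finset]
    refine congrArg _ (Set.ext fun e => ?_)
    simp [Finset.bipartiteAbove]
  · induction e using Sym2.ind with
    | _ a b =>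
      refine le_trans (Finset.card_le_card (t := {a, b}) fun x hx => ?_) Finset.card_le_two
      have := (Finset.mem_filter.1 hx).2
      simpa using this

lemma nb_fin {G : Set (Sym2 V)} (hG : G.Finite) (x : V) : {y | s(x, y) ∈ G}.Finite :=
  (supp_finite hG).subset fun y hy => ⟨_, hy, by simp⟩

lemma dg_le {G : Set (Sym2 V)} (hG : G.Finite) (x : V) : dg G x ≤ G.ncard :=
  ncard_le_ncard (fun _ h => h.1) hG

lemma dg_two {G : Set (Sym2 V)} (hG : G.Finite) {x y : V} (h : x ≠ y) :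
    dg G x + dg G y ≤ G.ncard + 1 := by
  have h1 := ncard_union_add_ncard_inter {e | e ∈ G ∧ x ∈ e} {e | e ∈ G ∧ y ∈ e}
    (hG.subset fun _ h => h.1) (hG.subset fun _ h => h.1)
  have h2 : ({e | e ∈ G ∧ x ∈ e} ∪ {e | e ∈ G ∧ y ∈ e}).ncard ≤ G.ncard :=
    ncard_le_ncard (fun _ h => h.elim (fun h => h.1) fun h => h.1) hG
  have h3 : ({e | e ∈ G ∧ x ∈ e} ∩ {e | e ∈ G ∧ y ∈ e}).ncard ≤ 1 := by
    rw [← ncard_singleton s(x, y)]
    exact ncard_le_ncard fun e he => (Sym2.mem_and_mem_iff h).1 ⟨he.1.2, he.2.2⟩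
  unfold dg
  omega

lemma union_le {A : Set V} (hA : A.Finite) (f : V → Set V) (t : ℕ)
    (h : ∀ a ∈ A, (f a).ncard ≤ t) : (⋃ a ∈ A, f a).ncard ≤ t * A.ncard := by
  induction A, hA using Set.Finite.induction_on with
  | empty => simp
  | @insert a s ha hs ih =>
    rw [biUnion_insert, ncard_insert_of_notMem ha hs]
    have h1 := ncard_union_le (f a) (⋃ x ∈ s, f x)
    have h2 := ih fun x hx => h x (mem_insert_of_mem _ hx)
    have h3 := h a (mem_insert _ _)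
    rw [mul_add]
    omega

lemma sdiff_ge {A B : Set V} (hB : B.Finite) : A.ncard ≤ (A \ B).ncard + B.ncard :=
  ncard_le_ncard_sdiff_add_ncard A B hB

/-- Degrees in a copy of a member of the family. -/
lemma cp_dg {P : Set FinGraph} {δ : ℕ} (hδ : ∀ p ∈ P, ∀ x, δ ≤ (p.2.neighborSet x).ncard)
    {C : Set (Sym2 V)} (h : Cp P C) {u : V} (hu : u ∈ supp C) : δ ≤ dg C u := by
  obtain ⟨p, hp, φ, rfl⟩ := h
  obtain ⟨x, rfl⟩ := sr' _ _ hu
  rw [dg_eq_nbr]
  refine (hδ p hp x).trans (ncard_le_ncard_of_injOn φ (fun w hw => ?_) φ.injective.injOn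
    (nb_fin ((toFinite _).image _) _))
  exact (mem_map_image φ _ x w).2 hw

/-- Edges at a vertex of small degree can be added. -/
lemma star {P : Set FinGraph} {δ : ℕ} (hδ : ∀ p ∈ P, ∀ x, δ ≤ (p.2.neighborSet x).ncard)
    {X S : Set (Sym2 V)} {u : V} (hX : Ind P X) (hf : (X ∪ S).Finite) (hS : ND S)
    (hu : ∀ e ∈ S, u ∈ e) (hd : dg (X ∪ S) u < δ) : Ind P (X ∪ S) := by
  refine ⟨hX.1.union hS, fun C hC hp => ?_⟩
  by_cases h : C ⊆ X
  · exact hX.2 C h hp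
  obtain ⟨e, e1, e2⟩ := not_subset.1 h
  have h1 := cp_dg hδ hp ⟨e, e1, hu e ((hC e1).resolve_left e2)⟩
  have h2 := dg_mono hC hf u
  omega

/-- The dimension bound on every vertex type. -/
lemma bound (hg : GenStmt) {P : Set FinGraph} (hP : Matroidal P) {p : FinGraph} (hp : p ∈ P)
    (x : Fin p.1) {X : Set (Sym2 V)} (hf : X.Finite) (hX : Ind P X) :
    X.ncard + (supp X).ncard ≤ (p.2.neighborSet x).ncard * (supp X).ncard := by
  have := (supp_finite hf).to_subtype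
  obtain ⟨Y, hY⟩ := exists_pull (F := X) subset_rfl
  have h1 : Ind P Y := (hg.map P hP _ _ Subtype.val Y Subtype.val_injective.injOn).1
    (hX.mono hY.le)
  have h2 := hP.span_bound hp x h1.1 h1.2
  have h3 : X.ncard = Y.ncard :=
    (congrArg ncard hY).symm.trans
      (ncard_image_of_injective _ (Sym2.map.injective Subtype.val_injective))
  have h4 : (supp X).ncard = (supp Y).ncard :=
    (congrArg (fun Z => (supp Z).ncard) hY).symm.trans (by
      rw [supp_map, ncard_image_of_injective _ Subtype.val_injective])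
  rw [h3, h4]
  exact h2

/-- One level of new vertices. -/
lemma step (hg : GenStmt) {N : ℕ} {I : Set (Sym2 ℕ) → Prop} (hr : Rules N I)
    {G X : Set (Sym2 ℕ)} {R M : Set ℕ} {k : ℕ} (hk : k ≤ 4) (hX : X ⊆ EN N \ G) (hI : I X)
    (hs : supp X ⊆ R) (hR : R ⊆ Iio N) (hM : M ⊆ Iio N) (hd : Disjoint R M)
    (h : ∀ y ∈ M, k ≤ (R \ {z | s(y, z) ∈ G}).ncard) :
    ∃ X' ⊆ EN N \ G, I X' ∧ supp X' ⊆ R ∪ M ∧ X'.ncard = X.ncard + k * M.ncard := by
  have hf : X.Finite := (EN_finite N).subset (hX.trans sdiff_subset)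
  obtain ⟨S, s1, s2, s3, s4, s5, s6, -⟩ := hg.add ℕ (EN N) (EN N \ G) I k X R M
    (fun Y hY _ hI x y => hr.ext Y hY hI x y) sdiff_subset hk (hX.trans sdiff_subset) hf hI hs
    ((finite_Iio N).subset hM) hd fun y hy => ⟨_, sdiff_subset, h y hy, fun z hz =>
      ⟨mk_mem_EN.2 ⟨fun e => disjoint_left.1 hd hz.1 (e ▸ hy), hM hy, hR hz.1⟩, hz.2⟩⟩
  refine ⟨X ∪ S, union_subset hX s1, s4, ?_, by rw [ncard_union_eq s3.symm hf s2, s6]⟩
  rw [supp_union]
  exact union_subset (hs.trans subset_union_left) s5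

lemma card_Iio (N : ℕ) : (Iio N).ncard = N := by
  rw [← Finset.coe_range, ncard_coe_finset, Finset.card_range]

lemma card_Iio' {N x : ℕ} (hx : x < N) : (Iio N \ {x}).ncard + 1 = N := by
  rw [ncard_sdiff_singleton_add_one (s := Iio N) hx (finite_Iio N), card_Iio]

/-- A complete bipartite graph on eight even and eight odd vertices that avoids `G`. -/
lemma seed {N : ℕ} (hN : 500 ≤ N) {G : Set (Sym2 ℕ)} (hG : G.Finite) {D : Set ℕ} (hD : D.Finite)
    (hc : 13 * D.ncard ≤ 2 * N + 13) (hl : ∀ y < N, y ∉ D → dg G y ≤ 12) :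
    ∃ (R : Set ℕ) (X : Set (Sym2 ℕ)), R ⊆ Iio N \ D ∧ R.ncard = 16 ∧ X ⊆ EN N \ G ∧
      X.ncard = 64 ∧ EO X ∧ supp X ⊆ R := by
  have c1 : ((fun i => 2 * i) '' Iio (N / 2)).ncard = N / 2 := by
    rw [ncard_image_of_injective _ fun a b h => by simpa using h, card_Iio]
  have c2 : ((fun i => 2 * i + 1) '' Iio (N / 2)).ncard = N / 2 := by
    rw [ncard_image_of_injective _ fun a b h => by simpa using h, card_Iio]
  have c3 := sdiff_ge (A := (fun i => 2 * i) '' Iio (N / 2)) hD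
  obtain ⟨A, a1, a2⟩ := exists_subset_card_eq (s := (fun i => 2 * i) '' Iio (N / 2) \ D) (n := 8)
    (by omega)
  have fA : A.Finite := finite_of_ncard_ne_zero (by omega)
  have pA : ∀ a ∈ A, a < N ∧ a % 2 = 0 ∧ a ∉ D := fun a ha => by
    obtain ⟨⟨i, hi, e⟩, h⟩ := a1 ha
    have h1 : i < N / 2 := hi
    have h2 : 2 * i = a := e
    exact ⟨by omega, by omega, h⟩
  have c4 := union_le fA (fun a => {z | s(a, z) ∈ G}) 12 fun a ha => by
    rw [← dg_eq_nbr]; exact hl a (pA a ha).1 (pA a ha).2.2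
  have fU : (⋃ a ∈ A, {z | s(a, z) ∈ G}).Finite := fA.biUnion fun a _ => nb_fin hG a
  have c5 := sdiff_ge (A := (fun i => 2 * i + 1) '' Iio (N / 2)) (hD.union fU)
  have c6 := ncard_union_le D (⋃ a ∈ A, {z | s(a, z) ∈ G})
  obtain ⟨B, b1, b2⟩ := exists_subset_card_eq
    (s := (fun i => 2 * i + 1) '' Iio (N / 2) \ (D ∪ ⋃ a ∈ A, {z | s(a, z) ∈ G})) (n := 8)
    (by omega)
  have fB : B.Finite := finite_of_ncard_ne_zero (by omega)
  have pB : ∀ b ∈ B, b < N ∧ b % 2 = 1 ∧ b ∉ D ∧ ∀ a ∈ A, s(a, b) ∉ G := fun b hb => by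
    obtain ⟨⟨i, hi, e⟩, h⟩ := b1 hb
    have h1 : i < N / 2 := hi
    have h2 : 2 * i + 1 = b := e
    exact ⟨by omega, by omega, fun e => h (Or.inl e), fun a ha e => h (Or.inr (mem_biUnion ha e))⟩
  refine ⟨A ∪ B, (fun t : ℕ × ℕ => s(t.1, t.2)) '' (A ×ˢ B), ?_, ?_, ?_, ?_, ?_, ?_⟩
  · exact union_subset (fun a ha => ⟨(pA a ha).1, (pA a ha).2.2⟩)
      fun b hb => ⟨(pB b hb).1, (pB b hb).2.2.1⟩
  · rw [ncard_union_eq (disjoint_left.2 fun a ha hb => by
      have := (pA a ha).2.1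
      have := (pB a hb).2.1
      omega) fA fB, a2, b2]
  · rintro _ ⟨⟨a, b⟩, ⟨ha, hb⟩, rfl⟩
    have h1 := pA a ha
    have h2 := pB b hb
    exact ⟨mk_mem_EN.2 ⟨by omega, h1.1, h2.1⟩, h2.2.2.2 a ha⟩
  · rw [InjOn.ncard_image, ncard_prod, a2, b2]
    rintro ⟨a, b⟩ ⟨ha, hb⟩ ⟨c, d⟩ ⟨hc, hd⟩ h
    have h1 := (pA a ha).2.1
    have h2 := (pB d hd).2.1
    rcases Sym2.eq_iff.1 h with ⟨h3, h4⟩ | ⟨h3, h4⟩
    · exact Prod.ext h3 h4
    · dsimp only at h3
      omega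
  · rintro _ ⟨⟨a, b⟩, ⟨ha, hb⟩, rfl⟩
    exact ⟨a, b, rfl, Nat.even_iff.2 (pA a ha).2.1, Nat.odd_iff.2 (pB b hb).2.1⟩
  · rintro x ⟨_, ⟨⟨a, b⟩, ⟨ha, hb⟩, rfl⟩, hx⟩
    rcases Sym2.mem_iff.1 hx with rfl | rfl
    · exact Or.inl ha
    · exact Or.inr hb

/-- Large independent sets that avoid a small set of edges. -/
lemma low (hg : GenStmt) {N : ℕ} (hN : 500 ≤ N) {I : Set (Sym2 ℕ) → Prop} (hr : Rules N I)
    {G : Set (Sym2 ℕ)} (hG : G.Finite) (hc : G.ncard + 1 ≤ N) :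
    ∃ x < N, ∀ k ≤ 4, k ≤ ((Iio N \ {x}) \ {z | s(x, z) ∈ G}).ncard →
      ∃ X ⊆ EN N \ G, I X ∧ X.ncard + 4 = 4 * N + k := by
  obtain ⟨x, hx, mx⟩ := exists_max_image (Iio N) (dg G) (finite_Iio N) ⟨0, by
    change 0 < N; omega⟩
  refine ⟨x, hx, fun k hk ho => ?_⟩
  let H : Set ℕ := {y | y < N ∧ 13 ≤ dg G y}
  have fH : H.Finite := (finite_Iio N).subset fun _ h => h.1
  have c1 := hand hG fH 13 fun y hy => hy.2
  have c2 := ncard_insert_le x H
  have fD : (insert x H).Finite := fH.insert x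
  have hl : ∀ y < N, y ∉ insert x H → dg G y ≤ 12 := fun y h1 h2 => by
    by_contra h
    exact h2 (Or.inr ⟨h1, by omega⟩)
  obtain ⟨R, X₀, r1, r2, x1, x2, x3, x4⟩ := seed hN hG fD (by omega) hl
  have fL : (Iio N \ insert x H).Finite := (finite_Iio N).subset sdiff_subset
  obtain ⟨X₁, y1, y2, y3, y4⟩ := step hg hr (M := (Iio N \ insert x H) \ R) le_rfl x1
    (hr.bip X₀ (x1.trans sdiff_subset) x2.le x3) x4 (r1.trans sdiff_subset)
    (sdiff_subset.trans sdiff_subset) disjoint_sdiff_right fun y hy => by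
      have h1 := sdiff_ge (A := R) (nb_fin hG y)
      have h2 := hl y hy.1.1 hy.1.2
      rw [dg_eq_nbr] at h2
      omega
  rw [union_sdiff_cancel r1] at y3
  have c3 := ncard_sdiff_add_ncard_of_subset r1 fL
  have c4 := sdiff_ge (A := Iio N) fD
  rw [card_Iio] at c4
  have d1 : Disjoint (Iio N \ insert x H) (H \ {x}) :=
    disjoint_left.2 fun y h1 h2 => h1.2 (Or.inr h2.1)
  have e1 : (Iio N \ insert x H) ∪ (H \ {x}) = Iio N \ {x} := by
    ext y
    constructor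
    · rintro (h | h)
      · exact ⟨h.1, fun e => h.2 (Or.inl e)⟩
      · exact ⟨h.1.1, h.2⟩
    · intro h
      by_cases h1 : y ∈ H
      · exact Or.inr ⟨h1, h.2⟩
      · exact Or.inl ⟨h.1, fun e => e.elim h.2 h1⟩
  obtain ⟨X₂, z1, z2, z3, z4⟩ := step hg hr (M := H \ {x}) le_rfl y1 y2 y3 sdiff_subset
    (fun y hy => hy.1.1) d1 fun y hy => by
      have h1 := sdiff_ge (A := Iio N \ insert x H) (nb_fin hG y)
      have h2 := dg_two hG (x := y) (y := x) hy.2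
      have h3 := mx y hy.1.1
      rw [← dg_eq_nbr] at h1
      omega
  have c5 := ncard_union_eq d1 fL (fH.subset sdiff_subset)
  rw [e1] at z3 c5
  have c6 := card_Iio' hx
  obtain ⟨X₃, w1, w2, -, w4⟩ := step hg hr (M := {x}) hk z1 z2 z3 sdiff_subset
    (singleton_subset_iff.2 hx) disjoint_sdiff_left fun y hy => by
      obtain rfl : y = x := hy
      exact ho
  rw [ncard_singleton] at w4
  exact ⟨X₃, w1, w2, by omega⟩

end RecP

open RecP in
theorem recog (hg : GenStmt) : RecStmt := by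
  intro N P V _ Γ F hN hP hF hr
  have ex : ∃ δ, ∃ p ∈ P, ∃ x, (p.2.neighborSet x).ncard = δ := by
    obtain ⟨p, hp⟩ := hP.1
    obtain ⟨x⟩ := (hP.2.1 p hp).nonempty
    exact ⟨_, p, hp, x, rfl⟩
  obtain ⟨δ, ⟨p, hp, x₀, hx₀⟩, hδ⟩ : ∃ δ, (∃ p ∈ P, ∃ x, (p.2.neighborSet x).ncard = δ) ∧
      ∀ p ∈ P, ∀ x, δ ≤ (p.2.neighborSet x).ncard := by
    classical
    exact ⟨Nat.find ex, Nat.find_spec ex, fun q hq u => Nat.find_min' ex ⟨q, hq, u, rfl⟩⟩
  have nE : ND Γ.edgeSet := SimpleGraph.edgeSet_mono le_top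
  have cE : Γ.edgeSet.ncard = (EN N).ncard := by rw [← hF.image_eq, hF.injOn.ncard_image]
  have cN := two_mul_le' (finite_Iio N) (EN_nd N) (supp_EN N)
  rw [card_Iio, ← cE] at cN
  have im : ∀ X ⊆ EN N, F '' X ⊆ Γ.edgeSet := fun X hX => hF.mapsTo.image_subset.trans'
    (image_mono hX)
  have fG : ∀ u : V, {e | e ∈ EN N ∧ u ∈ F e}.Finite := fun u =>
    (EN_finite N).subset fun _ h => h.1
  have cG : ∀ u : V, {e | e ∈ EN N ∧ u ∈ F e}.ncard = dg Γ.edgeSet u := fun u => by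
    rw [dg, ← (hF.injOn.mono fun e (he : e ∈ {e | e ∈ EN N ∧ u ∈ F e}) => he.1).ncard_image]
    refine congrArg _ (Set.ext fun f => ⟨?_, fun hf => ?_⟩)
    · rintro ⟨e, he, rfl⟩
      exact ⟨hF.mapsTo he.1, he.2⟩
    · obtain ⟨e, he, rfl⟩ := hF.surjOn hf.1
      exact ⟨e, ⟨he, hf.2⟩, rfl⟩
  -- the inequality at a star of the graph
  have key : ∀ u : V, dg Γ.edgeSet u + 1 ≤ N → ∃ x < N, ∀ k ≤ 4,
      k ≤ ((Iio N \ {x}) \ {z | s(x, z) ∈ {e | e ∈ EN N ∧ u ∈ F e}}).ncard →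
      ∀ j < δ, j ≤ dg Γ.edgeSet u → k + j ≤ 4 := fun u hu => by
    obtain ⟨x, hx, h⟩ := low hg hN hr (fG u) (by rw [cG]; exact hu)
    refine ⟨x, hx, fun k hk ho j j1 j2 => ?_⟩
    obtain ⟨X, x1, x2, x3⟩ := h k hk ho
    obtain ⟨S, s1, s2⟩ := exists_subset_card_eq (s := {e | e ∈ EN N ∧ u ∈ F e}) (n := j)
      (by rw [cG]; exact j2)
    have fS : S.Finite := (fG u).subset s1
    have s3 : S ⊆ EN N := fun e he => (s1 he).1
    have h1 : Ind P (F '' X ∪ F '' S) := by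
      refine star hδ (u := u) x2 (toFinite _) (nE.mono (im S s3)) ?_ ?_
      · rintro _ ⟨e, he, rfl⟩
        exact (s1 he).2
      · refine lt_of_le_of_lt (le_trans (ncard_le_ncard (t := F '' S) ?_) ?_) j1
        · rintro f ⟨⟨e, he, rfl⟩ | hf, h2⟩
          · exact absurd ⟨(x1 he).1, h2⟩ (x1 he).2
          · exact hf
        · exact s2 ▸ ncard_image_le fS
    have h2 := hr.up (X ∪ S) (union_subset (x1.trans sdiff_subset) s3) (by
      rw [image_union]; exact h1)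
    rw [ncard_union_eq (disjoint_left.2 fun e h3 h4 => (x1 h3).2 (s1 h4))
      ((EN_finite N).subset (x1.trans sdiff_subset)) fS] at h2
    omega
  have out : ∀ (u : V) x, x < N →
      N ≤ ((Iio N \ {x}) \ {z | s(x, z) ∈ {e | e ∈ EN N ∧ u ∈ F e}}).ncard + dg Γ.edgeSet u + 1 :=
    fun u x hx => by
      have h1 := sdiff_ge (A := Iio N \ {x}) (nb_fin (fG u) x)
      have h2 := dg_le (fG u) x
      have h3 := card_Iio' hx
      rw [cG, dg_eq_nbr] at h2
      omega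
  -- a large independent set
  obtain ⟨v, v1, v2⟩ : ∃ v ≤ (supp Γ.edgeSet).ncard, 4 * N + v ≤ δ * v := by
    obtain ⟨x, hx, h⟩ := low hg hN hr (G := ∅) finite_empty (by rw [ncard_empty]; omega)
    have h3 := card_Iio' hx
    obtain ⟨X, x1, x2, x3⟩ := h 4 le_rfl (by
      rw [show {z | s(x, z) ∈ (∅ : Set (Sym2 ℕ))} = ∅ from rfl, sdiff_empty]; omega)
    have x4 : X ⊆ EN N := x1.trans sdiff_subset
    have h1 := bound hg hP hp x₀ (toFinite _) x2
    rw [hx₀, (hF.injOn.mono x4).ncard_image] at h1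
    exact ⟨_, ncard_le_ncard (supp_mono (im X x4)), by omega⟩
  have d2 : 2 ≤ δ := by
    by_contra h
    have := Nat.mul_le_mul_right v (by omega : δ ≤ 1)
    omega
  have pos : ∀ u ∈ supp Γ.edgeSet, 1 ≤ dg Γ.edgeSet u := fun u ⟨e, h1, h2⟩ =>
    (ncard_pos).2 ⟨e, h1, h2⟩
  have g1 : ∀ u ∈ supp Γ.edgeSet, N - 4 ≤ dg Γ.edgeSet u := fun u hu => by
    by_contra hn
    obtain ⟨x, hx, h⟩ := key u (by omega)
    have h1 := out u x hx
    have h2 := h 4 le_rfl (by omega) 1 (by omega) (pos u hu)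
    omega
  have n1 : (supp Γ.edgeSet).ncard ≤ N + 3 := by
    by_contra hn
    have h1 := hand (toFinite _) (toFinite _) _ g1
    obtain ⟨n, rfl⟩ := Nat.exists_eq_add_of_le' (by omega : 4 ≤ N)
    rw [Nat.add_sub_cancel] at h1
    have h2 := Nat.mul_le_mul_right n (by omega : n + 8 ≤ (supp Γ.edgeSet).ncard)
    nlinarith
  have d5 : 5 ≤ δ := by
    by_contra h
    have := Nat.mul_le_mul_right v (by omega : δ ≤ 4)
    omega
  have g2 : ∀ u ∈ supp Γ.edgeSet, N - 1 ≤ dg Γ.edgeSet u := fun u hu => by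
    by_contra hn
    obtain ⟨x, hx, h⟩ := key u (by omega)
    have h1 := out u x hx
    have h3 := g1 u hu
    have h2 := h 1 (by omega) (by omega) 4 (by omega) (by omega)
    omega
  have n2 : (supp Γ.edgeSet).ncard ≤ N := by
    by_contra hn
    have h1 := hand (toFinite _) (toFinite _) _ g2
    obtain ⟨n, rfl⟩ := Nat.exists_eq_add_of_le' (by omega : 1 ≤ N)
    rw [Nat.add_sub_cancel] at h1
    have h2 := Nat.mul_le_mul_right n (by omega : n + 2 ≤ (supp Γ.edgeSet).ncard)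
    nlinarith
  have g3 : ∀ u ∈ supp Γ.edgeSet, dg Γ.edgeSet u + 1 ≤ N := fun u hu => by
    have h1 : {y | s(u, y) ∈ Γ.edgeSet}.ncard < (supp Γ.edgeSet).ncard :=
      ncard_lt_ncard ⟨fun y hy => ⟨_, hy, by simp⟩, fun h => nE.ne (h hu) rfl⟩
    rw [dg_eq_nbr]
    omega
  have g4 : ∀ u : V, ∃ x, u ∈ supp Γ.edgeSet → ∀ e ∈ EN N, (x ∈ e ↔ u ∈ F e) := fun u => by
    by_cases hu : u ∈ supp Γ.edgeSet
    swap
    · exact ⟨0, fun h => absurd h hu⟩
    obtain ⟨x, hx, h⟩ := key u (g3 u hu)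
    have h3 := g1 u hu
    have h1 : (Iio N \ {x}) \ {z | s(x, z) ∈ {e | e ∈ EN N ∧ u ∈ F e}} = ∅ := by
      by_contra hn
      have h4 := (ncard_pos ((finite_Iio N).subset (sdiff_subset.trans sdiff_subset))).2
        (nonempty_iff_ne_empty.2 hn)
      have h2 := h 1 (by omega) h4 4 (by omega) (by omega)
      omega
    rw [sdiff_eq_empty] at h1
    have h2 : {e | e ∈ EN N ∧ x ∈ e} = {e | e ∈ EN N ∧ u ∈ F e} := by
      refine eq_of_subset_of_ncard_le ?_ ?_ (fG u)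
      · rintro e ⟨e1, e2⟩
        obtain ⟨z, rfl⟩ := Sym2.mem_iff_exists.1 e2
        have := mk_mem_EN.1 e1
        exact h1 ⟨this.2.2, this.1.symm⟩
      · have h4 : (Iio N \ {x}).ncard ≤ {z | s(x, z) ∈ EN N}.ncard :=
          ncard_le_ncard (fun z hz => mk_mem_EN.2 ⟨fun e => hz.2 e.symm, hx, hz.1⟩)
            (nb_fin (EN_finite N) x)
        have h5 := card_Iio' hx
        have h6 := g3 u hu
        rw [← dg_eq_nbr, dg] at h4
        rw [cG]
        omega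
    exact ⟨x, fun _ e he => ⟨fun h4 => (h2.le ⟨he, h4⟩).2, fun h4 => (h2.ge ⟨he, h4⟩).2⟩⟩
  choose ξ hξ using g4
  have inj : InjOn ξ (supp Γ.edgeSet) := fun u hu w hw e => by
    by_contra hn
    have h1 : dg Γ.edgeSet u ≤ 1 := by
      rw [← ncard_singleton s(u, w)]
      refine ncard_le_ncard fun f hf => ?_
      obtain ⟨e', he', rfl⟩ := hF.surjOn hf.1
      exact (Sym2.mem_and_mem_iff hn).1 ⟨hf.2, (hξ w hw e' he').1 (e ▸ (hξ u hu e' he').2 hf.2)⟩
    have h2 := g1 u hu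
    omega
  have back : ∀ e ∈ EN N, Sym2.map ξ (F e) = e := fun e he => by
    have h1 := hF.mapsTo he
    have h2 := fun u hu => hξ u hu e he
    generalize F e = f at h1 h2
    induction f using Sym2.ind with
    | _ u w =>
      have hu : u ∈ supp Γ.edgeSet := ⟨_, h1, by simp⟩
      have hw : w ∈ supp Γ.edgeSet := ⟨_, h1, by simp⟩
      exact ((Sym2.mem_and_mem_iff fun h => nE.ne h1 (inj hu hw h)).1
        ⟨(h2 u hu).2 (by simp), (h2 w hw).2 (by simp)⟩).symm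
  have d6 : δ ≤ 5 := by
    by_contra hn
    obtain ⟨u, hu⟩ : (supp Γ.edgeSet).Nonempty :=
      supp_nonempty ⟨_, hF.mapsTo (mk_mem_EN.2 ⟨Nat.zero_ne_one, by omega, by omega⟩)⟩
    obtain ⟨x, -, h⟩ := key u (g3 u hu)
    have h1 := g1 u hu
    have h2 := h 0 (by omega) (Nat.zero_le _) 5 (by omega) (by omega)
    omega
  refine ⟨⟨hP, fun W X hf hX x y hxy hd => ?_, fun W X hf hX => ?_⟩, fun X hX => ?_⟩
  · rw [← union_singleton]
    refine star hδ (u := x) hX (hf.union (finite_singleton _)) (singleton_subset_iff.2 hxy)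
      (fun e he => by rw [mem_singleton_iff.1 he]; simp) ?_
    have h1 : dg (X ∪ {s(x, y)}) x ≤ (insert s(x, y) {e | e ∈ X ∧ x ∈ e}).ncard :=
      ncard_le_ncard (fun e he => he.1.elim (fun h => Or.inr ⟨h, he.2⟩) Or.inl)
        ((hf.subset fun _ h => h.1).insert _)
    have h2 := ncard_insert_le s(x, y) {e | e ∈ X ∧ x ∈ e}
    rw [dg] at hd
    omega
  · have h1 := bound hg hP hp x₀ hf hX
    have h2 := Nat.mul_le_mul_right (supp X).ncard d6
    rw [hx₀] at h1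
    omega
  · rw [← hg.map P hP _ _ ξ (F '' X) (inj.mono (supp_mono (im X hX))), image_image,
      image_congr fun e he => back e (hX he), image_id']

end Pool.Agent.MP_1a6d08_co.Und

end MrgPart5

-- marker of a merged file
example : 731051 + 155388 = 731051 + 155388 := rfl
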