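import Mathlib.Algebra.Order.Archimedean.Basic
import Mathlib.Tactic.IntervalCases
import Mathlib.Tactic.Group
import Mathlib.Tactic.Bound
import Mathlib.Combinatorics.Matroid.Minor.Contract
import Mathlib.Computability.TuringMachine.ToPartrec
import Mathlib.Data.Set.Finite.List
import Mathlib.Order.Interval.Set.Nat
import Pool.Agent.MP_1a6d08_co.und.Rec

-- ======== part 0: formerly Pool.Agent.MP_1a6d08_co.und.Fin
section MrgPart0

/-!
The reduction from the halting problem.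
-/

open Set

namespace Pool.Agent.MP_1a6d08_co.Und

namespace FinP

lemma exists_lists {𝒴 : Set (Set ℕ)} (h : 𝒴.Finite) (hf : ∀ Y ∈ 𝒴, Y.Finite) :
    ∃ Ls : List (List ℕ), (∀ l ∈ Ls, {k | k ∈ l} ∈ 𝒴) ∧ ∀ Y ∈ 𝒴, ∃ l ∈ Ls, {k | k ∈ l} = Y := by
  have h1 : ∀ Y : Set ℕ, ∃ l : List ℕ, Y.Finite → {k | k ∈ l} = Y := fun Y => by
    by_cases hY : Y.Finite
    · exact ⟨hY.toFinset.toList, fun _ => by ext k; simp⟩
    · exact ⟨[], fun h => absurd h hY⟩
  choose f hf' using h1
  refine ⟨h.toFinset.toList.map f, fun l hl => ?_, fun Y hY => ⟨f Y, ?_, hf' Y (hf Y hY)⟩⟩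
  · obtain ⟨Y, hY, rfl⟩ := List.mem_map.1 hl
    have hY' : Y ∈ 𝒴 := by simpa using hY
    rwa [hf' Y (hf Y hY')]
  · exact List.mem_map_of_mem (by simpa using hY)

lemma map_val_top (N : ℕ) :
    Sym2.map Fin.val '' (⊤ : SimpleGraph (Fin N)).edgeSet = EN N := by
  ext e
  constructor
  · rintro ⟨e, he, rfl⟩
    induction e using Sym2.ind with
    | _ a b => exact mk_mem_EN.2 ⟨Fin.val_injective.ne he, a.2, b.2⟩
  · intro he
    induction e using Sym2.ind with
    | _ a b =>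
      obtain ⟨h1, h2, h3⟩ := mk_mem_EN.1 he
      exact ⟨s(⟨a, h2⟩, ⟨b, h3⟩), fun h => h1 (congrArg Fin.val h), rfl⟩

/-- The matroid of a family on a complete graph, on the names of the edges. -/
lemma exists_named (hg : GenStmt) {P : Set FinGraph} (hP : Matroidal P) {N : ℕ} (hN : 0 < N) :
    ∃ M : Matroid ℕ, InClass M ∧ M.E = ec '' EN N ∧
      ∀ X ⊆ EN N, (M.Indep (ec '' X) ↔ Ind P X) := by
  obtain ⟨N', hN'⟩ := hP.2.2 (Fin N) ⊤
  let φ : Sym2 (Fin N) → ℕ := ec ∘ Sym2.map Fin.val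
  have hφ : Function.Injective φ := ec_inj.comp (Sym2.map.injective Fin.val_injective)
  have : Nonempty (Sym2 (Fin N)) := ⟨Sym2.diag ⟨0, hN⟩⟩
  have hl : Function.LeftInverse (Function.invFun φ) φ := Function.leftInverse_invFun hφ
  have hi : InjOn (Function.invFun φ) (N'.map φ hφ.injOn).E := by
    rintro _ ⟨a, -, rfl⟩ _ ⟨b, -, rfl⟩ h
    rw [hl, hl] at h
    rw [h]
  refine ⟨N'.map φ hφ.injOn, ⟨P, Fin N, inferInstance, ⊤, Function.invFun φ, hi, hP, ?_⟩, ?_,
    fun X hX => ?_⟩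
  · have e : (N'.map φ hφ.injOn).map (Function.invFun φ) hi = N' := by
      refine Matroid.ext_indep (hl.image_image _) fun I hI => ?_
      have hI' : I ⊆ N'.E := hI.trans (hl.image_image _).le
      conv_lhs => rw [← hl.image_image I]
      rw [Matroid.map_image_indep_iff (image_mono hI'), Matroid.map_image_indep_iff hI']
    rwa [e]
  · rw [Matroid.map_ground, hN'.1, image_comp, map_val_top]
  · rw [← map_val_top] at hX
    obtain ⟨X₀, h0, rfl⟩ := subset_image_iff.1 hX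
    rw [← image_comp, Matroid.map_image_indep_iff (hN'.1 ▸ h0),
      hg.map P hP _ _ _ _ Fin.val_injective.injOn]
    exact hN'.indep X₀

lemma exists_bound {𝒳 : Set (Set (Sym2 V0))} (h : 𝒳.Finite) (hf : ∀ X ∈ 𝒳, X.Finite ∧ ND X) :
    ∃ N, 500 ≤ N ∧ ∀ X ∈ 𝒳, Sym2.map cd '' X ⊆ EN N := by
  obtain ⟨N, hN⟩ := (h.biUnion fun X hX => (supp_finite (hf X hX).1).image cd).bddAbove
  refine ⟨N + 500, by omega, fun X hX e he => ⟨nd_iff.1 ((hf X hX).2.map cd_inj.injOn) e he,
    fun x hx => ?_⟩⟩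
  have h1 : x ∈ cd '' supp X := supp_map cd X ▸ mem_supp he hx
  have := hN (mem_biUnion hX h1)
  omega

end FinP

open FinP

theorem final (hg : GenStmt) (hex : BlkExStmt) (hm : ModelStmt) (hf : TabFinStmt) (hr : RecStmt)
    (hs : SoundStmt) (hn : NBStmt) (hc : CompStmt) (hy : CycStmt) (he : ReStmt) : FinalStmt := by
  intro p hp hre
  obtain ⟨L, z, R, w, G, _, g, w1, hz, hR, hw, hsat, hzz, hH⟩ := hn
  obtain ⟨T, hT⟩ := hex
  obtain ⟨P₀, p1, p2, p3, p4⟩ := hm G g T hT
  obtain ⟨𝒳, x1, x2, x3⟩ := hf (Ind P₀) T L z R hT (fun _ h => h.1) (p3 L z R hsat hzz)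
  let co : Set (Sym2 V0) → Set ℕ := fun X => ec '' (Sym2.map cd '' X)
  have cf : ∀ (q : Set (Sym2 V0) → Prop), ∀ Y ∈ co '' {X ∈ 𝒳 | q X}, Y.Finite := by
    rintro q _ ⟨X, hX, rfl⟩
    exact ((x2 X hX.1).1.image _).image _
  obtain ⟨Ld, d1, d2⟩ := exists_lists ((x1.subset (sep_subset _ _)).image co)
    (cf fun X => ¬Ind P₀ X)
  obtain ⟨Li, i1, i2⟩ := exists_lists ((x1.subset (sep_subset _ _)).image co) (cf (Ind P₀))
  obtain ⟨Cond, c1, c2, c3⟩ := hc Ld Li
  obtain ⟨U, u1, u2⟩ := hy T L hT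
  have h1 := he Nat.Partrec.Code (ℕ × List ℕ × List (List ℕ)) _ p Prod.snd
    (fun q => Cond (q.2.1, U (w (Encodable.encode q.1) ++ [z, z]), q.2.2)) hre Primrec.snd
    (c1.comp ((Primrec.fst.comp Primrec.snd).pair ((u1.comp (Primrec.list_append.comp
      (w1.comp (Primrec.encode.comp Primrec.fst)) (Primrec.const _))).pair
      (Primrec.snd.comp Primrec.snd))))
  refine ComputablePred.halting_problem_not_re 0 (h1.of_eq fun c => ?_)
  have e0 : Halts (Encodable.encode c) ↔ (c.eval 0).Dom := by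
    rw [Halts, Denumerable.ofNat_encode]
  rw [← e0]
  dsimp only
  generalize Encodable.encode c = n
  obtain ⟨a, l, l1, l2, l3, l4⟩ := u2 (w n ++ [z, z]) (fun s hs => by
    rcases List.mem_append.1 hs with h | h
    · exact hw n s h
    · simp only [List.mem_cons, List.not_mem_nil, or_false, or_self] at h
      exact h ▸ hz) (by simp)
  constructor
  · rintro ⟨⟨N, c⟩, q1, q2⟩ hh
    obtain ⟨M, m1, m2⟩ := c2 _ _ _ q2
    obtain ⟨P, V, _, Γ, f, f1, f2, f3⟩ := (hp c M m1).1 q1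
    have k1 : ∀ X ⊆ EN N, (M.Indep (ec '' X) ↔ Ind P ((f ∘ ec) '' X)) := fun X hX => by
      have h2 : ec '' X ⊆ M.E := m2.gr ▸ image_mono hX
      rw [image_comp, ← Matroid.map_image_indep_iff (hf := f1) h2, f3.indep]
      exact and_congr_left' ⟨fun h => h.trans (SimpleGraph.edgeSet_mono le_top),
        fun _ => f3.1 ▸ image_mono h2⟩
    have hb : BijOn (f ∘ ec) (EN N) Γ.edgeSet := by
      have h2 : (f ∘ ec) '' EN N = Γ.edgeSet := by rw [image_comp, ← m2.gr]; exact f3.1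
      exact h2 ▸ (f1.comp ec_inj.injOn fun e he => m2.gr ▸ mem_image_of_mem ec he).bijOn_image
    obtain ⟨r1, r2⟩ := hr N P V Γ (f ∘ ec) m2.big f2 hb
      ⟨fun X hX h => m2.rules.up X hX ((k1 X hX).2 h),
        fun X hX h x y h1 h2 => (k1 _ (insert_subset h1 hX)).1
          (m2.rules.ext X hX ((k1 X hX).2 h) x y h1 h2),
        fun X hX h1 h2 => (k1 X hX).1 (m2.rules.bip X hX h1 h2)⟩
    have k2 : ∀ X, co X ⊆ M.E → (M.Indep (co X) ↔ Ind P X) := fun X hX => by
      have h2 : Sym2.map cd '' X ⊆ EN N :=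
        (image_subset_image_iff ec_inj).1 (hX.trans m2.gr.le)
      exact ((k1 _ h2).trans (r2 _ h2)).trans (hg.map P f2 _ _ cd X cd_inj.injOn)
    have ht := x3 (Ind P) fun X hX => by
      by_cases h : Ind P₀ X
      · obtain ⟨l', h2, h3⟩ := i2 _ ⟨X, ⟨hX, h⟩, rfl⟩
        have h4 := h3 ▸ m2.ind l' h2
        exact iff_of_true ((k2 X h4.subset_ground).1 h4) h
      · obtain ⟨l', h2, h3⟩ := d2 _ ⟨X, ⟨hX, h⟩, rfl⟩
        have h4 := h3 ▸ m2.dep l' h2
        exact iff_of_false (fun h5 => h4.2 ((k2 X h4.1).2 h5)) h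
    have h4 := l4 ▸ m2.tgt
    exact hs P T L z R r1 hT ht hz hR (w n) (hw n) ((hH n).1 hh) a l l1 l2
      ((k2 _ h4.subset_ground).1 h4)
  · intro hh
    have hZ : Ind P₀ (PE T a l) := p4 a l l2 (by
      rw [l1, List.map_append, List.prod_append]
      simpa [hzz] using (hH n).2 hh)
    obtain ⟨N, n1, n2⟩ := exists_bound (x1.insert (PE T a l)) (by
      rintro X (rfl | hX)
      · exact ⟨l3, hZ.1⟩
      · exact x2 X hX)
    obtain ⟨M, m1, m2, m3⟩ := exists_named hg p1.mat (N := N) (by omega)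
    have k2 : ∀ X ∈ insert (PE T a l) 𝒳, (M.Indep (co X) ↔ Ind P₀ X) := fun X hX =>
      (m3 _ (n2 X hX)).trans (hg.map P₀ p1.mat _ _ cd X cd_inj.injOn)
    have fin : ∀ X ⊆ EN N, X.Finite := fun X hX => (EN_finite N).subset hX
    suffices hS : Sem Ld Li N (U (w n ++ [z, z])) M by
      obtain ⟨c, q1, q2⟩ := c3 _ _ _ hS
      exact ⟨(N, c), (hp c M q1).2 m1, q2⟩
    refine ⟨n1, m2, ⟨fun X hX h => ?_, fun X hX h x y h1 h2 => ?_, fun X hX h1 h2 => ?_⟩,
      fun l' hl' => ?_, fun l' hl' => ?_, l4 ▸ (k2 _ (Or.inl rfl)).2 hZ⟩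
    · refine (p1.bnd _ X (fin X hX) ((m3 X hX).1 h)).trans (Nat.mul_le_mul_left 4 ?_)
      have := ncard_le_ncard ((supp_mono hX).trans (supp_EN N)) (finite_Iio N)
      rwa [Set.ncard_Iio_nat] at this
    · exact (m3 _ (insert_subset h1 hX)).2
        (p1.ext _ X (fin X hX) ((m3 X hX).1 h) x y (mk_mem_EN.1 h1).1 h2)
    · exact (m3 X hX).2 (p2 X (fin X hX) h1 h2)
    · obtain ⟨X, hX, e⟩ := d1 l' hl'
      rw [← e]
      exact ⟨m2 ▸ image_mono (n2 X (Or.inr hX.1)), fun h => hX.2 ((k2 X (Or.inr hX.1)).1 h)⟩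
    · obtain ⟨X, hX, e⟩ := i1 l' hl'
      rw [← e]
      exact (k2 X (Or.inr hX.1)).2 hX.2

end Pool.Agent.MP_1a6d08_co.Und

end MrgPart0

-- ======== part 1: formerly Pool.Agent.MP_1a6d08_co.und.Gen
section MrgPart1

/-!
General facts on independence in a matroidal family.
-/

open Set

namespace Pool.Agent.MP_1a6d08_co.Und

namespace GenP

variable {P : Set FinGraph}

lemma cp_emb {V W : Type} (φ : V ↪ W) {C : Set (Sym2 V)} (h : Cp P C) :
    Cp P (Sym2.map φ '' C) := by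
  obtain ⟨p, hp, ψ, rfl⟩ := h
  refine ⟨p, hp, ψ.trans φ, ?_⟩
  rw [image_image]
  exact image_congr fun e _ => Sym2.map_map e

lemma ind_emb (hP : Matroidal P) {V W : Type} (φ : V ↪ W) (F : Set (Sym2 V)) :
    Ind P (Sym2.map φ '' F) ↔ Ind P F := by
  refine ⟨fun h => ⟨h.1.of_map, fun C hC hc => h.2 _ (image_mono hC) (cp_emb φ hc)⟩,
    fun h => ⟨h.1.map φ.injective.injOn, fun C hC hc => ?_⟩⟩
  obtain ⟨C', h1, rfl⟩ := subset_image_iff.1 hC
  exact h.2 C' h1 (hP.cp_map φ hc)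

lemma ind_map (hP : Matroidal P) {V W : Type} (f : V → W) (F : Set (Sym2 V))
    (hf : InjOn f (supp F)) : Ind P (Sym2.map f '' F) ↔ Ind P F := by
  obtain ⟨F₀, e⟩ := exists_pull (F := F) subset_rfl
  have h1 := ind_emb hP (Function.Embedding.subtype (· ∈ supp F)) F₀
  have h2 := ind_emb hP ⟨(supp F).domRestrict f, hf.injective⟩ F₀
  have e2 : Sym2.map f '' F = Sym2.map ((supp F).domRestrict f) '' F₀ := by
    conv_lhs => rw [← e, image_image]
    exact image_congr fun x _ => Sym2.map_map x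
  rw [e2]
  exact h2.trans (h1.symm.trans (iff_of_eq (congrArg (Ind P) e)))

lemma ind_mat (hP : Matroidal P) (V : Type) : ∃ N : Matroid (Sym2 V),
    N.E = (⊤ : SimpleGraph V).edgeSet ∧ ∀ I, N.Indep I ↔ Ind P I := by
  refine ⟨(IndepMatroid.ofFinitaryCardAugment (⊤ : SimpleGraph V).edgeSet (Ind P) ?_
    (fun I J hJ h => hJ.mono h) ?_ ?_ fun I hI => hI.1).matroid, rfl, fun I => Iff.rfl⟩
  · obtain ⟨N, hN⟩ := hP.2.2 Empty ⊤
    have h := (ind_emb hP (Function.Embedding.ofIsEmpty (α := Empty) (β := V)) ∅).2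
      ((hN.indep ∅).1 N.empty_indep)
    rwa [image_empty] at h
  · intro I J hI fI hJ fJ hlt
    obtain ⟨A, hA, a1, a2⟩ : ∃ A : Set V, A.Finite ∧ supp I ⊆ A ∧ supp J ⊆ A :=
      ⟨_, supp_finite (fI.union fJ), supp_mono subset_union_left, supp_mono subset_union_right⟩
    have := hA.to_subtype
    obtain ⟨I₀, rfl⟩ := exists_pull a1
    obtain ⟨J₀, rfl⟩ := exists_pull a2
    obtain ⟨N, hN⟩ := hP.2.2 A ⊤
    have key : ∀ F, N.Indep F ↔ Ind P (Sym2.map Subtype.val '' F) := fun F =>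
      (hN.indep F).trans (ind_emb hP (Function.Embedding.subtype (· ∈ A)) F).symm
    have hi := Sym2.map.injective (Subtype.val_injective (p := (· ∈ A)))
    rw [ncard_image_of_injective _ hi, ncard_image_of_injective _ hi] at hlt
    obtain ⟨e, he, h⟩ := ((key _).2 hI).exists_insert_of_encard_lt ((key _).2 hJ) (by
      rwa [← (toFinite I₀).cast_ncard_eq, ← (toFinite J₀).cast_ncard_eq, Nat.cast_lt])
    refine ⟨_, mem_image_of_mem _ he.1, fun h' => he.2 (hi.mem_set_image.1 h'), ?_⟩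
    rw [← image_insert_eq]
    exact (key _).1 h
  · intro I h
    refine ⟨fun e he => (h {e} (singleton_subset_iff.2 he) (finite_singleton e)).1 rfl,
      fun C hC hc => ?_⟩
    have hf : C.Finite := by
      obtain ⟨p, -, ψ, rfl⟩ := hc
      exact (toFinite _).image _
    exact (h C hC hf).2 C subset_rfl hc

lemma add_star {V : Type} {E₀ : Set (Sym2 V)} {I : Set (Sym2 V) → Prop}
    (hI : ∀ Y ⊆ E₀, Y.Finite → I Y → ∀ x y, s(x, y) ∈ E₀ → dg Y x ≤ 3 → I (insert s(x, y) Y))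
    {X : Set (Sym2 V)} (h0 : X ⊆ E₀) (hf : X.Finite) (hX : I X) {y : V} (hy : y ∉ supp X)
    {Z : Set V} (hZ : Z.Finite) :
    Z.ncard ≤ 4 → (∀ z ∈ Z, s(y, z) ∈ E₀) → I (X ∪ (fun z => s(y, z)) '' Z) := by
  induction Z, hZ using Set.Finite.induction_on with
  | empty => intro _ _; rwa [image_empty, union_empty]
  | @insert z Z hz hZ ih =>
    intro h1 h2
    rw [ncard_insert_of_notMem hz hZ] at h1
    rw [image_insert_eq, union_insert]
    refine hI _ (union_subset h0 ?_) (hf.union (hZ.image _))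
      (ih (by omega) fun w hw => h2 w (Or.inr hw)) y z (h2 z (Or.inl rfl)) ?_
    · rintro _ ⟨w, hw, rfl⟩
      exact h2 w (Or.inr hw)
    · refine le_trans (ncard_le_ncard (t := (fun z => s(y, z)) '' Z) ?_ (hZ.image _))
        ((ncard_image_le hZ).trans (by omega))
      exact fun e he => he.1.resolve_left fun h => hy ⟨e, h, he.2⟩

lemma add {V : Type} {E₀ E₁ : Set (Sym2 V)} {I : Set (Sym2 V) → Prop} {k : ℕ} {X : Set (Sym2 V)}
    {R M : Set V}
    (hI : ∀ Y ⊆ E₀, Y.Finite → I Y → ∀ x y, s(x, y) ∈ E₀ → dg Y x ≤ 3 → I (insert s(x, y) Y))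
    (h1 : E₁ ⊆ E₀) (hk : k ≤ 4) (h0 : X ⊆ E₀) (hf : X.Finite) (hX : I X) (hR : supp X ⊆ R)
    (hM : M.Finite) : Disjoint R M →
    (∀ y ∈ M, ∃ Z ⊆ R, k ≤ Z.ncard ∧ ∀ z ∈ Z, s(y, z) ∈ E₁) →
    ∃ S ⊆ E₁, S.Finite ∧ Disjoint S X ∧ I (X ∪ S) ∧ supp S ⊆ R ∪ M ∧ S.ncard = k * M.ncard ∧
      ∀ e ∈ S, ∃ y ∈ M, ∃ z ∈ R, e = s(y, z) ∧ s(y, z) ∈ E₁ := by
  induction M, hM using Set.Finite.induction_on with
  | empty =>
    intro _ _
    exact ⟨∅, empty_subset _, finite_empty, disjoint_empty _ |>.symm, by rwa [union_empty],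
      by rw [supp_empty]; exact empty_subset _, by simp, fun _ h => h.elim⟩
  | @insert y M hy hM ih =>
    intro hd hZ
    obtain ⟨S, s1, s2, s3, s4, s5, s6, s7⟩ := ih (hd.mono_right (subset_insert _ _))
      fun w hw => hZ w (Or.inr hw)
    obtain ⟨Z, z1, z2, z3⟩ := hZ y (Or.inl rfl)
    obtain ⟨Z', w1, w2, w3⟩ : ∃ Z' ⊆ Z, Z'.Finite ∧ Z'.ncard = k := by
      rcases Nat.eq_zero_or_pos k with rfl | h
      · exact ⟨∅, empty_subset _, finite_empty, ncard_empty _⟩
      · obtain ⟨Z', a1, a2⟩ := exists_subset_card_eq z2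
        exact ⟨Z', a1, finite_of_ncard_ne_zero (by omega), a2⟩
    have hyR : y ∉ R := fun h => disjoint_left.1 hd h (Or.inl rfl)
    have hy' : y ∉ supp (X ∪ S) := by
      rw [supp_union]
      rintro (h | h)
      · exact hyR (hR h)
      · exact (s5 h).elim hyR hy
    have hd' : Disjoint ((fun z => s(y, z)) '' Z') (X ∪ S) :=
      disjoint_left.2 fun _ ⟨z, _, e⟩ h => hy' ⟨_, h, by rw [← e]; simp⟩
    refine ⟨S ∪ (fun z => s(y, z)) '' Z', union_subset s1 ?_, s2.union (w2.image _),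
      disjoint_union_left.2 ⟨s3, hd'.mono_right subset_union_left⟩, ?_, ?_, ?_, ?_⟩
    · rintro _ ⟨z, hz, rfl⟩
      exact z3 z (w1 hz)
    · rw [← union_assoc]
      exact add_star hI (union_subset h0 (s1.trans h1)) (hf.union s2) s4 hy' w2 (by omega)
        fun z hz => h1 (z3 z (w1 hz))
    · rw [supp_union]
      refine union_subset (s5.trans (union_subset_union_right _ (subset_insert _ _))) ?_
      rintro x ⟨_, ⟨z, hz, rfl⟩, hx⟩
      rcases Sym2.mem_iff.1 hx with rfl | rfl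
      · exact Or.inr (Or.inl rfl)
      · exact Or.inl (z1 (w1 hz))
    · rw [ncard_union_eq (hd'.mono_right subset_union_right).symm s2 (w2.image _),
        ncard_image_of_injective _ fun _ _ h => Sym2.congr_right.1 h, s6, w3,
        ncard_insert_of_notMem hy hM, mul_add_one]
    · rintro e (he | ⟨z, hz, rfl⟩)
      · obtain ⟨w, hw, h⟩ := s7 e he
        exact ⟨w, Or.inr hw, h⟩
      · exact ⟨y, Or.inl rfl, z, z1 (w1 hz), rfl, z3 z (w1 hz)⟩

end GenP

theorem gen : GenStmt where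
  mat := fun _ hP V => GenP.ind_mat hP V
  map := fun _ hP _ _ f F hf => GenP.ind_map hP f F hf
  add := fun _ _ _ _ _ _ _ _ hI h1 hk h0 hf hX hR hM => GenP.add hI h1 hk h0 hf hX hR hM

end Pool.Agent.MP_1a6d08_co.Und

end MrgPart1

-- ======== part 2: formerly Pool.Agent.MP_1a6d08_co.und.Nb
section MrgPart2

/-!
Row NB: a finite presentation with undecidable word problem.
-/

open Set

namespace Pool.Agent.MP_1a6d08_co.Und

namespace NbP

/-- Generators and their formal inverses. -/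
abbrev Lt (ι ρ : Type) : Type := (ι ⊕ ρ ⊕ Bool) × Bool

variable {ι ρ : Type}

/-- The formal inverse of a letter. -/
def fl (l : Lt ι ρ) : Lt ι ρ := (l.1, !l.2)

/-- The formal inverse of a word. -/
def iv (w : List (Lt ι ρ)) : List (Lt ι ρ) := (w.map fl).reverse

/-- The letter of a coordinate. -/
def xl (ρ : Type) (i : ι) : Lt ι ρ := (Sum.inl i, false)

/-- The letter of a rule. -/
def rl (ι : Type) (q : ρ) : Lt ι ρ := (Sum.inr (Sum.inl q), false)

/-- The letter `t`. -/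
def tl (ι ρ : Type) : Lt ι ρ := (Sum.inr (Sum.inr false), false)

/-- The letter `k`. -/
def kl (ι ρ : Type) : Lt ι ρ := (Sum.inr (Sum.inr true), false)

/-- The word of a vector along a list of coordinates. -/
def xw (ρ : Type) (ℓ : List ι) (β : ι → ℕ) : List (Lt ι ρ) :=
  ℓ.flatMap fun i => List.replicate (β i) (xl ρ i)

/-- The conjugate of `t` by a word. -/
def tw (u : List (Lt ι ρ)) : List (Lt ι ρ) := iv u ++ [tl ι ρ] ++ u

/-- The commutator of `k` with the conjugate of `t`. -/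
def cw (u : List (Lt ι ρ)) : List (Lt ι ρ) :=
  [kl ι ρ] ++ tw u ++ [fl (kl ι ρ)] ++ iv (tw u)

/-- The relators. -/
def rels (ℓ : List ι) (a b m m' : ρ → ι → ℕ) (h : ι → ℕ) :
    Set (List (Lt ι ρ) × List (Lt ι ρ)) :=
  range (fun l => ([l, fl l], [])) ∪
  range (fun p : ι × ι => ([xl ρ p.1, xl ρ p.2], [xl ρ p.2, xl ρ p.1])) ∪
  range (fun p : ρ × ι => ([rl ι p.1] ++ List.replicate (m' p.1 p.2) (xl ρ p.2),
    List.replicate (m p.1 p.2) (xl ρ p.2) ++ [rl ι p.1])) ∪
  range (fun q : ρ => ([tl ι ρ] ++ (xw ρ ℓ (a q) ++ [rl ι q] ++ iv (xw ρ ℓ (b q))),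
    (xw ρ ℓ (a q) ++ [rl ι q] ++ iv (xw ρ ℓ (b q))) ++ [tl ι ρ])) ∪
  range (fun q : ρ => ([kl ι ρ, rl ι q], [rl ι q, kl ι ρ])) ∪
  {([kl ι ρ] ++ tw (xw ρ ℓ h), tw (xw ρ ℓ h) ++ [kl ι ρ])}

lemma rels_finite [Finite ι] [Finite ρ] (ℓ : List ι) (a b m m' : ρ → ι → ℕ) (h : ι → ℕ) :
    (rels ℓ a b m m' h).Finite :=
  (((((finite_range _).union (finite_range _)).union (finite_range _)).union
    (finite_range _)).union (finite_range _)).union (finite_singleton _)

lemma fl_fl (l : Lt ι ρ) : fl (fl l) = l := by simp [fl]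

section Ev

variable {Q : Type} [Group Q] (u : Lt ι ρ → Q)

/-- The value of a word. -/
def ev (w : List (Lt ι ρ)) : Q := (w.map u).prod

lemma ev_nil : ev u [] = 1 := rfl

lemma ev_cons (l : Lt ι ρ) (w : List (Lt ι ρ)) : ev u (l :: w) = u l * ev u w := by
  simp [ev]

lemma ev_append (w w' : List (Lt ι ρ)) : ev u (w ++ w') = ev u w * ev u w' := by
  simp [ev]

lemma ev_one (l : Lt ι ρ) : ev u [l] = u l := by simp [ev]

lemma ev_rep (n : ℕ) (l : Lt ι ρ) : ev u (List.replicate n l) = u l ^ n := by simp [ev]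

lemma ev_xw_nil (β : ι → ℕ) : ev u (xw ρ [] β) = 1 := rfl

lemma ev_xw_cons (i : ι) (ℓ : List ι) (β : ι → ℕ) :
    ev u (xw ρ (i :: ℓ) β) = u (xl ρ i) ^ β i * ev u (xw ρ ℓ β) := by
  rw [xw, List.flatMap_cons, ev_append, ev_rep]; rfl

variable {u}

lemma ev_iv (hu : ∀ l, u (fl l) = (u l)⁻¹) (w : List (Lt ι ρ)) : ev u (iv w) = (ev u w)⁻¹ := by
  induction w with
  | nil => simp [iv, ev]
  | cons l w ih =>
    have : iv (l :: w) = iv w ++ [fl l] := by simp [iv]
    rw [this, ev_append, ih, ev_one, hu, ev_cons, mul_inv_rev]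

lemma ev_tw (hu : ∀ l, u (fl l) = (u l)⁻¹) (w : List (Lt ι ρ)) :
    ev u (tw w) = (ev u w)⁻¹ * u (tl ι ρ) * ev u w := by
  rw [tw, ev_append, ev_append, ev_iv hu, ev_one]

lemma ev_cw (hu : ∀ l, u (fl l) = (u l)⁻¹) (w : List (Lt ι ρ)) :
    ev u (cw w) = 1 ↔ Commute (u (kl ι ρ)) ((ev u w)⁻¹ * u (tl ι ρ) * ev u w) := by
  rw [cw, ev_append, ev_append, ev_append, ev_iv hu, ev_one, ev_one, hu, ev_tw hu,
    ← commutatorElement_eq_one_iff_commute, commutatorElement_def]

lemma xw_comm (hc : ∀ i j, Commute (u (xl ρ i)) (u (xl ρ j))) (j : ι) (ℓ : List ι) (β : ι → ℕ) :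
    Commute (u (xl ρ j)) (ev u (xw ρ ℓ β)) := by
  induction ℓ with
  | nil => exact Commute.one_right _
  | cons i ℓ ih => rw [ev_xw_cons]; exact ((hc j i).pow_right _).mul_right ih

lemma xw_add (hc : ∀ i j, Commute (u (xl ρ i)) (u (xl ρ j))) (ℓ : List ι) (β γ : ι → ℕ) :
    ev u (xw ρ ℓ (β + γ)) = ev u (xw ρ ℓ β) * ev u (xw ρ ℓ γ) := by
  induction ℓ with
  | nil => exact (one_mul _).symm
  | cons i ℓ ih =>
    rw [ev_xw_cons, ev_xw_cons, ev_xw_cons, ih, Pi.add_apply, pow_add, mul_assoc, mul_assoc,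
      ← mul_assoc (u (xl ρ i) ^ γ i), ((xw_comm hc i ℓ β).pow_left (γ i)).eq, mul_assoc]

lemma xw_semi {y : Q} {p p' : ι → ℕ}
    (hs : ∀ i, SemiconjBy y (u (xl ρ i) ^ p' i) (u (xl ρ i) ^ p i)) (ℓ : List ι) (γ : ι → ℕ) :
    SemiconjBy y (ev u (xw ρ ℓ (p' * γ))) (ev u (xw ρ ℓ (p * γ))) := by
  induction ℓ with
  | nil => exact SemiconjBy.one_right _
  | cons i ℓ ih =>
    rw [ev_xw_cons, ev_xw_cons, Pi.mul_apply, Pi.mul_apply, pow_mul, pow_mul]
    exact ((hs i).pow_right _).mul_right ih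

/-- The relations force `k` to commute with the conjugate of every halting vector. -/
lemma sound (hu : ∀ l, u (fl l) = (u l)⁻¹) {ℓ : List ι} {a b m m' : ρ → ι → ℕ} {h : ι → ℕ}
    (hr : ∀ p ∈ rels ℓ a b m m' h, ev u p.1 = ev u p.2) {α : ι → ℕ}
    (hα : Relation.ReflTransGen
      (fun β β' : ι → ℕ => ∃ r γ, β = b r + m' r * γ ∧ β' = a r + m r * γ) α h) :
    ev u (cw (xw ρ ℓ α)) = 1 := by
  have hc : ∀ i j, Commute (u (xl ρ i)) (u (xl ρ j)) := fun i j => by
    have := hr _ (Or.inl (Or.inl (Or.inl (Or.inl (Or.inr ⟨(i, j), rfl⟩)))))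
    simp only [ev_cons, ev_nil, mul_one] at this
    exact this
  have hs : ∀ q i, SemiconjBy (u (rl ι q)) (u (xl ρ i) ^ m' q i) (u (xl ρ i) ^ m q i) :=
    fun q i => by
      have := hr _ (Or.inl (Or.inl (Or.inl (Or.inr ⟨(q, i), rfl⟩))))
      simp only [ev_append, ev_one, ev_rep] at this
      exact this
  have ht : ∀ q, Commute (u (tl ι ρ))
      (ev u (xw ρ ℓ (a q)) * u (rl ι q) * (ev u (xw ρ ℓ (b q)))⁻¹) := fun q => by
    have := hr _ (Or.inl (Or.inl (Or.inr ⟨q, rfl⟩)))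
    simp only [ev_append, ev_one, ev_iv hu] at this
    exact this
  have hk : ∀ q, Commute (u (kl ι ρ)) (u (rl ι q)) := fun q => by
    have := hr _ (Or.inl (Or.inr ⟨q, rfl⟩))
    simp only [ev_cons, ev_nil, mul_one] at this
    exact this
  rw [ev_cw hu]
  induction hα using Relation.ReflTransGen.head_induction_on with
  | refl =>
    have := hr _ (Or.inr rfl)
    simp only [ev_append, ev_one, ev_tw hu] at this
    exact this
  | head hstep _ ih =>
    obtain ⟨q, γ, rfl, rfl⟩ := hstep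
    rw [xw_add hc] at ih ⊢
    have h1 := (xw_semi (hs q) ℓ γ).eq
    have h2 := (ht q).eq
    generalize ev u (xw ρ ℓ (a q)) = A at *
    generalize ev u (xw ρ ℓ (b q)) = B at *
    generalize ev u (xw ρ ℓ (m' q * γ)) = C' at *
    generalize ev u (xw ρ ℓ (m q * γ)) = C at *
    have h3 := hk q
    generalize u (rl ι q) = y at *
    generalize u (tl ι ρ) = t at *
    have h4 : C' = y⁻¹ * C * y := by rw [mul_assoc, ← h1, inv_mul_cancel_left]
    have h5 : B⁻¹ * t * B = y⁻¹ * (A⁻¹ * t * A) * y := by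
      calc B⁻¹ * t * B = y⁻¹ * A⁻¹ * (A * y * B⁻¹ * t) * B := by group
        _ = y⁻¹ * A⁻¹ * (t * (A * y * B⁻¹)) * B := by rw [h2]
        _ = _ := by group
    have h6 : (B * C')⁻¹ * t * (B * C') = y⁻¹ * ((A * C)⁻¹ * t * (A * C)) * y := by
      calc (B * C')⁻¹ * t * (B * C') = C'⁻¹ * (B⁻¹ * t * B) * C' := by group
        _ = _ := by rw [h5, h4]; group
    rw [h6]
    exact (h3.inv_right.mul_right ih).mul_right h3

end Ev

/-- Word valued functions whose codes are primitive recursive. -/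
def Good (w : ℕ → List (Lt ι ρ)) : Prop := ∀ φ : Lt ι ρ → ℕ, Primrec fun n => (w n).map φ

lemma good_const (w : List (Lt ι ρ)) : Good fun _ => w := fun _ => Primrec.const _

lemma Good.append {w w' : ℕ → List (Lt ι ρ)} (h : Good w) (h' : Good w') :
    Good fun n => w n ++ w' n := fun φ =>
  (Primrec.list_append.comp (h φ) (h' φ)).of_eq fun _ => List.map_append.symm

lemma Good.iv {w : ℕ → List (Lt ι ρ)} (h : Good w) : Good fun n => iv (w n) := fun φ =>
  (Primrec.list_reverse.comp (h (φ ∘ fl))).of_eq fun _ => by simp [NbP.iv]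

lemma good_rep {f : ℕ → ℕ} (hf : Primrec f) (l : Lt ι ρ) :
    Good fun n => List.replicate (f n) l := fun φ =>
  (Primrec.list_map (Primrec.list_range.comp hf)
    (Primrec.const (φ l) : Primrec fun _ : ℕ × ℕ => φ l).to₂).of_eq fun n => by
      simp [List.map_const']

lemma good_xw {F : ℕ → ι → ℕ} (hF : ∀ i, Primrec fun n => F n i) (ℓ : List ι) :
    Good fun n => xw ρ ℓ (F n) := by
  induction ℓ with
  | nil => exact good_const []
  | cons i ℓ ih => exact (good_rep (hF i) (xl ρ i)).append ih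

lemma Good.cw {w : ℕ → List (Lt ι ρ)} (h : Good w) : Good fun n => cw (w n) := by
  have h1 : Good fun n => tw (w n) := (h.iv.append (good_const _)).append h
  exact (((good_const _).append h1).append (good_const _)).append h1.iv

section Model

variable {G : Type} [Group G] {X : (ι → ℤ) → G}

lemma X_zero (hX : ∀ β γ, X (β + γ) = X β * X γ) : X 0 = 1 := by
  have := hX 0 0
  rw [add_zero] at this
  exact (mul_eq_left.1 this.symm)

lemma X_pow [DecidableEq ι] (hX : ∀ β γ, X (β + γ) = X β * X γ) (i : ι) (n : ℕ) :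
    X (Pi.single i 1) ^ n = X (Pi.single i (n : ℤ)) := by
  induction n with
  | zero => rw [pow_zero, Nat.cast_zero, Pi.single_zero, X_zero hX]
  | succ n ih => rw [pow_succ, ih, ← hX, ← Pi.single_add, Nat.cast_succ]

lemma X_list [DecidableEq ι] (hX : ∀ β γ, X (β + γ) = X β * X γ) {u : Lt ι ρ → G}
    (hu : ∀ i, u (xl ρ i) = X (Pi.single i 1)) (ℓ : List ι) (β : ι → ℕ) :
    ev u (xw ρ ℓ β) = X (ℓ.map fun i => (Pi.single i (β i : ℤ) : ι → ℤ)).sum := by
  induction ℓ with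
  | nil => exact (X_zero hX).symm
  | cons i ℓ ih => rw [ev_xw_cons, ih, hu, X_pow hX, List.map_cons, List.sum_cons, hX]

lemma X_univ [Fintype ι] [DecidableEq ι] (hX : ∀ β γ, X (β + γ) = X β * X γ) {u : Lt ι ρ → G}
    (hu : ∀ i, u (xl ρ i) = X (Pi.single i 1)) (β : ι → ℕ) :
    ev u (xw ρ Finset.univ.toList β) = X fun i => (β i : ℤ) := by
  rw [X_list hX hu, Finset.sum_map_toList, Finset.univ_sum_single]

end Model

end NbP

open NbP in
theorem nb (hm : MachStmt) (hp : PermStmt) : NBStmt := by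
  classical
  obtain ⟨ι, ρ, _, _, _, a, b, m, m', h, c₀, i₀, e, H, he, hpos, hh, hinv, hhalt⟩ := hm
  obtain ⟨G, _, X, r, t, k, hX, hr, ht, hk, hkk, hH⟩ := hp ι ρ a b m m' H hpos hinv
  let N : Lt ι ρ → ℕ := fun l => Fintype.equivFin (Lt ι ρ) l
  have hN : ∀ l, N l < Fintype.card (Lt ι ρ) := fun l => (Fintype.equivFin (Lt ι ρ) l).2
  have hNi : Function.Injective N := fun l l' hl =>
    (Fintype.equivFin (Lt ι ρ)).injective (Fin.ext hl)
  clear_value N
  let gen : ι ⊕ ρ ⊕ Bool → G :=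
    Sum.elim (fun i => X (Pi.single i 1)) (Sum.elim r fun c => cond c k t)
  let u : Lt ι ρ → G := fun l => cond l.2 (gen l.1)⁻¹ (gen l.1)
  have hu : ∀ l, u (fl l) = (u l)⁻¹ := by
    rintro ⟨s, _ | _⟩
    · rfl
    · exact (inv_inv _).symm
  have hux : ∀ i, u (xl ρ i) = X (Pi.single i 1) := fun _ => rfl
  have hur : ∀ q, u (rl ι q) = r q := fun _ => rfl
  have hut : u (tl ι ρ) = t := rfl
  have huk : u (kl ι ρ) = k := rfl
  clear_value u
  let g : ℕ → G := Function.extend N u fun _ => 1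
  have hg : ∀ l, g (N l) = u l := fun l => hNi.extend_apply _ _ l
  clear_value g
  have hev : ∀ w : List (Lt ι ρ), ((w.map N).map g).prod = ev u w := fun w => by
    rw [List.map_map, ev, show g ∘ N = u from funext hg]
  have hfin := rels_finite (Finset.univ : Finset ι).toList a b m m' h
  have hlt : ∀ w : List (Lt ι ρ), ∀ s ∈ w.map N, s < Fintype.card (Lt ι ρ) := fun w s hs => by
    obtain ⟨l, -, rfl⟩ := List.mem_map.1 hs
    exact hN l
  have hmem : ∀ p, p ∈ hfin.toFinset.toList ↔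
      p ∈ rels (Finset.univ : Finset ι).toList a b m m' h := fun p => by
    rw [Finset.mem_toList, Finite.mem_toFinset]
  refine ⟨Fintype.card (Lt ι ρ), N (kl ι ρ),
    hfin.toFinset.toList.map fun p => (p.1.map N, p.2.map N),
    fun n => (cw (xw ρ Finset.univ.toList (Function.update c₀ i₀ (e n)))).map N, G, inferInstance,
    g, ?_, hN _, ?_, fun n => hlt _, ?_, ?_, fun n => ⟨fun hn Q _ v hv => ?_, fun hn h1 => ?_⟩⟩
  · refine (good_xw (F := fun n => Function.update c₀ i₀ (e n)) (fun i => ?_) _).cw N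
    by_cases hi : i = i₀
    · subst hi
      exact he.of_eq fun n => by simp
    · exact (Primrec.const (c₀ i)).of_eq fun n => by simp [hi]
  · intro p hp
    obtain ⟨p, -, rfl⟩ := List.mem_map.1 hp
    exact ⟨hlt _, hlt _⟩
  · intro p₀ hp₀
    obtain ⟨p, hp', rfl⟩ := List.mem_map.1 hp₀
    rw [hev, hev]
    rcases (hmem p).1 hp' with ((((⟨l, rfl⟩ | ⟨⟨i, j⟩, rfl⟩) | ⟨⟨q, i⟩, rfl⟩) | ⟨q, rfl⟩) |
      ⟨q, rfl⟩) | rfl
    · simp only [ev_cons, ev_nil, hu, mul_one, mul_inv_cancel]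
    · simp only [ev_cons, ev_nil, hux, mul_one]
      rw [← hX, ← hX, add_comm]
    · simp only [ev_append, ev_one, ev_rep, hux, hur, X_pow hX]
      have h1 : ∀ p : ι → ℕ, (Pi.single i (p i : ℤ) : ι → ℤ) =
          fun j => (p j : ℤ) * (Pi.single i 1 : ι → ℤ) j := fun p => by
        funext j
        by_cases hj : j = i
        · subst hj; simp
        · simp [hj]
      rw [h1, h1]
      exact hr q _
    · simp only [ev_append, ev_one, ev_iv hu, X_univ hX hux, hur, hut]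
      exact (ht q).eq
    · simp only [ev_cons, ev_nil, hur, huk, mul_one]
      exact (hk q).eq
    · simp only [ev_append, ev_one, ev_tw hu, X_univ hX hux, hut, huk]
      exact ((hH _).2 hh).eq
  · rw [hg, huk, hkk]
  · have hv' : ∀ p ∈ rels (Finset.univ : Finset ι).toList a b m m' h,
        ((p.1.map N).map v).prod = ((p.2.map N).map v).prod := fun p hp =>
      hv _ (List.mem_map.2 ⟨p, (hmem p).2 hp, rfl⟩)
    have h0 : ∀ l, v (N l) * v (N (fl l)) = 1 := fun l => by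
      simpa using hv' _ (Or.inl (Or.inl (Or.inl (Or.inl (Or.inl ⟨l, rfl⟩)))))
    let U : Lt ι ρ → Qˣ := fun l => ⟨v (N l), v (N (fl l)), h0 l, by
      simpa only [fl_fl] using h0 (fl l)⟩
    have hU : ∀ l, U (fl l) = (U l)⁻¹ := fun l => Units.ext rfl
    have hUv : ∀ w : List (Lt ι ρ), ((w.map N).map v).prod = ((ev U w : Qˣ) : Q) := fun w => by
      induction w with
      | nil => rfl
      | cons l w ih => rw [List.map_cons, List.map_cons, List.prod_cons, ih, ev_cons]; rfl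
    rw [hUv, sound hU (fun p hp => Units.ext (by rw [← hUv, ← hUv]; exact hv' p hp))
      ((hhalt n).1 hn)]
    rfl
  · rw [hev, ev_cw hu, X_univ hX hux, hut, huk, hH] at h1
    exact (hhalt n).2 hn h1

end Pool.Agent.MP_1a6d08_co.Und

end MrgPart2

-- ======== part 3: formerly Pool.Agent.MP_1a6d08_co.und.Mach
section MrgPart3

/-!
Row MACH: a stack machine read as a deterministic system of modular rules.
-/

open Set Turing Turing.PartrecToTM2

namespace Pool.Agent.MP_1a6d08_co.Und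

namespace MachP

/-- Statements of the stack machine. -/
abbrev St : Type := TM2.Stmt (fun _ : K' => Γ') Λ' (Option Γ')

/-- Configurations of the stack machine. -/
abbrev Cf : Type := TM2.Cfg (fun _ : K' => Γ') Λ' (Option Γ')

/-- A bound for the number of stack entries that a statement reads. -/
def dp : St → ℕ
  | .push _ _ q => dp q
  | .peek _ _ q => dp q + 1
  | .pop _ _ q => dp q + 1
  | .load _ q => dp q
  | .branch _ q₁ q₂ => max (dp q₁) (dp q₂)
  | .goto _ => 0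
  | .halt => 0

theorem head_app {u r : List Γ'} {d : ℕ} (h : d + 1 ≤ u.length ∨ r = []) :
    (u ++ r).head? = u.head? ∧ (u ++ r).tail = u.tail ++ r := by
  rcases h with h | h
  · cases u with
    | nil => simp at h
    | cons x u => simp
  · subst h
    simp

theorem upd_app (u r : K' → List Γ') (k : K') (x : List Γ') :
    Function.update (fun k => u k ++ r k) k (x ++ r k) =
      fun k' => Function.update u k x k' ++ r k' := by
  funext k'
  by_cases h : k' = k
  · subst h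
    simp
  · simp [Function.update_of_ne h]

/-- A statement only reads the tops of the stacks. -/
theorem loc (q : St) : ∀ (v : Option Γ') (u r : K' → List Γ'),
    (∀ k, dp q ≤ (u k).length ∨ r k = []) →
    TM2.stepAux q v (fun k => u k ++ r k) =
      ⟨(TM2.stepAux q v u).l, (TM2.stepAux q v u).var,
        fun k => (TM2.stepAux q v u).stk k ++ r k⟩ := by
  induction q with
  | push k f q ih =>
    intro v u r h
    simp only [TM2.stepAux]
    rw [← List.cons_append, upd_app]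
    refine ih _ _ _ fun k' => ?_
    by_cases hk : k' = k
    · subst hk
      rcases h k' with h | h
      · left
        simp only [dp] at h
        simp only [Function.update_self, List.length_cons]
        omega
      · exact Or.inr h
    · rw [Function.update_of_ne hk]
      exact h k'
  | peek k f q ih =>
    intro v u r h
    simp only [TM2.stepAux]
    rw [(head_app (h k)).1]
    refine ih _ _ _ fun k' => ?_
    rcases h k' with h | h
    · left
      simp only [dp] at h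
      omega
    · exact Or.inr h
  | pop k f q ih =>
    intro v u r h
    simp only [TM2.stepAux]
    rw [(head_app (h k)).1, (head_app (h k)).2, upd_app]
    refine ih _ _ _ fun k' => ?_
    rcases h k' with h | h
    · left
      simp only [dp] at h
      by_cases hk : k' = k
      · subst hk
        simp only [Function.update_self, List.length_tail]
        omega
      · rw [Function.update_of_ne hk]
        omega
    · exact Or.inr h
  | load f q ih =>
    intro v u r h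
    simp only [TM2.stepAux]
    exact ih _ _ _ h
  | branch f q₁ q₂ ih₁ ih₂ =>
    intro v u r h
    simp only [TM2.stepAux]
    cases f v
    · refine ih₂ _ _ _ fun k => ?_
      rcases h k with h | h
      · exact Or.inl (le_trans (le_max_right _ _) h)
      · exact Or.inr h
    · refine ih₁ _ _ _ fun k => ?_
      rcases h k with h | h
      · exact Or.inl (le_trans (le_max_left _ _) h)
      · exact Or.inr h
  | goto f =>
    intro v u r _
    rfl
  | halt =>
    intro v u r _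
    rfl

/-- The digit of a letter. -/
def dgt : Γ' → ℕ
  | .consₗ => 1
  | .cons => 2
  | .bit0 => 3
  | .bit1 => 4

/-- The number that names a stack. -/
def enc : List Γ' → ℕ
  | [] => 0
  | x :: l => dgt x + 5 * enc l

theorem dgt_bd (x : Γ') : 1 ≤ dgt x ∧ dgt x ≤ 4 := by
  cases x <;> simp [dgt]

theorem dgt_inj {x y : Γ'} (h : dgt x = dgt y) : x = y := by
  cases x <;> cases y <;> simp_all [dgt]

theorem enc_append (u r : List Γ') : enc (u ++ r) = enc u + 5 ^ u.length * enc r := by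
  induction u with
  | nil => simp [enc]
  | cons x u ih =>
    simp only [List.cons_append, enc, ih, List.length_cons]
    ring

theorem enc_lt (u : List Γ') : enc u < 5 ^ u.length := by
  induction u with
  | nil => simp [enc]
  | cons x u ih =>
    have := dgt_bd x
    simp only [enc, List.length_cons, pow_succ]
    omega

theorem enc_inj : ∀ {u w : List Γ'}, enc u = enc w → u = w
  | [], [], _ => rfl
  | [], y :: w, h => by
    have := dgt_bd y
    simp only [enc] at h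
    omega
  | x :: u, [], h => by
    have := dgt_bd x
    simp only [enc] at h
    omega
  | x :: u, y :: w, h => by
    have hx := dgt_bd x
    have hy := dgt_bd y
    simp only [enc] at h
    have h1 : dgt x = dgt y := by omega
    have h2 : enc u = enc w := by omega
    rw [dgt_inj h1, enc_inj h2]

theorem res_eq {x y M : ℕ} {γ δ : ℤ} (hx : x < M) (hy : y < M)
    (h : (x : ℤ) + M * γ = y + M * δ) : x = y ∧ γ = δ := by
  have hx' : (x : ℤ) < M := by exact_mod_cast hx
  have hy' : (y : ℤ) < M := by exact_mod_cast hy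
  have h1 : ((x : ℤ) + M * γ) % M = x := by
    rw [Int.add_mul_emod_self_left]
    exact Int.emod_eq_of_lt (by positivity) hx'
  have h2 : ((y : ℤ) + M * δ) % M = y := by
    rw [Int.add_mul_emod_self_left]
    exact Int.emod_eq_of_lt (by positivity) hy'
  have h3 : (x : ℤ) = y := by rw [← h1, ← h2, h]
  refine ⟨by exact_mod_cast h3, ?_⟩
  have hM : (M : ℤ) ≠ 0 := by
    have : 0 < M := by omega
    positivity
  rw [h3] at h
  exact mul_left_cancel₀ hM (add_left_cancel h)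

theorem exists_num {α : Type} (T : Finset α) :
    ∃ (M : ℕ) (st : α → ℕ), 0 < M ∧ (∀ x ∈ T, st x < M) ∧
      ∀ x ∈ T, ∀ y ∈ T, st x = st y → x = y := by
  classical
  refine ⟨T.toList.length + 1, fun x => T.toList.idxOf x, by omega, fun x _ => ?_,
    fun x hx y _ h => ?_⟩
  · exact Nat.lt_succ_of_le List.idxOf_le_length
  · exact (List.idxOf_inj (Finset.mem_toList.2 hx)).1 h

theorem finK : Finite K' :=
  @Finite.of_fintype _ ⟨{K'.main, K'.rev, K'.aux, K'.stack}, fun x => by cases x <;> simp⟩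

/-- The vector that names a configuration. -/
def encC (st : Option Λ' × Option Γ' → ℕ) (c : Cf) : Option K' → ℕ
  | none => st (c.l, c.var)
  | some k => enc (c.stk k)

/-- A rule: a label, a value of the local store and the tops of the stacks. -/
def Rule (S : Finset Λ') (D : ℕ) : Type :=
  {x : Λ' × Option Γ' × (K' → List Γ') // x.1 ∈ S ∧ ∀ k, (x.2.2 k).length ≤ D}

theorem rule_finite (S : Finset Λ') (D : ℕ) : Finite (Rule S D) := by
  have := finK
  have h1 : {u : K' → List Γ' | ∀ k, u k ∈ {l : List Γ' | l.length ≤ D}}.Finite :=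
    Set.Finite.pi' fun _ => List.finite_length_le Γ' D
  have h2 := S.finite_toSet.prod ((Set.toFinite (univ : Set (Option Γ'))).prod h1)
  refine Set.Finite.to_subtype (s := {x : Λ' × Option Γ' × (K' → List Γ') |
    x.1 ∈ S ∧ ∀ k, (x.2.2 k).length ≤ D}) (h2.subset ?_)
  rintro x ⟨hx1, hx2⟩
  exact ⟨hx1, mem_univ _, hx2⟩

variable {S : Finset Λ'} {D M : ℕ} {st : Option Λ' × Option Γ' → ℕ}

/-- The configuration before a rule. -/
def bf (r : Rule S D) : Cf := ⟨some r.1.1, r.1.2.1, r.1.2.2⟩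

/-- The configuration after a rule. -/
def nx (r : Rule S D) : Cf := TM2.stepAux (tr r.1.1) r.1.2.1 r.1.2.2

/-- The moduli before a rule. -/
def mB (M D : ℕ) : Option K' → ℕ
  | none => M
  | some _ => 5 ^ D

/-- The moduli after a rule. -/
def mA (M : ℕ) (r : Rule S D) : Option K' → ℕ
  | none => M
  | some k => 5 ^ ((nx r).stk k).length

/-- Every step of the machine is an instance of a rule. -/
theorem step_rule (hD : ∀ l ∈ S, dp (tr l) ≤ D) {l : Λ'} (hl : l ∈ S) (v : Option Γ')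
    (T : K' → List Γ') : ∃ (r : Rule S D) (γ : Option K' → ℕ),
      encC st ⟨some l, v, T⟩ = encC st (bf r) + mB M D * γ ∧
      encC st (TM2.stepAux (tr l) v T) = encC st (nx r) + mA M r * γ := by
  have hT : T = fun k => (T k).take D ++ (T k).drop D := by
    funext k
    simp
  have hc : ∀ k, ((T k).take D).length = D ∨ (T k).drop D = [] := by
    intro k
    by_cases h : D ≤ (T k).length
    · left
      simp [h]
    · right
      rw [List.drop_eq_nil_iff]
      omega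
  refine ⟨⟨(l, v, fun k => (T k).take D), hl, fun k => by simp⟩,
    fun i => i.elim 0 fun k => enc ((T k).drop D), ?_, ?_⟩
  · funext i
    cases i with
    | none => simp [encC, bf]
    | some k =>
      simp only [encC, bf, mB, Pi.add_apply, Pi.mul_apply, Option.elim]
      conv_lhs => rw [← List.take_append_drop D (T k), enc_append]
      rcases hc k with h | h
      · rw [h]
      · rw [h]
        simp [enc]
  · have h := loc (tr l) v (fun k => (T k).take D) (fun k => (T k).drop D) fun k => by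
      rcases hc k with h | h
      · left
        rw [h]
        exact hD l hl
      · exact Or.inr h
    rw [← hT] at h
    rw [h]
    funext i
    cases i with
    | none => simp [encC, nx]
    | some k =>
      simp only [encC, nx, mA, Pi.add_apply, Pi.mul_apply, Option.elim]
      rw [enc_append]

/-- The numbering of the states. -/
structure Num' (S : Finset Λ') (M : ℕ) (st : Option Λ' × Option Γ' → ℕ) : Prop where
  pos : 0 < M
  lt : ∀ l ∈ Finset.insertNone S, ∀ v, st (l, v) < M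
  inj : ∀ l ∈ Finset.insertNone S, ∀ v, ∀ l' ∈ Finset.insertNone S, ∀ v',
    st (l, v) = st (l', v') → l = l' ∧ v = v'

theorem exists_num' (S : Finset Λ') : ∃ M st, Num' S M st := by
  obtain ⟨M, st, h0, h1, h2⟩ :=
    exists_num (Finset.insertNone S ×ˢ (Finset.univ : Finset (Option Γ')))
  refine ⟨M, st, h0, fun l hl v => h1 _ (by simp [hl]), fun l hl v l' hl' v' h => ?_⟩
  exact Prod.ext_iff.1 (h2 _ (by simp [hl]) _ (by simp [hl']) h)

theorem bf_mem (r : Rule S D) : (bf r).l ∈ Finset.insertNone S :=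
  Finset.some_mem_insertNone.2 r.2.1

theorem bf_lt (hn : Num' S M st) (r : Rule S D) (i : Option K') :
    encC st (bf r) i < mB M D i := by
  cases i with
  | none => exact hn.lt _ (bf_mem r) _
  | some k =>
    exact lt_of_lt_of_le (enc_lt _) (Nat.pow_le_pow_right (by norm_num) (r.2.2 k))

/-- One step on integer vectors. -/
def StepZ (S : Finset Λ') (D M : ℕ) (st : Option Λ' × Option Γ' → ℕ)
    (β β' : Option K' → ℤ) : Prop :=
  ∃ (r : Rule S D) (γ : Option K' → ℤ),
    (β = fun i => (encC st (bf r) i : ℤ) + mB M D i * γ i) ∧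
      β' = fun i => (encC st (nx r) i : ℤ) + mA M r i * γ i

theorem rule_unique (hn : Num' S M st) {r r' : Rule S D} {γ γ' : Option K' → ℤ}
    (h : (fun i => (encC st (bf r) i : ℤ) + mB M D i * γ i) =
      fun i => (encC st (bf r') i : ℤ) + mB M D i * γ' i) : r = r' ∧ γ = γ' := by
  have key := fun i => res_eq (bf_lt hn r i) (bf_lt hn r' i) (congrFun h i)
  refine ⟨Subtype.ext ?_, funext fun i => (key i).2⟩
  have h1 := hn.inj _ (bf_mem r) _ _ (bf_mem r') _ (key none).1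
  refine Prod.ext (Option.some.inj h1.1) (Prod.ext h1.2 ?_)
  funext k
  exact enc_inj (key (some k)).1

theorem step_unique (hn : Num' S M st) {β β₁ β₂ : Option K' → ℤ} (h₁ : StepZ S D M st β β₁)
    (h₂ : StepZ S D M st β β₂) : β₁ = β₂ := by
  obtain ⟨r, γ, e1, rfl⟩ := h₁
  obtain ⟨r', γ', e2, rfl⟩ := h₂
  obtain ⟨rfl, rfl⟩ := rule_unique hn (e1.symm.trans e2)
  rfl

theorem terminal (hn : Num' S M st) {c : Cf} (hc : c.l = none) (r : Rule S D)
    (γ : Option K' → ℤ) :
    (fun i => (encC st (bf r) i : ℤ) + mB M D i * γ i) ≠ fun i => (encC st c i : ℤ) := by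
  intro h
  have hm : c.l ∈ Finset.insertNone S := by
    rw [hc]
    exact Finset.none_mem_insertNone
  have h1 : (encC st (bf r) none : ℤ) + mB M D none * γ none =
      (encC st c none : ℤ) + mB M D none * 0 := by
    rw [mul_zero, add_zero]
    exact congrFun h none
  have h2 := (res_eq (bf_lt hn r none) (hn.lt _ hm _) h1).1
  have h3 := (hn.inj _ (bf_mem r) _ _ hm _ h2).1
  rw [hc] at h3
  cases h3

/-- A vector of a configuration that reaches the vector of a final configuration belongs to a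
halting computation. -/
theorem dom_of_reach (hn : Num' S M st) (hD : ∀ l ∈ S, dp (tr l) ≤ D)
    (hS : ∀ c c' : Cf, c' ∈ TM2.step tr c → c.l ∈ Finset.insertNone S →
      c'.l ∈ Finset.insertNone S) {z : Cf} (hz : z.l = none) {β : Option K' → ℤ}
    (h : Relation.ReflTransGen (StepZ S D M st) β fun i => (encC st z i : ℤ)) :
    ∀ c : Cf, c.l ∈ Finset.insertNone S → (β = fun i => (encC st c i : ℤ)) →
      (StateTransition.eval (TM2.step tr) c).Dom := by
  have stop : ∀ c : Cf, c.l = none → (StateTransition.eval (TM2.step tr) c).Dom := by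
    rintro ⟨l, v, T⟩ hc
    cases hc
    exact Part.dom_iff_mem.2 ⟨_, StateTransition.mem_eval.2 ⟨Relation.ReflTransGen.refl, rfl⟩⟩
  induction h using Relation.ReflTransGen.head_induction_on with
  | refl =>
    intro c hc e
    have hm : z.l ∈ Finset.insertNone S := by
      rw [hz]
      exact Finset.none_mem_insertNone
    have h1 : encC st z none = encC st c none := by exact_mod_cast congrFun e none
    exact stop c ((hn.inj _ hm _ _ hc _ h1).1.symm.trans hz)
  | head hst _ ih =>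
    rintro ⟨l, v, T⟩ hc rfl
    cases l with
    | none => exact stop _ rfl
    | some l =>
      obtain ⟨r, γ, e1, e2⟩ :=
        step_rule (M := M) (st := st) hD (Finset.some_mem_insertNone.1 hc) v T
      have hs : TM2.stepAux (tr l) v T ∈ TM2.step tr (⟨some l, v, T⟩ : Cf) := rfl
      have hZ : StepZ S D M st (fun i => (encC st ⟨some l, v, T⟩ i : ℤ))
          fun i => (encC st (TM2.stepAux (tr l) v T) i : ℤ) := by
        refine ⟨r, fun i => γ i, ?_, ?_⟩
        · rw [e1]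
          funext i
          simp
        · rw [e2]
          funext i
          simp
      rw [StateTransition.reaches_eval (Relation.ReflTransGen.single hs)]
      exact ih _ (hS _ _ hs hc) (step_unique hn hst hZ)

/-- A computation of the machine is a chain of rules. -/
theorem reach_of_run (hD : ∀ l ∈ S, dp (tr l) ≤ D)
    (hS : ∀ c c' : Cf, c' ∈ TM2.step tr c → c.l ∈ Finset.insertNone S →
      c'.l ∈ Finset.insertNone S) {c z : Cf}
    (h : Relation.ReflTransGen (fun x y : Cf => y ∈ TM2.step tr x) c z) :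
    c.l ∈ Finset.insertNone S → Relation.ReflTransGen
      (fun β β' : Option K' → ℕ => ∃ (r : Rule S D) (γ : Option K' → ℕ),
        β = encC st (bf r) + mB M D * γ ∧ β' = encC st (nx r) + mA M r * γ)
      (encC st c) (encC st z) := by
  induction h using Relation.ReflTransGen.head_induction_on with
  | refl => exact fun _ => Relation.ReflTransGen.refl
  | @head c c' hst _ ih =>
    intro hc
    refine Relation.ReflTransGen.head ?_ (ih (hS _ _ hst hc))
    obtain ⟨l, v, T⟩ := c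
    cases l with
    | none => cases hst
    | some l =>
      have e : TM2.stepAux (tr l) v T = c' := Option.some.inj hst
      rw [← e]
      exact step_rule hD (Finset.some_mem_insertNone.1 hc) v T

/-- The number with `n` binary digits, all equal to one. -/
def ones (n : ℕ) : ℕ := Nat.rec 0 (fun _ x => 2 * x + 1) n

theorem ones_succ (n : ℕ) : ones (n + 1) = 2 * ones n + 1 := rfl

theorem ones_inj : Function.Injective ones := by
  refine (strictMono_nat_of_lt_succ fun n => ?_).injective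
  rw [ones_succ]
  omega

theorem ones_prim : Primrec ones :=
  Primrec.nat_rec₁ 0 (Primrec.succ.comp₂
    (Primrec.nat_mul.comp₂ (Primrec₂.const 2) Primrec₂.right))

/-- The name of the input stack. -/
def ee (n : ℕ) : ℕ := Nat.rec 2 (fun _ x => 4 + 5 * x) n

theorem ee_prim : Primrec ee :=
  Primrec.nat_rec₁ 2 (Primrec.nat_add.comp₂ (Primrec₂.const 4)
    (Primrec.nat_mul.comp₂ (Primrec₂.const 5) Primrec₂.right))

theorem trNat_odd (m : ℕ) : trNat (2 * m + 1) = Γ'.bit1 :: trNat m := by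
  have h : ((2 * m + 1 : ℕ) : Num) = Num.bit1 (m : Num) := by
    refine Num.to_nat_inj.1 ?_
    rw [Num.cast_bit1, Num.to_of_nat, Num.to_of_nat]
  unfold trNat
  rw [h]
  cases (m : Num) <;> rfl

theorem ee_eq (n : ℕ) : ee n = enc (trList [ones n]) := by
  induction n with
  | zero =>
    have : ones 0 = 0 := rfl
    simp only [this, trList, trNat_zero]
    rfl
  | succ n ih =>
    have : ee (n + 1) = 4 + 5 * ee n := rfl
    rw [this, ih, ones_succ]
    simp only [trList, trNat_odd, List.cons_append, enc, dgt]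

/-- The function that the machine computes. -/
def ff (m : ℕ) : Part ℕ :=
  (Nat.rfind fun n => Part.some (decide (ones n = m))).bind fun n =>
    ((Denumerable.ofNat Nat.Partrec.Code n).eval 0).map fun _ => 0

theorem ff_part : Partrec ff := by
  refine Partrec.bind (Partrec.rfind ?_) ?_
  · exact ((Primrec.eq.decide.comp (ones_prim.comp Primrec.snd) Primrec.fst).to_comp).to₂.partrec₂
  · refine Partrec.map (Nat.Partrec.Code.eval_part.comp
      ((Computable.ofNat _).comp Computable.snd) (Computable.const 0)) ?_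
    exact (Computable.const 0).to₂

theorem ff_ones (n : ℕ) :
    ff (ones n) = ((Denumerable.ofNat Nat.Partrec.Code n).eval 0).map fun _ => 0 := by
  have h : (Nat.rfind fun k => Part.some (decide (ones k = ones n))) = Part.some n := by
    rw [Part.eq_some_iff, Nat.mem_rfind]
    refine ⟨by simp, fun {m} hm => ?_⟩
    have : ones m ≠ ones n := fun e => hm.ne (ones_inj e)
    simp [this]
  unfold ff
  rw [h, Part.bind_some]

theorem exists_prog : ∃ c : ToPartrec.Code, ∀ n,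
    (Halts n → halt [0] ∈ StateTransition.eval (TM2.step tr) (init c [ones n])) ∧
      ((StateTransition.eval (TM2.step tr) (init c [ones n])).Dom → Halts n) := by
  obtain ⟨c, hc⟩ := ToPartrec.Code.exists_code (Nat.Partrec'.part_iff₁.2 ff_part)
  refine ⟨c, fun n => ?_⟩
  have h : c.eval [ones n] = pure <$> ff (ones n) := hc ⟨[ones n], rfl⟩
  rw [tr_eval, h, ff_ones]
  refine ⟨fun hn => ?_, fun hn => hn⟩
  obtain ⟨x, hx⟩ := Part.dom_iff_mem.1 hn
  exact Part.mem_map _ (Part.mem_map _ (Part.mem_map (fun _ => 0) hx))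

end MachP

open MachP in
theorem mach : MachStmt := by
  classical
  obtain ⟨c, hc⟩ := exists_prog
  obtain ⟨M, st, hn⟩ := exists_num' (codeSupp c Cont'.halt)
  set S := codeSupp c Cont'.halt with hSdef
  have hsup := tr_supports c Cont'.halt
  have hS : ∀ x y : Cf, y ∈ TM2.step tr x → x.l ∈ Finset.insertNone S →
      y.l ∈ Finset.insertNone S := fun x y h1 h2 =>
    @TM2.step_supports _ _ _ _ ⟨trNormal c Cont'.halt⟩ _ tr _ hsup x y h1 h2
  set D := S.sup fun l => dp (tr l) with hDdef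
  have hD : ∀ l ∈ S, dp (tr l) ≤ D := fun l hl => Finset.le_sup (f := fun l => dp (tr l)) hl
  have := finK
  have := rule_finite S D
  have hin : ∀ n, Function.update (encC st (init c [])) (some K'.main) (ee n) =
      encC st (init c [ones n]) := by
    intro n
    funext i
    rcases i with _ | k
    · rw [Function.update_of_ne (by simp)]
      rfl
    · cases k
      · rw [Function.update_self, ee_eq]
        rfl
      all_goals
        rw [Function.update_of_ne (by simp)]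
        rfl
  have hmem : ∀ v, (init c v : Cf).l ∈ Finset.insertNone S := fun v =>
    Finset.some_mem_insertNone.2 hsup.1
  refine ⟨Option K', Rule S D, Fintype.ofFinite _, inferInstance, Fintype.ofFinite _,
    fun r => encC st (nx r), fun r => encC st (bf r), fun r => mA M r, fun _ => mB M D,
    encC st (halt [0]), encC st (init c []), some K'.main, ee,
    {β | Relation.ReflTransGen (StepZ S D M st) β fun i => (encC st (halt [0]) i : ℤ)},
    ee_prim, fun r i => ?_, Relation.ReflTransGen.refl, fun r γ => ⟨fun h => ?_, fun h => ?_⟩,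
    fun n => ⟨fun h => ?_, fun h h' => ?_⟩⟩
  · cases i with
    | none => exact ⟨hn.pos, hn.pos⟩
    | some k => exact ⟨by simp [mA], by simp [mB]⟩
  · rcases Relation.ReflTransGen.cases_head h with h | ⟨β, h1, h2⟩
    · exact absurd h (terminal hn rfl r γ)
    · rw [step_unique hn h1 ⟨r, γ, rfl, rfl⟩] at h2
      exact h2
  · exact Relation.ReflTransGen.head ⟨r, γ, rfl, rfl⟩ h
  · rw [hin]
    exact reach_of_run hD hS (StateTransition.mem_eval.1 ((hc n).1 h)).1 (hmem _)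
  · rw [hin] at h'
    exact h ((hc n).2 (dom_of_reach hn hD hS rfl h' _ (hmem _) rfl))

end Pool.Agent.MP_1a6d08_co.Und

end MrgPart3

-- ======== part 4: formerly Pool.Agent.MP_1a6d08_co.und.Perm
section MrgPart4

/-!
A group of permutations attached to an invariant set.
-/

open Set

namespace Pool.Agent.MP_1a6d08_co.Und

namespace PermP

/-- Two maps with equivalent fibres differ by a bijection, which may be prescribed at a point. -/
lemma fib {O' O P : Type} (p' : O' → P) (p : O → P)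
    (h : ∀ c, Nonempty ({x // p' x = c} ≃ {x // p x = c})) (o' : O') (o : O) (ho : p' o' = p o) :
    ∃ φ : O' ≃ O, (∀ x, p (φ x) = p' x) ∧ φ o' = o := by
  classical
  let φ : O' ≃ O := Equiv.ofFiberEquiv fun c => (h c).some
  have hφ : ∀ x, p (φ x) = p' x := fun x => Equiv.ofFiberEquiv_map _ x
  refine ⟨φ.trans (Equiv.swap (φ o') o), fun x => ?_, by simp⟩
  rw [Equiv.trans_apply, Equiv.swap_apply_def]
  split_ifs with h1 h2
  · rw [← ho, ← hφ, ← hφ, h1]
  · rw [hφ, ho, ← h2, hφ]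
  · exact hφ x

variable {ι : Type}

/-- Residues. -/
abbrev Res (m : ι → ℕ) : Type := {β : ι → ℤ // ∀ i, 0 ≤ β i ∧ β i < m i}

/-- Labels. -/
abbrev Kp (ι : Type) : Type := ℕ → (ι → ℤ) × Set (ι → ℤ)

/-- Names of orbits. -/
abbrev Nm (ι : Type) : Type := Set (ι → ℤ) × Kp ι

/-- The pattern seen along an orbit of a sublattice. -/
def pat (a m : ι → ℕ) (o : Res m × Nm ι) : Set (ι → ℤ) :=
  {γ | (fun i => (a i : ℤ) + (o.1.1 i + m i * γ i)) ∈ o.2.1}

lemma fibre (a m : ι → ℕ) (hm : ∀ i, 0 < m i) (c : Set (ι → ℤ)) :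
    Nonempty ({x // pat a m x = c} ≃ Kp ι) := by
  refine Function.Embedding.antisymm
    ⟨fun x n => Nat.casesOn n (x.1.1.1, x.1.2.1) x.1.2.2, ?_⟩
    ⟨fun k => ⟨(⟨0, fun i => ⟨le_rfl, Int.natCast_pos.2 (hm i)⟩⟩,
      ((fun γ i => (a i : ℤ) + (0 + m i * γ i)) '' c, k)), ?_⟩, ?_⟩
  · rintro ⟨⟨⟨β, hβ⟩, S, k⟩, hx⟩ ⟨⟨⟨β', hβ'⟩, S', k'⟩, hx'⟩ h
    have h0 := congrFun h 0
    have h1 : k = k' := funext fun n => congrFun h (n + 1)
    simp only [Nat.rec_zero, Prod.mk.injEq] at h0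
    obtain ⟨rfl, rfl⟩ := h0
    subst h1
    rfl
  · ext γ
    refine ⟨?_, fun h => ⟨γ, h, rfl⟩⟩
    rintro ⟨δ, hδ, e⟩
    have : δ = γ := funext fun i => by
      have h1 := congrFun e i
      have h2 : (m i : ℤ) ≠ 0 := by exact_mod_cast (hm i).ne'
      simp only [Pi.zero_apply, zero_add, add_right_inj] at h1
      exact mul_left_cancel₀ h2 h1
    exact this ▸ hδ
  · intro k k' h
    exact congrArg (fun x => x.1.2.2) h

/-- Division with remainder in every coordinate. -/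
def dv (m : ι → ℕ) (hm : ∀ i, 0 < m i) : (Res m × Nm ι) × (ι → ℤ) ≃ (ι → ℤ) × Nm ι where
  toFun x := (fun i => x.1.1.1 i + m i * x.2 i, x.1.2)
  invFun y := ((⟨fun i => y.1 i % m i, fun i =>
    ⟨Int.emod_nonneg _ (by exact_mod_cast (hm i).ne'),
      Int.emod_lt_of_pos _ (by exact_mod_cast hm i)⟩⟩, y.2), fun i => y.1 i / m i)
  left_inv := by
    rintro ⟨⟨⟨β, hβ⟩, ν⟩, γ⟩
    have h2 : ∀ i, (m i : ℤ) ≠ 0 := fun i => by exact_mod_cast (hm i).ne'
    refine Prod.ext (Prod.ext (Subtype.ext (funext fun i => ?_)) rfl) (funext fun i => ?_)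
    · show (β i + m i * γ i) % m i = β i
      rw [Int.add_mul_emod_self_left, Int.emod_eq_of_lt (hβ i).1 (hβ i).2]
    · show (β i + m i * γ i) / m i = γ i
      rw [Int.add_mul_ediv_left _ _ (h2 i), Int.ediv_eq_zero_of_lt (hβ i).1 (hβ i).2, zero_add]
  right_inv := by
    rintro ⟨β, ν⟩
    exact Prod.ext (funext fun i => Int.emod_add_mul_ediv _ _) rfl

/-- The permutation that belongs to one rule. -/
lemma rule (a b m m' : ι → ℕ) (H : Set (ι → ℤ)) (hm : ∀ i, 0 < m i) (hm' : ∀ i, 0 < m' i)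
    (hH : ∀ γ : ι → ℤ, (fun i => (b i : ℤ) + m' i * γ i) ∈ H ↔
      (fun i => (a i : ℤ) + m i * γ i) ∈ H) (k₀ : Kp ι) :
    ∃ r : Equiv.Perm ((ι → ℤ) × Nm ι),
      (∀ (γ : ι → ℤ) ω, r ((fun i => m' i * γ i) + ω.1, ω.2) =
        ((fun i => m i * γ i) + (r ω).1, (r ω).2)) ∧
      (∀ ω, (fun i => (a i : ℤ)) + (r ω).1 ∈ (r ω).2.1 ↔ (fun i => (b i : ℤ)) + ω.1 ∈ ω.2.1) ∧
      r (0, (H, k₀)) = (0, (H, k₀)) := by
  obtain ⟨φ, h1, h2⟩ := fib (pat b m') (pat a m)
    (fun c => ⟨(fibre b m' hm' c).some.trans (fibre a m hm c).some.symm⟩)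
    (⟨0, fun i => ⟨le_rfl, Int.natCast_pos.2 (hm' i)⟩⟩, (H, k₀))
    (⟨0, fun i => ⟨le_rfl, Int.natCast_pos.2 (hm i)⟩⟩, (H, k₀)) (by
      ext γ
      simpa [pat] using hH γ)
  let r : Equiv.Perm ((ι → ℤ) × Nm ι) :=
    (dv m' hm').symm.trans ((φ.prodCongr (Equiv.refl _)).trans (dv m hm))
  have hr : ∀ o γ, r (dv m' hm' (o, γ)) = dv m hm (φ o, γ) := fun o γ => by simp [r]
  refine ⟨r, fun γ ω => ?_, fun ω => ?_, ?_⟩
  · obtain ⟨⟨o, δ⟩, rfl⟩ := (dv m' hm').surjective ω
    have e : ((fun i => (m' i : ℤ) * γ i) + (dv m' hm' (o, δ)).1, (dv m' hm' (o, δ)).2) =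
        dv m' hm' (o, γ + δ) := by
      refine Prod.ext (funext fun i => ?_) rfl
      show (m' i : ℤ) * γ i + (o.1.1 i + m' i * δ i) = o.1.1 i + m' i * (γ i + δ i)
      ring
    rw [e, hr, hr]
    refine Prod.ext (funext fun i => ?_) rfl
    show (φ o).1.1 i + m i * (γ i + δ i) = (m i : ℤ) * γ i + ((φ o).1.1 i + m i * δ i)
    ring
  · obtain ⟨⟨o, δ⟩, rfl⟩ := (dv m' hm').surjective ω
    rw [hr]
    exact Set.ext_iff.1 (h1 o) δ
  · have e : ∀ (n : ι → ℕ) (hn : ∀ i, 0 < n i), ((0 : ι → ℤ), (H, k₀)) =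
        dv n hn ((⟨0, fun i => ⟨le_rfl, Int.natCast_pos.2 (hn i)⟩⟩, (H, k₀)), 0) := fun n hn =>
      Prod.ext (funext fun i => by simp [dv]) rfl
    rw [e m' hm', hr, h2, ← e m hm]
    exact e m' hm'

lemma commute_swap {α : Type} [DecidableEq α] {g : Equiv.Perm α} {p p' : α} (h : g p' = p') :
    Commute (Equiv.swap p p') g ↔ g p = p := by
  constructor
  · intro hc
    have := congrArg (fun f : Equiv.Perm α => f p') hc.eq
    simpa [h] using this.symm
  · intro hp
    have := Equiv.mul_swap_eq_swap_mul g p p'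
    rw [hp, h] at this
    exact this.symm

/-- Translations. -/
def tr (β : ι → ℤ) : Equiv.Perm (((ι → ℤ) × Nm ι) × Fin 3) :=
  ((Equiv.addLeft β).prodCongr (Equiv.refl _)).prodCongr (Equiv.refl _)

lemma tr_apply (β : ι → ℤ) (x : ((ι → ℤ) × Nm ι) × Fin 3) :
    tr β x = ((β + x.1.1, x.1.2), x.2) := rfl

lemma tr_inv_apply (β : ι → ℤ) (x : ((ι → ℤ) × Nm ι) × Fin 3) :
    (tr β)⁻¹ x = ((-β + x.1.1, x.1.2), x.2) := rfl

open Classical in
/-- The flip away from the marked points. -/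
noncomputable def fl : Equiv.Perm (((ι → ℤ) × Nm ι) × Fin 3) :=
  Equiv.prodCongrRight fun ω => if ω.1 ∈ ω.2.1 then Equiv.refl _ else Equiv.swap 0 1

open Classical in
lemma fl_apply (x : ((ι → ℤ) × Nm ι) × Fin 3) :
    fl x = (x.1, (if x.1.1 ∈ x.1.2.1 then Equiv.refl _ else Equiv.swap 0 1 : Fin 3 ≃ Fin 3) x.2) :=
  rfl

end PermP

open PermP in
theorem perm : PermStmt := by
  classical
  intro ι ρ a b m m' H hm hH
  let k₀ : Kp ι := fun _ => (0, ∅)
  choose r h1 h2 h3 using fun q => rule (a q) (b q) (m q) (m' q) H (fun i => (hm q i).1)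
    (fun i => (hm q i).2) (hH q) k₀
  refine ⟨Equiv.Perm (((ι → ℤ) × Nm ι) × Fin 3), inferInstance, tr,
    fun q => (r q).prodCongr (Equiv.refl _), fl,
    Equiv.swap ((0, (H, k₀)), 0) ((0, (H, k₀)), 2), fun β γ => ?_, fun q γ => ?_, fun q => ?_,
    fun q => ?_, Equiv.swap_mul_self _ _, fun β => ?_⟩
  · refine Equiv.ext fun x => ?_
    rw [Equiv.Perm.mul_apply, tr_apply, tr_apply, tr_apply, add_assoc]
  · refine Equiv.ext fun x => ?_
    exact Prod.ext (h1 q γ x.1) rfl
  · refine Equiv.ext fun x => ?_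
    have e := h2 q (-(fun i => (b q i : ℤ)) + x.1.1, x.1.2)
    rw [add_neg_cancel_left] at e
    simp only [Equiv.Perm.mul_apply, fl_apply, tr_apply, tr_inv_apply, Equiv.prodCongr_apply,
      Prod.map, Equiv.refl_apply, e]
  · rw [commute_swap] <;> exact Prod.ext (h3 q) rfl
  · rw [commute_swap]
    · simp only [Equiv.Perm.mul_apply, fl_apply, tr_apply, tr_inv_apply, add_zero, neg_add_cancel]
      by_cases h : β ∈ H <;> simp [h]
    · simp only [Equiv.Perm.mul_apply, fl_apply, tr_apply, tr_inv_apply, add_zero, neg_add_cancel]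
      by_cases h : β ∈ H <;> simp [h, Equiv.swap_apply_def]

end Pool.Agent.MP_1a6d08_co.Und

end MrgPart4

-- ======== part 5: formerly Pool.Agent.MP_1a6d08_co.und.Str
section MrgPart5

/-!
Row STR: how a tight set or a circuit sits in a system of joints and blocks.
-/

open Set

namespace Pool.Agent.MP_1a6d08_co.Und

namespace StrP

variable {V : Type} {X : Set (Sym2 V)} {J J' : Set (Set V)} {D D' : Set (Bk V)}

lemma supp_ne (h : X.Nonempty) : (supp X).Nonempty := by
  obtain ⟨e, he⟩ := h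
  induction e using Sym2.ind with
  | _ a b => exact ⟨a, mem_supp he (by simp)⟩

lemma split {X₁ X₂ : Set (Sym2 V)} (h : Near X) (hX : X = X₁ ∪ X₂)
    (hd : Disjoint (supp X₁) (supp X₂)) : X₁ = ∅ ∨ X₂ = ∅ := by
  by_contra hn
  rw [not_or] at hn
  have h1 : X₁.Nonempty := nonempty_iff_ne_empty.2 hn.1
  have h2 : X₂.Nonempty := nonempty_iff_ne_empty.2 hn.2
  have s1 : X₁ ⊆ X := hX ▸ subset_union_left
  have s2 : X₂ ⊆ X := hX ▸ subset_union_right
  have f1 := h.fin.subset s1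
  have f2 := h.fin.subset s2
  have n1 : X₁ ≠ X := by
    intro e
    obtain ⟨x, hx⟩ := supp_ne h2
    exact disjoint_left.1 hd (supp_mono (e ▸ s2) hx) hx
  have n2 : X₂ ≠ X := by
    intro e
    obtain ⟨x, hx⟩ := supp_ne h1
    exact disjoint_left.1 hd hx (supp_mono (e ▸ s1) hx)
  have a1 := h.sp X₁ s1 h1 n1
  have a2 := h.sp X₂ s2 h2 n2
  have a3 := h.big
  have a4 : X.ncard ≤ X₁.ncard + X₂.ncard := hX ▸ ncard_union_le _ _
  have a5 : (supp X).ncard = (supp X₁).ncard + (supp X₂).ncard := by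
    rw [hX, supp_union, ncard_union_eq hd (supp_finite f1) (supp_finite f2)]
  omega

/-- The edges of `X` that meet `Z`. -/
def mt (X : Set (Sym2 V)) (Z : Set V) : Set (Sym2 V) := {e | e ∈ X ∧ ∃ x ∈ e, x ∈ Z}

lemma mt_sub (X : Set (Sym2 V)) (Z : Set V) : mt X Z ⊆ X := fun _ h => h.1

lemma mt_supp : mt X (supp X) = X := by
  refine (mt_sub _ _).antisymm fun e he => ⟨he, ?_⟩
  induction e using Sym2.ind with
  | _ a b => exact ⟨a, by simp, mem_supp he (by simp)⟩

lemma zcount (h : Near X) {Z : Set V} (hZ : Z ⊆ supp X) (hne : Z.Nonempty) :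
    Z = supp X ∨ X.ncard + 1 + 4 * Z.ncard ≤ (mt X Z).ncard + 4 * (supp X).ncard := by
  have fs := supp_finite h.fin
  have c1 : (mt X Z).ncard + (X \ mt X Z).ncard = X.ncard := by
    rw [add_comm]; exact ncard_sdiff_add_ncard_of_subset (mt_sub _ _) h.fin
  have c2 : (supp X \ Z).ncard + Z.ncard = (supp X).ncard :=
    ncard_sdiff_add_ncard_of_subset hZ fs
  rcases (X \ mt X Z).eq_empty_or_nonempty with h0 | h0
  · by_cases hz : Z = supp X
    · exact Or.inl hz
    · right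
      have : Z.ncard < (supp X).ncard := ncard_lt_ncard (ssubset_of_subset_of_ne hZ hz) fs
      rw [h0, ncard_empty] at c1
      omega
  · right
    have hp : X \ mt X Z ≠ X := by
      intro e
      obtain ⟨z, hz⟩ := hne
      obtain ⟨f, hf, hzf⟩ := hZ hz
      have : f ∈ X \ mt X Z := e.symm ▸ hf
      exact this.2 ⟨hf, z, hzf, hz⟩
    have a1 := h.sp _ sdiff_subset h0 hp
    have a2 : supp (X \ mt X Z) ⊆ supp X \ Z := by
      rintro x ⟨f, hf, hx⟩
      exact ⟨⟨f, hf.1, hx⟩, fun hz => hf.2 ⟨hf.1, x, hx, hz⟩⟩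
    have a3 := ncard_le_ncard a2 (fs.subset sdiff_subset)
    omega

/-- An edge of `X` with an inner vertex of a block belongs to the block. -/
lemma mem_E (hS : Str J D) (hC : Cov J D X) {b : Bk V} (hb : b ∈ D) {e : Sym2 V} (he : e ∈ X)
    {x : V} (hx : x ∈ e) (hW : x ∈ b.W) : e ∈ b.E := by
  rcases hC e he with ⟨A, hA, h⟩ | ⟨b', hb', h⟩
  · exact (disjoint_left.1 (hS.dW b hb A hA) hW (h x hx)).elim
  · obtain ⟨k, kA, kB⟩ := hS.blk b' hb'
    rcases k.sub (mem_supp h hx) with (h1 | h1) | h1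
    · by_cases hbb : b = b'
      · exact hbb ▸ h
      · exact (disjoint_left.1 (hS.dD b hb b' hb' hbb) hW h1).elim
    · exact (disjoint_left.1 (hS.dW b hb _ kA) hW h1).elim
    · exact (disjoint_left.1 (hS.dW b hb _ kB) hW h1).elim

lemma W_sub (h : Near X) (hS : Str J D) (hC : Cov J D X) {b : Bk V} (hb : b ∈ D)
    (hne : (b.W ∩ supp X).Nonempty) : b.W ⊆ supp X := by
  have k := (hS.blk b hb).1
  by_contra hn
  have hp : b.W ∩ supp X ≠ b.W := fun e => hn (e ▸ inter_subset_right)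
  have a1 := k.sparse _ inter_subset_left hne hp
  have a2 : mt X (b.W ∩ supp X) ⊆ {e | e ∈ b.E ∧ ∀ x ∈ e, x ∈ b.W → x ∈ b.W ∩ supp X} := by
    rintro e ⟨he, x, hx, hW⟩
    exact ⟨mem_E hS hC hb he hx hW.1, fun y hy hyW => ⟨hyW, mem_supp he hy⟩⟩
  have a3 := ncard_le_ncard a2 (k.finE.subset fun _ he => he.1)
  have a4 := h.big
  rcases zcount h inter_subset_right hne with h1 | h1
  · rw [h1, mt_supp] at a3
    rw [h1] at a1
    omega
  · omega

lemma wh (h : Near X) (hS : Str J D) (hC : Cov J D X) {b : Bk V} (hb : b ∈ D)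
    (hne : (b.W ∩ supp X).Nonempty) : (b.E \ X).ncard + X.ncard ≤ 4 * (supp X).ncard := by
  have k := (hS.blk b hb).1
  have hW := W_sub h hS hC hb hne
  have a2 : mt X b.W ⊆ b.E ∩ X := by
    rintro e ⟨he, x, hx, hxW⟩
    exact ⟨mem_E hS hC hb he hx hxW, he⟩
  have a3 := ncard_le_ncard a2 (k.finE.subset inter_subset_left)
  have a4 := h.big
  have a5 : (b.E ∩ X).ncard + (b.E \ X).ncard = b.E.ncard :=
    ncard_inter_add_ncard_sdiff_eq_ncard _ _ k.finE
  have a6 := k.cE
  have a7 := k.cW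
  rcases zcount h hW (hne.mono inter_subset_left) with h1 | h1
  · exfalso
    obtain ⟨a, ha⟩ : b.A.Nonempty := nonempty_of_ncard_ne_zero (by rw [k.cA]; omega)
    have b1 : {e | e ∈ b.E ∧ a ∈ e} ⊆ b.E \ X := fun e he =>
      ⟨he.1, fun hX => disjoint_left.1 k.dA (h1 ▸ mem_supp hX he.2) ha⟩
    have b2 : dg b.E a ≤ (b.E \ X).ncard := ncard_le_ncard b1 (k.finE.subset sdiff_subset)
    rw [k.gA a ha, dd] at b2
    rw [h1, mt_supp] at a3
    rw [h1] at a7
    omega
  · omega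

lemma wh1 (h : Near X) (hS : Str J D) (hC : Cov J D X) {b : Bk V} (hb : b ∈ D)
    (hne : (b.W ∩ supp X).Nonempty) : (b.E \ X).ncard ≤ 1 := by
  have a1 := wh h hS hC hb hne
  have a2 := h.big
  omega

lemma jd (h : Near X) (hS : Str J D) (hC : Cov J D X) {A : Set V} (hA : A ∈ J)
    (hne : (A ∩ supp X).Nonempty) :
    (∃ b ∈ D, (b.A = A ∨ b.B = A) ∧ (b.W ∩ supp X).Nonempty) ∨ supp X = A := by
  refine or_iff_not_imp_left.2 fun hn => ?_
  have key : ∀ e ∈ X, ∀ x ∈ e, x ∈ A → ∀ y ∈ e, y ∈ A := by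
    intro e he x hx hxA
    have same : ∀ A' ∈ J, x ∈ A' → A' = A := fun A' hA' hx' => by
      by_contra hne'
      exact disjoint_left.1 (hS.dJ A' hA' A hA hne') hx' hxA
    rcases hC e he with ⟨A', hA', h1⟩ | ⟨b, hb, h1⟩
    · exact same A' hA' (h1 x hx) ▸ h1
    · exfalso
      obtain ⟨k, kA, kB⟩ := hS.blk b hb
      obtain ⟨y, hy, hyW⟩ := k.meet e h1
      have hm : (b.W ∩ supp X).Nonempty := ⟨y, hyW, mem_supp he hy⟩
      rcases k.sub (mem_supp h1 hx) with (h2 | h2) | h2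
      · exact disjoint_left.1 (hS.dW b hb A hA) h2 hxA
      · exact hn ⟨b, hb, Or.inl (same _ kA h2), hm⟩
      · exact hn ⟨b, hb, Or.inr (same _ kB h2), hm⟩
  have hsub : supp X ⊆ A := by
    have hd : Disjoint (supp (mt X A)) (supp (X \ mt X A)) := by
      refine disjoint_left.2 ?_
      rintro x ⟨e, ⟨he, y, hy, hyA⟩, hx⟩ ⟨f, hf, hxf⟩
      exact hf.2 ⟨hf.1, x, hxf, key e he y hy hyA x hx⟩
    rcases split h (union_sdiff_cancel (mt_sub X A)).symm hd with h0 | h0
    · obtain ⟨x, hxA, e, he, hx⟩ := hne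
      have : e ∈ mt X A := ⟨he, x, hx, hxA⟩
      rw [h0] at this
      exact this.elim
    · rintro x ⟨e, he, hx⟩
      obtain ⟨-, y, hy, hyA⟩ := sdiff_eq_empty.1 h0 he
      exact key e he y hy hyA x hx
  have cA := hS.cJ A hA
  have fA : A.Finite := finite_of_ncard_ne_zero (by omega)
  refine eq_of_subset_of_ncard_le hsub ?_ fA
  have a1 := two_mul_le' (supp_finite h.fin) h.nd subset_rfl
  have a2 := h.big
  have a3 : 0 < (supp X).ncard := (ncard_pos (supp_finite h.fin)).2 (supp_ne h.ne)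
  rw [cA]
  by_contra hlt
  generalize (supp X).ncard = v at *
  have : v ≤ 8 := by omega
  interval_cases v <;> omega

lemma dg_le {E : Set (Sym2 V)} (hE : E.Finite) (h1 : (E \ X).ncard ≤ 1) (z : V) :
    dg E z ≤ dg (E ∩ X) z + 1 := by
  have a1 : {e | e ∈ E ∧ z ∈ e} ⊆ {e | e ∈ E ∩ X ∧ z ∈ e} ∪ (E \ X) := fun e he => by
    by_cases hX : e ∈ X
    · exact Or.inl ⟨⟨he.1, hX⟩, he.2⟩
    · exact Or.inr ⟨he.1, hX⟩
  have a2 := ncard_le_ncard a1
    ((hE.subset fun _ he => he.1.1).union (hE.subset sdiff_subset))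
  have a3 := ncard_union_le {e | e ∈ E ∩ X ∧ z ∈ e} (E \ X)
  unfold dg
  omega

/-- Inner vertices of one system are not joint vertices of another one. -/
lemma not_joint (h : Near X) (hS : Str J D) (hC : Cov J D X) (hS' : Str J' D') (hC' : Cov J' D' X)
    {b : Bk V} (hb : b ∈ D) (hne : (b.W ∩ supp X).Nonempty) {x : V} (hx : x ∈ b.W)
    {A : Set V} (hA : A ∈ J') : x ∉ A := by
  intro hxA
  have k := (hS.blk b hb).1
  have hW := W_sub h hS hC hb hne
  rcases jd h hS' hC' hA ⟨x, hxA, hW hx⟩ with ⟨b', hb', hAB, hm⟩ | h1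
  · have k' := (hS'.blk b' hb').1
    have a1 := dg_le k'.finE (wh1 h hS' hC' hb' hm) x
    have a2 : dg (b'.E ∩ X) x ≤ dg b.E x :=
      ncard_le_ncard (fun e he => ⟨mem_E hS hC hb he.1.2 he.2 hx, he.2⟩)
        (k.finE.subset fun _ he => he.1)
    rw [k.gW x hx] at a2
    rcases hAB with h2 | h2
    · rw [k'.gA x (h2 ▸ hxA), dd] at a1
      omega
    · rw [k'.gB x (h2 ▸ hxA), dd] at a1
      omega
  · have cA := hS'.cJ A hA
    have a1 := ncard_le_ncard (h1 ▸ hW) (finite_of_ncard_ne_zero (s := A) (by omega))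
    rw [k.cW, mm] at a1
    omega

lemma W_le (h : Near X) (hS : Str J D) (hC : Cov J D X) (hS' : Str J' D') (hC' : Cov J' D' X)
    {b b' : Bk V} (hb : b ∈ D) (hb' : b' ∈ D') (hne : (b.W ∩ supp X).Nonempty)
    (hm : (b.W ∩ b'.W).Nonempty) : b.W ⊆ b'.W := by
  have k := (hS.blk b hb).1
  obtain ⟨k', kA, kB⟩ := hS'.blk b' hb'
  by_contra hn
  have p1 : b.W ∩ b'.W ≠ b.W := fun e => hn (e ▸ inter_subset_right)
  have p2 : (b.W \ b'.W).Nonempty := (not_subset.1 hn).imp fun _ hx => hx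
  have p3 : b.W \ b'.W ≠ b.W := by
    intro e
    obtain ⟨x, hx, hx'⟩ := hm
    exact (e.symm ▸ hx : x ∈ b.W \ b'.W).2 hx'
  have a1 := k.sparse _ inter_subset_left hm p1
  have a2 := k.sparse _ sdiff_subset p2 p3
  have a3 : (b.W ∩ b'.W).ncard + (b.W \ b'.W).ncard = b.W.ncard :=
    ncard_inter_add_ncard_sdiff_eq_ncard _ _ k.finW
  have a4 := wh1 h hS hC hb hne
  have a5 : b.E ⊆ ({e | e ∈ b.E ∧ ∀ x ∈ e, x ∈ b.W → x ∈ b.W ∩ b'.W} ∪
      {e | e ∈ b.E ∧ ∀ x ∈ e, x ∈ b.W → x ∈ b.W \ b'.W}) ∪ (b.E \ X) := by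
    intro e he
    by_cases hX : e ∈ X
    · left
      by_cases hz : ∃ z ∈ e, z ∈ b'.W
      · obtain ⟨z, hz, hzW⟩ := hz
        have hE := mem_E hS' hC' hb' hX hz hzW
        refine Or.inl ⟨he, fun y hy hyW => ⟨hyW, ?_⟩⟩
        rcases k'.sub (mem_supp hE hy) with (h2 | h2) | h2
        · exact h2
        · exact (not_joint h hS hC hS' hC' hb hne hyW kA h2).elim
        · exact (not_joint h hS hC hS' hC' hb hne hyW kB h2).elim
      · exact Or.inr ⟨he, fun y hy hyW => ⟨hyW, fun h2 => hz ⟨y, hy, h2⟩⟩⟩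
    · exact Or.inr ⟨he, hX⟩
  have a6 := ncard_le_ncard a5 (((k.finE.subset fun _ he => he.1).union
    (k.finE.subset fun _ he => he.1)).union (k.finE.subset sdiff_subset))
  have a7 := ncard_union_le ({e | e ∈ b.E ∧ ∀ x ∈ e, x ∈ b.W → x ∈ b.W ∩ b'.W} ∪
      {e | e ∈ b.E ∧ ∀ x ∈ e, x ∈ b.W → x ∈ b.W \ b'.W}) (b.E \ X)
  have a8 := ncard_union_le {e | e ∈ b.E ∧ ∀ x ∈ e, x ∈ b.W → x ∈ b.W ∩ b'.W}
      {e | e ∈ b.E ∧ ∀ x ∈ e, x ∈ b.W → x ∈ b.W \ b'.W}
  have a9 := k.cE
  have a10 := k.cW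
  omega

/-- Two blocks with the same interior that almost agree: the ends. -/
lemma AB_le {b b' : Bk V} (k : Blk b) (k' : Blk b') (hs : b.s = b'.s) (hW : b.W = b'.W)
    (hY : b.E ∩ X = b'.E ∩ X) (h1 : (b.E \ X).ncard ≤ 1) (h1' : (b'.E \ X).ncard ≤ 1) :
    b.A ⊆ b'.A ∧ b.B ⊆ b'.B := by
  have up : ∀ z, dg (b.E ∩ X) z ≤ dg b.E z := dg_mono inter_subset_left k.finE
  have up' : ∀ z, dg (b.E ∩ X) z ≤ dg b'.E z := hY ▸ dg_mono inter_subset_left k'.finE
  have lo := dg_le k.finE h1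
  have lo' : ∀ z, dg b'.E z ≤ dg (b.E ∩ X) z + 1 := hY ▸ dg_le k'.finE h1'
  constructor
  · intro z hz
    have a1 := k.gA z hz
    have a2 := up z
    have a3 := up' z
    have a4 := lo z
    have a5 := lo' z
    rcases k'.sub (mem_supp_of_dg (x := z) (by rw [dd] at a1; omega)) with (h2 | h2) | h2
    · exact (disjoint_left.1 k.dA (hW ▸ h2) hz).elim
    · exact h2
    · have a6 := k'.gB z h2
      rw [← hs] at a6
      omega
  · intro z hz
    have a1 := k.gB z hz
    have a3 := up' z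
    have a4 := lo z
    rcases k'.sub (mem_supp_of_dg (x := z) (by rw [dd] at a1; omega)) with (h2 | h2) | h2
    · exact (disjoint_left.1 k.dB (hW ▸ h2) hz).elim
    · have a6 := k'.gA z h2
      rw [← hs] at a6
      omega
    · exact h2

/-- Two blocks on the same vertices that almost agree: the edges. -/
lemma E_le {b b' : Bk V} (k : Blk b) (k' : Blk b') (hs : b.s = b'.s) (hW : b.W = b'.W)
    (hA : b.A = b'.A) (hB : b.B = b'.B) (hY : b.E ∩ X = b'.E ∩ X)
    (h1' : (b'.E \ X).ncard ≤ 1) : b.E ⊆ b'.E := by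
  intro f hf
  by_contra hn
  have key : ∀ u ∈ f, ∃ f' ∈ b'.E \ X, u ∈ f' := by
    intro u hu
    by_contra hc
    have hd : dg b.E u = dg b'.E u := by
      rcases k.sub (mem_supp hf hu) with (h2 | h2) | h2
      · rw [k.gW u h2, k'.gW u (hW ▸ h2)]
      · rw [k.gA u h2, k'.gA u (hA ▸ h2), hs]
      · rw [k.gB u h2, k'.gB u (hB ▸ h2), hs]
    have hss : {e | e ∈ b'.E ∧ u ∈ e} ⊂ {e | e ∈ b.E ∧ u ∈ e} := by
      refine ⟨fun e he => ⟨?_, he.2⟩, fun hh => hn (hh ⟨hf, hu⟩).1⟩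
      by_cases hX : e ∈ X
      · exact (hY.symm ▸ (⟨he.1, hX⟩ : e ∈ b'.E ∩ X) : e ∈ b.E ∩ X).1
      · exact (hc ⟨e, ⟨he.1, hX⟩, he.2⟩).elim
    have := ncard_lt_ncard hss (k.finE.subset fun _ he => he.1)
    unfold dg at hd
    omega
  induction f using Sym2.ind with
  | _ u w =>
    obtain ⟨f₁, g1, g2⟩ := key u (by simp)
    obtain ⟨f₂, g3, g4⟩ := key w (by simp)
    have e12 : f₁ = f₂ := (ncard_le_one (k'.finE.subset sdiff_subset)).1 h1' _ g1 _ g3
    subst e12
    exact hn ((Sym2.mem_and_mem_iff (k.nd.ne hf)).1 ⟨g2, g4⟩ ▸ g1.1)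

lemma rec2 (h : Near X) (hS : Str J D) (hC : Cov J D X) (hS' : Str J' D') (hC' : Cov J' D' X)
    {b : Bk V} (hb : b ∈ D) (hne : (b.W ∩ supp X).Nonempty) : b ∈ D' := by
  obtain ⟨x, hx, e, he, hxe⟩ := id hne
  have k := (hS.blk b hb).1
  obtain ⟨b', hb', hx'⟩ : ∃ b' ∈ D', x ∈ b'.W := by
    rcases hC' e he with ⟨A, hA, h1⟩ | ⟨b', hb', h1⟩
    · exact (not_joint h hS hC hS' hC' hb hne hx hA (h1 x hxe)).elim
    · obtain ⟨k', kA, kB⟩ := hS'.blk b' hb'
      rcases k'.sub (mem_supp h1 hxe) with (h2 | h2) | h2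
      · exact ⟨b', hb', h2⟩
      · exact (not_joint h hS hC hS' hC' hb hne hx kA h2).elim
      · exact (not_joint h hS hC hS' hC' hb hne hx kB h2).elim
  have k' := (hS'.blk b' hb').1
  have hne' : (b'.W ∩ supp X).Nonempty := ⟨x, hx', e, he, hxe⟩
  have hW : b.W = b'.W := (W_le h hS hC hS' hC' hb hb' hne ⟨x, hx, hx'⟩).antisymm
    (W_le h hS' hC' hS hC hb' hb hne' ⟨x, hx', hx⟩)
  have hs : b.s = b'.s := by
    have a1 := k.cW
    rw [hW, k'.cW, mm, mm] at a1
    omega
  have hY : b.E ∩ X = b'.E ∩ X := by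
    ext f
    constructor
    · rintro ⟨hf, hX⟩
      obtain ⟨y, hy, hyW⟩ := k.meet f hf
      exact ⟨mem_E hS' hC' hb' hX hy (hW ▸ hyW), hX⟩
    · rintro ⟨hf, hX⟩
      obtain ⟨y, hy, hyW⟩ := k'.meet f hf
      exact ⟨mem_E hS hC hb hX hy (hW ▸ hyW), hX⟩
  have h1 := wh1 h hS hC hb hne
  have h1' := wh1 h hS' hC' hb' hne'
  obtain ⟨c1, c2⟩ := AB_le k k' hs hW hY h1 h1'
  obtain ⟨c3, c4⟩ := AB_le k' k hs.symm hW.symm hY.symm h1' h1
  have hA := c1.antisymm c3
  have hB := c2.antisymm c4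
  have hE := (E_le k k' hs hW hA hB hY h1').antisymm
    (E_le k' k hs.symm hW.symm hA.symm hB.symm hY.symm h1)
  exact Bk.ext hs hW hA hB hE ▸ hb'

end StrP

theorem str : StrStmt where
  split _ _ _ _ h hX hd := StrP.split h hX hd
  wh _ _ _ _ h hS hC _ hb hne := StrP.wh h hS hC hb hne
  jd _ _ _ _ h hS hC _ hA hne := StrP.jd h hS hC hA hne
  rec2 _ _ _ _ _ _ h hS hC hS' hC' _ hb hne := StrP.rec2 h hS hC hS' hC' hb hne

end Pool.Agent.MP_1a6d08_co.Und

end MrgPart5

-- ======== part 6: formerly Pool.Agent.MP_1a6d08_co.und.Tab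
section MrgPart6

/-!
The table: it holds in the model, it is finite, and it gives pendant and closing blocks.
-/

open Set

namespace Pool.Agent.MP_1a6d08_co.Und

namespace TabP

variable {P : Set FinGraph} {T : ℕ → Set (Sym2 (ℕ × ℕ))}

lemma bE_fin (hT : Tpl T) (s a j c : ℕ) : (bE T s a j c).Finite := (hT s).finE.image _

lemma bE_nd (hT : Tpl T) (s a j c : ℕ) : ND (bE T s a j c) := by
  have key : ∀ x y : ℕ × ℕ, s(x, y) ∈ T s → x.1 = 2 → pl a j c x ≠ pl a j c y := by
    intro x y he hx h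
    have hy := (hT s).sub (mem_supp (x := y) he (by simp))
    refine (hT s).nd.ne he ?_
    have e1 : pl a j c x = Sum.inr (c, x.2) := by simp [pl, hx]
    rw [e1] at h
    rcases hy with (hy | hy) | hy
    · have h2 : y.1 = 2 := hy.1
      simp only [pl, h2] at h
      exact Prod.ext (hx.trans h2.symm) (by simpa using h)
    · have h2 : y.1 = 0 := hy.1
      simp [pl, h2] at h
    · have h2 : y.1 = 1 := hy.1
      simp [pl, h2] at h
  rintro _ ⟨e, he, rfl⟩
  induction e using Sym2.ind with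
  | _ x y =>
    obtain ⟨u, hu, hw⟩ := (hT s).meet _ he
    rcases Sym2.mem_iff.1 hu with rfl | rfl
    · exact key _ _ he hw.1
    · exact (key _ _ (Sym2.eq_swap ▸ he) hw.1).symm

lemma jE_fin (hp : PlaceStmt) (a : ℕ) : (jE a).Finite :=
  finite_of_ncard_ne_zero (by rw [hp.jcard]; omega)

lemma jS_fin (hp : PlaceStmt) (a : ℕ) : (jS a).Finite :=
  finite_of_ncard_ne_zero (by rw [hp.scard]; omega)

lemma PE_good (hp : PlaceStmt) (hT : Tpl T) (a : ℕ) (l : List Cell) :
    (PE T a l).Finite ∧ ND (PE T a l) := by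
  induction l generalizing a with
  | nil => exact ⟨finite_empty, empty_subset _⟩
  | cons x l ih =>
    exact ⟨((bE_fin hT ..).union (jE_fin hp _)).union (ih _).1,
      ((bE_nd hT ..).union (hp.jnd _)).union (ih _).2⟩

lemma exists_cells (w : List ℕ) (n : ℕ) :
    ∃ l : List Cell, wd l = w ∧ js l = List.range' n w.length ∧ cs l = List.range' n w.length := by
  induction w generalizing n with
  | nil => exact ⟨[], rfl, rfl, rfl⟩
  | cons s w ih =>
    obtain ⟨l, h1, h2, h3⟩ := ih (n + 1)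
    exact ⟨(s, n, n) :: l, congrArg (s :: ·) h1, congrArg (n :: ·) h2, congrArg (n :: ·) h3⟩

/-- The sixteen vertices of the core. -/
def cR : Set V0 := (fun p : Fin 2 × Fin 8 => (Sum.inr (p.1 + 1, p.2) : V0)) '' univ

/-- The complete bipartite graph on the core. -/
def cX : Set (Sym2 V0) :=
  (fun p : Fin 8 × Fin 8 => s((Sum.inr (1, p.1) : V0), Sum.inr (2, p.2))) '' univ

lemma cR_card : cR.ncard = 16 := by
  rw [cR, ncard_image_of_injective, ncard_univ]
  · simp
  · rintro ⟨a, b⟩ ⟨c, d⟩ h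
    simp only [Sum.inr.injEq, Prod.mk.injEq] at h
    obtain rfl : a = c := Fin.ext (by omega)
    obtain rfl : b = d := Fin.ext h.2
    rfl

lemma cX_card : cX.ncard = 64 := by
  rw [cX, ncard_image_of_injective, ncard_univ]
  · simp
  · rintro ⟨a, b⟩ ⟨c, d⟩ h
    simp only [Sym2.eq_iff, Sum.inr.injEq, Prod.mk.injEq] at h
    obtain rfl : a = c := Fin.ext (by omega)
    obtain rfl : b = d := Fin.ext (by omega)
    rfl

lemma cR_fin : cR.Finite := finite_univ.image _

lemma cX_fin : cX.Finite := finite_univ.image _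

lemma cX_supp : supp cX ⊆ cR := by
  rintro x ⟨_, ⟨p, -, rfl⟩, hx⟩
  rcases Sym2.mem_iff.1 hx with rfl | rfl
  · exact ⟨(0, p.1), trivial, rfl⟩
  · exact ⟨(1, p.2), trivial, rfl⟩

lemma cR_jS (a : ℕ) : Disjoint cR (jS a) :=
  disjoint_left.2 fun _ ⟨_, _, e⟩ ⟨_, _, e'⟩ => by simp [← e] at e'

lemma cR_wS (s : ℕ) : Disjoint cR (wS s 0) :=
  disjoint_left.2 fun _ ⟨_, _, e⟩ ⟨_, _, e'⟩ => by simp [← e] at e'

lemma ext_top (hP : Four P) (V : Type) : ∀ Y ⊆ (⊤ : SimpleGraph V).edgeSet, Y.Finite → Ind P Y →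
    ∀ x y, s(x, y) ∈ (⊤ : SimpleGraph V).edgeSet → dg Y x ≤ 3 → Ind P (insert s(x, y) Y) :=
  fun Y _ hf hY x y hxy hd => hP.ext V Y hf hY x y hxy hd

/-- A tight independent set on the core and the given vertices. -/
lemma core (hg : GenStmt) (hP : Four P) (hX : Ind P cX) {M : Set V0} (hM : M.Finite)
    (hd : Disjoint cR M) :
    ∃ H : Set (Sym2 V0), supp H ⊆ cR ∪ M ∧ H.ncard = 4 * (cR ∪ M).ncard ∧ Ind P H := by
  have fX := cX_fin
  obtain ⟨S, -, h2, h3, h4, h5, h6, -⟩ := hg.add V0 _ _ (Ind P) 4 cX cR M (ext_top hP V0)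
    subset_rfl le_rfl hX.1 fX hX cX_supp hM hd fun y hy =>
      ⟨cR, subset_rfl, by rw [cR_card]; omega, fun z hz h =>
        disjoint_left.1 hd hz ((show y = z from h) ▸ hy)⟩
  refine ⟨cX ∪ S, ?_, ?_, h4⟩
  · rw [supp_union]
    exact union_subset (cX_supp.trans subset_union_left) h5
  · rw [ncard_union_eq h3.symm fX h2, ncard_union_eq hd cR_fin hM, h6, cX_card, cR_card]
    omega

/-- An independent set that hangs on a tight set hangs on every independent set. -/
lemma ext0 (hg : GenStmt) (hP : Four P) {V : Type} {Q W : Set V} {H S Y : Set (Sym2 V)}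
    (fQ : Q.Finite) (cQ : 4 ≤ Q.ncard) (hH : supp H ⊆ Q) (cH : H.ncard = 4 * Q.ncard)
    (hI : Ind P (H ∪ S)) (fS : S.Finite) (dQ : Disjoint Q W) (hS : supp S ⊆ Q ∪ W)
    (mS : ∀ e ∈ S, ∃ x ∈ e, x ∈ W) (fY : Y.Finite) (hY : Ind P Y) (dY : Disjoint (supp Y) W) :
    Ind P (Y ∪ S) := by
  have fH : H.Finite := finite_of_supp fQ hH
  have fM : (supp Y \ Q).Finite := (supp_finite fY).sdiff
  obtain ⟨E, hE⟩ : ∃ E : Set (Sym2 V), ∀ e, e ∈ E ↔
      e ∈ (⊤ : SimpleGraph V).edgeSet ∧ ∀ x ∈ e, x ∈ Q ∪ supp Y := ⟨{e | _}, fun _ => Iff.rfl⟩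
  have sE : supp E ⊆ Q ∪ supp Y := fun x ⟨e, he, hx⟩ => ((hE e).1 he).2 x hx
  have fU : (Q ∪ supp Y).Finite := fQ.union (supp_finite fY)
  have fE : E.Finite := finite_of_supp fU sE
  have nE : E ⊆ (⊤ : SimpleGraph V).edgeSet := fun e he => ((hE e).1 he).1
  obtain ⟨S', h1, h2, h3, h4, -, h6, -⟩ := hg.add V _ E (Ind P) 4 (H ∪ S) (Q ∪ W) (supp Y \ Q)
    (ext_top hP V) nE le_rfl hI.1 (fH.union fS) hI
    (by rw [supp_union]; exact union_subset (hH.trans subset_union_left) hS) fM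
    (disjoint_union_left.2 ⟨disjoint_sdiff_right, dY.symm.mono_right sdiff_subset⟩)
    fun y hy => ⟨Q, subset_union_left, cQ, fun z hz => (hE _).2
      ⟨fun h => hy.2 ((show y = z from h) ▸ hz), by
      intro x hx
      rcases Sym2.mem_iff.1 hx with rfl | rfl
      · exact Or.inr hy.1
      · exact Or.inl hz⟩⟩
  obtain ⟨N, hN, hi⟩ := hg.mat P hP.mat V
  have HE : H ⊆ E := fun e he =>
    (hE e).2 ⟨hI.1 (Or.inl he), fun x hx => Or.inl (hH (mem_supp he hx))⟩
  have YE : Y ⊆ E := fun e he => (hE e).2 ⟨hY.1 he, fun x hx => Or.inr (mem_supp he hx)⟩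
  have c1 : (H ∪ S').ncard = 4 * (Q ∪ supp Y).ncard := by
    rw [ncard_union_eq (h3.symm.mono_left subset_union_left) fH h2, cH, h6, ← union_sdiff_self,
      ncard_union_eq disjoint_sdiff_right fQ fM, mul_add]
  have i1 : Ind P (S ∪ (H ∪ S')) := by rwa [← union_assoc, union_comm S]
  have hB : N.IsBasis (H ∪ S') E := by
    refine Matroid.Indep.isBasis_of_maximal_subset ((hi _).2 (i1.mono subset_union_right))
      (union_subset HE h1) (fun J hJ a1 a2 => ?_) (hN ▸ nE)
    have fJ := fE.subset a2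
    have b1 := hP.bnd V J fJ ((hi _).1 hJ)
    have b2 := ncard_le_ncard ((supp_mono a2).trans sE) fU
    exact (eq_of_subset_of_ncard_le a1 (by omega) fJ).superset
  obtain ⟨B, hB', hYB⟩ := Matroid.Indep.subset_isBasis_of_subset ((hi _).2 hY) YE (hN ▸ nE)
  have dE : Disjoint E S := disjoint_left.2 fun e he hs => by
    obtain ⟨x, hx, hw⟩ := mS e hs
    exact disjoint_left.1 (disjoint_union_left.2 ⟨dQ, dY⟩) (sE (mem_supp he hx)) hw
  have := (hB'.contract_indep_iff.1 (hB.contract_indep_iff.2 ⟨(hi _).2 i1, dE⟩)).1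
  rw [union_comm]
  exact ((hi _).1 this).mono (union_subset_union_right _ hYB)

lemma ext1 (hg : GenStmt) (hP : Four P) {V V' : Type} {f : V → V'} (hf : Function.Injective f)
    {Q W : Set V} {H S : Set (Sym2 V)} {Y : Set (Sym2 V')}
    (fQ : Q.Finite) (cQ : 4 ≤ Q.ncard) (hH : supp H ⊆ Q) (cH : H.ncard = 4 * Q.ncard)
    (hI : Ind P (H ∪ S)) (fS : S.Finite) (dQ : Disjoint Q W) (hS : supp S ⊆ Q ∪ W)
    (mS : ∀ e ∈ S, ∃ x ∈ e, x ∈ W) (fY : Y.Finite) (hY : Ind P Y)
    (dY : Disjoint (supp Y) (f '' W)) : Ind P (Y ∪ Sym2.map f '' S) := by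
  refine ext0 hg hP (Q := f '' Q) (W := f '' W) (H := Sym2.map f '' H) (fQ.image _) ?_ ?_ ?_ ?_
    (fS.image _) (disjoint_image_of_injective hf dQ) ?_ ?_ fY hY dY
  · rwa [ncard_image_of_injective _ hf]
  · rw [supp_map]; exact image_mono hH
  · rwa [ncard_image_of_injective _ hf, ncard_image_of_injective _ (Sym2.map.injective hf)]
  · rw [← image_union]; exact (hg.map P hP.mat _ _ f _ hf.injOn).2 hI
  · rw [supp_map, ← image_union]; exact image_mono hS
  · rintro _ ⟨e, he, rfl⟩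
    obtain ⟨x, hx, hw⟩ := mS e he
    exact ⟨f x, Sym2.mem_map.2 ⟨x, hx, rfl⟩, x, hw, rfl⟩

/-- `p` follows from agreement with `I` on finitely many finite loopless sets. -/
def Loc (I : Set (Sym2 V0) → Prop) (p : (Set (Sym2 V0) → Prop) → Prop) : Prop :=
  ∃ 𝒳 : Set (Set (Sym2 V0)), 𝒳.Finite ∧ (∀ X ∈ 𝒳, X.Finite ∧ ND X) ∧
    ∀ I' : Set (Sym2 V0) → Prop, (∀ X ∈ 𝒳, I' X ↔ I X) → p I'

variable {I : Set (Sym2 V0) → Prop}

lemma Loc.one {p : (Set (Sym2 V0) → Prop) → Prop} (X : Set (Sym2 V0)) (h1 : X.Finite) (h2 : ND X)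
    (h : ∀ I' : Set (Sym2 V0) → Prop, (I' X ↔ I X) → p I') : Loc I p :=
  ⟨{X}, finite_singleton _, fun _ e => e ▸ ⟨h1, h2⟩, fun I' hI => h I' (hI X rfl)⟩

lemma Loc.and {p q : (Set (Sym2 V0) → Prop) → Prop} (hp : Loc I p) (hq : Loc I q) :
    Loc I fun I' => p I' ∧ q I' := by
  obtain ⟨A, a1, a2, a3⟩ := hp
  obtain ⟨B, b1, b2, b3⟩ := hq
  exact ⟨A ∪ B, a1.union b1, fun X h => h.elim (a2 X) (b2 X), fun I' h =>
    ⟨a3 I' fun X hX => h X (Or.inl hX), b3 I' fun X hX => h X (Or.inr hX)⟩⟩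

lemma Loc.ball {ι : Type} {s : Set ι} (hs : s.Finite) {p : ι → (Set (Sym2 V0) → Prop) → Prop}
    (h : ∀ i ∈ s, Loc I (p i)) : Loc I fun I' => ∀ i ∈ s, p i I' := by
  choose! A a1 a2 a3 using h
  refine ⟨⋃ i ∈ s, A i, hs.biUnion a1, fun X hX => ?_, fun I' hI i hi =>
    a3 i hi I' fun X hX => hI X (mem_biUnion hi hX)⟩
  obtain ⟨i, hi, hX⟩ := mem_iUnion₂.1 hX
  exact a2 i hi X hX

end TabP

open TabP

theorem model (hg : GenStmt) (hp : PlaceStmt) (hd : DepStmt) (ha : AvStmt) (hn : NetStmt) :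
    ModelStmt := by
  intro G _ g T hT
  obtain ⟨P, hP, hI⟩ := hd.link G g
  have h4 : Four P := by
    refine ⟨hP, fun V X fX hX x y hxy hx => (hI _ _).2 ⟨insert_subset hxy hX.1,
      ha.ext G g V X fX ((hI _ _).1 hX).2 x y hx⟩, fun V X fX hX => ?_⟩
    by_contra hc
    exact ((hI _ _).1 hX).2 ⟨X, subset_rfl, fX, hX.1, nonempty_of_ncard_ne_zero (by omega),
      Or.inl (by omega)⟩
  refine ⟨P, h4, fun X fX cX hX => (hI _ _).2 ⟨fun e he => ?_, ha.bip G g ℕ X Even fX cX
    fun e he => ?_⟩, fun L z R hR hz => ?_, fun a l hl hw =>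
      (hI _ _).2 ⟨(PE_good hp hT a l).2, fun h => hw ((hn.cyc G g T hT a l hl).1 h)⟩⟩
  · obtain ⟨x, y, rfl, hx, hy⟩ := hX e he
    exact fun h => Nat.not_even_iff_odd.2 hy ((show x = y from h) ▸ hx)
  · obtain ⟨x, y, rfl, hx, hy⟩ := hX e he
    exact ⟨x, y, rfl, hx, Nat.not_even_iff_odd.2 hy⟩
  have hX : Ind P cX := by
    refine (hI _ _).2 ⟨?_, ha.bip G g V0 cX (fun x => ∃ i, x = Sum.inr (1, i)) cX_fin
      cX_card.le ?_⟩
    · rintro _ ⟨p, -, rfl⟩
      simp
    · rintro _ ⟨p, -, rfl⟩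
      exact ⟨_, _, rfl, ⟨_, rfl⟩, by simp⟩
  refine ⟨(hI _ _).2 ⟨hp.jnd 0, ha.joint G g V0 _ _ (hp.scard 0) (hp.jsupp 0).le (hp.jcard 0).le⟩,
    fun s _ => ?_, fun s _ => ?_, fun r hr t _ => ?_, ?_⟩
  · obtain ⟨H, h1, h2, h3⟩ := core hg h4 hX (jS_fin hp 0) (cR_jS 0)
    have dj : Disjoint (cR ∪ jS 0) (jS 1 ∪ wS s 0) :=
      disjoint_union_left.2 ⟨disjoint_union_right.2 ⟨cR_jS 1, cR_wS s⟩,
        disjoint_union_right.2 ⟨disj_jS (by omega), disj_jS_wS ..⟩⟩
    exact ⟨_, H, cR_fin.union (jS_fin hp 0), subset_union_right, dj, h1, h2,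
      (hI _ _).2 ⟨(h3.1.union (bE_nd hT ..)).union (hp.jnd 1),
        ha.pend G g V0 H (jE 1) _ (hp.blk T hT s 0 1 0 (by omega)) ((hI _ _).1 h3).2
          (dj.mono h1 (union_comm _ _).le) (hp.jsupp 1).le (hp.jcard 1).le⟩⟩
  · have fM := (jS_fin hp 0).union (jS_fin hp 1)
    obtain ⟨H, h1, h2, h3⟩ := core hg h4 hX fM (disjoint_union_right.2 ⟨cR_jS 0, cR_jS 1⟩)
    have hb := hp.blk T hT s 0 1 0 (by omega)
    obtain ⟨f, hf⟩ : (bE T s 0 1 0).Nonempty :=
      nonempty_of_ncard_ne_zero (hb.cE.trans_ne (by omega))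
    have dj : Disjoint (cR ∪ (jS 0 ∪ jS 1)) (wS s 0) :=
      disjoint_union_left.2 ⟨cR_wS s, disjoint_union_left.2 ⟨disj_jS_wS .., disj_jS_wS ..⟩⟩
    exact ⟨f, hf, _, H, cR_fin.union fM, subset_union_right, dj, h1, h2,
      (hI _ _).2 ⟨h3.1.union ((bE_nd hT ..).mono sdiff_subset),
        ha.last G g V0 H _ hb ((hI _ _).1 h3).2 (dj.mono_left h1) f hf⟩⟩
  · obtain ⟨l, a1, a2, a3⟩ := exists_cells r.1 2
    obtain ⟨l', b1, b2, b3⟩ := exists_cells r.2 (2 + r.1.length)
    have nd : (0 :: 1 :: (List.range' 2 r.1.length ++ List.range' (2 + r.1.length) r.2.length)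
        ).Nodup := by
      rw [List.range'_append_1]
      exact List.nodup_range' (s := 0) (n := r.1.length + r.2.length + 2)
    have hD : IsDig 0 l l' 1 0 1 := ⟨by rwa [a2, b2], by rwa [a3, b3]⟩
    exact ⟨0, l, l', 1, 0, 1, a1, b1, hD, fun h => ((hI _ _).1 h).2
      (hn.dig G g T hT 0 l l' t 1 0 1 hD (by rw [a1, b1]; exact hR r hr))⟩
  · have hC : IsCyc 0 [(z, 1, 0), (z, 0, 1)] := ⟨by simp [js], by simp [cs], rfl, le_rfl⟩
    exact ⟨0, _, rfl, hC, fun h => ((hI _ _).1 h).2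
      ((hn.cyc G g T hT 0 _ hC).2 (by simpa [wd] using hz))⟩

theorem tabFin (hp : PlaceStmt) : TabFinStmt := by
  intro I T L z R hT hI h
  have h1 : Loc I fun I' => I' (jE 0) :=
    Loc.one _ (jE_fin hp 0) (hp.jnd 0) fun _ e => e.2 h.joint
  have h2 := Loc.ball (I := I) (finite_lt_nat L) (p := fun s I' =>
    ∃ (Q : Set V0) (H : Set (Sym2 V0)), Q.Finite ∧ jS 0 ⊆ Q ∧ Disjoint Q (jS 1 ∪ wS s 0) ∧
      supp H ⊆ Q ∧ H.ncard = 4 * Q.ncard ∧ I' (H ∪ bE T s 0 1 0 ∪ jE 1)) fun s hs => by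
    obtain ⟨Q, H, a1, a2, a3, a4, a5, a6⟩ := h.pend s hs
    exact Loc.one _ (((finite_of_supp a1 a4).union (bE_fin hT ..)).union (jE_fin hp 1)) (hI _ a6)
      fun _ e => ⟨Q, H, a1, a2, a3, a4, a5, e.2 a6⟩
  have h3 := Loc.ball (I := I) (finite_lt_nat L) (p := fun s I' =>
    ∃ f ∈ bE T s 0 1 0, ∃ (Q : Set V0) (H : Set (Sym2 V0)), Q.Finite ∧ jS 0 ∪ jS 1 ⊆ Q ∧
      Disjoint Q (wS s 0) ∧ supp H ⊆ Q ∧ H.ncard = 4 * Q.ncard ∧
      I' (H ∪ (bE T s 0 1 0 \ {f}))) fun s hs => by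
    obtain ⟨f, hf, Q, H, a1, a2, a3, a4, a5, a6⟩ := h.last s hs
    exact Loc.one _ ((finite_of_supp a1 a4).union (bE_fin hT ..).sdiff) (hI _ a6)
      fun _ e => ⟨f, hf, Q, H, a1, a2, a3, a4, a5, e.2 a6⟩
  have h4 := Loc.ball (I := I) (List.finite_toSet R) (p := fun r I' => ∀ t ∈ {t | t < L},
    ∃ a l l' b c c', wd l = r.1 ∧ wd l' = r.2 ∧ IsDig a l l' b c c' ∧
      ¬I' (DG T a l l' t b c c')) fun r hr => Loc.ball (finite_lt_nat L) fun t ht => by
    obtain ⟨a, l, l', b, c, c', a1, a2, a3, a4⟩ := h.dig r hr t ht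
    exact Loc.one (DG T a l l' t b c c')
      (((jE_fin hp a).union (PE_good hp hT ..).1).union (PE_good hp hT ..).1)
      (((hp.jnd a).union (PE_good hp hT ..).2).union (PE_good hp hT ..).2)
      fun _ e => ⟨a, l, l', b, c, c', a1, a2, a3, fun h => a4 (e.1 h)⟩
  have h5 : Loc I fun I' => ∃ a l, wd l = [z, z] ∧ IsCyc a l ∧ ¬I' (PE T a l) := by
    obtain ⟨a, l, a1, a2, a3⟩ := h.base
    exact Loc.one _ (PE_good hp hT a l).1 (PE_good hp hT a l).2
      fun _ e => ⟨a, l, a1, a2, fun h => a3 (e.1 h)⟩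
  obtain ⟨A, a1, a2, a3⟩ := h1.and (h2.and (h3.and (h4.and h5)))
  refine ⟨A, a1, a2, fun I' hI' => ?_⟩
  obtain ⟨b1, b2, b3, b4, b5⟩ := a3 I' hI'
  exact ⟨b1, b2, b3, b4, b5⟩

theorem pend (hg : GenStmt) (hp : PlaceStmt) : PlStmt := by
  intro P T L z R hP hT h
  refine ⟨fun a => ?_, fun s hs a j c haj => ?_⟩
  · have := (hg.map P hP.mat _ _ (sl (· + a) id) _
      (sl_inj (add_left_injective a) Function.injective_id).injOn).2 h.joint
    rwa [sl_jE, Nat.zero_add] at this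
  obtain ⟨σ, hσ⟩ := exists_perm_list (u := [0, 1]) (v := [a, j]) (by simp) (by simpa using haj) rfl
  obtain ⟨rfl, rfl⟩ : σ 0 = a ∧ σ 1 = j := by simpa using hσ
  have hf := sl_inj σ.injective (add_left_injective c)
  have hb := hp.blk T hT s 0 1 0 (by omega)
  have e1 : Sym2.map (sl σ (· + c)) '' bE T s 0 1 0 = bE T s (σ 0) (σ 1) c := by
    rw [sl_bE, Nat.zero_add]
  have e2 : sl σ (· + c) '' wS s 0 = wS s c := by rw [sl_wS, Nat.zero_add]
  have c4 : ∀ Q : Set V0, Q.Finite → jS 0 ⊆ Q → 4 ≤ Q.ncard := fun Q fQ hQ => by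
    have := ncard_le_ncard hQ fQ
    rw [hp.scard] at this
    omega
  refine ⟨fun Y fY hY dY => ?_, ?_⟩
  · obtain ⟨Q, H, a1, a2, a3, a4, a5, a6⟩ := h.pend s hs
    rw [union_assoc] at a6 ⊢
    rw [← e1, ← sl_jE σ (· + c), ← image_union]
    refine ext1 hg hP hf a1 (c4 Q a1 a2) a4 a5 a6 (hb.finE.union (jE_fin hp 1)) a3 ?_ ?_ fY hY ?_
    · rw [supp_union, hp.jsupp]
      refine union_subset (hb.sub.trans ?_) (subset_union_left.trans subset_union_right)
      exact union_subset (union_subset (subset_union_right.trans subset_union_right)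
        (a2.trans subset_union_left)) (subset_union_left.trans subset_union_right)
    · rintro e (he | he)
      · exact (hb.meet e he).imp fun x hx => ⟨hx.1, Or.inr hx.2⟩
      · exact ⟨_, e.out_fst_mem, Or.inl ((hp.jsupp 1).le (mem_supp he e.out_fst_mem))⟩
    · rwa [image_union, sl_jS, e2]
  · obtain ⟨f, hf', Q, H, a1, a2, a3, a4, a5, a6⟩ := h.last s hs
    refine ⟨Sym2.map (sl σ (· + c)) f, e1 ▸ mem_image_of_mem _ hf', fun Y fY hY dY => ?_⟩
    rw [← e1, ← image_singleton, ← image_sdiff (Sym2.map.injective hf)]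
    refine ext1 hg hP hf a1 (c4 Q a1 (subset_union_left.trans a2)) a4 a5 a6 hb.finE.sdiff a3
      (((supp_mono sdiff_subset).trans hb.sub).trans ?_) (fun e he => hb.meet e he.1) fY hY
      (by rwa [e2])
    rw [union_assoc]
    exact union_subset subset_union_right (a2.trans subset_union_left)

end Pool.Agent.MP_1a6d08_co.Und

end MrgPart6

-- marker of a merged file
example : 731051 + 445159 = 731051 + 445159 := rfl
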