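import Pool.Agent.MP_1a6d08_co.und.Sound
import Pool.Agent.MP_1a6d08_co.und.Blk
import Pool.Agent.MP_1a6d08_co.und.Rec
import Pool.Agent.MP_1a6d08_co.und.Tab

/-!
Assembly.
-/

namespace Pool.Agent.MP_1a6d08_co.Und

theorem notRe : FinalStmt :=
  final gen blkEx
    (model gen place (dep blkMap str) (av str) (net place str (dep blkMap str) (av str)))
    (tabFin place) (recog gen) (sound gen place (pend gen place)) (nb mach perm) comp
    (cycCode place) reProj

theorem charIff {α : Type} (M : Matroid α) (hM : M.E.Finite) :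
    InClass M ↔ ∀ n, 2 * M.E.ncard < n → Fits M n :=
  ⟨(char gen α M hM).1, (char gen α M hM).2 _⟩

theorem coRe : ∃ q : List ℕ × List (List ℕ) → Prop, REPred q ∧
    ∀ c M, Codes c M → (q c ↔ ¬InClass M) := by
  obtain ⟨Fc, h1, h2⟩ := fit
  refine ⟨fun c => ∃ n : ℕ, True ∧ (2 * c.1.length < n ∧ ¬Fc (c, n)), ?_, fun c M hc => ?_⟩
  · exact reProj _ ℕ ℕ (fun _ => True) id (fun x => 2 * x.1.1.length < x.2 ∧ ¬Fc (x.1, x.2))
      (PrimrecPred.computablePred (Primrec.primrecPred (by
        simpa using Primrec.const true))).to_re Primrec.id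
      ((Primrec.nat_lt.comp (Primrec.nat_mul.comp (Primrec.const 2)
        (Primrec.list_length.comp (Primrec.fst.comp Primrec.fst))) Primrec.snd).and h1.not)
  · have hE : M.E = ↑c.1.toFinset := by rw [hc.1]; ext; simp
    have hM : M.E.Finite := hE ▸ Finset.finite_toSet _
    have hl : M.E.ncard ≤ c.1.length := by
      rw [hE, Set.ncard_coe_finset]; exact List.toFinset_card_le _
    constructor
    · rintro ⟨n, -, h3, h4⟩ h5
      exact h4 ((h2 c M n hc (by omega)).2 ((char gen _ M hM).1 h5 n (by omega)))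
    · intro h
      by_contra h3
      refine h ((char gen _ M hM).2 (2 * c.1.length) fun n hn => ?_)
      by_contra h4
      exact h3 ⟨n, trivial, hn, fun h5 => h4 ((h2 c M n hc (by omega)).1 h5)⟩

end Pool.Agent.MP_1a6d08_co.Und
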