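import Mathlib.Tactic.IntervalCases
import Pool.Agent.MP_1a6d08_co.und.Rec
import Pool.Agent.MP_1a6d08_co.Suf

-- ======== part 0: formerly Pool.Agent.MP_1a6d08_co.und.Av
section MrgPart0

/-!
Sets that are not dependent in the model.
-/

open Set

namespace Pool.Agent.MP_1a6d08_co.Und

namespace AvP

variable {V G : Type} [Group G] {g : ℕ → G}

/-- The edges of `C` that meet `Z`. -/
def mt (C : Set (Sym2 V)) (Z : Set V) : Set (Sym2 V) := {e | e ∈ C ∧ ∃ x ∈ e, x ∈ Z}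

lemma exists_mem (e : Sym2 V) : ∃ x, x ∈ e := ⟨e.out.1, Sym2.out_fst_mem e⟩

lemma min_ge {C : Set (Sym2 V)} (h : Minimal (Dep g) C) : 4 * (supp C).ncard ≤ C.ncard := by
  rcases (min_dep h).2.2.2 with h1 | h1
  · exact h1.le
  · exact h1.1.1.ge

/-- The edges of a minimal dependent set that meet a vertex set. -/
lemma key {C : Set (Sym2 V)} (h : Minimal (Dep g) C) {Z : Set V} (hZ : Z ⊆ supp C)
    (hne : Z.Nonempty) :
    4 * Z.ncard + 1 ≤ (mt C Z).ncard ∨ (Z = supp C ∧ 4 * Z.ncard ≤ (mt C Z).ncard) := by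
  obtain ⟨hf, hn, -, hc⟩ := min_dep h
  have hs := supp_finite hf
  have hsub : mt C Z ⊆ C := fun _ he => he.1
  have hcard : (C \ mt C Z).ncard + (mt C Z).ncard = C.ncard :=
    ncard_sdiff_add_ncard_of_subset hsub hf
  have hR : supp (C \ mt C Z) ⊆ supp C \ Z := by
    rintro x ⟨e, he, hx⟩
    exact ⟨⟨e, he.1, hx⟩, fun hz => he.2 ⟨he.1, x, hx, hz⟩⟩
  have h1 : (supp (C \ mt C Z)).ncard ≤ (supp C \ Z).ncard := ncard_le_ncard hR hs.sdiff
  have h2 : (supp C \ Z).ncard + Z.ncard = (supp C).ncard :=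
    ncard_sdiff_add_ncard_of_subset hZ hs
  have hne' : C \ mt C Z ≠ C := by
    obtain ⟨z, hz⟩ := hne
    obtain ⟨e, he, hx⟩ := hZ hz
    intro hh
    exact (hh.symm ▸ he : e ∈ C \ mt C Z).2 ⟨he, z, hx, hz⟩
  have hge := min_ge h
  rcases (C \ mt C Z).eq_empty_or_nonempty with h0 | h0
  · rw [h0, ncard_empty] at hcard
    by_cases hz : Z = supp C
    · right
      exact ⟨hz, by omega⟩
    · left
      have := ncard_lt_ncard (hZ.ssubset_of_ne hz) hs
      omega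
  · left
    rcases hc with hc | hc
    · have : (C \ mt C Z).ncard ≤ 4 * (supp (C \ mt C Z)).ncard := by
        by_contra hlt
        exact hne' (sdiff_subset.antisymm (h.2 ⟨_, subset_rfl, hf.sdiff, hn.mono sdiff_subset, h0,
          Or.inl (not_le.1 hlt)⟩ sdiff_subset))
      omega
    · have := hc.1.2 _ sdiff_subset h0 hne'
      omega

lemma key' {C : Set (Sym2 V)} (h : Minimal (Dep g) C) {Z : Set V} (hZ : Z ⊆ supp C)
    (hne : Z.Nonempty) : 4 * Z.ncard ≤ (mt C Z).ncard := by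
  rcases key h hZ hne with h1 | h1
  · omega
  · exact h1.2

/-- At most nine vertices and at most 35 edges. -/
lemma small {K : Set (Sym2 V)} {Q : Set V} (hQ : Q.Finite) (hne : Q.Nonempty) (h9 : Q.ncard ≤ 9)
    (hn : ND K) (hs : supp K ⊆ Q) (h35 : K.ncard ≤ 35) : K.ncard < 4 * Q.ncard := by
  have h1 := two_mul_le' hQ hn hs
  have h2 := (ncard_pos hQ).2 hne
  generalize Q.ncard = q at *
  interval_cases q <;> omega

lemma miss {C E : Set (Sym2 V)} (hE : E.Finite) {x : V} (hx : x ∉ supp C) :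
    (C ∩ E).ncard + dg E x ≤ E.ncard := by
  rw [dg, ← ncard_union_eq (disjoint_left.2 fun e he he' => hx ⟨e, he.1, he'.2⟩)
    (hE.subset inter_subset_right) (hE.subset fun _ he => he.1)]
  exact ncard_le_ncard (union_subset inter_subset_right fun _ he => he.1) hE

lemma neA {b : Bk V} (hb : Blk b) : b.A.Nonempty :=
  nonempty_of_ncard_ne_zero (by rw [hb.cA]; omega)

theorem whole {C : Set (Sym2 V)} {b : Bk V} (hb : Blk b) (h : Minimal (Dep g) C)
    (hE : ∀ e ∈ C, (∃ x ∈ e, x ∈ b.W) → e ∈ b.E) (hne : (C ∩ b.E).Nonempty) : b.E ⊆ C := by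
  have hZ : (supp C ∩ b.W).Nonempty := by
    obtain ⟨e, he, he'⟩ := hne
    obtain ⟨x, hx, hw⟩ := hb.meet e he'
    exact ⟨x, ⟨e, he, hx⟩, hw⟩
  have hsub : mt C (supp C ∩ b.W) ⊆ C ∩ b.E := fun e he =>
    ⟨he.1, hE e he.1 (he.2.imp fun x hx => ⟨hx.1, hx.2.2⟩)⟩
  have h1 := ncard_le_ncard hsub (hb.finE.subset inter_subset_right)
  by_cases hW : supp C ∩ b.W = b.W
  · have hc : (supp C ∩ b.W).ncard = mm b.s := by rw [hW, hb.cW]
    rcases key h inter_subset_left hZ with h2 | ⟨h2, h3⟩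
    · have := eq_of_subset_of_ncard_le (inter_subset_right (s := C) (t := b.E))
        (by rw [hb.cE]; omega) hb.finE
      exact this ▸ inter_subset_left
    · obtain ⟨a, ha⟩ := neA hb
      have hx : a ∉ supp C := fun hx => disjoint_left.1 hb.dA (h2.ge hx).2 ha
      have h4 := miss hb.finE hx
      rw [hb.gA a ha, hb.cE, dd] at h4
      omega
  · have h2 := hb.sparse _ inter_subset_right hZ hW
    have h3 := key' h inter_subset_left hZ
    have h4 : (C ∩ b.E).ncard ≤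
        {e | e ∈ b.E ∧ ∀ x ∈ e, x ∈ b.W → x ∈ supp C ∩ b.W}.ncard :=
      ncard_le_ncard (fun e he => ⟨he.2, fun x hx hw => ⟨⟨e, he.1, hx⟩, hw⟩⟩)
        (hb.finE.subset fun _ he => he.1)
    omega

theorem ext {X : Set (Sym2 V)} (hX : X.Finite) (hd : ¬Dep g X) (x y : V) (h3 : dg X x ≤ 3) :
    ¬Dep g (insert s(x, y) X) := by
  intro hD
  obtain ⟨C, hC, h⟩ := hD.exists_min
  obtain ⟨hf, hn, -, -⟩ := min_dep h
  by_cases hx : x ∈ supp C
  · have hsub : mt C {x} ⊆ insert s(x, y) {e | e ∈ X ∧ x ∈ e} := by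
      rintro e ⟨he, z, hz, rfl⟩
      rcases hC he with h1 | h1
      · exact Or.inl h1
      · exact Or.inr ⟨h1, hz⟩
    have h1 := (ncard_le_ncard hsub ((hX.subset fun _ he => he.1).insert _)).trans
      (ncard_insert_le _ _)
    rw [dg] at h3
    rcases key h (singleton_subset_iff.2 hx) (singleton_nonempty x) with h2 | ⟨h2, h4⟩
    · rw [ncard_singleton] at h2
      omega
    · have h5 := two_mul_le' (finite_singleton x) hn h2.ge
      have h6 : (mt C {x}).ncard ≤ C.ncard := ncard_le_ncard (fun _ he => he.1) hf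
      rw [ncard_singleton] at h4 h5
      omega
  · refine hd (h.1.mono fun e he => (hC he).resolve_left ?_)
    rintro rfl
    exact hx ⟨_, he, by simp⟩

theorem joint {K : Set (Sym2 V)} {A : Set V} (hA : A.ncard = 9) (hs : supp K ⊆ A)
    (h35 : K.ncard ≤ 35) : ¬Dep g K := by
  intro hD
  obtain ⟨C, hC, h⟩ := hD.exists_min
  obtain ⟨hf, hn, hne, -⟩ := min_dep h
  have hAf : A.Finite := finite_of_ncard_ne_zero (by omega)
  have h1 := small (supp_finite hf) (supp_nonempty hne)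
    (hA ▸ ncard_le_ncard ((supp_mono hC).trans hs) hAf) hn subset_rfl
    ((ncard_le_ncard hC (finite_of_supp hAf hs)).trans h35)
  have := min_ge h
  omega

theorem last {Y : Set (Sym2 V)} {b : Bk V} (hb : Blk b) (hd : ¬Dep g Y)
    (hY : Disjoint (supp Y) b.W) {f : Sym2 V} (hf : f ∈ b.E) : ¬Dep g (Y ∪ (b.E \ {f})) := by
  intro hD
  obtain ⟨C, hC, h⟩ := hD.exists_min
  have hn : ∀ e ∈ Y, ¬∃ x ∈ e, x ∈ b.W := fun e he ⟨x, hx, hw⟩ =>
    disjoint_left.1 hY ⟨e, he, hx⟩ hw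
  rcases (C ∩ b.E).eq_empty_or_nonempty with h0 | h0
  · refine hd (h.1.mono fun e he => (hC he).resolve_right fun h1 => ?_)
    exact (h0 ▸ (⟨he, h1.1⟩ : e ∈ C ∩ b.E) : e ∈ (∅ : Set (Sym2 V)))
  · have h1 := whole hb h (fun e he hw => ((hC he).resolve_left fun h2 => hn e h2 hw).1) h0
    rcases hC (h1 hf) with h2 | h2
    · exact hn f h2 (hb.meet f hf)
    · exact h2.2 rfl

theorem pend {Y K : Set (Sym2 V)} {b : Bk V} (hb : Blk b) (hd : ¬Dep g Y)
    (hY : Disjoint (supp Y) (b.W ∪ b.B)) (hK : supp K ⊆ b.B) (h35 : K.ncard ≤ 35) :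
    ¬Dep g (Y ∪ b.E ∪ K) := by
  intro hD
  obtain ⟨C, hC, h⟩ := hD.exists_min
  obtain ⟨hf, hnd, -, -⟩ := min_dep h
  have hKf : K.Finite := finite_of_supp hb.finB hK
  have hn : ∀ e ∈ Y, ∀ x ∈ e, x ∉ b.W ∪ b.B := fun e he x hx => disjoint_left.1 hY ⟨e, he, hx⟩
  rcases (C ∩ b.E).eq_empty_or_nonempty with h0 | h0
  · have hE : ∀ e ∈ C, e ∉ b.E := fun e he h1 =>
      (h0 ▸ (⟨he, h1⟩ : e ∈ C ∩ b.E) : e ∈ (∅ : Set (Sym2 V)))
    rcases (supp C ∩ b.B).eq_empty_or_nonempty with h1 | h1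
    · refine hd (h.1.mono fun e he => ?_)
      rcases hC he with (h2 | h2) | h2
      · exact h2
      · exact absurd h2 (hE e he)
      · obtain ⟨x, hx⟩ := exists_mem e
        exact (h1 ▸ (⟨⟨e, he, hx⟩, hK ⟨e, h2, hx⟩⟩ : x ∈ supp C ∩ b.B) : x ∈ (∅ : Set V)).elim
    · have hsub : mt C (supp C ∩ b.B) ⊆ K := by
        rintro e ⟨he, x, hx, hz⟩
        rcases hC he with (h2 | h2) | h2
        · exact absurd (Or.inr hz.2) (hn e h2 x hx)
        · exact absurd h2 (hE e he)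
        · exact h2
      have h2 := small (K := mt C (supp C ∩ b.B)) (hb.finB.subset inter_subset_right) h1
        (hb.cB ▸ ncard_le_ncard inter_subset_right hb.finB) (hnd.mono fun _ he => he.1)
        (fun x ⟨e, he, hx⟩ => ⟨⟨e, he.1, hx⟩, hK ⟨e, hsub he, hx⟩⟩)
        ((ncard_le_ncard hsub hKf).trans h35)
      have := key' h inter_subset_left h1
      omega
  · have h1 : b.E ⊆ C := by
      refine whole hb h (fun e he ⟨x, hx, hw⟩ => ?_) h0
      rcases hC he with (h2 | h2) | h2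
      · exact absurd (Or.inl hw) (hn e h2 x hx)
      · exact h2
      · exact absurd (hK ⟨e, h2, hx⟩) (disjoint_left.1 hb.dB hw)
    have h2 : b.W ∪ b.A ∪ b.B ⊆ supp C := hb.supp_eq ▸ supp_mono h1
    have hZ : b.W ∪ b.B ⊆ supp C :=
      (union_subset_union_left _ subset_union_left).trans h2
    have hc : (b.W ∪ b.B).ncard = mm b.s + 9 := by
      rw [ncard_union_eq hb.dB hb.finW hb.finB, hb.cW, hb.cB]
    have hsub : mt C (b.W ∪ b.B) ⊆ b.E ∪ K := by
      rintro e ⟨he, x, hx, hz⟩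
      rcases hC he with (h3 | h3) | h3
      · exact absurd hz (hn e h3 x hx)
      · exact Or.inl h3
      · exact Or.inr h3
    have h3 := (ncard_le_ncard hsub (hb.finE.union hKf)).trans (ncard_union_le _ _)
    rw [hb.cE] at h3
    rcases key h hZ (nonempty_of_ncard_ne_zero (by omega)) with h4 | ⟨h4, -⟩
    · omega
    · obtain ⟨a, ha⟩ := neA hb
      rcases (h4 ▸ h2 (Or.inl (Or.inr ha)) : a ∈ b.W ∪ b.B) with h5 | h5
      · exact disjoint_left.1 hb.dA h5 ha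
      · exact disjoint_left.1 hb.dAB ha h5

theorem bip (hs : StrStmt) {X : Set (Sym2 V)} {κ : V → Prop} (hX : X.Finite) (h64 : X.ncard ≤ 64)
    (hκ : ∀ e ∈ X, ∃ x y, e = s(x, y) ∧ κ x ∧ ¬κ y) : ¬Dep g X := by
  intro hD
  obtain ⟨C, hC, h⟩ := hD.exists_min
  obtain ⟨hf, hnd, hne, hc⟩ := min_dep h
  have hS := supp_finite hf
  have hP : (supp C ∩ {x | κ x}).Finite := hS.subset inter_subset_left
  have hN : (supp C \ {x | κ x}).Finite := hS.sdiff
  have h1 : C ⊆ (fun p : V × V => s(p.1, p.2)) '' ((supp C ∩ {x | κ x}) ×ˢ (supp C \ {x | κ x})) := by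
    intro e he
    obtain ⟨x, y, rfl, hx, hy⟩ := hκ e (hC he)
    exact ⟨(x, y), ⟨⟨⟨_, he, by simp⟩, hx⟩, ⟨_, he, by simp⟩, hy⟩, rfl⟩
  have h2 := (ncard_le_ncard h1 ((hP.prod hN).image _)).trans (ncard_image_le (hP.prod hN))
  rw [ncard_prod] at h2
  have h3 := ncard_inter_add_ncard_sdiff_eq_ncard (supp C) {x | κ x} hS
  have h4 := (ncard_le_ncard hC hX).trans h64
  have h5 := min_ge h
  have h6 := (ncard_pos hS).2 (supp_nonempty hne)
  have h16 : (supp C).ncard = 16 := by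
    generalize (supp C ∩ {x | κ x}).ncard = p at *
    generalize (supp C \ {x | κ x}).ncard = q at *
    generalize (supp C).ncard = v at *
    subst h3
    by_contra hv
    have h7 : p + q ≤ 15 := by omega
    have h8 : 4 * (p + q) ≤ p * q := h5.trans h2
    have h9 : 4 * (p * q) ≤ (p + q) * (p + q) := by nlinarith [sq_nonneg ((p : ℤ) - q)]
    have h10 : (p + q) * (p + q) ≤ 15 * (p + q) := Nat.mul_le_mul_right _ h7
    omega
  rcases hc with hc | ⟨hc, J, D, π, hstr, hcov, -, -, hW⟩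
  · omega
  · have hD0 : ∀ b, b ∉ D := fun b hb => by
      have h7 := ncard_le_ncard (hW b hb) hS
      rw [(hstr.blk b hb).1.cW, mm] at h7
      omega
    obtain ⟨e, he⟩ := id hne
    obtain ⟨x, hx⟩ := exists_mem e
    rcases hcov e he with ⟨A, hA, hin⟩ | ⟨b, hb, -⟩
    · rcases hs.jd V C J D (hc.near hf hnd hne) hstr hcov A hA ⟨x, hin x hx, e, he, hx⟩ with
        ⟨b, hb, -⟩ | h7
      · exact hD0 b hb
      · rw [h7, hstr.cJ A hA] at h16
        omega
    · exact hD0 b hb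

end AvP

theorem av (hs : StrStmt) : AvStmt where
  ext _ _ _ _ _ hX hd x y h := AvP.ext hX hd x y h
  joint _ _ _ _ _ _ hA h h' := AvP.joint hA h h'
  pend _ _ _ _ _ _ _ hb hd hY hK h := AvP.pend hb hd hY hK h
  last _ _ _ _ _ _ hb hd hY _ hf := AvP.last hb hd hY hf
  whole _ _ _ _ _ _ hb h hE hne := AvP.whole hb h hE hne
  bip _ _ _ _ _ _ hX h hκ := AvP.bip hs hX h hκ

end Pool.Agent.MP_1a6d08_co.Und

end MrgPart0

-- ======== part 1: formerly Pool.Agent.MP_1a6d08_co.und.Char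
section MrgPart1

/-!
Compactness: membership in the class is a conjunction of finite conditions.
-/

open Set Filter

namespace Pool.Agent.MP_1a6d08_co.Und

namespace CharP

lemma ncard_supp_le {V : Type} {F : Set (Sym2 V)} (h : F.Finite) :
    (supp F).ncard ≤ 2 * F.ncard := by
  have h1 : supp F ⊆ (fun e => e.out.1) '' F ∪ (fun e => e.out.2) '' F := by
    rintro x ⟨e, he, hx⟩
    rw [← e.out_eq] at hx
    exact (Sym2.mem_iff.1 hx).imp (fun h => ⟨e, he, h.symm⟩) fun h => ⟨e, he, h.symm⟩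
  have h2 := ncard_le_ncard h1 ((h.image _).union (h.image _))
  have h3 := ncard_union_le ((fun e : Sym2 V => e.out.1) '' F) ((fun e => e.out.2) '' F)
  have h4 := ncard_image_le (f := fun e : Sym2 V => e.out.1) h
  have h5 := ncard_image_le (f := fun e : Sym2 V => e.out.2) h
  omega

lemma exists_squeeze {V : Type} {F : Set (Sym2 V)} (h : F.Finite) {n : ℕ}
    (hn : 2 * F.ncard < n) : ∃ g : V → Fin n, InjOn g (supp F) := by
  have : Nonempty (Fin n) := ⟨⟨0, by omega⟩⟩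
  obtain ⟨g, -, hg⟩ := (supp_finite h).exists_injOn_of_encard_le (t := (univ : Set (Fin n))) (by
    rw [← (supp_finite h).cast_ncard_eq, ← finite_univ.cast_ncard_eq, Nat.cast_le, ncard_univ,
      Nat.card_fin]
    have := ncard_supp_le h
    omega)
  exact ⟨g, hg⟩

lemma fits_of (hg : GenStmt) {α : Type} {M : Matroid α} (hM : M.E.Finite) (h : InClass M) {n : ℕ}
    (hn : 2 * M.E.ncard < n) : Fits M n := by
  obtain ⟨P, V, _, Γ, f, hf, hP, hI⟩ := h
  obtain ⟨g, hg'⟩ := exists_squeeze (hM.image f) (n := n) (by rwa [hf.ncard_image])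
  obtain ⟨N, hN⟩ := hP.2.2 (Fin n) ⊤
  have k : ∀ I, N.Indep I ↔ Ind P I := hN.indep
  have hE : f '' M.E = Γ.edgeSet := hI.1
  have hnd : ND (f '' M.E) := hE ▸ SimpleGraph.edgeSet_mono le_top
  have hf' : InjOn (Sym2.map g ∘ f) M.E :=
    (map_injOn hg' subset_rfl).comp hf (mapsTo_image f M.E)
  refine ⟨N, Sym2.map g ∘ f, hf', ⟨hN.1, fun σ I h => (k _).2
    ((hg.map P hP _ _ σ I σ.injective.injOn).2 ((k I).1 h)), fun C₁ C₂ hC hd => ?_⟩, ?_, ?_⟩
  · rcases hP.cp_split ((hN.circ _).1 hC).1 subset_rfl (disjoint_left.2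
      fun x ⟨e, he, h1⟩ ⟨e', he', h2⟩ => hd e he e' he' x h1 h2) with h | h
    · exact Or.inr (eq_empty_of_forall_notMem fun e he =>
        hd e (h (Or.inr he)) e he _ (Sym2.out_fst_mem e) (Sym2.out_fst_mem e))
    · exact Or.inl (eq_empty_of_forall_notMem fun e he =>
        hd e he e (h (Or.inl he)) _ (Sym2.out_fst_mem e) (Sym2.out_fst_mem e))
  · rw [image_comp, hN.1]
    exact hnd.map hg'
  · refine Matroid.ext_indep rfl fun I hI' => ?_
    obtain ⟨I₀, h0, rfl⟩ := subset_image_iff.1 hI'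
    rw [Matroid.map_image_indep_iff h0, Matroid.restrict_indep_iff, and_iff_left (image_mono h0),
      k, image_comp, hg.map P hP _ _ g _ (hg'.mono (supp_mono (image_mono h0))),
      ← Matroid.map_image_indep_iff (hf := hf) h0, hI.indep]
    exact and_congr_left' (iff_of_true (hE ▸ image_mono h0) (hnd.mono (image_mono h0)))

lemma inv {n : ℕ} {N : Matroid (Sym2 (Fin n))} (hN : SymConn N) {V : Type} {C : Set (Sym2 V)}
    {φ ψ : V → Fin n} (hφ : InjOn φ (supp C)) (hψ : InjOn ψ (supp C))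
    (h : N.Indep (Sym2.map φ '' C)) : N.Indep (Sym2.map ψ '' C) := by
  have := Finite.of_injective _ hφ.injective
  obtain ⟨σ, hσ⟩ := Equiv.Perm.exists_extending_pair (f := fun x : supp C => φ x)
    (g := fun x : supp C => ψ x) hφ.injective hψ.injective
  have e : Sym2.map ψ '' C = Sym2.map σ '' (Sym2.map φ '' C) := by
    rw [image_image]
    refine image_congr fun e he => ?_
    rw [Sym2.map_map]
    exact Sym2.map_congr fun x hx => (hσ ⟨x, e, he, hx⟩).symm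
  rw [e]
  exact hN.2.1 σ _ h

section Limit

variable {k : ℕ} (N : ∀ n : ℕ, Matroid (Sym2 (Fin (n + k + 1))))

/-- Dependence in the limit along an ultrafilter. -/
def DL {V : Type} (F : Set (Sym2 V)) : Prop :=
  ∃ C ⊆ F, ND C ∧ ∀ᶠ n in hyperfilter ℕ, ∃ φ : V → Fin (n + k + 1), InjOn φ (supp C) ∧
    ¬(N n).Indep (Sym2.map φ '' C)

variable {N}

lemma exists_emb (k : ℕ) (V : Type) [Finite V] : ∃ ε : ∀ n : ℕ, V → Fin (n + k + 1),
    ∀ᶠ n in hyperfilter ℕ, Function.Injective (ε n) := by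
  have h : ∀ n : ℕ, ∃ ε : V → Fin (n + k + 1), Nat.card V ≤ n → Function.Injective ε := fun n => by
    by_cases h : Nat.card V ≤ n
    · exact ⟨Fin.castLE (by omega) ∘ Finite.equivFin V, fun _ =>
        (Fin.castLE_injective _).comp (Finite.equivFin V).injective⟩
    · exact ⟨fun _ => 0, fun h' => absurd h' h⟩
  choose ε hε using h
  exact ⟨ε, (Filter.Eventually.filter_mono Nat.hyperfilter_le_atTop
    (eventually_ge_atTop (Nat.card V))).mono hε⟩

lemma DL_iff (hN : ∀ n, SymConn (N n)) {V : Type} {ε : ∀ n : ℕ, V → Fin (n + k + 1)}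
    (hε : ∀ᶠ n in hyperfilter ℕ, Function.Injective (ε n)) {F : Set (Sym2 V)} (hF : ND F) :
    DL N F ↔ ∀ᶠ n in hyperfilter ℕ, ¬(N n).Indep (Sym2.map (ε n) '' F) := by
  constructor
  · rintro ⟨C, h1, -, h2⟩
    filter_upwards [h2, hε] with n ⟨φ, h3, h4⟩ h5 h6
    exact h4 (inv (hN n) h5.injOn h3 (h6.subset (image_mono h1)))
  · intro h
    refine ⟨F, subset_rfl, hF, ?_⟩
    filter_upwards [h, hε] with n h1 h2
    exact ⟨ε n, h2.injOn, h1⟩

lemma DL_mono {V : Type} {F F' : Set (Sym2 V)} (h : F ⊆ F') (hD : DL N F) : DL N F' :=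
  hD.imp fun _ hC => ⟨hC.1.trans h, hC.2⟩

lemma min_nd {V : Type} {F : Set (Sym2 V)} (h : Minimal (DL N) F) : ND F := by
  obtain ⟨C, h1, h2⟩ := h.1
  exact h2.1.mono (h.2 ⟨C, subset_rfl, h2⟩ h1)

lemma min_circ (hN : ∀ n, SymConn (N n)) {V : Type} [Finite V]
    {ε : ∀ n : ℕ, V → Fin (n + k + 1)} (hε : ∀ᶠ n in hyperfilter ℕ, Function.Injective (ε n))
    {F : Set (Sym2 V)} (h : Minimal (DL N) F) :
    ∀ᶠ n in hyperfilter ℕ, (N n).IsCircuit (Sym2.map (ε n) '' F) := by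
  have hF := min_nd h
  have h2 : ∀ᶠ n in hyperfilter ℕ, ∀ e ∈ F, (N n).Indep (Sym2.map (ε n) '' (F \ {e})) := by
    refine (eventually_all_finite (toFinite F)).2 fun e he => ?_
    by_contra hn
    exact (h.2 ((DL_iff hN hε (hF.mono sdiff_subset)).2 (Ultrafilter.eventually_not.2 hn))
      sdiff_subset he).2 rfl
  filter_upwards [(DL_iff hN hε hF).1 h.1, h2, hε] with n h1 h2 h3
  refine Matroid.isCircuit_iff_dep_forall_sdiff_singleton_indep.2
    ⟨⟨h1, (hN n).1 ▸ hF.map h3.injOn⟩, ?_⟩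
  rintro _ ⟨e, he, rfl⟩
  rw [← image_singleton, ← image_sdiff (Sym2.map.injective h3)]
  exact h2 e he

/-- The limit as an invariant notion of dependence. -/
def sys (hN : ∀ n, SymConn (N n))
    (hex : ∃ (V : Type) (_ : Finite V) (Γ : SimpleGraph V), DL N Γ.edgeSet) : DepSys where
  D := DL N
  mono := fun _ _ => DL_mono
  empty := fun V ⟨C, h1, _, h2⟩ => by
    obtain ⟨n, φ, -, h3⟩ := h2.exists
    rw [subset_empty_iff.1 h1, image_empty] at h3
    exact h3 (N n).empty_indep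
  map := fun {V W} _ _ ψ F => by
    obtain ⟨ε, hε⟩ := exists_emb k W
    have hε' : ∀ᶠ n in hyperfilter ℕ, Function.Injective (ε n ∘ ψ) :=
      hε.mono fun n h => h.comp ψ.injective
    have key : ∀ C : Set (Sym2 V), ND C → (DL N (Sym2.map ψ '' C) ↔ DL N C) := fun C hC => by
      rw [DL_iff hN hε (hC.map ψ.injective.injOn), DL_iff hN (ε := fun n => ε n ∘ ψ) hε' hC]
      simp only [image_image, Sym2.map_map]
    constructor
    · rintro ⟨C, h1, h2, h3⟩
      obtain ⟨C', h4, rfl⟩ := subset_image_iff.1 h1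
      exact DL_mono h4 ((key C' h2.of_map).1 ⟨_, subset_rfl, h2, h3⟩)
    · rintro ⟨C, h1, h2, h3⟩
      exact DL_mono (image_mono h1) ((key C h2).2 ⟨_, subset_rfl, h2, h3⟩)
  elim := fun {V} _ F1 F2 e h1 h2 hne _ _ => by
    obtain ⟨ε, hε⟩ := exists_emb k V
    rw [DL_iff hN hε (((min_nd h1).union (min_nd h2)).mono sdiff_subset)]
    filter_upwards [min_circ hN hε h1, min_circ hN hε h2, hε] with n c1 c2 h3 h4
    have hi := Sym2.map.injective h3
    obtain ⟨C, h5, h6⟩ := c1.elimination c2 (fun h => hne (image_injective.2 hi h))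
      (Sym2.map (ε n) e)
    rw [image_sdiff hi, image_union, image_singleton] at h4
    exact h6.not_indep (h4.subset h5)
  split := fun {V} _ F1 F2 hd ⟨C, h1, h2, h3⟩ => by
    obtain ⟨ε, hε⟩ := exists_emb k V
    have h4 := (DL_iff hN hε h2).1 ⟨C, subset_rfl, h2, h3⟩
    have h5 : ∀ᶠ n in hyperfilter ℕ, ¬(N n).Indep (Sym2.map (ε n) '' (C ∩ F1)) ∨
        ¬(N n).Indep (Sym2.map (ε n) '' (C ∩ F2)) := by
      filter_upwards [h4, hε] with n h4 h5
      obtain ⟨K, k1, k2⟩ := Matroid.Dep.exists_isCircuit_subset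
        (⟨h4, (hN n).1 ▸ h2.map h5.injOn⟩ : (N n).Dep _)
      obtain ⟨K', k3, rfl⟩ := subset_image_iff.1 k1
      have e : K' = K' ∩ F1 ∪ K' ∩ F2 := by
        rw [← inter_union_distrib_left, inter_eq_left.2 (k3.trans h1)]
      have k4 := k2
      rw [e, image_union] at k4
      rcases (hN n).2.2 _ _ k4 (by
        rintro _ ⟨a, ha, rfl⟩ _ ⟨b, hb, rfl⟩ x x1 x2
        obtain ⟨u, u1, rfl⟩ := Sym2.mem_map.1 x1
        obtain ⟨w, w1, w2⟩ := Sym2.mem_map.1 x2
        exact disjoint_left.1 hd ⟨a, ha.2, u1⟩ ⟨b, hb.2, h5 w2 ▸ w1⟩) with h | h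
      · rw [h, empty_union] at k4
        exact Or.inr fun h6 => k4.not_indep (h6.subset (image_mono (inter_subset_inter_left _ k3)))
      · rw [h, union_empty] at k4
        exact Or.inl fun h6 => k4.not_indep (h6.subset (image_mono (inter_subset_inter_left _ k3)))
    exact (Ultrafilter.eventually_or.1 h5).imp
      (fun h => DL_mono inter_subset_right ((DL_iff hN hε (h2.mono inter_subset_left)).2 h))
      fun h => DL_mono inter_subset_right ((DL_iff hN hε (h2.mono inter_subset_left)).2 h)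
  ex := hex

end Limit

lemma of_fits {α : Type} {M : Matroid α} (hM : M.E.Finite) {k : ℕ}
    (h : ∀ n, k < n → Fits M n) : InClass M := by
  by_cases hfree : M.Indep M.E
  · exact (uniform_iff M hM (r := M.E.ncard) (c := 0) rfl fun I hI =>
      iff_of_true (hfree.subset hI) (ncard_le_ncard hI hM)).2 (Or.inr (Or.inl rfl))
  choose N f hf hN hE hR using fun n : ℕ => h (n + k + 1) (by omega)
  choose g hg using fun n : ℕ => exists_squeeze (hM.image (f n)) (n := 2 * M.E.ncard + 1) (by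
    rw [(hf n).ncard_image]; omega)
  have := hM.to_subtype
  obtain ⟨h₀, h1⟩ := (Ultrafilter.eventually_exists_iff (f := hyperfilter ℕ)
    (P := fun (h₀ : M.E → Sym2 (Fin (2 * M.E.ncard + 1))) n =>
      ∀ x : M.E, Sym2.map (g n) (f n x) = h₀ x)).1 (Eventually.of_forall fun n => ⟨_, fun _ => rfl⟩)
  obtain ⟨n₀, h2⟩ := h1.exists
  set f₀ := Sym2.map (g n₀) ∘ f n₀ with hf₀
  have hi : InjOn f₀ M.E := (map_injOn (hg n₀) subset_rfl).comp (hf n₀) (mapsTo_image _ _)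
  have hnd : ND (f₀ '' M.E) := by
    rw [hf₀, image_comp]
    exact ND.map ((hE n₀).trans (hN n₀).1.le) (hg n₀)
  obtain ⟨ε, hε⟩ := exists_emb k (Fin (2 * M.E.ncard + 1))
  have key : ∀ I ⊆ M.E, (DL N (f₀ '' I) ↔ ¬M.Indep I) := fun I hI => by
    rw [DL_iff hN hε (hnd.mono (image_mono hI)),
      ← eventually_const (f := (hyperfilter ℕ : Filter ℕ)) (p := ¬M.Indep I)]
    refine eventually_congr ?_
    filter_upwards [h1, hε] with n h3 h4
    have e : Sym2.map (ε n) '' (f₀ '' I) = Sym2.map (ε n ∘ g n) '' (f n '' I) := by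
      rw [image_image, image_image]
      refine image_congr fun x hx => ?_
      rw [← Sym2.map_map, h3 ⟨x, hI hx⟩, ← h2 ⟨x, hI hx⟩]
      rfl
    have h5 : InjOn (ε n ∘ g n) (supp (f n '' I)) :=
      h4.comp_injOn ((hg n).mono (supp_mono (image_mono hI)))
    have e' : Sym2.map id '' (f n '' I) = f n '' I := by rw [Sym2.map_id, image_id]
    rw [e, ← Matroid.map_image_indep_iff (hf := hf n) hI, hR n, Matroid.restrict_indep_iff,
      and_iff_left (image_mono hI)]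
    exact not_congr ⟨fun h => e' ▸ inv (hN n) h5 (injOn_id _) h,
      fun h => inv (hN n) (injOn_id _) h5 (e'.symm ▸ h)⟩
  have eΓ : (SimpleGraph.fromEdgeSet (f₀ '' M.E)).edgeSet = f₀ '' M.E := by
    rw [SimpleGraph.edgeSet_fromEdgeSet]
    exact sdiff_eq_left.2 (disjoint_left.2 fun x h1 h2 => nd_iff.1 hnd x h1 h2)
  let S := sys hN ⟨_, inferInstance, SimpleGraph.fromEdgeSet (f₀ '' M.E), by
    rw [eΓ]; exact (key _ subset_rfl).2 hfree⟩
  refine ⟨S.fam, _, inferInstance, SimpleGraph.fromEdgeSet (f₀ '' M.E), f₀, hi, S.matroidal,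
    S.induces _ _ eΓ.symm fun I hI => ?_⟩
  rw [eΓ] at hI
  obtain ⟨I₀, h0, rfl⟩ := subset_image_iff.1 hI
  rw [Matroid.map_image_indep_iff h0]
  exact (not_iff_comm.1 (key I₀ h0).symm).symm

end CharP

theorem char (hg : GenStmt) : CharStmt := fun _ _ hM =>
  ⟨fun h _ hn => CharP.fits_of hg hM h hn, fun _ h => CharP.of_fits hM h⟩

end Pool.Agent.MP_1a6d08_co.Und

end MrgPart1

-- ======== part 2: formerly Pool.Agent.MP_1a6d08_co.und.Comp
section MrgPart2

/-!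
The conditions on a matroid in the reduction can be checked on codes.
-/

open Set

namespace Pool.Agent.MP_1a6d08_co.Und

namespace CompP

/-- The number of distinct members of `l` with the property `p`. -/
noncomputable def nc (l : List ℕ) (p : ℕ → Prop) : ℕ := {k | k ∈ l ∧ p k}.ncard

/-- The number of distinct members of `l`. -/
noncomputable def sz (l : List ℕ) : ℕ := {k | k ∈ l}.ncard

section Prim

variable {α β γ : Type} [Primcodable α] [Primcodable β] [Primcodable γ]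

lemma pid : Primrec fun a : α => a := Primrec.id

lemma pfst {f : α → β × γ} (hf : Primrec f) : Primrec fun a => (f a).1 := Primrec.fst.comp hf

lemma psnd {f : α → β × γ} (hf : Primrec f) : Primrec fun a => (f a).2 := Primrec.snd.comp hf

lemma padd {f g : α → ℕ} (hf : Primrec f) (hg : Primrec g) : Primrec fun a => f a + g a :=
  Primrec.nat_add.comp hf hg

lemma pmul {f g : α → ℕ} (hf : Primrec f) (hg : Primrec g) : Primrec fun a => f a * g a :=
  Primrec.nat_mul.comp hf hg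

lemma pmod {f g : α → ℕ} (hf : Primrec f) (hg : Primrec g) : Primrec fun a => f a % g a :=
  Primrec.nat_mod.comp hf hg

lemma ppair {f g : α → ℕ} (hf : Primrec f) (hg : Primrec g) :
    Primrec fun a => Nat.pair (f a) (g a) := Primrec₂.natPair.comp hf hg

lemma punpair {f : α → ℕ} (hf : Primrec f) : Primrec fun a => Nat.unpair (f a) :=
  Primrec.unpair.comp hf

lemma prange {f : α → ℕ} (hf : Primrec f) : Primrec fun a => List.range (f a) :=
  Primrec.list_range.comp hf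

lemma pcons {f : α → β} {g : α → List β} (hf : Primrec f) (hg : Primrec g) :
    Primrec fun a => f a :: g a := Primrec.list_cons.comp hf hg

lemma ple {f g : α → ℕ} (hf : Primrec f) (hg : Primrec g) : PrimrecPred fun a => f a ≤ g a :=
  Primrec.nat_le.comp hf hg

lemma plt {f g : α → ℕ} (hf : Primrec f) (hg : Primrec g) : PrimrecPred fun a => f a < g a :=
  Primrec.nat_lt.comp hf hg

lemma peq {f g : α → ℕ} (hf : Primrec f) (hg : Primrec g) : PrimrecPred fun a => f a = g a :=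
  Primrec.eq.comp hf hg

lemma pall {f : α → List β} {p : α → β → Prop} (hf : Primrec f)
    (hp : PrimrecPred fun x : α × β => p x.1 x.2) : PrimrecPred fun a => ∀ b ∈ f a, p a b :=
  (PrimrecRel.swap (r := p) hp).forall_mem_list.comp hf Primrec.id

lemma pex {f : α → List β} {p : α → β → Prop} (hf : Primrec f)
    (hp : PrimrecPred fun x : α × β => p x.1 x.2) : PrimrecPred fun a => ∃ b ∈ f a, p a b :=
  (PrimrecRel.swap (r := p) hp).exists_mem_list.comp hf Primrec.id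

lemma pmem {f : α → ℕ} {g : α → List ℕ} (hf : Primrec f) (hg : Primrec g) :
    PrimrecPred fun a => f a ∈ g a :=
  (pex (p := fun a b => b = f a) hg (peq Primrec.snd (hf.comp Primrec.fst))).of_eq fun a => by simp

lemma pimp {p q : α → Prop} (hp : PrimrecPred p) (hq : PrimrecPred q) :
    PrimrecPred fun a => p a → q a := (hp.not.or hq).of_eq fun _ => imp_iff_not_or.symm

lemma psum : Primrec fun l : List ℕ => l.sum :=
  (Primrec.list_foldr (f := fun l : List ℕ => l) (g := fun _ => 0) (h := fun _ x => x.1 + x.2)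
    Primrec.id (Primrec.const 0) (padd (pfst Primrec.snd) (psnd Primrec.snd))).of_eq fun l => rfl

open Classical in
lemma nc_eq (l : List ℕ) (p : ℕ → Prop) :
    nc l p = ((List.range (l.sum + 1)).filter fun k => k ∈ l ∧ p k).length := by
  rw [← List.toFinset_card_of_nodup (List.nodup_range.filter _), ← ncard_coe_finset, nc]
  congr 1
  ext k
  simp only [mem_ofPred_eq, List.coe_toFinset, List.mem_filter, List.mem_range, decide_eq_true_eq]
  exact ⟨fun h => ⟨Nat.lt_succ_of_le (List.single_le_sum (fun _ _ => Nat.zero_le _) _ h.1), h⟩,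
    fun h => h.2⟩

lemma pnc {f : α → List ℕ} {p : α → ℕ → Prop} (hf : Primrec f)
    (hp : PrimrecPred fun x : α × ℕ => p x.1 x.2) : Primrec fun a => nc (f a) (p a) := by
  classical
  have h1 : PrimrecRel fun (k : ℕ) (a : α) => k ∈ f a ∧ p a k :=
    (pmem Primrec.fst (hf.comp Primrec.snd)).and (PrimrecRel.swap (r := p) hp)
  refine (Primrec.list_length.comp (h1.listFilter.comp
    (prange (padd (psum.comp hf) (Primrec.const 1))) Primrec.id)).of_eq fun a => ?_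
  rw [nc_eq]
  congr

lemma psz {f : α → List ℕ} (hf : Primrec f) : Primrec fun a => sz (f a) :=
  (pnc (p := fun _ k => k = k) hf (peq Primrec.snd Primrec.snd)).of_eq fun a => by simp [nc, sz]

end Prim

/-- Some listed set contains `l`. -/
def In (C : List (List ℕ)) (l : List ℕ) : Prop := ∃ m ∈ C, ∀ x ∈ l, x ∈ m

/-- The matroid laws on a code. -/
def Ax (g : List ℕ) (C : List (List ℕ)) : Prop :=
  (∀ l ∈ C, ∀ k ∈ l, k ∈ g) ∧ In C [] ∧
  (∀ l ∈ C, ∀ k ∈ l, ∃ m ∈ C, (∀ x ∈ m, x ∈ l ∧ ¬x = k) ∧ ∀ x ∈ l, x = k ∨ x ∈ m) ∧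
  ∀ l ∈ C, ∀ m ∈ C, sz l < sz m → ∃ k ∈ m, ¬k ∈ l ∧ In C (k :: l)

/-- The other conditions on a code. -/
def Rest (Ld Li : List (List ℕ)) (N : ℕ) (U g : List ℕ) (C : List (List ℕ)) : Prop :=
  500 ≤ N ∧ (∀ k ∈ g, k.unpair.1 < k.unpair.2 ∧ k.unpair.2 < N) ∧
  (∀ y ∈ List.range N, ∀ x ∈ List.range y, Nat.pair x y ∈ g) ∧ (∀ l ∈ C, sz l ≤ 4 * N) ∧
  (∀ l ∈ C, ∀ k ∈ g,
    (nc l (fun j => j.unpair.1 = k.unpair.1 ∨ j.unpair.2 = k.unpair.1) ≤ 3 ∨
      nc l (fun j => j.unpair.1 = k.unpair.2 ∨ j.unpair.2 = k.unpair.2) ≤ 3 ∨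
      (sz l ≤ 63 ∧ ∀ j ∈ k :: l, (j.unpair.1 + j.unpair.2) % 2 = 1)) → In C (k :: l)) ∧
  (∀ l ∈ Ld, (∀ k ∈ l, k ∈ g) ∧ ¬In C l) ∧ (∀ l ∈ Li, In C l) ∧ In C U

lemma prim (Ld Li : List (List ℕ)) : PrimrecPred fun x : ℕ × List ℕ × List ℕ × List (List ℕ) =>
    Ax x.2.2.1 x.2.2.2 ∧ Rest Ld Li x.1 x.2.1 x.2.2.1 x.2.2.2 := by
  unfold Ax Rest In
  repeat' with_reducible first
    | exact pid
    | exact Primrec.const _
    | apply pfst
    | apply psnd
    | apply padd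
    | apply pmul
    | apply pmod
    | apply ppair
    | apply punpair
    | apply prange
    | apply pcons
    | apply pnc
    | apply psz
    | apply PrimrecPred.and
    | apply PrimrecPred.or
    | apply PrimrecPred.not
    | apply pall
    | apply pex
    | apply pimp
    | apply ple
    | apply plt
    | apply peq
    | apply pmem

variable {g : List ℕ} {C : List (List ℕ)} {M : Matroid ℕ}

lemma in_iff (h : Codes (g, C) M) (l : List ℕ) : In C l ↔ M.Indep {x | x ∈ l} := by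
  constructor
  · rintro ⟨m, hm, hl⟩
    exact ((h.2 _).2 ⟨m, hm, rfl⟩).subset hl
  · intro hl
    obtain ⟨m, hm, e⟩ := (h.2 _).1 hl
    exact ⟨m, hm, fun x hx => (Set.ext_iff.1 e x).1 hx⟩

lemma cons_eq (k : ℕ) (l : List ℕ) : {x | x ∈ k :: l} = insert k {x | x ∈ l} := by
  ext x
  simp

lemma exists_codes (h : M.E.Finite) : ∃ g C, Codes (g, C) M := by
  classical
  refine ⟨h.toFinset.toList, h.toFinset.toList.sublists.filter fun l => M.Indep {x | x ∈ l},
    by ext x; simp, fun I => ⟨fun hI => ?_, ?_⟩⟩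
  · have e : I = {x | x ∈ h.toFinset.toList.filter fun x => x ∈ I} := by
      ext x
      simpa using fun hx => hI.subset_ground hx
    exact ⟨_, List.mem_filter.2 ⟨List.mem_sublists.2 List.filter_sublist,
      decide_eq_true (e ▸ hI)⟩, e⟩
  · rintro ⟨l, hl, rfl⟩
    simpa using (List.mem_filter.1 hl).2

lemma ax_of_codes (h : Codes (g, C) M) : Ax g C := by
  have hi : ∀ l ∈ C, M.Indep {x | x ∈ l} := fun l hl => (h.2 _).2 ⟨l, hl, rfl⟩
  refine ⟨fun l hl k hk => ?_, (in_iff h _).2 (by simp), fun l hl k hk => ?_,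
    fun l hl m hm hlt => ?_⟩
  · exact (Set.ext_iff.1 h.1 k).1 ((hi l hl).subset_ground hk)
  · obtain ⟨m, hm, e⟩ := (h.2 _).1 ((hi l hl).subset (sdiff_subset (t := {k})))
    refine ⟨m, hm, fun x hx => (Set.ext_iff.1 e x).2 hx, fun x hx => ?_⟩
    by_cases hxk : x = k
    · exact Or.inl hxk
    · exact Or.inr ((Set.ext_iff.1 e x).1 ⟨hx, hxk⟩)
  · obtain ⟨k, hk, hI⟩ := (hi l hl).augment (hi m hm) (by
      rw [← l.finite_toSet.cast_ncard_eq, ← m.finite_toSet.cast_ncard_eq]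
      exact Nat.cast_lt.2 hlt)
    exact ⟨k, hk.1, hk.2, (in_iff h _).2 (cons_eq k l ▸ hI)⟩

lemma codes_of_ax (h : Ax g C) : ∃ M, Codes (g, C) M := by
  obtain ⟨h1, h2, h3, h4⟩ := h
  have hd : ∀ D : Set ℕ, D.Finite → ∀ l ∈ C, ∃ m ∈ C, {x | x ∈ l} \ D = {x | x ∈ m} := by
    intro D hD
    induction D, hD using Set.Finite.induction_on with
    | empty => exact fun l hl => ⟨l, hl, sdiff_empty⟩
    | @insert a D _ _ ih =>
      intro l hl
      obtain ⟨m, hm, e⟩ := ih l hl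
      rw [insert_eq, union_comm, ← Set.sdiff_sdiff, e]
      by_cases ha : a ∈ m
      · obtain ⟨m', hm', e1, e2⟩ := h3 m hm a ha
        exact ⟨m', hm', Set.ext fun x => ⟨fun hx => (e2 x hx.1).resolve_left hx.2, e1 x⟩⟩
      · exact ⟨m, hm, sdiff_singleton_eq_self ha⟩
  have hs : ∀ l ∈ C, ∀ I ⊆ {x | x ∈ l}, ∃ m ∈ C, I = {x | x ∈ m} := fun l hl I hI => by
    have := hd ({x | x ∈ l} \ I) (l.finite_toSet.subset sdiff_subset) l hl
    rwa [Set.sdiff_sdiff_cancel_left hI] at this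
  refine ⟨(IndepMatroid.ofFinite (E := {x | x ∈ g}) g.finite_toSet
    (fun I => ∃ l ∈ C, I = {x | x ∈ l}) ?_ ?_ ?_ ?_).matroid, rfl, fun I => Iff.rfl⟩
  · obtain ⟨m, hm, -⟩ := h2
    exact hs m hm _ (empty_subset _)
  · rintro I _ ⟨l, hl, rfl⟩ hI
    exact hs l hl I hI
  · rintro _ _ ⟨l, hl, rfl⟩ ⟨m, hm, rfl⟩ hlt
    obtain ⟨k, hk, hkl, n, hn, hs'⟩ := h4 l hl m hm hlt
    exact ⟨k, hk, hkl, hs n hn _ (cons_eq k l ▸ hs')⟩
  · rintro _ ⟨l, hl, rfl⟩
    exact h1 l hl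

lemma ec_unpair {k : ℕ} (h : k.unpair.1 < k.unpair.2) : ec s(k.unpair.1, k.unpair.2) = k := by
  rw [ec_mk, min_eq_left h.le, max_eq_right h.le, Nat.pair_unpair]

lemma mem_ecEN {N k : ℕ} : k ∈ ec '' EN N ↔ k.unpair.1 < k.unpair.2 ∧ k.unpair.2 < N := by
  constructor
  · rintro ⟨e, he, rfl⟩
    induction e using Sym2.ind with
    | _ x y =>
      have := mk_mem_EN.1 he
      simp only [ec_mk, Nat.unpair_pair]
      omega
  · exact fun h => ⟨_, mk_mem_EN.2 ⟨h.1.ne, h.1.trans h.2, h.2⟩, ec_unpair h.1⟩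

lemma mem_iff_ec (e : Sym2 ℕ) (x : ℕ) : x ∈ e ↔ (ec e).unpair.1 = x ∨ (ec e).unpair.2 = x := by
  induction e using Sym2.ind with
  | _ a b =>
    simp only [ec_mk, Nat.unpair_pair, Sym2.mem_iff]
    omega

lemma dg_eq {X : Set (Sym2 ℕ)} {l : List ℕ} (h : ec '' X = {x | x ∈ l}) (x : ℕ) :
    nc l (fun j => j.unpair.1 = x ∨ j.unpair.2 = x) = dg X x := by
  rw [dg, ← ncard_image_of_injective _ ec_inj, nc]
  congr 1
  ext k
  constructor
  · rintro ⟨hk, hx⟩
    obtain ⟨e, he, rfl⟩ := (Set.ext_iff.1 h k).2 hk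
    exact ⟨e, ⟨he, (mem_iff_ec e x).2 hx⟩, rfl⟩
  · rintro ⟨e, ⟨he, hx⟩, rfl⟩
    exact ⟨(Set.ext_iff.1 h _).1 ⟨e, he, rfl⟩, (mem_iff_ec e x).1 hx⟩

lemma sz_eq {X : Set (Sym2 ℕ)} {l : List ℕ} (h : ec '' X = {x | x ∈ l}) : sz l = X.ncard := by
  rw [sz, ← h, ncard_image_of_injective _ ec_inj]

lemma eo_iff (X : Set (Sym2 ℕ)) : EO X ↔ ∀ j ∈ ec '' X, (j.unpair.1 + j.unpair.2) % 2 = 1 := by
  rw [forall_mem_image]
  refine forall_congr' fun e => imp_congr_right fun _ => ?_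
  constructor
  · rintro ⟨x, y, rfl, hx, hy⟩
    rw [Nat.even_iff] at hx
    rw [Nat.odd_iff] at hy
    simp only [ec_mk, Nat.unpair_pair]
    omega
  · induction e using Sym2.ind with
    | _ a b =>
      simp only [ec_mk, Nat.unpair_pair]
      intro h
      rcases Nat.even_or_odd a with ha | ha
      · exact ⟨a, b, rfl, ha, by rw [Nat.even_iff] at ha; rw [Nat.odd_iff]; omega⟩
      · exact ⟨b, a, Sym2.eq_swap, by rw [Nat.odd_iff] at ha; rw [Nat.even_iff]; omega, ha⟩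

variable {Ld Li : List (List ℕ)} {N : ℕ} {U : List ℕ}

lemma rest_of_sem (h : Codes (g, C) M) (hs : Sem Ld Li N U M) : Rest Ld Li N U g C := by
  have hg : ∀ k, k ∈ g ↔ k.unpair.1 < k.unpair.2 ∧ k.unpair.2 < N := fun k => by
    rw [← mem_ecEN, ← hs.gr, h.1]; rfl
  have hX : ∀ l ∈ C, ∃ X ⊆ EN N, ec '' X = {x | x ∈ l} ∧ M.Indep (ec '' X) := fun l hl => by
    have hi : M.Indep {x | x ∈ l} := (h.2 _).2 ⟨l, hl, rfl⟩
    obtain ⟨X, h1, h2⟩ := subset_image_iff.1 (hs.gr ▸ hi.subset_ground)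
    exact ⟨X, h1, h2, h2 ▸ hi⟩
  refine ⟨hs.big, fun k hk => (hg k).1 hk, fun y hy x hx => (hg _).2 ?_, fun l hl => ?_,
    fun l hl k hk hc => ?_, fun l hl => ⟨fun k hk => ?_, ?_⟩,
    fun l hl => (in_iff h _).2 (hs.ind l hl), (in_iff h _).2 hs.tgt⟩
  · simpa using ⟨List.mem_range.1 hx, List.mem_range.1 hy⟩
  · obtain ⟨X, h1, h2, h3⟩ := hX l hl
    exact sz_eq h2 ▸ hs.rules.up X h1 h3
  · obtain ⟨X, h1, h2, h3⟩ := hX l hl
    obtain ⟨k1, k2⟩ := (hg k).1 hk
    have hk' : s(k.unpair.1, k.unpair.2) ∈ EN N := mk_mem_EN.2 ⟨k1.ne, k1.trans k2, k2⟩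
    have e : {x | x ∈ k :: l} = ec '' insert s(k.unpair.1, k.unpair.2) X := by
      rw [image_insert_eq, ec_unpair k1, h2, cons_eq]
    rw [in_iff h, e]
    rw [dg_eq h2, dg_eq h2, sz_eq h2] at hc
    rcases hc with hc | hc | hc
    · exact hs.rules.ext X h1 h3 _ _ hk' hc
    · rw [Sym2.eq_swap] at hk' ⊢
      exact hs.rules.ext X h1 h3 _ _ hk' hc
    · exact hs.rules.bip _ (insert_subset hk' h1) ((ncard_insert_le _ _).trans (by omega))
        ((eo_iff _).2 fun j hj => hc.2 j ((Set.ext_iff.1 e j).2 hj))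
  · exact (Set.ext_iff.1 h.1 k).1 ((hs.dep l hl).1 hk)
  · rw [in_iff h]
    exact (hs.dep l hl).2

lemma sem_of_rest (h : Codes (g, C) M) (hr : Rest Ld Li N U g C) : Sem Ld Li N U M := by
  obtain ⟨h1, h2, h3, h4, h5, h6, h7, h8⟩ := hr
  have hE : M.E = ec '' EN N := by
    rw [h.1]
    ext k
    rw [mem_ecEN]
    refine ⟨h2 k, fun hk => ?_⟩
    have := h3 _ (List.mem_range.2 hk.2) _ (List.mem_range.2 hk.1)
    rwa [Nat.pair_unpair] at this
  have hg : ∀ e ∈ EN N, ec e ∈ g := fun e he =>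
    (Set.ext_iff.1 h.1 _).1 (hE ▸ mem_image_of_mem _ he)
  refine ⟨h1, hE, ⟨fun X _ hI => ?_, fun X _ hI x y he hd => ?_, fun X hX => ?_⟩,
    fun l hl => ⟨fun k hk => (Set.ext_iff.1 h.1 k).2 ((h6 l hl).1 k hk), ?_⟩,
    fun l hl => (in_iff h _).1 (h7 l hl), (in_iff h _).1 h8⟩
  · obtain ⟨l, hl, e⟩ := (h.2 _).1 hI
    exact sz_eq e ▸ h4 l hl
  · obtain ⟨l, hl, e⟩ := (h.2 _).1 hI
    have := h5 l hl _ (hg _ he) (by
      rw [dg_eq e, dg_eq e]
      rcases (mem_iff_ec s(x, y) x).1 (by simp) with hx | hx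
      · exact Or.inl (hx.symm ▸ hd)
      · exact Or.inr (Or.inl (hx.symm ▸ hd)))
    rwa [in_iff h, cons_eq, ← e, ← image_insert_eq] at this
  · have hf := (EN_finite N).subset hX
    induction X, hf using Set.Finite.induction_on with
    | empty => intro _ _; simp
    | @insert a X ha hf ih =>
      intro hc ho
      rw [ncard_insert_of_notMem ha hf] at hc
      obtain ⟨l, hl, e⟩ := (h.2 _).1 (ih ((subset_insert _ _).trans hX) (by omega)
        fun e he => ho e (mem_insert_of_mem _ he))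
      have e' : {x | x ∈ ec a :: l} = ec '' insert a X := by rw [cons_eq, ← e, image_insert_eq]
      have := h5 l hl _ (hg _ (hX (mem_insert _ _))) (Or.inr (Or.inr ⟨by rw [sz_eq e]; omega,
        fun j hj => (eo_iff _).1 ho j ((Set.ext_iff.1 e' j).1 hj)⟩))
      rwa [in_iff h, e'] at this
  · rw [← in_iff h]
    exact (h6 l hl).2

end CompP

open CompP in
theorem comp : CompStmt := by
  intro Ld Li
  refine ⟨_, prim Ld Li, fun N U c hc => ?_, fun N U M hs => ?_⟩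
  · obtain ⟨M, hM⟩ := codes_of_ax hc.1
    exact ⟨M, hM, sem_of_rest hM hc.2⟩
  · obtain ⟨g, C, h⟩ := exists_codes (M := M) (hs.gr ▸ (EN_finite N).image ec)
    exact ⟨(g, C), h, ax_of_codes h, rest_of_sem h hs⟩

end Pool.Agent.MP_1a6d08_co.Und

end MrgPart2

-- ======== part 3: formerly Pool.Agent.MP_1a6d08_co.und.Dep
section MrgPart3

/-!
Dependence in the model is an invariant notion of dependence.
-/

open Set

namespace Pool.Agent.MP_1a6d08_co.Und

namespace DepP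

variable {V V' G : Type} [Group G] {g : ℕ → G}

lemma cov_mono {J : Set (Set V)} {D : Set (Bk V)} {X Y : Set (Sym2 V)} (h : Cov J D X)
    (hY : Y ⊆ X) : Cov J D Y := fun e he => h e (hY he)

lemma whole (hs : StrStmt) {C : Set (Sym2 V)} {J : Set (Set V)} {D : Set (Bk V)} (hn : Near C)
    (hc : C.ncard = 4 * (supp C).ncard) (h1 : Str J D) (h2 : Cov J D C) {b : Bk V} (hb : b ∈ D)
    (hx : (b.W ∩ supp C).Nonempty) : b.E ⊆ C := by
  have a1 := hs.wh V C J D hn h1 h2 b hb hx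
  have a2 : (b.E \ C).ncard = 0 := by omega
  rw [ncard_eq_zero ((h1.blk b hb).1.finE.subset sdiff_subset)] at a2
  exact sdiff_eq_empty.1 a2

lemma shrink (hs : StrStmt) {C : Set (Sym2 V)} {J : Set (Set V)} {D : Set (Bk V)} {π : V → G}
    (hf : C.Finite) (hn : ND C) (hne : C.Nonempty) (hc : Circ C) (h1 : Str J D) (h2 : Cov J D C)
    (h3 : Pot g J D π) : Bal g C := by
  have hN := hc.near hf hn hne
  have sb : ∀ b ∈ D, b.E ⊆ C → b.W ∪ b.A ∪ b.B ⊆ supp C := fun b hb h =>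
    (h1.blk b hb).1.supp_eq ▸ supp_mono h
  refine ⟨{A | A ∈ J ∧ A ⊆ supp C}, {b | b ∈ D ∧ b.E ⊆ C}, π,
    ⟨fun A hA => h1.cJ A hA.1, fun A hA A' hA' => h1.dJ A hA.1 A' hA'.1, fun b hb => ?_,
      fun b hb A hA => h1.dW b hb.1 A hA.1, fun b hb b' hb' => h1.dD b hb.1 b' hb'.1⟩,
    fun e he => ?_, ⟨fun A hA => h3.1 A hA.1, fun b hb => h3.2 b hb.1⟩, fun A hA => hA.2,
    fun b hb => (subset_union_left.trans subset_union_left).trans (sb b hb.1 hb.2)⟩
  · exact ⟨(h1.blk b hb.1).1, ⟨(h1.blk b hb.1).2.1,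
      (subset_union_right.trans subset_union_left).trans (sb b hb.1 hb.2)⟩,
      (h1.blk b hb.1).2.2, subset_union_right.trans (sb b hb.1 hb.2)⟩
  · rcases h2 e he with ⟨A, hA, hx⟩ | ⟨b, hb, hx⟩
    · refine Or.inl ⟨A, ⟨hA, ?_⟩, hx⟩
      rcases hs.jd V C J D hN h1 h2 A hA
        ⟨e.out.1, hx _ (Sym2.out_fst_mem e), e, he, Sym2.out_fst_mem e⟩ with ⟨b, hb, h4, h5⟩ | h4
      · have h6 := sb b hb (whole hs hN hc.1 h1 h2 hb h5)
        rcases h4 with h4 | h4
        · exact h4 ▸ (subset_union_right.trans subset_union_left).trans h6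
        · exact h4 ▸ subset_union_right.trans h6
      · exact h4.ge
    · obtain ⟨x, x1, x2⟩ := (h1.blk b hb).1.meet e hx
      exact Or.inr ⟨b, ⟨hb, whole hs hN hc.1 h1 h2 hb ⟨x, x2, e, he, x1⟩⟩, hx⟩

lemma cover (hs : StrStmt) {F : Set (Sym2 V)} {J : Set (Set V)} {D : Set (Bk V)} {π : V → G}
    (hf : F.Finite) (hn : ND F) (hne : F.Nonempty) (hb : 4 * (supp F).ncard ≤ F.ncard)
    (h1 : Str J D) (h2 : Cov J D F) (h3 : Pot g J D π) : Dep g F := by
  obtain ⟨C, c1, c2⟩ := MP_1a6d08_co.exists_min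
    (D := fun C : Set (Sym2 V) => C.Nonempty ∧ 4 * (supp C).ncard ≤ C.ncard) hf ⟨hne, hb⟩
  refine ⟨C, c1, hf.subset c1, hn.mono c1, c2.1.1, ?_⟩
  rcases c2.1.2.lt_or_eq with h | h
  · exact Or.inl h
  · have hc : Circ C := ⟨h.symm, fun T t1 t2 t3 => not_le.1 fun t4 =>
      t3 (t1.antisymm (c2.2 ⟨t2, t4⟩ t1))⟩
    exact Or.inr ⟨hc, shrink hs (hf.subset c1) (hn.mono c1) c2.1.1 hc h1 (cov_mono h2 c1) h3⟩

lemma supp_card {f : V → V'} {S : Set V} (hf : InjOn f S) {T : Set (Sym2 V)} (h : supp T ⊆ S) :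
    (supp (Sym2.map f '' T)).ncard = (supp T).ncard := by
  rw [supp_map, (hf.mono h).ncard_image]

lemma bal_map (hm : BlkMapStmt) {f : V → V'} {C : Set (Sym2 V)} (hf : InjOn f (supp C))
    (hne : C.Nonempty) (h : Bal g C) : Bal g (Sym2.map f '' C) := by
  obtain ⟨J, D, π, h1, h2, h3, h4, h5⟩ := h
  have : Nonempty V := ⟨hne.some.out.1⟩
  have hi : ∀ x ∈ supp C, Function.invFunOn f (supp C) (f x) = x := fun x hx =>
    hf.leftInvOn_invFunOn hx
  refine ⟨(fun A => f '' A) '' J, Bk.map f '' D, fun y => π (Function.invFunOn f (supp C) y),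
    ⟨?_, ?_, ?_, ?_, ?_⟩, ?_, ⟨?_, ?_⟩, ?_, ?_⟩
  · rintro _ ⟨A, hA, rfl⟩
    rw [(hf.mono (h4 A hA)).ncard_image, h1.cJ A hA]
  · rintro _ ⟨A, hA, rfl⟩ _ ⟨A', hA', rfl⟩ hne
    exact (h1.dJ A hA A' hA' fun e => hne (by rw [e])).image hf (h4 A hA) (h4 A' hA')
  · rintro _ ⟨b, hb, rfl⟩
    obtain ⟨b1, b2, b3⟩ := h1.blk b hb
    exact ⟨hm V V' f b b1 (hf.mono (union_subset (union_subset (h5 b hb) (h4 _ b2)) (h4 _ b3))),
      ⟨_, b2, rfl⟩, ⟨_, b3, rfl⟩⟩
  · rintro _ ⟨b, hb, rfl⟩ _ ⟨A, hA, rfl⟩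
    exact (h1.dW b hb A hA).image hf (h5 b hb) (h4 A hA)
  · rintro _ ⟨b, hb, rfl⟩ _ ⟨b', hb', rfl⟩ hne
    exact (h1.dD b hb b' hb' fun e => hne (by rw [e])).image hf (h5 b hb) (h5 b' hb')
  · rintro _ ⟨e, he, rfl⟩
    rcases h2 e he with ⟨A, hA, hx⟩ | ⟨b, hb, hx⟩
    · refine Or.inl ⟨_, ⟨A, hA, rfl⟩, fun y hy => ?_⟩
      obtain ⟨x, x1, rfl⟩ := Sym2.mem_map.1 hy
      exact ⟨x, hx x x1, rfl⟩
    · exact Or.inr ⟨_, ⟨b, hb, rfl⟩, e, hx, rfl⟩
  · rintro _ ⟨A, hA, rfl⟩ _ ⟨x, hx, rfl⟩ _ ⟨y, hy, rfl⟩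
    show π _ = π _
    rw [hi x (h4 A hA hx), hi y (h4 A hA hy)]
    exact h3.1 A hA x hx y hy
  · rintro _ ⟨b, hb, rfl⟩
    obtain ⟨-, b2, b3⟩ := h1.blk b hb
    constructor
    · rintro _ ⟨x, hx, rfl⟩ _ ⟨y, hy, rfl⟩
      show π _ = π _
      rw [hi x (h5 b hb hx), hi y (h4 _ b2 hy)]
      exact (h3.2 b hb).1 x hx y hy
    · rintro _ ⟨x, hx, rfl⟩ _ ⟨y, hy, rfl⟩
      show π _ = π _ * g b.s
      rw [hi x (h4 _ b2 hx), hi y (h4 _ b3 hy)]
      exact (h3.2 b hb).2 x hx y hy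
  · rintro _ ⟨A, hA, rfl⟩
    rw [supp_map]
    exact image_mono (h4 A hA)
  · rintro _ ⟨b, hb, rfl⟩
    rw [supp_map]
    exact image_mono (h5 b hb)

lemma dep_map (hm : BlkMapStmt) {f : V → V'} {F : Set (Sym2 V)} (hf : InjOn f (supp F))
    (h : Dep g F) : Dep g (Sym2.map f '' F) := by
  obtain ⟨C, c1, c2, c3, c4, c5⟩ := h
  have hf' := hf.mono (supp_mono c1)
  refine ⟨_, image_mono c1, c2.image _, c3.map hf', c4.image _, ?_⟩
  rw [supp_card hf' subset_rfl, ncard_map_on hf' subset_rfl]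
  refine c5.imp id fun c => ⟨⟨?_, fun T t1 t2 t3 => ?_⟩, bal_map hm hf' c4 c.2⟩
  · rw [supp_card hf' subset_rfl, ncard_map_on hf' subset_rfl, c.1.1]
  · obtain ⟨T', t4, rfl⟩ := subset_image_iff.1 t1
    rw [supp_card hf' (supp_mono t4), ncard_map_on hf' (supp_mono t4)]
    exact c.1.2 T' t4 (image_nonempty.1 t2) fun e => t3 (by rw [e])

lemma dep_of_map (hm : BlkMapStmt) {f : V → V'} {F : Set (Sym2 V)} (hf : InjOn f (supp F))
    (h : Dep g (Sym2.map f '' F)) : Dep g F := by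
  have hne : F.Nonempty := by
    obtain ⟨C, c1, -, -, c4, -⟩ := h
    exact image_nonempty.1 (c4.mono c1)
  have : Nonempty V := ⟨hne.some.out.1⟩
  have h1 := dep_map hm (f := Function.invFunOn f (supp F))
    (by rw [supp_map]; exact Function.invFunOn_injOn_image f _) h
  rwa [image_image, image_congr (g := id) (fun e he => ?_), image_id] at h1
  induction e using Sym2.ind with
  | _ a b =>
    show s(_, _) = s(a, b)
    rw [hf.leftInvOn_invFunOn ⟨_, he, by simp⟩, hf.leftInvOn_invFunOn ⟨_, he, by simp⟩]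

lemma pot_congr {J : Set (Set V)} {D : Set (Bk V)} {π π' : V → G} {S : Set V} {h : G}
    (h1 : Str J D) (h3 : Pot g J D π) (h4 : ∀ A ∈ J, A ⊆ S) (h5 : ∀ b ∈ D, b.W ⊆ S)
    (e : ∀ z ∈ S, π' z = h * π z) : Pot g J D π' := by
  refine ⟨fun A hA x hx y hy => ?_, fun b hb => ⟨fun x hx y hy => ?_, fun x hx y hy => ?_⟩⟩
  · rw [e x (h4 A hA hx), e y (h4 A hA hy), h3.1 A hA x hx y hy]
  · rw [e x (h5 b hb hx), e y (h4 _ (h1.blk b hb).2.1 hy), (h3.2 b hb).1 x hx y hy]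
  · rw [e x (h4 _ (h1.blk b hb).2.1 hx), e y (h4 _ (h1.blk b hb).2.2 hy),
      (h3.2 b hb).2 x hx y hy, mul_assoc]

/-- Two potentials differ by a constant on a common block. -/
lemma blk_const {J J' : Set (Set V)} {D D' : Set (Bk V)} {π π' : V → G} (h1 : Str J D)
    (h1' : Str J' D') (h3 : Pot g J D π) (h3' : Pot g J' D' π') {b : Bk V} (hb : b ∈ D)
    (hb' : b ∈ D') : ∃ c, ∀ z ∈ b.W ∪ b.A ∪ b.B, π z * (π' z)⁻¹ = c := by
  obtain ⟨a, ha⟩ : b.A.Nonempty :=
    nonempty_of_ncard_ne_zero (by rw [(h1.blk b hb).1.cA]; omega)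
  refine ⟨π a * (π' a)⁻¹, ?_⟩
  rintro z ((hz | hz) | hz)
  · rw [(h3.2 b hb).1 z hz a ha, (h3'.2 b hb').1 z hz a ha]
  · rw [h3.1 _ (h1.blk b hb).2.1 z hz a ha, h3'.1 _ (h1'.blk b hb').2.1 z hz a ha]
  · rw [(h3.2 b hb).2 a ha z hz, (h3'.2 b hb').2 a ha z hz, mul_inv_rev, mul_assoc,
      mul_inv_cancel_left]

lemma glue (hs : StrStmt) {C1 C2 : Set (Sym2 V)} (b1 : Bal g C1) (b2 : Bal g C2)
    (hT : Near (C1 ∩ C2)) (hS : supp C1 ∩ supp C2 ⊆ supp (C1 ∩ C2)) :
    ∃ J D π, Str J D ∧ Cov J D (C1 ∪ C2) ∧ Pot g J D π := by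
  classical
  obtain ⟨J, D, π, h1, h2, h3, h4, h5⟩ := b1
  obtain ⟨J', D', π', h1', h2', h3', h4', h5'⟩ := b2
  have c := cov_mono h2 (inter_subset_left (t := C2))
  have c' := cov_mono h2' (inter_subset_right (s := C1))
  have r := hs.rec2 V _ J D J' D' hT h1 c h1' c'
  have r' := hs.rec2 V _ J' D' J D hT h1' c' h1 c
  have jj : ∀ A ∈ J, ∀ A' ∈ J', A ≠ A' → Disjoint A A' := by
    intro A hA A' hA' hne
    refine disjoint_left.2 fun x x1 x2 => ?_
    have x3 := hS ⟨h4 A hA x1, h4' A' hA' x2⟩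
    rcases hs.jd V _ J D hT h1 c A hA ⟨x, x1, x3⟩ with ⟨b, hb, e, hx⟩ | e
    · have := h1'.blk b (r b hb hx)
      have hA2 : A ∈ J' := e.elim (fun e => e ▸ this.2.1) fun e => e ▸ this.2.2
      exact disjoint_left.1 (h1'.dJ A hA2 A' hA' hne) x1 x2
    rcases hs.jd V _ J' D' hT h1' c' A' hA' ⟨x, x2, x3⟩ with ⟨b, hb, e', hx⟩ | e'
    · have := h1.blk b (r' b hb hx)
      have hA2 : A' ∈ J := e'.elim (fun e => e ▸ this.2.1) fun e => e ▸ this.2.2
      exact disjoint_left.1 (h1.dJ A hA A' hA2 hne) x1 x2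
    · exact hne (e.symm.trans e')
  have dd : ∀ b ∈ D, ∀ b' ∈ D', b ≠ b' → Disjoint b.W b'.W := fun b hb b' hb' hne =>
    disjoint_left.2 fun x x1 x2 => disjoint_left.1
      (h1'.dD b (r b hb ⟨x, x1, hS ⟨h5 b hb x1, h5' b' hb' x2⟩⟩) b' hb' hne) x1 x2
  have ed : ∀ e ∈ C1 ∩ C2, ∀ x ∈ e, ∀ y ∈ e, π x * (π' x)⁻¹ = π y * (π' y)⁻¹ := by
    intro e he x hx y hy
    have bb : ∀ b ∈ D, b ∈ D' → e ∈ b.E → π x * (π' x)⁻¹ = π y * (π' y)⁻¹ := by
      intro b hb hb' hE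
      obtain ⟨k, hk⟩ := blk_const h1 h1' h3 h3' hb hb'
      rw [hk x ((h1.blk b hb).1.sub ⟨e, hE, hx⟩), hk y ((h1.blk b hb).1.sub ⟨e, hE, hy⟩)]
    rcases c e he with ⟨A, hA, a⟩ | ⟨b, hb, hE⟩
    · rcases c' e he with ⟨A', hA', a'⟩ | ⟨b, hb, hE⟩
      · rw [h3.1 A hA x (a x hx) y (a y hy), h3'.1 A' hA' x (a' x hx) y (a' y hy)]
      · obtain ⟨z, z1, z2⟩ := (h1'.blk b hb).1.meet e hE
        exact bb b (r' b hb ⟨z, z2, e, he, z1⟩) hb hE
    · obtain ⟨z, z1, z2⟩ := (h1.blk b hb).1.meet e hE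
      exact bb b hb (r b hb ⟨z, z2, e, he, z1⟩) hE
  obtain ⟨e0, he0⟩ := hT.ne
  obtain ⟨h, hh⟩ : ∃ h, h = π e0.out.1 * (π' e0.out.1)⁻¹ := ⟨_, rfl⟩
  have cst : ∀ z ∈ supp (C1 ∩ C2), π z * (π' z)⁻¹ = h := by
    rcases hs.split V _ {e | e ∈ C1 ∩ C2 ∧ ∀ z ∈ e, π z * (π' z)⁻¹ = h}
      {e | e ∈ C1 ∩ C2 ∧ ∀ z ∈ e, π z * (π' z)⁻¹ ≠ h} hT
      (subset_antisymm (fun e he => by
        by_cases k : π e.out.1 * (π' e.out.1)⁻¹ = h
        · exact Or.inl ⟨he, fun z hz => (ed e he z hz _ (Sym2.out_fst_mem e)).trans k⟩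
        · exact Or.inr ⟨he, fun z hz k' => k ((ed e he _ (Sym2.out_fst_mem e) z hz).trans k')⟩)
        (union_subset (fun _ h => h.1) fun _ h => h.1))
      (disjoint_left.2 fun z ⟨y, hy, z1⟩ ⟨y', hy', z2⟩ => hy'.2 z z2 (hy.2 z z1)) with k | k
    · exact absurd k (Set.Nonempty.ne_empty
        ⟨e0, he0, fun z hz => (ed e0 he0 z hz _ (Sym2.out_fst_mem e0)).trans hh.symm⟩)
    · rintro z ⟨e, he, hz⟩
      by_contra k'
      exact absurd k
        (Set.Nonempty.ne_empty ⟨e, he, fun y hy k2 => k' ((ed e he z hz y hy).trans k2)⟩)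
  have p1 : Pot g J D fun z => if z ∈ supp C1 then π z else h * π' z :=
    pot_congr (h := 1) h1 h3 h4 h5 fun z hz => by rw [if_pos hz, one_mul]
  have p2 : Pot g J' D' fun z => if z ∈ supp C1 then π z else h * π' z :=
    pot_congr (h := h) h1' h3' h4' h5' fun z hz => by
      split_ifs with k
      · rw [← cst z (hS ⟨k, hz⟩), inv_mul_cancel_right]
      · rfl
  refine ⟨J ∪ J', D ∪ D', fun z => if z ∈ supp C1 then π z else h * π' z,
    ⟨fun A hA => hA.elim (h1.cJ A) (h1'.cJ A), ?_, ?_, ?_, ?_⟩, ?_,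
    fun A hA => hA.elim (p1.1 A) (p2.1 A), fun b hb => hb.elim (p1.2 b) (p2.2 b)⟩
  · rintro A (hA | hA) A' (hA' | hA') hne
    · exact h1.dJ A hA A' hA' hne
    · exact jj A hA A' hA' hne
    · exact (jj A' hA' A hA hne.symm).symm
    · exact h1'.dJ A hA A' hA' hne
  · rintro b (hb | hb)
    · exact ⟨(h1.blk b hb).1, Or.inl (h1.blk b hb).2.1, Or.inl (h1.blk b hb).2.2⟩
    · exact ⟨(h1'.blk b hb).1, Or.inr (h1'.blk b hb).2.1, Or.inr (h1'.blk b hb).2.2⟩
  · rintro b (hb | hb) A (hA | hA)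
    · exact h1.dW b hb A hA
    · exact disjoint_left.2 fun x x1 x2 => disjoint_left.1
        (h1'.dW b (r b hb ⟨x, x1, hS ⟨h5 b hb x1, h4' A hA x2⟩⟩) A hA) x1 x2
    · exact disjoint_left.2 fun x x1 x2 => disjoint_left.1
        (h1.dW b (r' b hb ⟨x, x1, hS ⟨h4 A hA x2, h5' b hb x1⟩⟩) A hA) x1 x2
    · exact h1'.dW b hb A hA
  · rintro b (hb | hb) b' (hb' | hb') hne
    · exact h1.dD b hb b' hb' hne
    · exact dd b hb b' hb' hne
    · exact (dd b' hb' b hb hne.symm).symm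
    · exact h1'.dD b hb b' hb' hne
  · rintro e (he | he)
    · exact (h2 e he).imp (fun ⟨A, hA, a⟩ => ⟨A, Or.inl hA, a⟩) fun ⟨b, hb, a⟩ => ⟨b, Or.inl hb, a⟩
    · exact (h2' e he).imp (fun ⟨A, hA, a⟩ => ⟨A, Or.inr hA, a⟩)
        fun ⟨b, hb, a⟩ => ⟨b, Or.inr hb, a⟩

lemma elim (hs : StrStmt) {F1 F2 : Set (Sym2 V)} {e : Sym2 V} (m1 : Minimal (Dep g) F1)
    (m2 : Minimal (Dep g) F2) (hne : F1 ≠ F2) (e1 : e ∈ F1) (e2 : e ∈ F2) :
    Dep g ((F1 ∪ F2) \ {e}) := by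
  obtain ⟨f1, n1, -, o1⟩ := min_dep m1
  obtain ⟨f2, n2, -, o2⟩ := min_dep m2
  have t1 : F1 ∩ F2 ≠ F1 := fun h => by
    have k : F1 ⊆ F2 := h ▸ inter_subset_right
    exact hne (k.antisymm (m2.2 m1.1 k))
  have t2 : F1 ∩ F2 ≠ F2 := fun h => by
    have k : F2 ⊆ F1 := h ▸ inter_subset_left
    exact hne ((m1.2 m2.1 k).antisymm k)
  have tn : (F1 ∩ F2).Nonempty := ⟨e, e1, e2⟩
  have tf : (F1 ∩ F2).Finite := f1.subset inter_subset_left
  have tle : (F1 ∩ F2).ncard ≤ 4 * (supp (F1 ∩ F2)).ncard := not_lt.1 fun h =>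
    t1 (inter_subset_left.antisymm (m1.2
      ⟨_, subset_rfl, tf, n1.mono inter_subset_left, tn, Or.inl h⟩ inter_subset_left))
  have s1 := supp_finite f1
  have s2 := supp_finite f2
  have sT : supp (F1 ∩ F2) ⊆ supp F1 ∩ supp F2 :=
    subset_inter (supp_mono inter_subset_left) (supp_mono inter_subset_right)
  have a1 := ncard_le_ncard sT (s1.subset inter_subset_left)
  have a2 := ncard_union_add_ncard_inter F1 F2 f1 f2
  have a3 := ncard_union_add_ncard_inter (supp F1) (supp F2) s1 s2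
  have a4 := ncard_sdiff_singleton_add_one (s := F1 ∪ F2) (Or.inl e1) (f1.union f2)
  have a5 : (supp ((F1 ∪ F2) \ {e})).ncard ≤ (supp F1 ∪ supp F2).ncard :=
    ncard_le_ncard ((supp_mono sdiff_subset).trans (supp_union F1 F2).le) (s1.union s2)
  have uf : ((F1 ∪ F2) \ {e}).Finite := (f1.union f2).subset sdiff_subset
  have un : ND ((F1 ∪ F2) \ {e}) := (n1.union n2).mono sdiff_subset
  have ue : ((F1 ∪ F2) \ {e}).Nonempty := nonempty_iff_ne_empty.2 fun h0 => hne (by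
    rw [sdiff_eq_empty, union_subset_iff] at h0
    exact ((h0.1.antisymm (singleton_subset_iff.2 e1)).trans
      (h0.2.antisymm (singleton_subset_iff.2 e2)).symm))
  have ov : 4 * (supp ((F1 ∪ F2) \ {e})).ncard < ((F1 ∪ F2) \ {e}).ncard →
      Dep g ((F1 ∪ F2) \ {e}) := fun h => ⟨_, subset_rfl, uf, un, ue, Or.inl h⟩
  rcases o1 with o1 | ⟨c1, b1⟩ <;> rcases o2 with o2 | ⟨c2, b2⟩
  · exact ov (by omega)
  · have := c2.2 _ inter_subset_right tn t2
    have := c2.1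
    exact ov (by omega)
  · have := c1.2 _ inter_subset_left tn t1
    have := c1.1
    exact ov (by omega)
  have k1 := c1.2 _ inter_subset_left tn t1
  have k2 := c1.1
  have k3 := c2.1
  by_cases k4 : (F1 ∩ F2).ncard + 2 ≤ 4 * (supp F1 ∩ supp F2).ncard
  · exact ov (by omega)
  have hS : supp (F1 ∩ F2) = supp F1 ∩ supp F2 :=
    eq_of_subset_of_ncard_le sT (by omega) (s1.subset inter_subset_left)
  have hT : Near (F1 ∩ F2) := ⟨tf, n1.mono inter_subset_left, tn, fun T u1 u2 _ =>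
    c1.2 T (u1.trans inter_subset_left) u2 fun u4 =>
      t1 (inter_subset_left.antisymm (u4 ▸ u1)), by omega⟩
  obtain ⟨J, D, π, h1, h2, h3⟩ := glue hs b1 b2 hT hS.ge
  exact cover hs uf un ue (by omega) h1 (cov_mono h2 sdiff_subset) h3

lemma split (hs : StrStmt) {F1 F2 : Set (Sym2 V)} (hd : Disjoint (supp F1) (supp F2))
    (h : Dep g (F1 ∪ F2)) : Dep g F1 ∨ Dep g F2 := by
  obtain ⟨C, c1, c2, c3, c4, c5⟩ := h
  have e : C = C ∩ F1 ∪ C ∩ F2 := by rw [← inter_union_distrib_left, inter_eq_left.2 c1]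
  have hd' : Disjoint (supp (C ∩ F1)) (supp (C ∩ F2)) :=
    hd.mono (supp_mono inter_subset_right) (supp_mono inter_subset_right)
  by_cases k1 : C ∩ F1 = ∅
  · rw [k1, empty_union] at e
    exact Or.inr ⟨C, e ▸ inter_subset_right, c2, c3, c4, c5⟩
  by_cases k2 : C ∩ F2 = ∅
  · rw [k2, union_empty] at e
    exact Or.inl ⟨C, e ▸ inter_subset_right, c2, c3, c4, c5⟩
  rcases c5 with c5 | c5
  · have f1 : (C ∩ F1).Finite := c2.subset inter_subset_left
    have f2 : (C ∩ F2).Finite := c2.subset inter_subset_left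
    have a1 : C.ncard ≤ (C ∩ F1).ncard + (C ∩ F2).ncard := by
      nth_rewrite 1 [e]
      exact ncard_union_le _ _
    have a2 : (supp C).ncard = (supp (C ∩ F1)).ncard + (supp (C ∩ F2)).ncard := by
      nth_rewrite 1 [e]
      rw [supp_union, ncard_union_eq hd' (supp_finite f1) (supp_finite f2)]
    by_cases k3 : 4 * (supp (C ∩ F1)).ncard < (C ∩ F1).ncard
    · exact Or.inl ⟨_, inter_subset_right, f1, c3.mono inter_subset_left,
        nonempty_iff_ne_empty.2 k1, Or.inl k3⟩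
    · exact Or.inr ⟨_, inter_subset_right, f2, c3.mono inter_subset_left,
        nonempty_iff_ne_empty.2 k2, Or.inl (by omega)⟩
  · exact absurd (hs.split V C _ _ (c5.1.near c2 c3 c4) e hd') (not_or.2 ⟨k1, k2⟩)

lemma ex : Dep g (⊤ : SimpleGraph (Fin 10)).edgeSet := by
  refine ⟨_, subset_rfl, toFinite _, subset_rfl, ⟨s(0, 1), by simp⟩, Or.inl ?_⟩
  have b1 : (supp (⊤ : SimpleGraph (Fin 10)).edgeSet).ncard ≤ 10 := by
    simpa using ncard_le_ncard (subset_univ (supp (⊤ : SimpleGraph (Fin 10)).edgeSet))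
  have b2 : (⊤ : SimpleGraph (Fin 10)).edgeSet.ncard = 45 := by
    rw [← SimpleGraph.coe_edgeFinset, ncard_coe_finset,
      SimpleGraph.card_edgeFinset_top_eq_card_choose_two, Fintype.card_fin]
    rfl
  omega

/-- The dependence system of the model. -/
def sys (hm : BlkMapStmt) (hs : StrStmt) (g : ℕ → G) : DepSys where
  D := fun F => Dep g F
  mono := fun _ _ h h' => h'.mono h
  empty := fun _ ⟨_, c1, _, _, c4, _⟩ => c4.ne_empty (subset_empty_iff.1 c1)
  map := fun φ _ => ⟨dep_of_map hm φ.injective.injOn, dep_map hm φ.injective.injOn⟩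
  elim := fun _ _ _ => elim hs
  split := fun _ _ => split hs
  ex := ⟨Fin 10, inferInstance, ⊤, ex⟩

end DepP

open DepP

theorem dep (hm : BlkMapStmt) (hs : StrStmt) : DepStmt where
  cover := fun _ _ _ _ _ _ _ _ => DepP.cover hs
  link := by
    intro G _ g
    refine ⟨(sys hm hs g).fam, (sys hm hs g).matroidal, fun V F => and_congr_right fun hn => ?_⟩
    constructor
    · rintro h ⟨C, c1, c2, c3, c4⟩
      obtain ⟨C0, e⟩ := exists_pull (F := C) subset_rfl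
      have := (supp_finite c2).to_subtype
      have d0 : Dep g C0 := dep_of_map hm Subtype.val_injective.injOn
        (e.symm ▸ (⟨C, subset_rfl, c2, c3, c4⟩ : Dep g C))
      obtain ⟨C1, d1, d2⟩ := d0.exists_min
      obtain ⟨p, hp, φ, e1⟩ := ((sys hm hs g).cp_iff ⊤ (min_dep d2).2.1).2 d2
      refine h (Sym2.map Subtype.val '' C1) ((image_mono d1).trans (e.le.trans c1))
        ⟨p, hp, φ.trans (Function.Embedding.subtype _), ?_⟩
      rw [e1, image_image]
      exact image_congr fun x _ => Sym2.map_map x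
    · rintro h C c1 ⟨p, hp, φ, rfl⟩
      exact h ((dep_map hm φ.injective.injOn hp.2.1).mono c1)

end Pool.Agent.MP_1a6d08_co.Und

end MrgPart3

-- ======== part 4: formerly Pool.Agent.MP_1a6d08_co.und.Net
section MrgPart4

/-!
Dependence of directed cycles and of pairs of parallel paths.
-/

open Set

namespace Pool.Agent.MP_1a6d08_co.Und

namespace NetP

variable {T : ℕ → Set (Sym2 (ℕ × ℕ))} {G : Type} [Group G] {g : ℕ → G}

/-- The steps of a path together with their tail slots. -/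
def ar : ℕ → List Cell → List (ℕ × Cell)
  | _, [] => []
  | a, x :: l => (a, x) :: ar x.2.1 l

/-- The block of an arc. -/
def ab (T : ℕ → Set (Sym2 (ℕ × ℕ))) (y : ℕ × Cell) : Bk V0 := bk T y.2.1 y.1 y.2.2.1 y.2.2.2

/-- The edges of a network. -/
def NE (T : ℕ → Set (Sym2 (ℕ × ℕ))) (J : List ℕ) (N : List (ℕ × Cell)) : Set (Sym2 V0) :=
  {e | (∃ j ∈ J, e ∈ jE j) ∨ ∃ y ∈ N, e ∈ (ab T y).E}

/-- The vertices of a network. -/
def NV (J : List ℕ) (N : List (ℕ × Cell)) : Set V0 :=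
  {x | (∃ j ∈ J, x ∈ jS j) ∨ ∃ y ∈ N, x ∈ wS y.2.1 y.2.2.2}

/-- The ends of every arc are different slots of `J`. -/
def Ends (J : List ℕ) (N : List (ℕ × Cell)) : Prop :=
  ∀ y ∈ N, y.1 ∈ J ∧ y.2.2.1 ∈ J ∧ y.1 ≠ y.2.2.1

lemma PE_eq (a : ℕ) (l : List Cell) : PE T a l = NE T (js l) (ar a l) := by
  induction l generalizing a with
  | nil => ext e; simp [PE, NE, js, ar]
  | cons x l ih =>
    rw [PE_cons, ih]
    ext e
    simp only [NE, js, ar, List.map_cons, List.mem_cons, exists_eq_or_imp, mem_union,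
      mem_ofPred_eq, ab, bk, or_assoc]
    exact or_left_comm.trans (or_congr_right or_left_comm)

lemma ar_cs (a : ℕ) (l : List Cell) : (ar a l).map (fun y => y.2.2.2) = cs l := by
  induction l generalizing a with
  | nil => rfl
  | cons x l ih => rw [ar, List.map_cons, ih]; rfl

lemma ar_len (a : ℕ) (l : List Cell) : (ar a l).length = l.length := by
  have := congrArg List.length (ar_cs a l)
  simpa [cs] using this

lemma ar_split {a : ℕ} {l : List Cell} {y : ℕ × Cell} (h : y ∈ ar a l) :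
    ∃ l₁ l₂, l = l₁ ++ y.2 :: l₂ ∧ y.1 = en a l₁ := by
  induction l generalizing a with
  | nil => cases h
  | cons x l ih =>
    rcases List.mem_cons.1 h with rfl | h
    · exact ⟨[], l, rfl, rfl⟩
    · obtain ⟨l₁, l₂, h1, h2⟩ := ih h
      exact ⟨x :: l₁, l₂, by rw [h1]; rfl, h2⟩

lemma ar_head (a : ℕ) {l : List Cell} {j : ℕ} (h : j ∈ js l) : ∃ y ∈ ar a l, y.2.2.1 = j := by
  induction l generalizing a with
  | nil => cases h
  | cons x l ih =>
    rcases List.mem_cons.1 h with rfl | h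
    · exact ⟨(a, x), List.mem_cons_self, rfl⟩
    · obtain ⟨y, h1, h2⟩ := ih x.2.1 h
      exact ⟨y, List.mem_cons_of_mem _ h1, h2⟩

lemma ar_ends {a : ℕ} {l : List Cell} (h : (a :: js l).Nodup) : Ends (a :: js l) (ar a l) := by
  induction l generalizing a with
  | nil => intro y hy; cases hy
  | cons x l ih =>
    intro y hy
    obtain ⟨h1, h2⟩ := List.nodup_cons.1 h
    rcases List.mem_cons.1 hy with rfl | hy
    · exact ⟨List.mem_cons_self, List.mem_cons_of_mem _ List.mem_cons_self,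
        fun e => h1 (List.mem_cons.2 (Or.inl e))⟩
    · obtain ⟨a1, a2, a3⟩ := ih h2 y hy
      exact ⟨List.mem_cons_of_mem _ a1, List.mem_cons_of_mem _ a2, a3⟩

lemma pot (g : ℕ → G) (l : List Cell) (a : ℕ) (u : G) (h : (a :: js l).Nodup) :
    ∃ p : ℕ → G, p a = u ∧ ∀ y ∈ ar a l, p y.2.2.1 = p y.1 * g y.2.1 := by
  induction l generalizing a u with
  | nil => exact ⟨fun _ => u, rfl, fun y hy => by cases hy⟩
  | cons x l ih =>
    obtain ⟨h1, h2⟩ := List.nodup_cons.1 h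
    obtain ⟨p, hp, hq⟩ := ih x.2.1 (u * g x.1) h2
    have key : ∀ j ∈ x.2.1 :: js l, Function.update p a u j = p j := fun j hj =>
      Function.update_of_ne (fun e : j = a => h1 (e ▸ hj)) _ _
    refine ⟨Function.update p a u, Function.update_self _ _ _, fun y hy => ?_⟩
    rcases List.mem_cons.1 hy with rfl | hy
    · rw [key _ List.mem_cons_self, Function.update_self, hp]
    · obtain ⟨a1, a2, -⟩ := ar_ends h2 y hy
      rw [key _ a1, key _ a2, hq y hy]

lemma pot_en {p : ℕ → G} {l : List Cell} {a : ℕ}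
    (h : ∀ y ∈ ar a l, p y.2.2.1 = p y.1 * g y.2.1) :
    p (en a l) = p a * ((wd l).map g).prod := by
  induction l generalizing a with
  | nil => simp [en, wd]
  | cons x l ih =>
    have h1 : p x.2.1 = p a * g x.1 := h (a, x) List.mem_cons_self
    rw [en, ih fun y hy => h y (List.mem_cons_of_mem _ hy), h1, mul_assoc]
    rfl

lemma ex_mem (e : Sym2 V0) : ∃ x, x ∈ e := ⟨e.out.1, Sym2.out_fst_mem e⟩

lemma cnt0 (hp : PlaceStmt) {J : List ℕ} (hJ : J.Nodup) :
    (NE T J []).Finite ∧ supp (NE T J []) = NV J [] ∧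
      (NE T J []).ncard + J.length = 4 * (NV J []).ncard := by
  induction J with
  | nil =>
    have e1 : NE T [] [] = ∅ := by ext e; simp [NE]
    have e2 : NV [] [] = ∅ := by ext e; simp [NV]
    rw [e1, e2, supp_empty]
    simp
  | cons j J ih =>
    obtain ⟨h1, h2⟩ := List.nodup_cons.1 hJ
    obtain ⟨a1, a2, a3⟩ := ih h2
    have e1 : NE T (j :: J) [] = jE j ∪ NE T J [] := by ext e; simp [NE]
    have e2 : NV (j :: J) [] = jS j ∪ NV J [] := by ext e; simp [NV]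
    have f1 : (jE j).Finite := finite_of_ncard_ne_zero (by rw [hp.jcard]; omega)
    have f2 : (jS j).Finite := finite_of_ncard_ne_zero (by rw [hp.scard]; omega)
    have d2 : Disjoint (jS j) (NV J []) := by
      refine disjoint_left.2 fun x hx hx' => ?_
      rcases hx' with ⟨j', h3, h4⟩ | ⟨y, h3, -⟩
      · exact disjoint_left.1 (disj_jS (fun e : j = j' => h1 (e ▸ h3))) hx h4
      · cases h3
    have d1 : Disjoint (jE j) (NE T J []) := by
      refine disjoint_left.2 fun e he he' => ?_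
      obtain ⟨x, hx⟩ := ex_mem e
      exact disjoint_left.1 d2 (hp.jsupp j ▸ mem_supp he hx) (a2 ▸ mem_supp he' hx)
    rw [e1, e2, supp_union, hp.jsupp, a2, ncard_union_eq d1 f1 a1,
      ncard_union_eq d2 f2 (a2 ▸ supp_finite a1), hp.jcard, hp.scard, List.length_cons]
    exact ⟨f1.union a1, rfl, by omega⟩

lemma cnt (hp : PlaceStmt) (hT : Tpl T) {J : List ℕ} (hJ : J.Nodup) {N : List (ℕ × Cell)}
    (hN : (N.map fun y => y.2.2.2).Nodup) (hE : Ends J N) :
    (NE T J N).Finite ∧ supp (NE T J N) = NV J N ∧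
      (NE T J N).ncard + J.length = 4 * (NV J N).ncard + N.length := by
  induction N with
  | nil => exact cnt0 hp hJ
  | cons y N ih =>
    obtain ⟨h1, h2⟩ := List.nodup_cons.1 hN
    obtain ⟨a1, a2, a3⟩ := ih h2 fun z hz => hE z (List.mem_cons_of_mem _ hz)
    obtain ⟨b1, b2, b3⟩ := hE y List.mem_cons_self
    have hb : Blk (ab T y) := hp.blk T hT _ _ _ _ b3
    have e1 : NE T J (y :: N) = (ab T y).E ∪ NE T J N := by
      ext e
      simp only [NE, List.mem_cons, exists_eq_or_imp, mem_union, mem_ofPred_eq]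
      exact or_left_comm
    have e2 : NV J (y :: N) = (ab T y).W ∪ NV J N := by
      ext e
      simp only [NV, List.mem_cons, exists_eq_or_imp, mem_union, mem_ofPred_eq, ab, bk]
      exact or_left_comm
    have d2 : Disjoint (ab T y).W (NV J N) := by
      refine disjoint_left.2 fun x hx hx' => ?_
      rcases hx' with ⟨j', -, h4⟩ | ⟨z, h3, h4⟩
      · exact disjoint_left.1 (disj_jS_wS _ _ _) h4 hx
      · exact disjoint_left.1 (disj_wS (fun e : y.2.2.2 = z.2.2.2 =>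
          h1 (List.mem_map.2 ⟨z, h3, e.symm⟩)) _ _) hx h4
    have d1 : Disjoint (ab T y).E (NE T J N) := by
      refine disjoint_left.2 fun e he he' => ?_
      obtain ⟨x, hx, hx'⟩ := hb.meet e he
      exact disjoint_left.1 d2 hx' (a2 ▸ mem_supp he' hx)
    rw [e1, e2, supp_union, hb.supp_eq, a2, ncard_union_eq d1 hb.finE a1,
      ncard_union_eq d2 hb.finW (a2 ▸ supp_finite a1), hb.cE, hb.cW, List.length_cons]
    refine ⟨hb.finE.union a1, ?_, by omega⟩
    rw [union_assoc, union_assoc, ← union_assoc (ab T y).A]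
    congr 1
    exact union_eq_right.2 (union_subset (fun x hx => Or.inl ⟨_, b1, hx⟩)
      fun x hx => Or.inl ⟨_, b2, hx⟩)

lemma strN (hp : PlaceStmt) (hT : Tpl T) {J : List ℕ} {N : List (ℕ × Cell)}
    (hN : (N.map fun y => y.2.2.2).Nodup) (hE : Ends J N) :
    Str {A | ∃ j ∈ J, A = jS j} {b | ∃ y ∈ N, b = ab T y} ∧
      Cov {A | ∃ j ∈ J, A = jS j} {b | ∃ y ∈ N, b = ab T y} (NE T J N) := by
  refine ⟨⟨?_, ?_, ?_, ?_, ?_⟩, ?_⟩
  · rintro _ ⟨j, -, rfl⟩
    exact hp.scard j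
  · rintro _ ⟨j, -, rfl⟩ _ ⟨j', -, rfl⟩ h
    exact disj_jS fun e => h (by rw [e])
  · rintro _ ⟨y, hy, rfl⟩
    obtain ⟨b1, b2, b3⟩ := hE y hy
    exact ⟨hp.blk T hT _ _ _ _ b3, ⟨_, b1, rfl⟩, _, b2, rfl⟩
  · rintro _ ⟨y, -, rfl⟩ _ ⟨j, -, rfl⟩
    exact (disj_jS_wS _ _ _).symm
  · rintro _ ⟨y, hy, rfl⟩ _ ⟨z, hz, rfl⟩ h
    exact disj_wS (fun e => h (by rw [List.inj_on_of_nodup_map hN hy hz e])) _ _
  · rintro e (⟨j, hj, he⟩ | ⟨y, hy, he⟩)
    · exact Or.inl ⟨_, ⟨j, hj, rfl⟩, fun x hx => hp.jsupp j ▸ mem_supp he hx⟩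
    · exact Or.inr ⟨_, ⟨y, hy, rfl⟩, he⟩

lemma depN (hp : PlaceStmt) (hd : DepStmt) (hT : Tpl T) {J : List ℕ} (hJ : J.Nodup)
    {N : List (ℕ × Cell)} (hN : (N.map fun y => y.2.2.2).Nodup) (hE : Ends J N) (h0 : J ≠ [])
    (hl : J.length ≤ N.length) {p : ℕ → G} (hq : ∀ y ∈ N, p y.2.2.1 = p y.1 * g y.2.1) :
    Dep g (NE T J N) := by
  classical
  obtain ⟨a1, a2, a3⟩ := cnt hp hT hJ hN hE
  obtain ⟨s1, s2⟩ := strN hp hT hN hE
  obtain ⟨q, hq'⟩ : ∃ q : ℕ → G, ∀ y ∈ N, q y.2.2.2 = p y.1 := by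
    refine ⟨fun c => if h : ∃ y ∈ N, y.2.2.2 = c then p h.choose.1 else 1, fun y hy => ?_⟩
    have h : ∃ z ∈ N, z.2.2.2 = y.2.2.2 := ⟨y, hy, rfl⟩
    simp only [dif_pos h]
    rw [List.inj_on_of_nodup_map hN h.choose_spec.1 hy h.choose_spec.2]
  refine hd.cover G g V0 _ _ _ (Sum.elim (fun t => p t.1) fun t => q t.1) a1 ?_ ?_
    (by rw [a2]; omega) s1 s2 ⟨?_, ?_⟩
  · rintro e (⟨j, -, he⟩ | ⟨y, hy, he⟩)
    · exact hp.jnd j he
    · exact (s1.blk _ ⟨y, hy, rfl⟩).1.nd he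
  · obtain ⟨j, hj⟩ := List.exists_mem_of_ne_nil J h0
    obtain ⟨e, he⟩ := nonempty_of_ncard_ne_zero (s := jE j) (by rw [hp.jcard]; omega)
    exact ⟨e, Or.inl ⟨j, hj, he⟩⟩
  · rintro _ ⟨j, -, rfl⟩ _ ⟨i, -, rfl⟩ _ ⟨i', -, rfl⟩
    rfl
  · rintro _ ⟨y, hy, rfl⟩
    constructor
    · rintro _ ⟨i, -, rfl⟩ _ ⟨i', -, rfl⟩
      exact hq' y hy
    · rintro _ ⟨i, -, rfl⟩ _ ⟨i', -, rfl⟩
      exact hq y hy

/-- The vertex lies in none of the new slots of the path. -/
def Fr (l : List Cell) : V0 → Prop := Sum.elim (fun t => t.1 ∉ js l) fun t => t.1 ∉ cs l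

lemma path (hp : PlaceStmt) (ha : AvStmt) (hT : Tpl T) (l : List Cell) (a : ℕ)
    (Y : Set (Sym2 V0)) (hY : ¬Dep g Y) (h1 : (a :: js l).Nodup) (h2 : (cs l).Nodup)
    (h3 : ∀ x ∈ supp Y, Fr l x) : ¬Dep g (Y ∪ PE T a l) := by
  induction l generalizing a Y with
  | nil => rwa [PE_nil, union_empty]
  | cons x l ih =>
    obtain ⟨a1, a2⟩ := List.nodup_cons.1 h1
    obtain ⟨b1, b2⟩ := List.nodup_cons.1 h2
    have hb := hp.blk T hT x.1 a x.2.1 x.2.2 fun e => a1 (List.mem_cons.2 (Or.inl e))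
    have := ha.pend G g V0 Y (jE x.2.1) _ hb hY (disjoint_left.2 ?_) (hp.jsupp _).subset
      (hp.jcard _).le
    · rw [PE_cons, ← union_assoc, ← union_assoc]
      refine ih x.2.1 _ this a2 b2 fun v hv => ?_
      rw [supp_union, supp_union, show supp (bE T x.1 a x.2.1 x.2.2) = _ from hb.supp_eq,
        hp.jsupp] at hv
      rcases hv with (hv | (⟨i, -, rfl⟩ | ⟨i, -, rfl⟩) | ⟨i, -, rfl⟩) | ⟨i, -, rfl⟩
      · have := h3 v hv
        rcases v with v | v <;> exact fun h => this (List.mem_cons_of_mem _ h)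
      · exact b1
      · exact fun h => a1 (List.mem_cons_of_mem _ h)
      · exact (List.nodup_cons.1 a2).1
      · exact (List.nodup_cons.1 a2).1
    · rintro v hv (⟨i, -, rfl⟩ | ⟨i, -, rfl⟩) <;> exact h3 _ hv List.mem_cons_self

lemma cyc_ends {a : ℕ} {l : List Cell} (h : IsCyc a l) : Ends (js l) (ar a l) := by
  obtain ⟨h1, -, h3, h4⟩ := h
  rcases l with _ | ⟨x, l⟩
  · simp at h4
  intro y hy
  rcases List.mem_cons.1 hy with rfl | hy
  · have : a ∈ js l := h3 ▸ en_mem' x.2.1 (by rintro rfl; simp at h4)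
    exact ⟨List.mem_cons_of_mem _ this, List.mem_cons_self,
      fun e : a = x.2.1 => (List.nodup_cons.1 h1).1 (show x.2.1 ∈ js l from e ▸ this)⟩
  · exact ar_ends h1 y hy

lemma cyc_dep (hp : PlaceStmt) (hd : DepStmt) (hT : Tpl T) {a : ℕ} {l : List Cell}
    (h : IsCyc a l) (h1 : ((wd l).map g).prod = 1) : Dep g (PE T a l) := by
  have hE := cyc_ends h
  obtain ⟨a1, a2, a3, a4⟩ := h
  rcases l with _ | ⟨x, l⟩
  · simp at a4
  obtain ⟨p, hp1, hq⟩ := pot g l x.2.1 (g x.1) a1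
  rw [PE_eq]
  refine depN hp hd hT a1 (by rwa [ar_cs]) hE (List.cons_ne_nil _ _) (by rw [ar_len]; simp [js])
    (p := p) fun y hy => ?_
  rcases List.mem_cons.1 hy with rfl | hy
  · have := pot_en hq
    rw [show en x.2.1 l = a from a3, hp1, show g x.1 * ((wd l).map g).prod = 1 from h1] at this
    rw [hp1, this, one_mul]
  · exact hq y hy

lemma cyc_one (hp : PlaceStmt) (hs : StrStmt) (ha : AvStmt) (hT : Tpl T) {a : ℕ} {l : List Cell}
    (h : IsCyc a l) (h1 : Dep g (PE T a l)) : ((wd l).map g).prod = 1 := by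
  have hE := cyc_ends h
  obtain ⟨a1, a2, a3, -⟩ := h
  have hN : ((ar a l).map fun y => y.2.2.2).Nodup := by rwa [ar_cs]
  obtain ⟨C, hC, hm⟩ := h1.exists_min
  have hC' : C ⊆ NE T (js l) (ar a l) := PE_eq a l ▸ hC
  obtain ⟨c1, c2, c3⟩ := cnt hp hT a1 hN hE
  obtain ⟨s1, s2⟩ := strN hp hT hN hE
  have blk : ∀ y ∈ ar a l, Blk (ab T y) := fun y hy => (s1.blk _ ⟨y, hy, rfl⟩).1
  have all : ∀ y ∈ ar a l, (ab T y).E ⊆ C := by
    intro y hy
    refine ha.whole G g V0 C _ (blk y hy) hm ?_ ?_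
    · rintro e he ⟨x, hx, hx'⟩
      rcases hC' he with ⟨j, -, h⟩ | ⟨z, hz, h⟩
      · exact (disjoint_left.1 (disj_jS_wS _ _ _) (hp.jsupp j ▸ mem_supp h hx) hx').elim
      · rcases (blk z hz).sub (mem_supp h hx) with (h' | h') | h'
        · by_cases hc : y.2.2.2 = z.2.2.2
          · rwa [List.inj_on_of_nodup_map hN hy hz hc]
          · exact (disjoint_left.1 (disj_wS hc _ _) hx' h').elim
        · exact (disjoint_left.1 (disj_jS_wS _ _ _) h' hx').elim
        · exact (disjoint_left.1 (disj_jS_wS _ _ _) h' hx').elim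
    · by_contra hn
      obtain ⟨l₁, l₂, rfl, h2⟩ := ar_split hy
      have pm : (l₁ ++ y.2 :: l₂).Perm (y.2 :: (l₂ ++ l₁)) :=
        List.perm_middle.trans (List.perm_append_comm.cons _)
      have n1 : (y.2.2.1 :: js (l₂ ++ l₁)).Nodup := (pm.map _).nodup_iff.1 a1
      have n2 : (y.2.2.2 :: cs (l₂ ++ l₁)).Nodup := (pm.map _).nodup_iff.1 a2
      refine path hp ha hT (l₂ ++ l₁) y.2.2.1 (jE y.2.2.1) (ha.joint G g V0 _ _ (hp.scard _)
        (hp.jsupp _).subset (hp.jcard _).le) n1 (List.nodup_cons.1 n2).2 ?_ (hm.1.mono fun e he => ?_)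
      · rw [hp.jsupp]
        rintro _ ⟨i, -, rfl⟩
        exact (List.nodup_cons.1 n1).1
      · have h3 := hC he
        rw [en_append] at a3
        rw [PE_append, PE_cons, ← h2] at h3
        rw [PE_append, show en y.2.2.1 l₂ = a from a3]
        rcases h3 with h3 | (h3 | h3) | h3
        · exact Or.inr (Or.inr h3)
        · exact (hn ⟨e, he, h3⟩).elim
        · exact Or.inl h3
        · exact Or.inr (Or.inl h3)
  have sb : ∀ y ∈ ar a l, (ab T y).W ∪ (ab T y).A ∪ (ab T y).B ⊆ supp C := fun y hy =>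
    (blk y hy).supp_eq ▸ supp_mono (all y hy)
  have e1 : supp C = NV (js l) (ar a l) := by
    refine (c2 ▸ supp_mono hC').antisymm ?_
    rintro x (⟨j, hj, hx⟩ | ⟨y, hy, hx⟩)
    · obtain ⟨y, hy, rfl⟩ := ar_head a hj
      exact sb y hy (Or.inr hx)
    · exact sb y hy (Or.inl (Or.inl hx))
  obtain ⟨m1, m2, m3, m4⟩ := min_dep hm
  have le := ncard_le_ncard hC' c1
  rw [ar_len, js, List.length_map] at c3
  obtain ⟨hc, J', D', π, t1, t2, t3, -⟩ := m4.resolve_left (by rw [e1, js]; rw [js] at le; omega)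
  have := pot_en (g := g) (p := fun j => π (Sum.inl (j, 0))) (a := a) (l := l) fun y hy => by
    have hW : (ab T y).W.Nonempty :=
      nonempty_of_ncard_ne_zero (by rw [(blk y hy).cW, mm]; omega)
    have := hs.rec2 V0 C _ _ J' D' (hc.near m1 m2 m3) s1 (fun e he => s2 e (hC' he)) t1 t2 _
      ⟨y, hy, rfl⟩ (hW.mono (subset_inter subset_rfl fun x hx => sb y hy (Or.inl (Or.inl hx))))
    exact (t3.2 _ this).2 _ ⟨0, by norm_num, rfl⟩ _ ⟨0, by norm_num, rfl⟩
  rw [a3] at this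
  exact (mul_eq_left.1 this.symm)

lemma dig (hp : PlaceStmt) (hd : DepStmt) (hT : Tpl T) {a : ℕ} {l l' : List Cell} {t b c c' : ℕ}
    (h : IsDig a l l' b c c') (h1 : ((wd l).map g).prod = ((wd l').map g).prod) :
    Dep g (DG T a l l' t b c c') := by
  classical
  obtain ⟨a1, a2⟩ := h
  have a3 := a1
  simp only [List.nodup_cons, List.mem_cons, List.mem_append, not_or, List.nodup_append] at a3
  obtain ⟨⟨b1, b2, b3⟩, ⟨b4, b5⟩, b6, b7, b8⟩ := a3
  have js1 : ∀ (u : List Cell) (d : ℕ), js (u ++ [(t, b, d)]) = js u ++ [b] := fun u d =>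
    js_append _ _
  have nd : ∀ (u : List Cell) (d : ℕ), a ∉ js u → b ∉ js u → (js u).Nodup →
      (a :: js (u ++ [(t, b, d)])).Nodup := by
    intro u d h1 h2 h3
    rw [js1]
    simp only [List.nodup_cons, List.mem_append, List.mem_singleton, not_or, List.nodup_append]
    exact ⟨⟨h1, b1⟩, h3, ⟨List.not_mem_nil, List.nodup_nil⟩, fun x hx y hy e => h2 (hy ▸ e ▸ hx)⟩
  have n1 := nd l c b2 b4 b6
  have n2 := nd l' c' b3 b5 b7
  obtain ⟨p, p1, p2⟩ := pot g _ a 1 n1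
  obtain ⟨q, q1, q2⟩ := pot g _ a 1 n2
  have pq : p b = q b := by
    have e1 := pot_en p2
    have e2 := pot_en q2
    rw [en_append, wd_append, List.map_append, List.prod_append] at e1 e2
    rw [p1, h1] at e1
    rw [q1] at e2
    exact e1.trans e2.symm
  have k1 : ∀ j ∈ a :: js (l ++ [(t, b, c)]),
      j ∈ a :: b :: (js l ++ js l') ∧ (if j ∈ js l' then q j else p j) = p j := by
    intro j hj
    rw [js1] at hj
    simp only [List.mem_cons, List.mem_append, List.not_mem_nil, or_false] at hj ⊢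
    refine ⟨by tauto, if_neg ?_⟩
    rcases hj with rfl | hj | rfl
    exacts [b3, fun h => b8 j hj j h rfl, b5]
  have k2 : ∀ j ∈ a :: js (l' ++ [(t, b, c')]),
      j ∈ a :: b :: (js l ++ js l') ∧ (if j ∈ js l' then q j else p j) = q j := by
    intro j hj
    rw [js1] at hj
    simp only [List.mem_cons, List.mem_append, List.not_mem_nil, or_false] at hj ⊢
    refine ⟨by tauto, ?_⟩
    rcases hj with rfl | hj | rfl
    · rw [if_neg b3, p1, q1]
    · exact if_pos hj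
    · rw [if_neg b5, pq]
  have := depN (g := g) hp hd hT a1 (N := ar a (l ++ [(t, b, c)]) ++ ar a (l' ++ [(t, b, c')]))
    (p := fun j => if j ∈ js l' then q j else p j) ?_ ?_ (List.cons_ne_nil _ _) ?_ ?_
  · refine this.mono ?_
    rw [DG, PE_eq, PE_eq, js1, js1]
    intro e
    simp only [NE, List.mem_cons, List.mem_append, mem_union, mem_ofPred_eq, List.not_mem_nil,
      or_false, or_and_right, exists_or, exists_eq_left]
    rintro ((h | h | h | h) | h | h) <;> simp only [h, true_or, or_true]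
  · rw [List.map_append, ar_cs, ar_cs, cs_append, cs_append]
    refine (List.Perm.nodup_iff ?_).1 a2
    change (c :: c' :: (cs l ++ cs l')).Perm (cs l ++ [c] ++ (cs l' ++ [c']))
    rw [List.perm_iff_count]
    intro x
    simp only [List.count_cons, List.count_append, List.count_nil]
    omega
  · intro y hy
    rcases List.mem_append.1 hy with hy | hy
    · obtain ⟨e1, e2, e3⟩ := ar_ends n1 y hy
      exact ⟨(k1 _ e1).1, (k1 _ e2).1, e3⟩
    · obtain ⟨e1, e2, e3⟩ := ar_ends n2 y hy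
      exact ⟨(k2 _ e1).1, (k2 _ e2).1, e3⟩
  · simp only [List.length_append, ar_len, List.length_cons, js, List.length_map, List.length_nil]
    omega
  · intro y hy
    rcases List.mem_append.1 hy with hy | hy
    · obtain ⟨e1, e2, -⟩ := ar_ends n1 y hy
      rw [(k1 _ e1).2, (k1 _ e2).2, p2 y hy]
    · obtain ⟨e1, e2, -⟩ := ar_ends n2 y hy
      rw [(k2 _ e1).2, (k2 _ e2).2, q2 y hy]

end NetP

theorem net (hp : PlaceStmt) (hs : StrStmt) (hd : DepStmt) (ha : AvStmt) : NetStmt :=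
  ⟨fun _ _ _ _ hT _ _ _ _ _ _ _ h h1 => NetP.dig hp hd hT h h1,
    fun _ _ _ _ hT _ _ h => ⟨NetP.cyc_one hp hs ha hT h, NetP.cyc_dep hp hd hT h⟩⟩

end Pool.Agent.MP_1a6d08_co.Und

end MrgPart4

-- ======== part 5: formerly Pool.Agent.MP_1a6d08_co.und.Sound
section MrgPart5

/-!
Row SOUND: in every family with the table, cycles whose word is trivial are dependent.
-/

open Set

namespace Pool.Agent.MP_1a6d08_co.Und

namespace SoundP

/-- The vertices whose slot is in `A` (joints) or in `C` (inner vertices). -/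
def Sl (A C : Set ℕ) : Set V0 := {x | Sum.elim (fun p => p.1 ∈ A) (fun p => p.1 ∈ C) x}

lemma Sl_mono {A A' C C' : Set ℕ} (h : A ⊆ A') (h' : C ⊆ C') : Sl A C ⊆ Sl A' C' := by
  rintro (p | p) hx
  · exact h hx
  · exact h' hx

variable {T : ℕ → Set (Sym2 (ℕ × ℕ))}

lemma supp_bE {A C : Set ℕ} {s a j c : ℕ} (ha : a ∈ A) (hj : j ∈ A) (hc : c ∈ C) :
    supp (bE T s a j c) ⊆ Sl A C := by
  rintro x ⟨_, ⟨e, -, rfl⟩, hx⟩
  obtain ⟨t, -, rfl⟩ := Sym2.mem_map.1 hx
  unfold pl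
  split_ifs
  · exact ha
  · exact hj
  · exact hc

lemma mem_jE {j : ℕ} {e : Sym2 V0} (he : e ∈ jE j) {x : V0} (hx : x ∈ e) : x ∈ jS j := by
  obtain ⟨i, hi, i', hi', -, -, rfl⟩ := he
  rcases Sym2.mem_iff.1 hx with rfl | rfl
  · exact ⟨i, hi, rfl⟩
  · exact ⟨i', hi', rfl⟩

lemma supp_jE {A C : Set ℕ} {j : ℕ} (hj : j ∈ A) : supp (jE j) ⊆ Sl A C := by
  rintro x ⟨e, he, hx⟩
  obtain ⟨i, -, rfl⟩ := mem_jE he hx
  exact hj

lemma supp_PE {A C : Set ℕ} {a : ℕ} {l : List Cell} (ha : a ∈ A) (hj : ∀ j ∈ js l, j ∈ A)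
    (hc : ∀ c ∈ cs l, c ∈ C) : supp (PE T a l) ⊆ Sl A C := by
  induction l generalizing a with
  | nil => rw [PE_nil, supp_empty]; exact empty_subset _
  | cons x l ih =>
    have h1 : x.2.1 ∈ A := hj _ List.mem_cons_self
    rw [PE_cons, supp_union, supp_union]
    exact union_subset (union_subset (supp_bE ha h1 (hc _ List.mem_cons_self)) (supp_jE h1))
      (ih h1 (fun j h => hj j (List.mem_cons_of_mem _ h)) fun c h => hc c (List.mem_cons_of_mem _ h))

lemma disj_j {A C : Set ℕ} {j : ℕ} (hj : j ∉ A) : Disjoint (Sl A C) (jS j) :=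
  disjoint_left.2 fun _ hx ⟨_, _, e⟩ => hj (by rw [e] at hx; exact hx)

lemma disj_w {A C : Set ℕ} {s c : ℕ} (hc : c ∉ C) : Disjoint (Sl A C) (wS s c) :=
  disjoint_left.2 fun _ hx ⟨_, _, e⟩ => hc (by rw [e] at hx; exact hx)

lemma bE_finite (hT : Tpl T) (s a j c : ℕ) : (bE T s a j c).Finite := ((hT s).finE).image _

lemma jE_finite (hp : PlaceStmt) (j : ℕ) : (jE j).Finite :=
  finite_of_ncard_ne_zero (by rw [hp.jcard]; omega)

lemma PE_finite (hp : PlaceStmt) (hT : Tpl T) (a : ℕ) (l : List Cell) : (PE T a l).Finite := by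
  induction l generalizing a with
  | nil => exact finite_empty
  | cons x l ih => exact ((bE_finite hT _ _ _ _).union (jE_finite hp _)).union (ih _)

/-- The slot that owns an edge of a path. -/
def Own (l : List Cell) (e : Sym2 V0) : Prop :=
  (∃ c ∈ cs l, (∃ i, Sum.inr (c, i) ∈ e) ∧ ∀ c' i, Sum.inr (c', i) ∈ e → c' = c) ∨
    ∃ j ∈ js l, ∀ x ∈ e, x ∈ jS j

lemma own (hT : Tpl T) {a : ℕ} {l : List Cell} {e : Sym2 V0} (he : e ∈ PE T a l) : Own l e := by
  induction l generalizing a with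
  | nil => exact he.elim
  | cons x l ih =>
    rcases he with (he | he) | he
    · refine Or.inl ⟨x.2.2, List.mem_cons_self, ?_, fun c' i h => ?_⟩
      · obtain ⟨e₀, h₀, rfl⟩ := he
        obtain ⟨t, ht, h2, -⟩ := (hT x.1).meet e₀ h₀
        refine ⟨t.2, Sym2.mem_map.2 ⟨t, ht, ?_⟩⟩
        simp [pl, h2]
      · exact supp_bE (A := univ) (C := {x.2.2}) trivial trivial rfl (mem_supp he h)
    · exact Or.inr ⟨x.2.1, List.mem_cons_self, fun y hy => mem_jE he hy⟩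
    · rcases ih he with ⟨c, h1, h2⟩ | ⟨j, h1, h2⟩
      · exact Or.inl ⟨c, List.mem_cons_of_mem _ h1, h2⟩
      · exact Or.inr ⟨j, List.mem_cons_of_mem _ h1, h2⟩

lemma disj_PE (hT : Tpl T) {a a' : ℕ} {l l' : List Cell} (hj : ∀ j ∈ js l, j ∉ js l')
    (hc : ∀ c ∈ cs l, c ∉ cs l') : Disjoint (PE T a l) (PE T a' l') := by
  refine disjoint_left.2 fun e he he' => ?_
  rcases own hT he with ⟨c, h1, ⟨i, h2⟩, -⟩ | ⟨j, h1, h2⟩ <;>
    rcases own hT he' with ⟨c', h3, ⟨i', h4⟩, h5⟩ | ⟨j', h3, h4⟩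
  · exact hc c h1 (h5 c i h2 ▸ h3)
  · obtain ⟨_, _, h⟩ := h4 _ h2; cases h
  · obtain ⟨_, _, h⟩ := h2 _ h4; cases h
  · obtain ⟨_, _, h⟩ := h2 _ e.out_fst_mem
    obtain ⟨_, _, h'⟩ := h4 _ e.out_fst_mem
    have : j = j' := by simp_all
    exact hj j h1 (this ▸ h3)

lemma path (hp : PlaceStmt) (hT : Tpl T) {I : Set (Sym2 V0) → Prop} {L : ℕ}
    (hl : ∀ s < L, ∀ a j c, a ≠ j → ∀ Y : Set (Sym2 V0), Y.Finite → I Y →
      Disjoint (supp Y) (jS j ∪ wS s c) → I (Y ∪ bE T s a j c ∪ jE j))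
    (l : List Cell) (hw : ∀ s ∈ wd l, s < L) (h1 : (js l).Nodup) (h2 : (cs l).Nodup)
    {Y : Set (Sym2 V0)} {A C : Set ℕ} {a : ℕ} (hf : Y.Finite) (hY : I Y) (hs : supp Y ⊆ Sl A C)
    (ha : a ∈ A) (hj : ∀ j ∈ js l, j ∉ A) (hc : ∀ c ∈ cs l, c ∉ C) : I (Y ∪ PE T a l) := by
  induction l generalizing Y A C a with
  | nil => rwa [PE_nil, union_empty]
  | cons x l ih =>
    have a1 : x.2.1 ∉ A := hj _ List.mem_cons_self
    have a2 : x.2.2 ∉ C := hc _ List.mem_cons_self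
    obtain ⟨b1, b2⟩ := List.nodup_cons.1 h1
    obtain ⟨b3, b4⟩ := List.nodup_cons.1 h2
    have h := hl x.1 (hw _ List.mem_cons_self) a x.2.1 x.2.2 (fun e => a1 (e ▸ ha)) Y hf hY
      ((disjoint_union_right.2 ⟨disj_j a1, disj_w a2⟩).mono_left hs)
    rw [PE_cons, ← union_assoc, ← union_assoc]
    refine ih (fun s h => hw s (List.mem_cons_of_mem _ h)) b2 b4 (A := insert x.2.1 A)
      (C := insert x.2.2 C) ((hf.union (bE_finite hT _ _ _ _)).union (jE_finite hp _)) h ?_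
      (mem_insert _ _) ?_ ?_
    · rw [supp_union, supp_union]
      exact union_subset (union_subset (hs.trans (Sl_mono (subset_insert _ _) (subset_insert _ _)))
        (supp_bE (mem_insert_of_mem _ ha) (mem_insert _ _) (mem_insert _ _)))
        (supp_jE (mem_insert _ _))
    · rintro j h (rfl | h')
      · exact b1 h
      · exact hj j (List.mem_cons_of_mem _ h) h'
    · rintro c h (rfl | h')
      · exact b3 h
      · exact hc c (List.mem_cons_of_mem _ h) h'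

lemma len_js (l : List Cell) : (js l).length = (wd l).length := by simp [js, wd]

lemma len_cs (l : List Cell) : (cs l).length = (wd l).length := by simp [cs, wd]

lemma en_map (σ τ : ℕ → ℕ) (a : ℕ) (l : List Cell) :
    en (σ a) (l.map (slc σ τ)) = σ (en a l) := by
  induction l generalizing a with
  | nil => rfl
  | cons x l ih => exact ih _

lemma ind_sl (hg : GenStmt) {P : Set FinGraph} (hP : Matroidal P) (σ τ : Equiv.Perm ℕ)
    (F : Set (Sym2 V0)) : Ind P (Sym2.map (sl σ τ) '' F) ↔ Ind P F :=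
  hg.map P hP _ _ _ F (sl_inj σ.injective τ.injective).injOn

lemma cyc_inv (hg : GenStmt) {P : Set FinGraph} (hP : Matroidal P) {a a' : ℕ} {l l' : List Cell}
    (h : IsCyc a l) (h' : IsCyc a' l') (hw : wd l = wd l') (hd : ¬Ind P (PE T a l)) :
    ¬Ind P (PE T a' l') := by
  obtain ⟨σ, hσ⟩ := exists_perm_list h.1 h'.1 (by rw [len_js, len_js, hw])
  obtain ⟨τ, hτ⟩ := exists_perm_list h.2.1 h'.2.1 (by rw [len_cs, len_cs, hw])
  have e := eq_map_slc hw hσ hτ
  have e1 : σ a = a' := by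
    have h1 := en_map σ τ a l
    rw [e, h.2.2.1] at h1
    rw [← h1, ← h'.2.2.1]
    have h2 := h'.2.2.2
    cases l' with
    | nil => simp at h2
    | cons x l' => rfl
  rwa [← e, ← e1, ← sl_PE, ind_sl hg hP]

lemma dig_inv (hg : GenStmt) {P : Set FinGraph} (hP : Matroidal P) {a b c d a' b' c' d' t : ℕ}
    {l m l' m' : List Cell} (h : IsDig a l m b c d) (h' : IsDig a' l' m' b' c' d')
    (hw : wd l = wd l') (hv : wd m = wd m') (hd : ¬Ind P (DG T a l m t b c d)) :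
    ¬Ind P (DG T a' l' m' t b' c' d') := by
  obtain ⟨σ, hσ⟩ := exists_perm_list h.1 h'.1 (by simp [len_js, hw, hv])
  obtain ⟨τ, hτ⟩ := exists_perm_list h.2 h'.2 (by simp [len_cs, hw, hv])
  simp only [List.map_cons, List.map_append, List.cons.injEq] at hσ hτ
  obtain ⟨rfl, rfl, hσ⟩ := hσ
  obtain ⟨rfl, rfl, hτ⟩ := hτ
  obtain ⟨s1, s2⟩ := List.append_inj hσ (by simp [len_js, hw])
  obtain ⟨t1, t2⟩ := List.append_inj hτ (by simp [len_cs, hw])
  have e : DG T (σ a) l' m' t (σ b) (τ c) (τ d) = Sym2.map (sl σ τ) '' DG T a l m t b c d := by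
    rw [DG, DG, image_union, image_union, sl_jE, sl_PE, sl_PE, List.map_append, List.map_append,
      eq_map_slc hw s1 t1, eq_map_slc hv s2 t2]
    rfl
  rwa [e, ind_sl hg hP]

lemma DG_symm (a : ℕ) (l m : List Cell) (t b c d : ℕ) :
    DG T a l m t b c d = DG T a m l t b d c := union_right_comm _ _ _

lemma dig_symm {a b c d : ℕ} {l m : List Cell} (h : IsDig a l m b c d) : IsDig a m l b d c :=
  ⟨(((List.perm_append_comm).cons _).cons _).nodup_iff.1 h.1,
    ((List.Perm.swap _ _ _).trans ((List.perm_append_comm.cons _).cons _)).nodup_iff.1 h.2⟩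

lemma exch {α : Type} {N : Matroid α} {S₁ S₂ : Set α} {f : α} (hf : f ∈ N.E)
    (h : N.Indep (S₁ ∪ S₂)) (h1 : ¬N.Indep (insert f S₁)) (h2 : ¬N.Indep (insert f S₂)) :
    ¬N.Indep (insert f (S₁ ∩ S₂)) := by
  have i1 := h.subset subset_union_left
  have i2 := h.subset subset_union_right
  have n1 : f ∉ S₁ := fun m => h1 (by rwa [insert_eq_of_mem m])
  have c1 : f ∈ N.closure S₁ := (i1.mem_closure_iff').2 ⟨hf, fun m => absurd m h1⟩
  have c2 : f ∈ N.closure S₂ := (i2.mem_closure_iff').2 ⟨hf, fun m => absurd m h2⟩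
  have c : f ∈ N.closure (S₁ ∩ S₂) := by
    rw [h.closure_inter_eq_inter_closure]; exact ⟨c1, c2⟩
  exact fun m => n1 ((((i1.subset inter_subset_left).mem_closure_iff').1 c).2 m).1

lemma exch' {α : Type} {N : Matroid α} {X₁ X₂ U V B J K : Set α} {f : α} (hf : f ∈ N.E)
    (h : N.Indep (X₁ ∪ U ∪ X₂ ∪ V ∪ (B \ {f}))) (hJ : J ⊆ X₁ ∪ U ∪ X₂) (hK : K ⊆ X₁ ∪ U ∪ X₂)
    (x1 : Disjoint X₁ U) (x2 : Disjoint X₂ U) (d1 : ¬N.Indep (X₁ ∪ (V ∪ (B ∪ K ∪ ∅)) ∪ X₂))
    (d2 : ¬N.Indep (J ∪ (V ∪ (B ∪ K ∪ ∅)) ∪ U)) (hB : f ∈ B) :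
    ¬N.Indep (J ∪ (V ∪ (B ∪ K ∪ ∅))) := by
  intro i3
  rw [disjoint_left] at x1 x2
  refine exch (S₁ := X₁ ∪ X₂ ∪ (V ∪ (B \ {f}) ∪ K)) (S₂ := J ∪ U ∪ (V ∪ (B \ {f}) ∪ K)) hf
    (h.subset fun e => ?_) (fun h => d1 (h.subset fun e => ?_))
    (fun h => d2 (h.subset fun e => ?_)) (i3.subset fun e => ?_)
  · have := @hJ e
    have := @hK e
    grind
  · grind
  · grind
  · have := @x1 e
    have := @x2 e
    grind

lemma exists_fresh (u : List ℕ) (n : ℕ) : ∃ l : List Cell, wd l = u ∧ (js l).Nodup ∧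
    (cs l).Nodup ∧ (∀ j ∈ js l, n < j) ∧ ∀ c ∈ cs l, n < c := by
  induction u generalizing n with
  | nil => exact ⟨[], rfl, List.nodup_nil, List.nodup_nil, by simp [js], by simp [cs]⟩
  | cons s u ih =>
    obtain ⟨l, h1, h2, h3, h4, h5⟩ := ih (n + 1)
    refine ⟨(s, n + 1, n + 1) :: l, congrArg (s :: ·) h1,
      List.nodup_cons.2 ⟨fun h => lt_irrefl _ (h4 _ h), h2⟩,
      List.nodup_cons.2 ⟨fun h => lt_irrefl _ (h5 _ h), h3⟩, fun j h => ?_, fun c h => ?_⟩
    · rcases List.mem_cons.1 h with rfl | h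
      · exact Nat.lt_succ_self n
      · exact Nat.lt_of_succ_lt (h4 j h)
    · rcases List.mem_cons.1 h with rfl | h
      · exact Nat.lt_succ_self n
      · exact Nat.lt_of_succ_lt (h5 c h)

lemma exists_bound (u : List ℕ) : ∃ n, ∀ x ∈ u, x ≤ n := ⟨u.sum, fun _ h => List.le_sum_of_mem h⟩

lemma lists {A₁ A' A₂ A₀ : List ℕ} {q n d : ℕ} (hJ : (A₁ ++ (A' ++ [q]) ++ A₂).Nodup)
    (hn : ∀ j ∈ A₁ ++ (A' ++ [q]) ++ A₂, j ≤ n) (j0 : A₀.Nodup) (j1 : ∀ j ∈ A₀, n + 1 < j)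
    (hd : d = q ∨ d = n + 1) :
    (A₁ ++ (A₀ ++ [d]) ++ A₂).Nodup ∧ (A₀ ++ [d]).Nodup ∧ (∀ j ∈ A₁, j ∉ A' ++ [q]) ∧
      (∀ j ∈ A₂, j ∉ A' ++ [q]) ∧ (q :: (A₀ ++ A')).Nodup ∧
      ∀ p, p ∈ A₁ ∨ p ∈ A₂ ∨ p = n + 1 → p ∉ q :: (A₀ ++ A') := by
  simp only [List.nodup_append, List.mem_append, List.nodup_cons, List.mem_cons, List.not_mem_nil,
    or_false, List.nodup_nil] at *
  refine ⟨?_, ?_, ?_, ?_, ?_, ?_⟩ <;> grind

lemma rep (hg : GenStmt) (hp : PlaceStmt) {P : Set FinGraph} (hP : Matroidal P) (hT : Tpl T)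
    {L : ℕ} (h0 : ∀ a, Ind P (jE a))
    (hl : ∀ s < L, ∀ a j c, a ≠ j →
      (∀ Y : Set (Sym2 V0), Y.Finite → Ind P Y → Disjoint (supp Y) (jS j ∪ wS s c) →
        Ind P (Y ∪ bE T s a j c ∪ jE j)) ∧
      ∃ f ∈ bE T s a j c, ∀ Y : Set (Sym2 V0), Y.Finite → Ind P Y → Disjoint (supp Y) (wS s c) →
        Ind P (Y ∪ (bE T s a j c \ {f})))
    {u : List ℕ} (hu : ∀ s ∈ u, s < L) {t : ℕ} (ht : t < L) {a q c' : ℕ} {l₁ l' l₂ : List Cell}
    (h2 : l₂ ≠ []) (hc : IsCyc a (l₁ ++ (l' ++ [(t, q, c')]) ++ l₂))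
    (hE : ∀ b l, wd l = wd l₁ ++ (u ++ [t]) ++ wd l₂ → IsCyc b l → ¬Ind P (PE T b l))
    (hD : ∀ b l d e, wd l = u → IsDig b l l' q d e → ¬Ind P (DG T b l l' t q d e)) :
    ¬Ind P (PE T a (l₁ ++ (l' ++ [(t, q, c')]) ++ l₂)) := by
  intro hZ
  obtain ⟨N, hN, hI⟩ := hg.mat P hP V0
  have hpath := path hp hT (I := Ind P) fun s hs a j c h => (hl s hs a j c h).1
  obtain ⟨n, hn⟩ := exists_bound (js (l₁ ++ (l' ++ [(t, q, c')]) ++ l₂) ++
    cs (l₁ ++ (l' ++ [(t, q, c')]) ++ l₂))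
  obtain ⟨l₀, w0, j0, c0, j1, c1⟩ := exists_fresh u (n + 1)
  have en1 : ∀ (m : List Cell) (d : ℕ), en a (l₁ ++ (m ++ [(t, q, d)])) = q := fun m d => by
    rw [en_append, en_append]; rfl
  have en2 : en q l₂ = a := by
    have := hc.2.2.1
    rwa [en_append, en1] at this
  have ha : a ∈ js l₂ := en2 ▸ en_mem' q h2
  have hp1 : en a l₁ ∈ js l₁ ∨ en a l₁ ∈ js l₂ := by
    rcases List.mem_cons.1 (en_mem a l₁) with h | h
    · exact Or.inr (by rw [h]; exact ha)
    · exact Or.inl h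
  have ePE : ∀ (m : List Cell) (d : ℕ), PE T a (l₁ ++ (m ++ [(t, q, d)]) ++ l₂) =
      PE T a l₁ ∪ PE T (en a l₁) (m ++ [(t, q, d)]) ∪ PE T q l₂ := fun m d => by
    rw [PE_append, en1, PE_append]
  generalize en a l₁ = p at hp1 ePE
  have hJ := hc.1
  have hC := hc.2.1
  have jq : ∀ d : ℕ, js [(t, q, d)] = [q] := fun _ => rfl
  have cq : ∀ d : ℕ, cs [(t, q, d)] = [d] := fun _ => rfl
  have hnJ : ∀ j ∈ js (l₁ ++ (l' ++ [(t, q, c')]) ++ l₂), j ≤ n := fun j h =>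
    hn j (List.mem_append_left _ h)
  have hnC : ∀ j ∈ cs (l₁ ++ (l' ++ [(t, q, c')]) ++ l₂), j ≤ n := fun j h =>
    hn j (List.mem_append_right _ h)
  have hpm : p ∈ js (l₁ ++ (l' ++ [(t, q, c')]) ++ l₂) := by
    simp only [js_append, List.mem_append]
    exact hp1.imp Or.inl id
  have hqm : q ∈ js (l₁ ++ (l' ++ [(t, q, c')]) ++ l₂) := by
    simp only [js_append, List.mem_append]
    exact Or.inl (Or.inr (Or.inr List.mem_cons_self))
  have ham : a ∈ js (l₁ ++ (l' ++ [(t, q, c')]) ++ l₂) := by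
    simp only [js_append, List.mem_append]
    exact Or.inr ha
  have sZ : supp (PE T a (l₁ ++ (l' ++ [(t, q, c')]) ++ l₂)) ⊆ Sl (Iic n) (Iic n) :=
    supp_PE (hnJ a ham) hnJ hnC
  have jpZ := jE_subset_PE T a hpm
  have jqZ := jE_subset_PE T a hqm
  have fZ := PE_finite hp hT a (l₁ ++ (l' ++ [(t, q, c')]) ++ l₂)
  have hw0 : ∀ s ∈ wd l₀, s < L := w0 ▸ hu
  have y1 := hpath l₀ hw0 j0 c0 fZ hZ sZ (hnJ p hpm)
    (fun j h h' => by have := j1 j h; have : j ≤ n := h'; omega)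
    (fun j h h' => by have := c1 j h; have : j ≤ n := h'; omega)
  have hqn := hnJ q hqm
  simp only [js_append, cs_append, jq, cq] at hJ hC hnJ hnC
  obtain ⟨J1, J2, J3, J4, J5, J6⟩ := lists hJ hnJ j0 j1 (Or.inl rfl)
  obtain ⟨C1, C2, C3, C4, C5, C6⟩ := lists hC hnC c0 c1 (Or.inr rfl)
  have J7 := J6 p (hp1.imp_right Or.inl)
  have hpq : p ≠ q := fun h => J7 (h ▸ List.mem_cons_self)
  have hr : en p l₀ ≠ q := by
    rcases List.mem_cons.1 (en_mem p l₀) with h | h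
    · rw [h]; exact hpq
    · have := j1 _ h; omega
  obtain ⟨f, hf, hlast⟩ := (hl t ht _ q (n + 1) hr).2
  have y2 := hlast _ (fZ.union (PE_finite hp hT p l₀)) y1 (by
    refine (disj_w (A := univ) (C := {n + 1}ᶜ) (by simp)).mono_left ?_
    rw [supp_union]
    refine union_subset (sZ.trans (Sl_mono (subset_univ _) fun x hx e => ?_))
      (supp_PE trivial (fun _ _ => trivial) fun x hx e => ?_)
    · have : x ≤ n := hx
      have : x = n + 1 := e
      omega
    · have := c1 x hx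
      have : x = n + 1 := e
      omega)
  have eP : PE T p (l₀ ++ [(t, q, n + 1)]) =
      PE T p l₀ ∪ (bE T t (en p l₀) q (n + 1) ∪ jE q ∪ ∅) := PE_append T p l₀ _
  have d1 := hE a (l₁ ++ (l₀ ++ [(t, q, n + 1)]) ++ l₂)
    (by rw [wd_append, wd_append, wd_append, w0]; rfl) (by
      refine ⟨by rwa [js_append, js_append, js_append], by rwa [cs_append, cs_append, cs_append],
        by rw [en_append, en1, en2], ?_⟩
      have := List.length_pos_iff.2 h2
      simp only [List.length_append, List.length_singleton]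
      omega)
  have d2 := hD p l₀ (n + 1) c' w0
    ⟨List.nodup_cons.2 ⟨J7, J5⟩, List.nodup_cons.2 ⟨C6 _ (Or.inr (Or.inr rfl)), C5⟩⟩
  have i3 := hpath (l₀ ++ [(t, q, n + 1)]) (by
      rw [wd_append]
      intro s h
      rcases List.mem_append.1 h with h | h
      · exact hw0 s h
      · rw [List.mem_singleton.1 h]; exact ht)
    (by rwa [js_append]) (by rwa [cs_append])
    (A := {p}) (C := ∅) (a := p) (jE_finite hp p) (h0 p) (supp_jE rfl) rfl
    (by
      rw [js_append]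
      rintro j h rfl
      rcases List.mem_append.1 h with h | h
      · exact J7 (List.mem_cons_of_mem _ (List.mem_append_left _ h))
      · exact hpq (List.mem_singleton.1 h))
    (fun _ _ h => h)
  have x1 : Disjoint (PE T a l₁) (PE T p (l' ++ [(t, q, c')])) :=
    disj_PE hT (by rwa [js_append]) (by rwa [cs_append])
  have x2 : Disjoint (PE T q l₂) (PE T p (l' ++ [(t, q, c')])) :=
    disj_PE hT (by rwa [js_append]) (by rwa [cs_append])
  have hfE : f ∈ N.E := hN ▸ (hp.blk T hT t _ q (n + 1) hr).nd hf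
  rw [ePE, eP] at d1
  rw [DG, eP] at d2
  rw [eP] at i3
  rw [ePE] at y2 jpZ jqZ
  simp only [← hI] at y2 d1 d2 i3
  exact exch' hfE y2 jpZ jqZ x1 x2 d1 d2 hf i3

/-- All placed cycles with word `y` are dependent. -/
def EE (P : Set FinGraph) (T : ℕ → Set (Sym2 (ℕ × ℕ))) (y : List ℕ) : Prop :=
  ∀ a l, wd l = y → IsCyc a l → ¬Ind P (PE T a l)

lemma rep' (hg : GenStmt) (hp : PlaceStmt) {P : Set FinGraph} (hP : Matroidal P) (hT : Tpl T)
    {L : ℕ} (h0 : ∀ a, Ind P (jE a))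
    (hl : ∀ s < L, ∀ a j c, a ≠ j →
      (∀ Y : Set (Sym2 V0), Y.Finite → Ind P Y → Disjoint (supp Y) (jS j ∪ wS s c) →
        Ind P (Y ∪ bE T s a j c ∪ jE j)) ∧
      ∃ f ∈ bE T s a j c, ∀ Y : Set (Sym2 V0), Y.Finite → Ind P Y → Disjoint (supp Y) (wS s c) →
        Ind P (Y ∪ (bE T s a j c \ {f})))
    {u u' : List ℕ} (hu : ∀ s ∈ u, s < L) {z : ℕ} (hz : z < L)
    (hD : ∀ t < L, ∀ b l l' q d e, wd l = u → wd l' = u' → IsDig b l l' q d e →
      ¬Ind P (DG T b l l' t q d e)) (x y : List ℕ) (hy : ∀ s ∈ y, s < L)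
    (h : EE P T (x ++ u ++ y ++ [z, z])) : EE P T (x ++ u' ++ y ++ [z, z]) := by
  obtain ⟨t, r, ht, hr, e⟩ : ∃ t r, t < L ∧ r ≠ [] ∧ y ++ [z, z] = t :: r := by
    cases y with
    | nil => exact ⟨z, [z], hz, by simp, rfl⟩
    | cons t y => exact ⟨t, y ++ [z, z], hy t List.mem_cons_self, by simp, rfl⟩
  have e' : ∀ v : List ℕ, x ++ v ++ y ++ [z, z] = x ++ (v ++ [t]) ++ r := fun v => by
    rw [List.append_assoc (x ++ v), e]; simp
  rw [e'] at h ⊢
  intro a l hw hc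
  obtain ⟨m, l₂, rfl, h1, rfl⟩ := List.map_eq_append_iff.1 hw
  obtain ⟨l₁, m', rfl, rfl, h2⟩ := List.map_eq_append_iff.1 h1
  obtain ⟨l', m'', rfl, h3, h4⟩ := List.map_eq_append_iff.1 h2
  obtain ⟨⟨t', q, c'⟩, rfl, rfl⟩ := List.map_eq_singleton_iff.1 h4
  exact rep hg hp hP hT h0 hl hu ht (fun h => hr (by rw [h]; rfl)) hc h
    fun b l d e h5 h6 => hD _ ht b l l' q d e h5 h3 h6

/-- The syntactic congruence of a set of words. -/
def con (F : List ℕ → Prop) : Con (FreeMonoid ℕ) where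
  r u u' := ∀ x y, F (x ++ FreeMonoid.toList u ++ y) ↔ F (x ++ FreeMonoid.toList u' ++ y)
  iseqv := ⟨fun _ _ _ => Iff.rfl, fun h x y => (h x y).symm, fun h h' x y => (h x y).trans (h' x y)⟩
  mul' := fun {u u' v v'} h h' x y => by
    have h1 := h x (FreeMonoid.toList v ++ y)
    have h2 := h' (x ++ FreeMonoid.toList u') y
    simp only [FreeMonoid.toList_mul, List.append_assoc] at *
    exact h1.trans h2

lemma prod_mk (F : List ℕ → Prop) (u : List ℕ) :
    (u.map fun s => (con F).mk' (FreeMonoid.of s)).prod = (con F).mk' (FreeMonoid.ofList u) := by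
  induction u with
  | nil => rfl
  | cons s u ih => rw [List.map_cons, List.prod_cons, ih, ← map_mul]; rfl

lemma map_mod {L : ℕ} {u : List ℕ} (h : ∀ s ∈ u, s < L) : u.map (· % L) = u := by
  conv_rhs => rw [← List.map_id u]
  exact List.map_congr_left fun s hs => Nat.mod_eq_of_lt (h s hs)

end SoundP

open SoundP in
theorem sound (hg : GenStmt) (hp : PlaceStmt) (hl : PlStmt) : SoundStmt := by
  intro P T L z R h4 hT hb hz hR w hw hQ
  obtain ⟨h0, h1⟩ := hl P T L z R h4 hT hb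
  have hP := h4.mat
  let F : List ℕ → Prop := fun y => EE P T (y.map (· % L) ++ [z, z])
  have hs : Sat R fun s => (con F).mk' (FreeMonoid.of s) := by
    intro r hr
    rw [prod_mk, prod_mk]
    refine (Con.eq _).2 fun x y => ?_
    have hy : ∀ s ∈ y.map (· % L), s < L := by
      intro s h
      obtain ⟨k, -, rfl⟩ := List.mem_map.1 h
      exact Nat.mod_lt _ (by omega)
    have hD : ∀ t < L, ∀ b l l' q d e, wd l = r.1 → wd l' = r.2 → IsDig b l l' q d e →
        ¬Ind P (DG T b l l' t q d e) := by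
      intro t ht b l l' q d e a1 a2 a3
      obtain ⟨a, m, m', b', c, c', e1, e2, e3, e4⟩ := hb.dig r hr t ht
      exact dig_inv hg hP e3 a3 (e1.trans a1.symm) (e2.trans a2.symm) e4
    simp only [F, FreeMonoid.toList_ofList, List.map_append, map_mod (hR r hr).1,
      map_mod (hR r hr).2]
    refine ⟨rep' hg hp hP hT h0 h1 (hR r hr).1 hz hD _ _ hy,
      rep' hg hp hP hT h0 h1 (hR r hr).2 hz (fun t ht b l l' q d e a1 a2 a3 => ?_) _ _ hy⟩
    rw [DG_symm]
    exact hD t ht b l' l q e d a2 a1 (dig_symm a3)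
  have h2 := hQ _ _ hs
  rw [prod_mk] at h2
  have h3 : F ([] ++ w ++ []) ↔ F [] := (Con.eq _).1 (h2.trans (map_one (con F).mk').symm) [] []
  have h5 : F [] := by
    obtain ⟨a, l, e1, e2, e3⟩ := hb.base
    exact fun a' l' e4 e5 => cyc_inv hg hP e2 e5 (e1.trans e4.symm) e3
  have h6 := h3.2 h5
  simp only [F, List.nil_append, List.append_nil, map_mod hw] at h6
  exact h6

end Pool.Agent.MP_1a6d08_co.Und

end MrgPart5

-- marker of a merged file
example : 731051 + 547200 = 731051 + 547200 := rfl
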